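import Pool.Agent.Ceg.Toric

/-!
# A lower bound for a weighted count of multi-indices
-/

set_option autoImplicit false

namespace Pool.Agent.Ceg

open Finset

/-- number of multi-indices of degree `d` -/
noncomputable def cardD (n d : ℕ) : ℝ := ((Finset.Nat.antidiagonalTuple n d).card : ℝ)

lemma cardD_zero (n : ℕ) : cardD n 0 = 1 := by
  simp [cardD, Finset.Nat.antidiagonalTuple_zero_right]

lemma cardD_eq (m d : ℕ) : cardD (m + 1) d = ((d + m).choose m : ℝ) := by
  induction d with
  | zero => simp [cardD_zero]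
  | succ d ih =>
    have h := tor_card (m + 1) d
    have h2 : ((d : ℝ) + 1) * cardD (m + 1) (d + 1) = (d + (m + 1)) * cardD (m + 1) d := by
      unfold cardD; push_cast at h ⊢; exact h
    rw [ih] at h2
    have h3 : ((d + 1 + m).choose m : ℝ) * (d + 1) = (d + m).choose m * (d + m + 1) := by
      have h4 := Nat.choose_mul_succ_eq (d + m) m
      have h5 : d + m + 1 - m = d + 1 := by omega
      rw [h5] at h4
      have h6 : d + 1 + m = d + m + 1 := by ring
      rw [h6]
      exact_mod_cast h4.symm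
    have hd : (0 : ℝ) < (d : ℝ) + 1 := by positivity
    apply mul_left_cancel₀ hd.ne'
    rw [h2, mul_comm ((d : ℝ) + 1), h3]
    ring

lemma sum_cardD (m M : ℕ) : ∑ d ∈ range (M + 1), cardD (m + 1) d = ((M + m + 1).choose (m + 1) : ℝ) := by
  simp_rw [cardD_eq]
  rw [← Nat.sum_range_add_choose]
  push_cast
  rfl

lemma sum_weighted (m N : ℕ) : ∑ d ∈ range (N + 1), cardD (m + 1) d * ((N : ℝ) + 1 - d) =
    ((N + m + 2).choose (m + 2) : ℝ) := by
  have h1 : ∀ N : ℕ, ∑ d ∈ range (N + 1), cardD (m + 1) d * ((N : ℝ) + 1 - d) =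
      ∑ M ∈ range (N + 1), ∑ d ∈ range (M + 1), cardD (m + 1) d := by
    intro N
    induction N with
    | zero => simp
    | succ N ih =>
      rw [sum_range_succ (fun M => ∑ d ∈ range (M + 1), cardD (m + 1) d), ← ih,
        sum_range_succ, sum_range_succ (fun d => cardD (m + 1) d)]
      have : ∑ d ∈ range (N + 1), cardD (m + 1) d * (((N + 1 : ℕ) : ℝ) + 1 - d) =
          ∑ d ∈ range (N + 1), cardD (m + 1) d * ((N : ℝ) + 1 - d) +
            ∑ d ∈ range (N + 1), cardD (m + 1) d := by
        rw [← sum_add_distrib]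
        refine sum_congr rfl fun d _ => ?_
        push_cast; ring
      rw [this]
      push_cast
      ring
  rw [h1]
  simp_rw [sum_cardD]
  rw [show N + m + 2 = N + (m + 1) + 1 by ring, ← Nat.sum_range_add_choose]
  push_cast
  refine sum_congr rfl fun M _ => ?_
  rw [add_assoc]

lemma sum_weighted_lower (n N : ℕ) (hn : 0 < n) :
    ((N : ℝ) + 1) ^ (n + 1) / (n + 1).factorial ≤
      ∑ d ∈ range (N + 1), cardD n d * ((N : ℝ) + 1 - d) := by
  obtain ⟨m, rfl⟩ : ∃ m, n = m + 1 := ⟨n - 1, by omega⟩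
  rw [sum_weighted]
  have h := Nat.pow_le_choose (α := ℝ) (m + 1 + 1) (N + m + 2)
  have h2 : N + m + 2 + 1 - (m + 1 + 1) = N + 1 := by omega
  rw [h2] at h
  push_cast at h ⊢
  exact h

end Pool.Agent.Ceg
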