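import Pool.Agent.Ceg.Mixed

/-!
# Comparison of weighted Monge-Ampere masses of two smooth plurisubharmonic functions
(module COMPARE)
-/

set_option autoImplicit false

namespace Pool.Agent.Ceg

open MeasureTheory Matrix Filter Topology
open scoped ContDiff ENNReal Real ComplexOrder

section CompareAux

variable {n : ℕ}

/-- `t ↦ ∫₀ᵗ b` with `b` a smooth transition from `0` at `0` to `1` at `κ`. -/
lemma prim_b1_zero {κ : ℝ} (hκ : 0 < κ) {t : ℝ} (ht : t ≤ 0) : prim (b1 0 κ) t = 0 := by
  have h := prim_const_on (b1_contDiff 0 κ).continuous ht (c := 0)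
    fun x _ hx => b1_zero hκ (by simpa using hx)
  rw [prim_zero] at h
  linarith

lemma prim_b1_right {κ : ℝ} (hκ : 0 < κ) {t : ℝ} (ht : κ ≤ t) :
    prim (b1 0 κ) t = t + (prim (b1 0 κ) κ - κ) := by
  have h := prim_const_on (b1_contDiff 0 κ).continuous ht (c := 1)
    fun x hx _ => b1_one hκ (by simpa using hx)
  linarith

lemma prim_b1_sub_anti (κ : ℝ) {s t : ℝ} (hst : s ≤ t) :
    prim (b1 0 κ) t - t ≤ prim (b1 0 κ) s - s := by
  have hc := (b1_contDiff 0 κ).continuous
  have h1 := prim_sub hc s t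
  have h2 : ∫ x in s..t, b1 0 κ x ≤ ∫ x in s..t, (1 : ℝ) :=
    intervalIntegral.integral_mono_on hst (hc.intervalIntegrable _ _)
      intervalIntegrable_const fun x _ => b1_le_one 0 κ x
  simp at h2
  linarith

/-- the constant `χ(t) - t` for `t ≥ κ` is nonpositive -/
lemma prim_b1_const_nonpos {κ : ℝ} (hκ : 0 < κ) : prim (b1 0 κ) κ - κ ≤ 0 := by
  have h := prim_b1_sub_anti κ hκ.le
  rw [prim_zero] at h
  linarith

lemma prim_b1_ge {κ : ℝ} (hκ : 0 < κ) (t : ℝ) :
    t + (prim (b1 0 κ) κ - κ) ≤ prim (b1 0 κ) t := by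
  rcases le_total t κ with h | h
  · have := prim_b1_sub_anti κ h
    linarith
  · rw [prim_b1_right hκ h]

end CompareAux

theorem compare_smooth {n : ℕ} (U C L : Set (Fin n → ℂ)) (P Q g : (Fin n → ℂ) → ℝ) (κ : ℝ)
    (hκ : 0 < κ) (hU : IsOpen U) (hC : IsCompact C) (hCU : C ⊆ U) (hP : SmoothPSHOn P U)
    (hQ : SmoothPSHOn Q U) (hg : SmoothPSHOn (fun z => -g z) U) (hg0 : ∀ z ∈ U, 0 ≤ g z)
    (hout : ∀ z ∈ U, z ∉ C → κ ≤ P z - Q z) (hLm : MeasurableSet L)
    (hL : ∀ z ∈ L, z ∈ C ∧ κ ≤ Q z - P z) :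
    ∫ z in L, g z * (levi Q z).det.re ≤ ∫ z in C, g z * (levi P z).det.re := by
  classical
  have hPs := hP.1
  have hQs := hQ.1
  have hv : ContDiffOn ℝ ∞ (fun z => P z - Q z) U := hPs.sub hQs
  set c : ℝ := prim (b1 0 κ) κ - κ with hc
  have hc0 : c ≤ 0 := prim_b1_const_nonpos hκ
  have hχd := fun t => prim_hasDerivAt (b1_contDiff 0 κ).continuous t
  have hχs : ContDiff ℝ ∞ (prim (b1 0 κ)) := prim_contDiff (b1_contDiff 0 κ)
  set f : (Fin n → ℂ) → ℝ := fun z =>
    if z ∈ U then prim (b1 0 κ) (P z - Q z) - (P z - Q z) - c else 0 with hf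
  have hfU : ∀ z ∈ U, f z = prim (b1 0 κ) (P z - Q z) - (P z - Q z) - c := fun z hz => by
    simp only [hf, if_pos hz]
  have hfU' : ∀ z ∈ U, f =ᶠ[𝓝 z] fun y => prim (b1 0 κ) (P y - Q y) - (P y - Q y) - c :=
    fun z hz => by
      filter_upwards [hU.mem_nhds hz] with y hy
      exact hfU y hy
  have hfC : ∀ z ∉ C, f z = 0 := by
    intro z hz
    by_cases hzU : z ∈ U
    · rw [hfU z hzU, prim_b1_right hκ (hout z hzU hz)]
      ring
    · simp only [hf, if_neg hzU]
  have hfts : tsupport f ⊆ C := by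
    apply closure_minimal _ hC.isClosed
    intro z hz
    by_contra hcon
    exact hz (hfC z hcon)
  have hfc : HasCompactSupport f := HasCompactSupport.intro hC fun z hz => hfC z hz
  have hfs : ContDiff ℝ ∞ f := by
    rw [contDiff_iff_contDiffAt]
    intro z
    by_cases hz : z ∈ U
    · refine ContDiffAt.congr_of_eventuallyEq ?_ (hfU' z hz)
      have h1 := hv.contDiffAt (hU.mem_nhds hz)
      exact ((hχs.contDiffAt.comp z h1).sub h1).sub contDiffAt_const
    · have hzC : z ∈ Cᶜ := fun h => hz (hCU h)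
      have : f =ᶠ[𝓝 z] fun _ => 0 := by
        filter_upwards [hC.isClosed.isOpen_compl.mem_nhds hzC] with y hy
        exact hfC y hy
      exact contDiffAt_const.congr_of_eventuallyEq this
  have hf0 : ∀ z, 0 ≤ f z := by
    intro z
    by_cases hz : z ∈ U
    · rw [hfU z hz]
      have := prim_b1_ge hκ (P z - Q z)
      linarith
    · simp only [hf, if_neg hz]; exact le_rfl
  -- `P + f = Q + χ(P - Q) - c` on `U`
  have hw' : ∀ z ∈ U, (fun y => P y + f y) =ᶠ[𝓝 z]
      fun y => Q y + prim (b1 0 κ) (P y - Q y) - c := by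
    intro z hz
    filter_upwards [hU.mem_nhds hz] with y hy
    rw [hfU y hy]
    ring
  have hcomp : ContDiffOn ℝ ∞ (fun y => prim (b1 0 κ) (P y - Q y)) U := hχs.comp_contDiffOn hv
  have hleviw : ∀ z ∈ U, levi (fun y => P y + f y) z =
      ((1 - b1 0 κ (P z - Q z) : ℝ) : ℂ) • levi Q z + (((b1 0 κ (P z - Q z) : ℝ) : ℂ) • levi P z +
        ((deriv (b1 0 κ) (P z - Q z) : ℝ) : ℂ) •
          vecMulVec (star (wirt (fun y => P y - Q y) z)) (wirt (fun y => P y - Q y) z)) := by
    intro z hz
    rw [levi_congr (hw' z hz), levi_sub_const, levi_add hU hQs hcomp hz,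
      levi_comp hU hv hχd ((b1_contDiff 0 κ).differentiable (by simp)) hz, levi_sub hU hPs hQs hz]
    push_cast
    rw [smul_sub, sub_smul, one_smul]
    abel
  have hwpsd : ∀ z ∈ U, (levi (fun y => P y + f y) z).PosSemidef := by
    intro z hz
    rw [hleviw z hz]
    apply Matrix.PosSemidef.add
    · exact (hQ.2 z hz).smul (Complex.zero_le_real.2 (by linarith [b1_le_one 0 κ (P z - Q z)]))
    · exact psd_theta (hP.2 z hz) _ (b1_nonneg _ _ _) (deriv_b1_nonneg hκ _)
  have hws : ContDiffOn ℝ ∞ (fun y => P y + f y) U := hPs.add hfs.contDiffOn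
  have hw : SmoothPSHOn (fun z => P z + f z) U := ⟨hws, hwpsd⟩
  have hgc : ContinuousOn g U := by
    have h := hg.1.continuousOn.neg
    exact h.congr fun z _ => by simp
  have key := integral_mul_det_levi_le U hU P f g hP hw hfs hfc (hfts.trans hCU) hf0 hg
  have hTc : IsCompact (tsupport f) := hfc.isCompact
  have hTm : MeasurableSet (tsupport f) := (isClosed_tsupport f).measurableSet
  have hi1 : IntegrableOn (fun z => g z * (levi (fun w => P w + f w) z).det.re) (tsupport f) :=
    ((hgc.mul (Complex.continuous_re.comp_continuousOn (det_levi_contOn hU hws))).mono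
      (hfts.trans hCU)).integrableOn_compact hTc
  have hi2 : IntegrableOn (fun z => g z * (levi P z).det.re) C :=
    ((hgc.mul (Complex.continuous_re.comp_continuousOn (det_levi_contOn hU hPs))).mono
      hCU).integrableOn_compact hC
  have hLT : L ⊆ tsupport f := by
    intro z hz
    apply subset_tsupport f
    rw [Function.mem_support]
    have hzU := hCU (hL z hz).1
    rw [hfU z hzU, prim_b1_zero hκ (by linarith [(hL z hz).2])]
    have := (hL z hz).2
    have h2 : 0 < 0 - (P z - Q z) - c := by linarith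
    exact h2.ne'
  have hLQ : ∀ z ∈ L, levi (fun w => P w + f w) z = levi Q z := by
    intro z hz
    have hzU := hCU (hL z hz).1
    have h1 : (fun y => P y + f y) =ᶠ[𝓝 z] fun y => Q y - c := by
      have h2 : ContinuousAt (fun y => P y - Q y) z :=
        hv.continuousOn.continuousAt (hU.mem_nhds hzU)
      have h3 : ∀ᶠ y in 𝓝 z, P y - Q y < 0 :=
        h2.eventually_lt continuousAt_const (by linarith [(hL z hz).2])
      filter_upwards [h3, hw' z hzU] with y hy hy'
      rw [hy', prim_b1_zero hκ hy.le]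
      ring
    rw [levi_congr h1, levi_sub_const]
  calc ∫ z in L, g z * (levi Q z).det.re
      = ∫ z in L, g z * (levi (fun w => P w + f w) z).det.re := by
        apply setIntegral_congr_fun hLm
        intro z hz
        simp only [hLQ z hz]
    _ ≤ ∫ z in tsupport f, g z * (levi (fun w => P w + f w) z).det.re := by
        apply setIntegral_mono_set hi1
        · filter_upwards [ae_restrict_mem hTm] with z hz
          have hzU := hCU (hfts hz)
          exact mul_nonneg (hg0 z hzU) (psd_det_re (hwpsd z hzU))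
        · exact hLT.eventuallyLE
    _ ≤ ∫ z in tsupport f, g z * (levi P z).det.re := key
    _ ≤ ∫ z in C, g z * (levi P z).det.re := by
        apply setIntegral_mono_set hi2
        · filter_upwards [ae_restrict_mem hC.isClosed.measurableSet] with z hz
          exact mul_nonneg (hg0 z (hCU hz)) (psd_det_re (hP.2 z (hCU hz)))
        · exact hfts.eventuallyLE

end Pool.Agent.Ceg
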