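import Mathlib

/-!
# Positive definite matrices: log-determinant inequalities

* `log_det_sub_le`: `log det B - log det A ≤ tr (A⁻¹ (B - A))`;
* `det_re_mono`: the determinant is monotone on positive semidefinite matrices;
* `prod_le_det`: lower bound of the determinant by successive quotient norms (LDL);
* `det_le_prod_diag`: Hadamard's inequality.
-/

set_option autoImplicit false

namespace Pool.Agent.Ceg

open MeasureTheory Matrix Filter Topology
open scoped ContDiff ENNReal Real ComplexOrder

/-- Positive definite: `A = Sᴴ S` with `S` invertible. -/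
private lemma exists_factor {ι : Type} [Fintype ι] [DecidableEq ι] (A : Matrix ι ι ℂ)
    (hA : A.PosDef) : ∃ S : Matrix ι ι ℂ, IsUnit S.det ∧ A = Sᴴ * S := by
  open scoped MatrixOrder in
  obtain ⟨S, hS⟩ := CStarAlgebra.nonneg_iff_eq_star_mul_self.mp hA.posSemidef.nonneg
  refine ⟨S, ?_, by rw [hS, star_eq_conjTranspose]⟩
  have h := hA.det_pos.ne'
  rw [hS, det_mul] at h
  exact isUnit_iff_ne_zero.mpr (right_ne_zero_of_mul h)

private lemma det_eq_ofReal {ι : Type} [Fintype ι] [DecidableEq ι] (A : Matrix ι ι ℂ)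
    (hA : A.PosSemidef) : A.det = ((A.det.re : ℝ) : ℂ) := by
  have h := (Complex.le_def.mp hA.det_nonneg).2
  apply Complex.ext
  · simp
  · simpa using h.symm

private lemma det_re_pos {ι : Type} [Fintype ι] [DecidableEq ι] (A : Matrix ι ι ℂ)
    (hA : A.PosDef) : 0 < A.det.re := by
  have h := (Complex.lt_def.mp hA.det_pos).1
  simpa using h

private lemma det_re_nonneg {ι : Type} [Fintype ι] [DecidableEq ι] (A : Matrix ι ι ℂ)
    (hA : A.PosSemidef) : 0 ≤ A.det.re := by
  have h := (Complex.le_def.mp hA.det_nonneg).1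
  simpa using h

private lemma log_det_le_trace {ι : Type} [Fintype ι] [DecidableEq ι] (X : Matrix ι ι ℂ)
    (hX : X.PosDef) : Real.log X.det.re ≤ X.trace.re - Fintype.card ι := by
  rw [hX.isHermitian.det_eq_prod_eigenvalues, hX.isHermitian.trace_eq_sum_eigenvalues]
  have h1 : ((∏ i, ((hX.isHermitian.eigenvalues i : ℝ) : ℂ)) : ℂ).re =
      ∏ i, hX.isHermitian.eigenvalues i := by
    rw [← Complex.ofReal_prod, Complex.ofReal_re]
  have h2 : ((∑ i, ((hX.isHermitian.eigenvalues i : ℝ) : ℂ)) : ℂ).re =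
      ∑ i, hX.isHermitian.eigenvalues i := by
    rw [← Complex.ofReal_sum, Complex.ofReal_re]
  have h1' := h1
  have h2' := h2
  simp only [Complex.coe_algebraMap] at *
  erw [h1', h2']
  rw [Real.log_prod (fun i _ => (hX.eigenvalues_pos i).ne')]
  have : ∑ i, Real.log (hX.isHermitian.eigenvalues i) ≤
      ∑ i, (hX.isHermitian.eigenvalues i - 1) :=
    Finset.sum_le_sum fun i _ => Real.log_le_sub_one_of_pos (hX.eigenvalues_pos i)
  rw [Finset.sum_sub_distrib] at this
  simpa using this

theorem log_det_sub_le {ι : Type} [Fintype ι] [DecidableEq ι] (A B : Matrix ι ι ℂ)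
    (hA : A.PosDef) (hB : B.PosDef) :
    Real.log B.det.re - Real.log A.det.re ≤ (A⁻¹ * (B - A)).trace.re := by
  obtain ⟨S, hS, hAS⟩ := exists_factor A hA
  have hSH : IsUnit Sᴴ.det := by
    rw [det_conjTranspose]
    exact hS.star
  have hAinv : A⁻¹ = S⁻¹ * (S⁻¹)ᴴ := by
    rw [hAS, Matrix.mul_inv_rev, conjTranspose_nonsing_inv]
  have hinj : Function.Injective (S⁻¹).mulVec := by
    apply Matrix.mulVec_injective_of_isUnit
    exact (Matrix.isUnit_iff_isUnit_det _).mpr (by
      rw [Matrix.det_nonsing_inv]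
      exact hS.ringInverse)
  have hX : ((S⁻¹)ᴴ * B * S⁻¹).PosDef := hB.conjTranspose_mul_mul_same hinj
  have h := log_det_le_trace _ hX
  have htr : ((S⁻¹)ᴴ * B * S⁻¹).trace = (A⁻¹ * B).trace := by
    rw [Matrix.trace_mul_comm, ← Matrix.mul_assoc, hAinv]
  have hdet : ((S⁻¹)ᴴ * B * S⁻¹).det * A.det = B.det := by
    rw [← det_mul, hAS, ← Matrix.mul_assoc]
    rw [det_mul, det_mul, det_mul, det_mul]
    have e1 : ((S⁻¹)ᴴ).det * (Sᴴ).det = 1 := by
      rw [← det_mul, ← conjTranspose_mul, Matrix.mul_nonsing_inv _ hS, conjTranspose_one, det_one]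
    have e2 : (S⁻¹).det * S.det = 1 := by
      rw [← det_mul, Matrix.nonsing_inv_mul _ hS, det_one]
    calc _ = (((S⁻¹)ᴴ).det * (Sᴴ).det) * ((S⁻¹).det * S.det) * B.det := by ring
      _ = B.det := by rw [e1, e2]; ring
  have hAr := det_eq_ofReal A hA.posSemidef
  have hXr := det_eq_ofReal _ hX.posSemidef
  have hAp := det_re_pos A hA
  have hXp := det_re_pos _ hX
  have hB' : B.det.re = ((S⁻¹)ᴴ * B * S⁻¹).det.re * A.det.re := by
    rw [← hdet, hAr, hXr]
    norm_cast
  rw [hB', Real.log_mul hXp.ne' hAp.ne']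
  have htr2 : (A⁻¹ * (B - A)).trace.re = (A⁻¹ * B).trace.re - Fintype.card ι := by
    have hAu : IsUnit A.det := isUnit_iff_ne_zero.mpr hA.det_pos.ne'
    rw [Matrix.mul_sub, Matrix.trace_sub, Matrix.nonsing_inv_mul _ hAu, Matrix.trace_one]
    simp
  rw [htr2, ← htr]
  linarith

theorem det_re_mono {ι : Type} [Fintype ι] [DecidableEq ι] (A B : Matrix ι ι ℂ)
    (hA : A.PosSemidef) (hBA : (B - A).PosSemidef) : A.det.re ≤ B.det.re := by
  by_cases h0 : A.det = 0
  · rw [h0]
    have hB : B.PosSemidef := by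
      have := hA.add hBA
      simpa using this
    simpa using det_re_nonneg B hB
  · have hAp : A.PosDef := hA.posDef_iff_det_ne_zero.mpr h0
    have hBp : B.PosDef := by
      have := hAp.add_posSemidef hBA
      simpa using this
    have h := log_det_sub_le B A hBp hAp
    have htr : (B⁻¹ * (A - B)).trace.re ≤ 0 := by
      obtain ⟨S, hS, hBS⟩ := exists_factor B hBp
      have hBinv : B⁻¹ = S⁻¹ * (S⁻¹)ᴴ := by
        rw [hBS, Matrix.mul_inv_rev, conjTranspose_nonsing_inv]
      have h1 : 0 ≤ ((S⁻¹)ᴴ * (B - A) * S⁻¹).trace :=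
        (hBA.conjTranspose_mul_mul_same (S⁻¹)).trace_nonneg
      have h2 : (B⁻¹ * (A - B)).trace = - ((S⁻¹)ᴴ * (B - A) * S⁻¹).trace := by
        rw [Matrix.trace_mul_comm ((S⁻¹)ᴴ * (B - A)), ← Matrix.mul_assoc, ← hBinv,
          ← Matrix.trace_neg, ← Matrix.mul_neg, neg_sub]
      rw [h2]
      have h3 := (Complex.le_def.mp h1).1
      simpa using h3
    have h4 : Real.log A.det.re ≤ Real.log B.det.re := by linarith
    exact (Real.log_le_log_iff (det_re_pos A hAp) (det_re_pos B hBp)).mp h4

theorem det_le_prod_diag {ι : Type} [Fintype ι] [DecidableEq ι] (A : Matrix ι ι ℂ)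
    (hA : A.PosDef) : A.det.re ≤ ∏ i, (A i i).re := by
  have hd : ∀ i, 0 < A i i := fun i => hA.diag_pos
  have hdr : ∀ i, A i i = (((A i i).re : ℝ) : ℂ) := by
    intro i
    apply Complex.ext
    · simp
    · simpa using ((Complex.lt_def.mp (hd i)).2).symm
  have hD : (Matrix.diagonal fun i => A i i).PosDef := Matrix.PosDef.diagonal hd
  have h := log_det_sub_le (Matrix.diagonal fun i => A i i) A hD hA
  have htr : ((Matrix.diagonal fun i => A i i)⁻¹ * (A - Matrix.diagonal fun i => A i i)).trace
      = 0 := by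
    have hinv : (Matrix.diagonal fun i => A i i)⁻¹ = Matrix.diagonal fun i => (A i i)⁻¹ := by
      apply Matrix.inv_eq_left_inv
      rw [Matrix.diagonal_mul_diagonal, ← Matrix.diagonal_one]
      congr 1
      funext i
      exact inv_mul_cancel₀ (hd i).ne'
    rw [hinv, Matrix.trace]
    apply Finset.sum_eq_zero
    intro i _
    simp [Matrix.diagonal_mul]
  rw [htr] at h
  have hprod : (Matrix.diagonal fun i => A i i).det.re = ∏ i, (A i i).re := by
    rw [Matrix.det_diagonal]
    conv_lhs => rw [Finset.prod_congr rfl fun i _ => hdr i]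
    rw [← Complex.ofReal_prod, Complex.ofReal_re]
  rw [hprod] at h
  have hpos : 0 < ∏ i, (A i i).re := by
    rw [← hprod]
    exact det_re_pos _ hD
  have h4 : Real.log A.det.re ≤ Real.log (∏ i, (A i i).re) := by
    have : (0 : ℂ).re = 0 := rfl
    linarith
  exact (Real.log_le_log_iff (det_re_pos A hA) hpos).mp h4

theorem prod_le_det {ι : Type} [Fintype ι] [LinearOrder ι] (A : Matrix ι ι ℂ) (hA : A.PosDef)
    (t : ι → ℝ) (ht : ∀ i, 0 ≤ t i)
    (h : ∀ i, ∀ c : ι → ℂ, c i = 1 → (∀ j, i < j → c j = 0) → t i ≤ (star c ⬝ᵥ A *ᵥ c).re) :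
    ∏ i, t i ≤ A.det.re := by
  let _ : LocallyFiniteOrderBot ι :=
    LocallyFiniteOrderBot.ofIic ι (fun b => Finset.univ.filter (· ≤ b)) (by simp)
  have hL := LDL.diag_eq_lowerInv_conj hA
  set L := LDL.lowerInv hA with hLdef
  have hLinv : IsUnit L.det := by
    have : Invertible L := LDL.invertibleLowerInv hA
    exact (Matrix.isUnit_iff_isUnit_det L).mp (isUnit_of_invertible L)
  have htri : L.det = ∏ i, L i i := by
    apply Matrix.det_of_isLowerTriangular
    intro i j hij
    exact LDL.lowerInv_triangular hA hij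
  have hLi : ∀ i, L i i ≠ 0 := by
    intro i h0
    apply hLinv.ne_zero
    rw [htri]
    exact Finset.prod_eq_zero (Finset.mem_univ i) h0
  -- entries of the diagonal
  have hent : ∀ i, (L * A * Lᴴ) i i = star (star (L i)) ⬝ᵥ A *ᵥ (star (L i)) := by
    intro i
    rw [Matrix.mul_assoc]
    simp [Matrix.mul_apply, dotProduct, mulVec, conjTranspose_apply]
  have hineq : ∀ i, t i * Complex.normSq (L i i) ≤ ((L * A * Lᴴ) i i).re := by
    intro i
    have h1 := h i (fun j => star (L i j) / star (L i i)) (div_self (by simpa using hLi i))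
      (by
        intro j hij
        have : L i j = 0 := LDL.lowerInv_triangular hA hij
        simp [this])
    have h2 : (L * A * Lᴴ) i i = (Complex.normSq (L i i) : ℂ) *
        (star (fun j => star (L i j) / star (L i i)) ⬝ᵥ
          A *ᵥ (fun j => star (L i j) / star (L i i))) := by
      have e1 : (fun j => star (L i j) / star (L i i)) = (star (L i i))⁻¹ • star (L i) := by
        funext j
        simp [div_eq_inv_mul]
      rw [hent, e1, Matrix.mulVec_smul, star_smul, smul_dotProduct, dotProduct_smul]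
      rw [Complex.normSq_eq_conj_mul_self]
      have h3 := hLi i
      have h3' : star (L i i) ≠ 0 := by simpa using hLi i
      simp only [smul_eq_mul, star_inv₀, star_star]
      rw [show (starRingEnd ℂ) (L i i) = star (L i i) from rfl]
      field_simp
    rw [h2, Complex.re_ofReal_mul, mul_comm]
    exact mul_le_mul_of_nonneg_left h1 (Complex.normSq_nonneg _)
  have hdetL : (L * A * Lᴴ).det.re = ∏ i, ((L * A * Lᴴ) i i).re := by
    have hr : ∀ i, (L * A * Lᴴ) i i = ((((L * A * Lᴴ) i i).re : ℝ) : ℂ) := by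
      intro i
      have hps : (L * A * Lᴴ).PosSemidef := hA.posSemidef.mul_mul_conjTranspose_same L
      have h0 : 0 ≤ (L * A * Lᴴ) i i := hps.diag_nonneg
      apply Complex.ext
      · simp
      · simpa using ((Complex.le_def.mp h0).2).symm
    have hdiag : (L * A * Lᴴ).det = ∏ i, (L * A * Lᴴ) i i := by
      rw [← hL, LDL.diag, Matrix.det_diagonal]
      simp
    rw [hdiag]
    conv_lhs => rw [Finset.prod_congr rfl fun i _ => hr i]
    rw [← Complex.ofReal_prod, Complex.ofReal_re]
  have hdetA : (L * A * Lᴴ).det.re = Complex.normSq L.det * A.det.re := by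
    rw [det_mul, det_mul, det_conjTranspose]
    have : L.det * A.det * star L.det = (Complex.normSq L.det : ℂ) * A.det := by
      rw [Complex.normSq_eq_conj_mul_self]
      rw [show (starRingEnd ℂ) L.det = star L.det from rfl]
      ring
    rw [this, Complex.re_ofReal_mul]
  have hNL : 0 < Complex.normSq L.det := Complex.normSq_pos.mpr hLinv.ne_zero
  have hfin : (∏ i, t i) * Complex.normSq L.det ≤ Complex.normSq L.det * A.det.re := by
    rw [← hdetA, hdetL, htri, map_prod, ← Finset.prod_mul_distrib]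
    exact Finset.prod_le_prod (fun i _ => mul_nonneg (ht i) (Complex.normSq_nonneg _))
      fun i _ => hineq i
  rw [mul_comm] at hfin
  exact le_of_mul_le_mul_left hfin hNL

end Pool.Agent.Ceg
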