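import Pool.Agent.Ceg.Defs

/-!
# The integral of the complex Hessian determinant of a compactly supported function is zero
-/

set_option autoImplicit false

namespace Pool.Agent.Ceg

open MeasureTheory Matrix Filter Topology
open scoped ContDiff ENNReal Real ComplexOrder

namespace Stokes

variable {n : ℕ}

/-- complex combination of two directional derivatives -/
noncomputable def cd (a b : ℂ) (v w : Fin n → ℂ) (f : (Fin n → ℂ) → ℂ) : (Fin n → ℂ) → ℂ :=
  fun z => a * fderiv ℝ f z v + b * fderiv ℝ f z w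

theorem smooth_dir {f : (Fin n → ℂ) → ℂ} (hf : ContDiff ℝ ∞ f) (v : Fin n → ℂ) :
    ContDiff ℝ ∞ (fun z => fderiv ℝ f z v) :=
  (hf.fderiv_right (m := ∞) (by simp)).clm_apply contDiff_const

theorem smooth_cd (a b : ℂ) (v w : Fin n → ℂ) {f : (Fin n → ℂ) → ℂ} (hf : ContDiff ℝ ∞ f) :
    ContDiff ℝ ∞ (cd a b v w f) :=
  (contDiff_const.mul (smooth_dir hf v)).add (contDiff_const.mul (smooth_dir hf w))

theorem fderiv_dir {f : (Fin n → ℂ) → ℂ} (hf : ContDiff ℝ ∞ f) (v w z : Fin n → ℂ) :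
    fderiv ℝ (fun z => fderiv ℝ f z w) z v = fderiv ℝ (fderiv ℝ f) z v w := by
  have h1 : DifferentiableAt ℝ (fderiv ℝ f) z :=
    ((hf.fderiv_right (m := ∞) (by simp)).differentiable (by simp)) z
  have h2 : HasFDerivAt (fun z => fderiv ℝ f z w)
      ((ContinuousLinearMap.apply ℝ ℂ w).comp (fderiv ℝ (fderiv ℝ f) z)) z :=
    (ContinuousLinearMap.apply ℝ ℂ w).hasFDerivAt.comp z h1.hasFDerivAt
  rw [h2.fderiv]; rfl

theorem dir_comm {f : (Fin n → ℂ) → ℂ} (hf : ContDiff ℝ ∞ f) (v w z : Fin n → ℂ) :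
    fderiv ℝ (fun z => fderiv ℝ f z w) z v = fderiv ℝ (fun z => fderiv ℝ f z v) z w := by
  rw [fderiv_dir hf, fderiv_dir hf]
  have h : IsSymmSndFDerivAt ℝ f z := (hf.contDiffAt).isSymmSndFDerivAt (by
    rw [minSmoothness_of_isRCLikeNormedField]; exact WithTop.coe_le_coe.mpr le_top)
  exact h v w

theorem fderiv_cd (a b : ℂ) (v w : Fin n → ℂ) {f : (Fin n → ℂ) → ℂ} (hf : ContDiff ℝ ∞ f)
    (z x : Fin n → ℂ) : fderiv ℝ (cd a b v w f) z x =
      a * fderiv ℝ (fun z => fderiv ℝ f z v) z x + b * fderiv ℝ (fun z => fderiv ℝ f z w) z x := by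
  have h1 : DifferentiableAt ℝ (fun z => fderiv ℝ f z v) z :=
    ((smooth_dir hf v).differentiable (by simp)) z
  have h2 : DifferentiableAt ℝ (fun z => fderiv ℝ f z w) z :=
    ((smooth_dir hf w).differentiable (by simp)) z
  have : fderiv ℝ (fun z => a * fderiv ℝ f z v + b * fderiv ℝ f z w) z
      = a • fderiv ℝ (fun z => fderiv ℝ f z v) z + b • fderiv ℝ (fun z => fderiv ℝ f z w) z :=
    ((h1.hasFDerivAt.const_mul a).add (h2.hasFDerivAt.const_mul b)).fderiv
  unfold cd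
  rw [this]; simp

theorem cd_comm (a b a' b' : ℂ) (v w v' w' : Fin n → ℂ) {f : (Fin n → ℂ) → ℂ}
    (hf : ContDiff ℝ ∞ f) : cd a b v w (cd a' b' v' w' f) = cd a' b' v' w' (cd a b v w f) := by
  funext z
  rw [cd, cd]
  rw [fderiv_cd a' b' v' w' hf, fderiv_cd a' b' v' w' hf, fderiv_cd a b v w hf,
    fderiv_cd a b v w hf, dir_comm hf v v', dir_comm hf v w', dir_comm hf w v', dir_comm hf w w']
  ring

theorem cd_mul (a b : ℂ) (v w : Fin n → ℂ) {f g : (Fin n → ℂ) → ℂ} (hf : ContDiff ℝ ∞ f)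
    (hg : ContDiff ℝ ∞ g) (z : Fin n → ℂ) :
    cd a b v w (fun z => f z * g z) z = f z * cd a b v w g z + cd a b v w f z * g z := by
  have h1 : DifferentiableAt ℝ f z := (hf.differentiable (by simp)) z
  have h2 : DifferentiableAt ℝ g z := (hg.differentiable (by simp)) z
  have : fderiv ℝ (fun z => f z * g z) z = f z • fderiv ℝ g z + g z • fderiv ℝ f z :=
    (h1.hasFDerivAt.mul h2.hasFDerivAt).fderiv
  unfold cd
  rw [this]; simp
  ring

theorem smooth_prod {ι : Type*} (s : Finset ι) (f : ι → (Fin n → ℂ) → ℂ)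
    (hf : ∀ i, ContDiff ℝ ∞ (f i)) : ContDiff ℝ ∞ (fun z => ∏ i ∈ s, f i z) :=
  contDiff_prod fun i _ => hf i

theorem cd_prod {ι : Type*} [DecidableEq ι] (a b : ℂ) (v w : Fin n → ℂ) (s : Finset ι)
    (f : ι → (Fin n → ℂ) → ℂ) (hf : ∀ i, ContDiff ℝ ∞ (f i)) (z : Fin n → ℂ) :
    cd a b v w (fun z => ∏ i ∈ s, f i z) z = ∑ i ∈ s, (∏ j ∈ s.erase i, f j z) * cd a b v w (f i) z := by
  induction s using Finset.induction_on with
  | empty => simp [cd]
  | insert i s hi ih =>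
    have h1 : (fun z => ∏ j ∈ insert i s, f j z) = fun z => f i z * ∏ j ∈ s, f j z := by
      funext z; rw [Finset.prod_insert hi]
    rw [h1, cd_mul a b v w (hf i) (smooth_prod s f hf), ih, Finset.sum_insert hi,
      Finset.erase_insert hi, Finset.mul_sum, add_comm, mul_comm (cd a b v w (f i) z)]
    congr 1
    refine Finset.sum_congr rfl fun j hj => ?_
    have hji : j ≠ i := fun h => hi (h ▸ hj)
    rw [Finset.erase_insert_of_ne hji.symm, Finset.prod_insert (by
      rw [Finset.mem_erase]; exact fun h => hi h.2)]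
    ring

theorem integral_dir {f : (Fin n → ℂ) → ℂ} (hf : ContDiff ℝ ∞ f) (hc : HasCompactSupport f)
    (v : Fin n → ℂ) : Integrable (fun z => fderiv ℝ f z v) ∧ ∫ z, fderiv ℝ f z v = 0 := by
  have hi : Integrable (fun z => fderiv ℝ f z v) :=
    (smooth_dir hf v).continuous.integrable_of_hasCompactSupport (hc.fderiv_apply (𝕜 := ℝ) v)
  refine ⟨hi, ?_⟩
  have := integral_mul_fderiv_eq_neg_fderiv_mul_of_integrable (μ := (volume : Measure (Fin n → ℂ)))
    (f := fun _ => (1 : ℂ)) (g := f) (v := v) (by simp) (by simpa using hi)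
    (by simpa using hf.continuous.integrable_of_hasCompactSupport hc)
    (fun x _ => differentiableAt_const _) (fun x _ => (hf.differentiable (by simp)) x)
  simpa using this

theorem integral_cd (a b : ℂ) (v w : Fin n → ℂ) {f : (Fin n → ℂ) → ℂ} (hf : ContDiff ℝ ∞ f)
    (hc : HasCompactSupport f) : Integrable (cd a b v w f) ∧ ∫ z, cd a b v w f z = 0 := by
  have h1 := integral_dir hf hc v
  have h2 := integral_dir hf hc w
  refine ⟨(h1.1.const_mul a).add (h2.1.const_mul b), ?_⟩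
  unfold cd
  rw [integral_add (h1.1.const_mul a) (h2.1.const_mul b), integral_const_mul, integral_const_mul,
    h1.2, h2.2]
  simp

theorem compact_cd (a b : ℂ) (v w : Fin n → ℂ) {f : (Fin n → ℂ) → ℂ}
    (hc : HasCompactSupport f) : HasCompactSupport (cd a b v w f) := by
  have h1 := hc.fderiv_apply (𝕜 := ℝ) v
  have h2 := hc.fderiv_apply (𝕜 := ℝ) w
  exact (h1.mul_left (f := fun _ => a)).add (h2.mul_left (f := fun _ => b))

/-- `∂̄ₖ` -/
noncomputable def dbar (k : Fin n) : ((Fin n → ℂ) → ℂ) → (Fin n → ℂ) → ℂ :=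
  cd (1 / 2) (Complex.I / 2) (Pi.single k 1) (Pi.single k Complex.I)

/-- `∂ₖ` -/
noncomputable def dhol (k : Fin n) : ((Fin n → ℂ) → ℂ) → (Fin n → ℂ) → ℂ :=
  cd (1 / 2) (-Complex.I / 2) (Pi.single k 1) (Pi.single k Complex.I)

theorem hess_eq {u : (Fin n → ℂ) → ℝ} (hu : ContDiff ℝ ∞ u) (z v w : Fin n → ℂ) :
    fderiv ℝ (fun z => fderiv ℝ (fun z => (u z : ℂ)) z w) z v = ((hess u z v w : ℝ) : ℂ) := by
  have h0 : ∀ z, fderiv ℝ (fun z => (u z : ℂ)) z w = ((fderiv ℝ u z w : ℝ) : ℂ) := by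
    intro z
    have h1 : DifferentiableAt ℝ u z := (hu.differentiable (by simp)) z
    have h2 : HasFDerivAt (fun z => (u z : ℂ)) (Complex.ofRealCLM.comp (fderiv ℝ u z)) z :=
      Complex.ofRealCLM.hasFDerivAt.comp z h1.hasFDerivAt
    rw [h2.fderiv]; rfl
  simp only [h0]
  have h1 : DifferentiableAt ℝ (fderiv ℝ u) z :=
    ((hu.fderiv_right (m := ∞) (by simp)).differentiable (by simp)) z
  have h2 : HasFDerivAt (fun z => fderiv ℝ u z w)
      ((ContinuousLinearMap.apply ℝ ℝ w).comp (fderiv ℝ (fderiv ℝ u) z)) z :=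
    (ContinuousLinearMap.apply ℝ ℝ w).hasFDerivAt.comp z h1.hasFDerivAt
  have h3 : HasFDerivAt (fun z => ((fderiv ℝ u z w : ℝ) : ℂ))
      (Complex.ofRealCLM.comp ((ContinuousLinearMap.apply ℝ ℝ w).comp (fderiv ℝ (fderiv ℝ u) z))) z :=
    Complex.ofRealCLM.hasFDerivAt.comp z h2
  rw [h3.fderiv]; rfl

theorem levi_eq {u : (Fin n → ℂ) → ℝ} (hu : ContDiff ℝ ∞ u) (z : Fin n → ℂ) (j k : Fin n) :
    levi u z j k = dbar j (dhol k (fun z => (u z : ℂ))) z := by
  have hU : ContDiff ℝ ∞ (fun z => (u z : ℂ)) := Complex.ofRealCLM.contDiff.comp hu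
  unfold dbar
  rw [cd]
  unfold dhol
  rw [fderiv_cd _ _ _ _ hU, fderiv_cd _ _ _ _ hU, hess_eq hu, hess_eq hu, hess_eq hu, hess_eq hu]
  unfold levi
  have : Complex.I * Complex.I = -1 := Complex.I_mul_I
  push_cast
  linear_combination ((1/4 : ℂ) * ((hess u z (Pi.single j Complex.I) (Pi.single k Complex.I) : ℝ) : ℂ)) * this

end Stokes

open Stokes

theorem integral_det_levi_eq_zero {n : ℕ} (hn : 0 < n) (u : (Fin n → ℂ) → ℝ)
    (hu : ContDiff ℝ ∞ u) (hc : HasCompactSupport u) : ∫ z, (levi u z).det = 0 := by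
  classical
  set U : (Fin n → ℂ) → ℂ := fun z => (u z : ℂ) with hU
  have hUs : ContDiff ℝ ∞ U := Complex.ofRealCLM.contDiff.comp hu
  have hUc : HasCompactSupport U := hc.comp_left (g := ((↑) : ℝ → ℂ)) (by simp)
  let i0 : Fin n := ⟨0, hn⟩
  have hM : ∀ j k, ContDiff ℝ ∞ (dbar j (dhol k U)) := fun j k =>
    smooth_cd _ _ _ _ (smooth_cd _ _ _ _ hUs)
  let F : Equiv.Perm (Fin n) → (Fin n → ℂ) → ℂ := fun σ z =>
    dhol i0 U z * ∏ i ∈ Finset.univ.erase i0, dbar (σ i) (dhol i U) z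
  have hFs : ∀ σ, ContDiff ℝ ∞ (F σ) := fun σ =>
    (smooth_cd _ _ _ _ hUs).mul (smooth_prod _ _ fun i => hM (σ i) i)
  have hFc : ∀ σ, HasCompactSupport (F σ) := fun σ => (compact_cd _ _ _ _ hUc).mul_right
  have key : ∀ z, (levi u z).det
      = ∑ σ : Equiv.Perm (Fin n), (Equiv.Perm.sign σ : ℂ) * dbar (σ i0) (F σ) z := by
    intro z
    have h1 : ∀ σ : Equiv.Perm (Fin n), dbar (σ i0) (F σ) z
        = (∏ i, dbar (σ i) (dhol i U) z) + dhol i0 U z *
          ∑ i ∈ Finset.univ.erase i0, (∏ j ∈ (Finset.univ.erase i0).erase i,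
            dbar (σ j) (dhol j U) z) * dbar (σ i0) (dbar (σ i) (dhol i U)) z := by
      intro σ
      have h2 := cd_mul (1 / 2) (Complex.I / 2) (Pi.single (σ i0) 1) (Pi.single (σ i0) Complex.I)
        (smooth_cd (1 / 2) (-Complex.I / 2) (Pi.single i0 1) (Pi.single i0 Complex.I) hUs)
        (smooth_prod (Finset.univ.erase i0) (fun i => dbar (σ i) (dhol i U)) fun i => hM (σ i) i) z
      have h3 := cd_prod (1 / 2) (Complex.I / 2) (Pi.single (σ i0) 1)
        (Pi.single (σ i0) Complex.I) (Finset.univ.erase i0) (fun i => dbar (σ i) (dhol i U))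
        (fun i => hM (σ i) i) z
      have h4 := Finset.mul_prod_erase Finset.univ (fun i => dbar (σ i) (dhol i U) z)
        (Finset.mem_univ i0)
      rw [h3] at h2
      rw [← h4, add_comm]
      exact h2
    have h5 : ∀ i ∈ Finset.univ.erase i0, ∑ σ : Equiv.Perm (Fin n), (Equiv.Perm.sign σ : ℂ) *
        ((∏ j ∈ (Finset.univ.erase i0).erase i, dbar (σ j) (dhol j U) z) *
          dbar (σ i0) (dbar (σ i) (dhol i U)) z) = 0 := by
      intro i hi
      have hne : i ≠ i0 := Finset.ne_of_mem_erase hi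
      set T : Equiv.Perm (Fin n) → ℂ := fun σ =>
        (∏ j ∈ (Finset.univ.erase i0).erase i, dbar (σ j) (dhol j U) z) *
          dbar (σ i0) (dbar (σ i) (dhol i U)) z with hT
      have h6 : ∀ σ : Equiv.Perm (Fin n), T (σ * Equiv.swap i0 i) = T σ := by
        intro σ
        rw [hT]
        simp only [Equiv.Perm.coe_mul, Function.comp_apply, Equiv.swap_apply_left,
          Equiv.swap_apply_right]
        rw [show dbar (σ i) (dbar (σ i0) (dhol i U)) = dbar (σ i0) (dbar (σ i) (dhol i U)) from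
          cd_comm _ _ _ _ _ _ _ _ (smooth_cd _ _ _ _ hUs)]
        congr 1
        refine Finset.prod_congr rfl fun j hj => ?_
        rw [Finset.mem_erase, Finset.mem_erase] at hj
        rw [Equiv.swap_apply_of_ne_of_ne hj.2.1 hj.1]
      have h7 : ∑ σ : Equiv.Perm (Fin n), (Equiv.Perm.sign σ : ℂ) * T σ
          = ∑ σ : Equiv.Perm (Fin n), (Equiv.Perm.sign (σ * Equiv.swap i0 i) : ℂ) *
            T (σ * Equiv.swap i0 i) :=
        (Equiv.sum_comp (Equiv.mulRight (Equiv.swap i0 i))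
          (fun σ : Equiv.Perm (Fin n) => (Equiv.Perm.sign σ : ℂ) * T σ)).symm
      have h8 : ∑ σ : Equiv.Perm (Fin n), (Equiv.Perm.sign (σ * Equiv.swap i0 i) : ℂ) *
            T (σ * Equiv.swap i0 i) = -∑ σ : Equiv.Perm (Fin n), (Equiv.Perm.sign σ : ℂ) * T σ := by
        rw [← Finset.sum_neg_distrib]
        refine Finset.sum_congr rfl fun σ _ => ?_
        rw [h6, Equiv.Perm.sign_mul, Equiv.Perm.sign_swap hne.symm]
        push_cast
        ring
      rw [h8] at h7
      exact self_eq_neg.mp h7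
    rw [Matrix.det_apply']
    simp only [levi_eq hu, h1, mul_add, Finset.sum_add_distrib]
    have h9 : ∑ σ : Equiv.Perm (Fin n), (Equiv.Perm.sign σ : ℂ) * (dhol i0 U z *
        ∑ i ∈ Finset.univ.erase i0, (∏ j ∈ (Finset.univ.erase i0).erase i,
            dbar (σ j) (dhol j U) z) * dbar (σ i0) (dbar (σ i) (dhol i U)) z) = 0 := by
      have : ∀ σ : Equiv.Perm (Fin n), (Equiv.Perm.sign σ : ℂ) * (dhol i0 U z *
        ∑ i ∈ Finset.univ.erase i0, (∏ j ∈ (Finset.univ.erase i0).erase i,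
            dbar (σ j) (dhol j U) z) * dbar (σ i0) (dbar (σ i) (dhol i U)) z)
          = dhol i0 U z * ∑ i ∈ Finset.univ.erase i0, (Equiv.Perm.sign σ : ℂ) *
            ((∏ j ∈ (Finset.univ.erase i0).erase i, dbar (σ j) (dhol j U) z) *
              dbar (σ i0) (dbar (σ i) (dhol i U)) z) := by
        intro σ
        rw [← Finset.mul_sum]; ring
      rw [Finset.sum_congr rfl (fun σ _ => this σ), ← Finset.mul_sum, Finset.sum_comm,
        Finset.sum_eq_zero h5, mul_zero]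
    rw [h9, add_zero]
  have hI : ∀ σ : Equiv.Perm (Fin n), Integrable (dbar (σ i0) (F σ)) ∧
      ∫ z, dbar (σ i0) (F σ) z = 0 := fun σ => integral_cd _ _ _ _ (hFs σ) (hFc σ)
  simp only [key]
  rw [integral_finsetSum _ (fun σ _ => (hI σ).1.const_mul _)]
  refine Finset.sum_eq_zero fun σ _ => ?_
  rw [integral_const_mul, (hI σ).2, mul_zero]

end Pool.Agent.Ceg
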