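import Pool.Agent.Ceg.Defs
import Pool.Agent.Ceg.Stokes
import Pool.Agent.Ceg.LogDet

/-!
# Smooth truncation of a plurisubharmonic function (module CUT)
-/

set_option autoImplicit false

namespace Pool.Agent.Ceg

open MeasureTheory Matrix Filter Topology
open scoped ContDiff ENNReal Real ComplexOrder Manifold

section LeviCalc

variable {n : ℕ}

lemma hess_congr {u w : (Fin n → ℂ) → ℝ} {z : Fin n → ℂ} (h : u =ᶠ[𝓝 z] w) (a b : Fin n → ℂ) :
    hess u z a b = hess w z a b := by
  unfold hess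
  have h1 : fderiv ℝ u =ᶠ[𝓝 z] fderiv ℝ w := h.fderiv
  rw [h1.fderiv_eq]

lemma levi_congr {u w : (Fin n → ℂ) → ℝ} {z : Fin n → ℂ} (h : u =ᶠ[𝓝 z] w) :
    levi u z = levi w z := by
  funext j k
  unfold levi
  simp only [hess_congr h]

/-- the complex derivatives `∂_k u` -/
noncomputable def wirt (u : (Fin n → ℂ) → ℝ) (z : Fin n → ℂ) : Fin n → ℂ := fun k =>
  (1 / 2 : ℂ) * ((fderiv ℝ u z (Pi.single k 1) : ℂ) - (fderiv ℝ u z (Pi.single k Complex.I) : ℂ) * Complex.I)

lemma hess_comp {D : Set (Fin n → ℂ)} {v : (Fin n → ℂ) → ℝ} {χ b : ℝ → ℝ} (hD : IsOpen D)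
    (hv : ContDiffOn ℝ ∞ v D) (hχ : ∀ t, HasDerivAt χ (b t) t) (hb : Differentiable ℝ b)
    {z : Fin n → ℂ} (hz : z ∈ D) (a w : Fin n → ℂ) :
    hess (fun y => χ (v y)) z a w =
      b (v z) * hess v z a w + deriv b (v z) * (fderiv ℝ v z a * fderiv ℝ v z w) := by
  have hvd : ∀ y ∈ D, DifferentiableAt ℝ v y := fun y hy =>
    ((hv.contDiffAt (hD.mem_nhds hy)).differentiableAt (by simp))
  have h1 : fderiv ℝ (fun y => χ (v y)) =ᶠ[𝓝 z] fun y => b (v y) • fderiv ℝ v y := by
    filter_upwards [hD.mem_nhds hz] with y hy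
    exact ((hχ (v y)).comp_hasFDerivAt y (hvd y hy).hasFDerivAt).fderiv
  unfold hess
  rw [h1.fderiv_eq]
  have h2 : HasFDerivAt (fun y => b (v y)) (deriv b (v z) • fderiv ℝ v z) z :=
    (hb (v z)).hasDerivAt.comp_hasFDerivAt z (hvd z hz).hasFDerivAt
  have h3 : DifferentiableAt ℝ (fderiv ℝ v) z := by
    have h4 : ContDiffAt ℝ 1 (fderiv ℝ v) z :=
      (hv.contDiffAt (hD.mem_nhds hz)).fderiv_right (m := 1) (by norm_cast)
    exact h4.differentiableAt (by simp)
  have h5 := (h2.smul h3.hasFDerivAt).fderiv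
  have h6 : (fun y => b (v y) • fderiv ℝ v y) = (fun y => b (v y)) • fderiv ℝ v := rfl
  rw [h6, h5]
  simp
  ring

lemma levi_comp {D : Set (Fin n → ℂ)} {v : (Fin n → ℂ) → ℝ} {χ b : ℝ → ℝ} (hD : IsOpen D)
    (hv : ContDiffOn ℝ ∞ v D) (hχ : ∀ t, HasDerivAt χ (b t) t) (hb : Differentiable ℝ b)
    {z : Fin n → ℂ} (hz : z ∈ D) :
    levi (fun y => χ (v y)) z = ((b (v z) : ℝ) : ℂ) • levi v z +
      ((deriv b (v z) : ℝ) : ℂ) • vecMulVec (star (wirt v z)) (wirt v z) := by
  ext j k
  simp only [levi, hess_comp hD hv hχ hb hz, Matrix.add_apply, Matrix.smul_apply, vecMulVec_apply,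
    wirt, Pi.star_apply, smul_eq_mul, star_mul', star_sub, RCLike.star_def, Complex.conj_ofReal,
    Complex.conj_I, map_div₀, map_one, map_ofNat]
  push_cast
  linear_combination ((1 : ℂ) / 4 * ((deriv b (v z) : ℝ) : ℂ) *
    ((fderiv ℝ v z (Pi.single j Complex.I) : ℝ) : ℂ) *
    ((fderiv ℝ v z (Pi.single k Complex.I) : ℝ) : ℂ)) * Complex.I_sq

lemma contDiffOn_fderiv_apply {D : Set (Fin n → ℂ)} {v : (Fin n → ℂ) → ℝ} (hD : IsOpen D)
    (hv : ContDiffOn ℝ ∞ v D) (a b : Fin n → ℂ) : ContinuousOn (fun z => hess v z a b) D := by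
  intro z hz
  have h4 : ContDiffAt ℝ 1 (fderiv ℝ v) z :=
    (hv.contDiffAt (hD.mem_nhds hz)).fderiv_right (m := 1) (by norm_cast)
  have h5 : ContDiffAt ℝ 0 (fderiv ℝ (fderiv ℝ v)) z := h4.fderiv_right (m := 0) (by norm_num)
  have h6 : ContinuousAt (fderiv ℝ (fderiv ℝ v)) z := h5.continuousAt
  unfold hess
  exact ((h6.clm_apply continuousAt_const).clm_apply continuousAt_const).continuousWithinAt

lemma levi_contOn {D : Set (Fin n → ℂ)} {v : (Fin n → ℂ) → ℝ} (hD : IsOpen D)
    (hv : ContDiffOn ℝ ∞ v D) : ContinuousOn (levi v) D := by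
  refine continuousOn_pi.2 fun j => continuousOn_pi.2 fun k => ?_
  unfold levi
  have h := contDiffOn_fderiv_apply hD hv
  refine continuousOn_const.mul (ContinuousOn.add ?_ (ContinuousOn.mul ?_ continuousOn_const))
  · exact Complex.continuous_ofReal.comp_continuousOn ((h _ _).add (h _ _))
  · exact Complex.continuous_ofReal.comp_continuousOn ((h _ _).sub (h _ _))

lemma det_levi_contOn {D : Set (Fin n → ℂ)} {v : (Fin n → ℂ) → ℝ} (hD : IsOpen D)
    (hv : ContDiffOn ℝ ∞ v D) : ContinuousOn (fun z => (levi v z).det) D := by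
  have h := levi_contOn hD hv
  exact (Continuous.matrix_det continuous_id).comp_continuousOn h

lemma exists_cut {K D : Set (Fin n → ℂ)} (hK : IsCompact K) (hD : IsOpen D) (hKD : K ⊆ D) :
    ∃ κ : (Fin n → ℂ) → ℝ, ContDiff ℝ ∞ κ ∧ HasCompactSupport κ ∧ (∀ z ∈ K, κ =ᶠ[𝓝 z] fun _ => 1) ∧
      (∀ z ∉ D, κ =ᶠ[𝓝 z] fun _ => 0) := by
  obtain ⟨L, hL, hKL, hLD⟩ := exists_compact_between hK hD hKD
  have hd : Disjoint (interior L)ᶜ K := by
    rw [Set.disjoint_compl_left_iff_subset]
    exact hKL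
  obtain ⟨f, h0, h1, _⟩ := exists_contMDiffMap_zero_one_nhds_of_isClosed (n := (⊤ : ℕ∞))
    𝓘(ℝ, Fin n → ℂ) (isOpen_interior.isClosed_compl) hK.isClosed hd
  rw [eventually_nhdsSet_iff_forall] at h0 h1
  refine ⟨f, f.contMDiff.contDiff, ?_, fun z hz => h1 z hz, fun z hz => h0 z ?_⟩
  · apply HasCompactSupport.intro hL
    intro z hz
    exact (h0 z (fun hz' => hz (interior_subset hz'))).self_of_nhds
  · exact fun hz' => hz (hLD (interior_subset hz'))

lemma contDiff_glue {D : Set (Fin n → ℂ)} (hD : IsOpen D) {κ w : (Fin n → ℂ) → ℝ}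
    (hκ : ContDiff ℝ ∞ κ) (h0 : ∀ z ∉ D, κ =ᶠ[𝓝 z] fun _ => 0) (hw : ContDiffOn ℝ ∞ w D) :
    ContDiff ℝ ∞ (fun z => κ z * w z) := by
  rw [contDiff_iff_contDiffAt]
  intro z
  by_cases hz : z ∈ D
  · exact hκ.contDiffAt.mul (hw.contDiffAt (hD.mem_nhds hz))
  · have h : (fun z => κ z * w z) =ᶠ[𝓝 z] fun _ => 0 := by
      filter_upwards [h0 z hz] with y hy
      rw [hy, zero_mul]
    exact contDiffAt_const.congr_of_eventuallyEq h

end LeviCalc

section OneDim

/-- increasing slope -/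
noncomputable def b1 (s η t : ℝ) : ℝ := Real.smoothTransition ((t + s) / η)
/-- decreasing slope -/
noncomputable def b2 (η t : ℝ) : ℝ := Real.smoothTransition (-(t + η) / η)

lemma b1_contDiff (s η : ℝ) : ContDiff ℝ ∞ (b1 s η) := by
  unfold b1
  exact Real.smoothTransition.contDiff.comp (by fun_prop)

lemma b2_contDiff (η : ℝ) : ContDiff ℝ ∞ (b2 η) := by
  unfold b2
  exact Real.smoothTransition.contDiff.comp (by fun_prop)

lemma b1_mono {s η : ℝ} (hη : 0 < η) : Monotone (b1 s η) := by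
  intro x y hxy
  unfold b1
  apply Real.smoothTransition.monotone
  gcongr

lemma b2_anti {η : ℝ} (hη : 0 < η) : Antitone (b2 η) := by
  intro x y hxy
  unfold b2
  apply Real.smoothTransition.monotone
  gcongr

lemma b1_nonneg (s η t : ℝ) : 0 ≤ b1 s η t := Real.smoothTransition.nonneg _
lemma b1_le_one (s η t : ℝ) : b1 s η t ≤ 1 := Real.smoothTransition.le_one _
lemma b2_nonneg (η t : ℝ) : 0 ≤ b2 η t := Real.smoothTransition.nonneg _
lemma b2_le_one (η t : ℝ) : b2 η t ≤ 1 := Real.smoothTransition.le_one _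

lemma b1_zero {s η t : ℝ} (hη : 0 < η) (h : t ≤ -s) : b1 s η t = 0 :=
  Real.smoothTransition.zero_of_nonpos (div_nonpos_of_nonpos_of_nonneg (by linarith) hη.le)
lemma b1_one {s η t : ℝ} (hη : 0 < η) (h : -s + η ≤ t) : b1 s η t = 1 :=
  Real.smoothTransition.one_of_one_le (by rw [le_div_iff₀ hη]; linarith)
lemma b2_zero {η t : ℝ} (hη : 0 < η) (h : -η ≤ t) : b2 η t = 0 :=
  Real.smoothTransition.zero_of_nonpos (div_nonpos_of_nonpos_of_nonneg (by linarith) hη.le)
lemma b2_one {η t : ℝ} (hη : 0 < η) (h : t ≤ -(2 * η)) : b2 η t = 1 :=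
  Real.smoothTransition.one_of_one_le (by rw [le_div_iff₀ hη]; linarith)

/-- primitive vanishing at `0` -/
noncomputable def prim (b : ℝ → ℝ) (t : ℝ) : ℝ := ∫ x in (0 : ℝ)..t, b x

lemma prim_hasDerivAt {b : ℝ → ℝ} (hb : Continuous b) (t : ℝ) : HasDerivAt (prim b) (b t) t :=
  intervalIntegral.integral_hasDerivAt_right (hb.intervalIntegrable _ _)
    (hb.stronglyMeasurableAtFilter _ _) hb.continuousAt

lemma prim_contDiff {b : ℝ → ℝ} (hb : ContDiff ℝ ∞ b) : ContDiff ℝ ∞ (prim b) := by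
  rw [contDiff_infty_iff_deriv]
  have h := fun t => prim_hasDerivAt hb.continuous t
  refine ⟨fun t => (h t).differentiableAt, ?_⟩
  have : deriv (prim b) = b := funext fun t => (h t).deriv
  rw [this]
  exact hb

lemma prim_mono {b : ℝ → ℝ} (hb : Continuous b) (h0 : ∀ t, 0 ≤ b t) : Monotone (prim b) := by
  apply monotone_of_deriv_nonneg
  · exact fun t => (prim_hasDerivAt hb t).differentiableAt
  · intro t
    rw [(prim_hasDerivAt hb t).deriv]
    exact h0 t

lemma prim_sub {b : ℝ → ℝ} (hb : Continuous b) (x y : ℝ) : prim b y - prim b x = ∫ t in x..y, b t := by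
  unfold prim
  rw [← intervalIntegral.integral_add_adjacent_intervals (a := 0) (b := x) (c := y)
    (hb.intervalIntegrable _ _) (hb.intervalIntegrable _ _)]
  ring

lemma prim_zero (b : ℝ → ℝ) : prim b 0 = 0 := by unfold prim; simp

lemma prim_const_on {b : ℝ → ℝ} (hb : Continuous b) {x y c : ℝ} (hxy : x ≤ y)
    (h : ∀ t, x ≤ t → t ≤ y → b t = c) : prim b y - prim b x = c * (y - x) := by
  rw [prim_sub hb]
  rw [intervalIntegral.integral_congr (g := fun _ => c)]
  · simp [mul_comm]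
  · intro t ht
    rw [Set.uIcc_of_le hxy] at ht
    exact h t ht.1 ht.2

/-- the slope -/
noncomputable def bb (s η t : ℝ) : ℝ := b1 s η t * b2 η t

lemma bb_contDiff (s η : ℝ) : ContDiff ℝ ∞ (bb s η) := (b1_contDiff s η).mul (b2_contDiff η)

lemma bb_nonneg (s η t : ℝ) : 0 ≤ bb s η t := mul_nonneg (b1_nonneg _ _ _) (b2_nonneg _ _)
lemma bb_le_b1 (s η t : ℝ) : bb s η t ≤ b1 s η t :=
  mul_le_of_le_one_right (b1_nonneg _ _ _) (b2_le_one _ _)
lemma bb_le_one (s η t : ℝ) : bb s η t ≤ 1 := (bb_le_b1 _ _ _).trans (b1_le_one _ _ _)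

lemma deriv_b1_nonneg {s η : ℝ} (hη : 0 < η) (t : ℝ) : 0 ≤ deriv (b1 s η) t :=
  (b1_mono hη).deriv_nonneg

lemma deriv_bb_le {s η : ℝ} (hη : 0 < η) (t : ℝ) : deriv (bb s η) t ≤ deriv (b1 s η) t := by
  have d1 : DifferentiableAt ℝ (b1 s η) t := (b1_contDiff s η).differentiable (by simp) t
  have d2 : DifferentiableAt ℝ (b2 η) t := (b2_contDiff η).differentiable (by simp) t
  have h : deriv (bb s η) t = deriv (b1 s η) t * b2 η t + b1 s η t * deriv (b2 η) t := by
    have := (d1.hasDerivAt.mul d2.hasDerivAt).deriv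
    exact this
  rw [h]
  have h1 := deriv_b1_nonneg (s := s) hη t
  have h2 : deriv (b2 η) t ≤ 0 := (b2_anti hη).deriv_nonpos
  have h3 := b1_nonneg s η t
  have h4 := b2_le_one η t
  nlinarith [mul_nonneg h1 (sub_nonneg.2 h4), mul_nonneg h3 (neg_nonneg.2 h2)]

/-- the truncation -/
noncomputable def chi (s η : ℝ) : ℝ → ℝ := prim (bb s η)
noncomputable def chi1 (s η : ℝ) : ℝ → ℝ := prim (b1 s η)

variable {s η : ℝ}

lemma chi_mono (s η : ℝ) : Monotone (chi s η) :=
  prim_mono (bb_contDiff s η).continuous (bb_nonneg s η)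

lemma chi_zero (hη : 0 < η) {t : ℝ} (ht : -η ≤ t) : chi s η t = 0 := by
  have hc := (bb_contDiff s η).continuous
  have h0 : ∀ t, -η ≤ t → bb s η t = 0 := fun t ht => by
    unfold bb; rw [b2_zero hη ht, mul_zero]
  rcases le_total t 0 with h | h
  · have := prim_const_on hc h (c := 0) fun x hx _ => h0 x (ht.trans hx)
    rw [prim_zero] at this
    unfold chi
    linarith
  · have := prim_const_on hc h (c := 0) fun x hx _ => h0 x (by linarith)
    rw [prim_zero] at this
    unfold chi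
    linarith

lemma chi_nonpos (hη : 0 < η) (t : ℝ) : chi s η t ≤ 0 := by
  rcases le_total t 0 with h | h
  · have := chi_mono s η h
    rwa [chi_zero (s := s) hη (show -η ≤ 0 by linarith)] at this
  · rw [chi_zero hη (by linarith)]

lemma chi_left (hη : 0 < η) {t : ℝ} (ht : t ≤ -s) : chi s η t = chi s η (-s) := by
  have hc := (bb_contDiff s η).continuous
  have := prim_const_on hc ht (c := 0) fun x _ hx => by
    unfold bb; rw [b1_zero hη hx, zero_mul]
  unfold chi
  linarith

lemma chi_ge (hη : 0 < η) (hs : 0 < s) (t : ℝ) : -s ≤ chi s η t := by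
  have hc := (bb_contDiff s η).continuous
  have key : ∀ t, -s ≤ t → -s ≤ chi s η t := by
    intro t ht
    rcases le_total t 0 with h | h
    · have h1 := prim_sub hc t 0
      rw [prim_zero] at h1
      have h2 : ∫ x in t..0, bb s η x ≤ ∫ x in t..0, (1 : ℝ) :=
        intervalIntegral.integral_mono_on h (hc.intervalIntegrable _ _)
          intervalIntegrable_const fun x _ => bb_le_one s η x
      simp at h2
      unfold chi
      linarith
    · rw [chi_zero hη (by linarith)]; linarith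
  rcases le_total t (-s) with h | h
  · rw [chi_left hη h]; exact key _ le_rfl
  · exact key t h

lemma chi_deep (hη : 0 < η) (hs : 4 * η < s) {t : ℝ} (ht : t ≤ -s) : chi s η t ≤ -(s - 3 * η) := by
  have hc := (bb_contDiff s η).continuous
  have h1 : chi s η t ≤ chi s η (-s + η) := chi_mono s η (by linarith)
  have h2 := prim_const_on hc (show -s + η ≤ -(2 * η) by linarith) (c := 1) fun x hx hx' => by
    unfold bb; rw [b1_one hη hx, b2_one hη hx', one_mul]
  have h3 : chi s η (-(2 * η)) ≤ 0 := chi_nonpos hη _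
  unfold chi at *
  linarith

lemma chi1_eq (hη : 0 < η) (hs : 4 * η < s) {t : ℝ} (ht : -s + η ≤ t) : chi1 s η t = t := by
  have hc := (b1_contDiff s η).continuous
  rcases le_total t 0 with h | h
  · have := prim_const_on hc h (c := 1) fun x hx _ => b1_one hη (ht.trans hx)
    rw [prim_zero] at this
    unfold chi1
    linarith
  · have := prim_const_on hc h (c := 1) fun x hx _ => b1_one hη (by linarith)
    rw [prim_zero] at this
    unfold chi1
    linarith

end OneDim

section Main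

variable {n : ℕ}

lemma levi_zero (z : Fin n → ℂ) : levi (fun _ : Fin n → ℂ => (0 : ℝ)) z = 0 := by
  ext j k
  unfold levi hess
  simp

lemma det_levi_compactSupport (hn : 0 < n) {u : (Fin n → ℂ) → ℝ} (hc : HasCompactSupport u) :
    HasCompactSupport fun z => (levi u z).det := by
  apply HasCompactSupport.intro hc.isCompact
  intro z hz
  have h1 : u =ᶠ[𝓝 z] fun _ => 0 := by
    have := notMem_tsupport_iff_eventuallyEq.1 hz
    exact this
  rw [levi_congr h1, levi_zero]
  have : Nonempty (Fin n) := ⟨⟨0, hn⟩⟩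
  exact Matrix.det_zero

lemma det_levi_integrable (hn : 0 < n) {u : (Fin n → ℂ) → ℝ} (hu : ContDiff ℝ ∞ u)
    (hc : HasCompactSupport u) : Integrable fun z => (levi u z).det := by
  apply Continuous.integrable_of_hasCompactSupport
  · rw [← continuousOn_univ]
    exact det_levi_contOn isOpen_univ hu.contDiffOn
  · exact det_levi_compactSupport hn hc

lemma psd_theta {A : Matrix (Fin n) (Fin n) ℂ} (hA : A.PosSemidef) (p : Fin n → ℂ) {x y : ℝ}
    (hx : 0 ≤ x) (hy : 0 ≤ y) :
    (((x : ℝ) : ℂ) • A + ((y : ℝ) : ℂ) • vecMulVec (star p) p).PosSemidef := by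
  apply Matrix.PosSemidef.add
  · exact hA.smul (Complex.zero_le_real.2 hx)
  · exact (Matrix.posSemidef_vecMulVec_star_self p).smul (Complex.zero_le_real.2 hy)

lemma psd_det_re {A : Matrix (Fin n) (Fin n) ℂ} (hA : A.PosSemidef) : 0 ≤ A.det.re :=
  (Complex.nonneg_iff.1 hA.det_nonneg).1

open Classical in
theorem cutoff {n : ℕ} (hn : 0 < n) (D : Set (Fin n → ℂ)) (v : (Fin n → ℂ) → ℝ) (η s : ℝ)
    (hD : IsOpen D) (hv : SmoothPSHOn v D) (hη : 0 < η) (hs : 4 * η < s)
    (hK : IsCompact {z | z ∈ D ∧ v z ≤ -η}) :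
    ∃ (ψ g : (Fin n → ℂ) → ℝ), ContDiff ℝ ∞ ψ ∧
      (∀ z, ψ z ≠ 0 → z ∈ D ∧ v z ≤ -η) ∧
      (∀ z, -s ≤ ψ z ∧ ψ z ≤ 0) ∧
      (∀ z ∈ D, v z ≤ -s → ψ z ≤ -(s - 3 * η)) ∧
      Integrable g ∧ (∀ z, 0 ≤ g z) ∧ (∀ z, ψ z ≠ 0 → dplus (levi ψ z) ≤ g z) ∧
      ∫ z, g z ≤ ∫ z in {z | z ∈ D ∧ v z ≤ -η}, (levi v z).det.re := by
  set K : Set (Fin n → ℂ) := {z | z ∈ D ∧ v z ≤ -η} with hKdef
  have hs0 : 0 < s := by linarith
  have hKD : K ⊆ D := fun z hz => hz.1
  have hvs := hv.1
  set ψ : (Fin n → ℂ) → ℝ := fun z => if z ∈ D then chi s η (v z) else 0 with hψ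
  set θ : (Fin n → ℂ) → ℝ := fun z => chi1 s η (v z) with hθ
  set g : (Fin n → ℂ) → ℝ := K.indicator fun z => (levi θ z).det.re with hg
  have hχd := fun t => prim_hasDerivAt (bb_contDiff s η).continuous t
  have hχ1d := fun t => prim_hasDerivAt (b1_contDiff s η).continuous t
  have hψD : ∀ z ∈ D, ψ =ᶠ[𝓝 z] fun y => chi s η (v y) := by
    intro z hz
    filter_upwards [hD.mem_nhds hz] with y hy
    simp only [hψ, if_pos hy]
  have hψ0 : ∀ z ∉ K, ψ z = 0 := by
    intro z hz
    by_cases hzD : z ∈ D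
    · simp only [hψ, if_pos hzD]
      apply chi_zero hη
      by_contra hcon
      push Not at hcon
      exact hz ⟨hzD, hcon.le⟩
    · simp only [hψ, if_neg hzD]
  have hθs : ContDiffOn ℝ ∞ θ D := (prim_contDiff (b1_contDiff s η)).comp_contDiffOn hvs
  have hleviθ : ∀ z ∈ D, levi θ z = ((b1 s η (v z) : ℝ) : ℂ) • levi v z +
      ((deriv (b1 s η) (v z) : ℝ) : ℂ) • vecMulVec (star (wirt v z)) (wirt v z) := fun z hz =>
    levi_comp hD hvs hχ1d ((b1_contDiff s η).differentiable (by simp)) hz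
  have hleviψ : ∀ z ∈ D, levi ψ z = ((bb s η (v z) : ℝ) : ℂ) • levi v z +
      ((deriv (bb s η) (v z) : ℝ) : ℂ) • vecMulVec (star (wirt v z)) (wirt v z) := fun z hz => by
    rw [levi_congr (hψD z hz)]
    exact levi_comp hD hvs hχd ((bb_contDiff s η).differentiable (by simp)) hz
  have hθpsd : ∀ z ∈ D, (levi θ z).PosSemidef := by
    intro z hz
    rw [hleviθ z hz]
    exact psd_theta (hv.2 z hz) _ (b1_nonneg _ _ _) (deriv_b1_nonneg hη _)
  have hKc : IsClosed K := hK.isClosed
  have hintθ : IntegrableOn (fun z => (levi θ z).det) K :=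
    ((det_levi_contOn hD hθs).mono hKD).integrableOn_compact hK
  have hintv : IntegrableOn (fun z => (levi v z).det) K :=
    ((det_levi_contOn hD hvs).mono hKD).integrableOn_compact hK
  refine ⟨ψ, g, ?_, ?_, ?_, ?_, ?_, ?_, ?_, ?_⟩
  · rw [contDiff_iff_contDiffAt]
    intro z
    by_cases hz : z ∈ D
    · refine ContDiffAt.congr_of_eventuallyEq ?_ (hψD z hz)
      exact (prim_contDiff (bb_contDiff s η)).contDiffAt.comp z (hvs.contDiffAt (hD.mem_nhds hz))
    · have hzK : z ∈ Kᶜ := fun h => hz h.1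
      have : ψ =ᶠ[𝓝 z] fun _ => 0 := by
        filter_upwards [hKc.isOpen_compl.mem_nhds hzK] with y hy
        exact hψ0 y hy
      exact contDiffAt_const.congr_of_eventuallyEq this
  · intro z hz
    by_contra hcon
    exact hz (hψ0 z hcon)
  · intro z
    by_cases hz : z ∈ D
    · simp only [hψ, if_pos hz]
      exact ⟨chi_ge hη hs0 _, chi_nonpos hη _⟩
    · simp only [hψ, if_neg hz]
      exact ⟨by linarith, le_rfl⟩
  · intro z hz hvz
    simp only [hψ, if_pos hz]
    exact chi_deep hη hs hvz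
  · rw [hg, integrable_indicator_iff hKc.measurableSet]
    exact hintθ.re
  · intro z
    by_cases hz : z ∈ K
    · rw [hg, Set.indicator_of_mem hz]
      exact psd_det_re (hθpsd z (hKD hz))
    · rw [hg, Set.indicator_of_notMem hz]
  · intro z hz
    have hzK : z ∈ K := by
      by_contra hcon
      exact hz (hψ0 z hcon)
    rw [hg, Set.indicator_of_mem hzK]
    unfold dplus
    split_ifs with hpsd
    · apply det_re_mono _ _ hpsd
      have e : levi θ z - levi ψ z = ((b1 s η (v z) - bb s η (v z) : ℝ) : ℂ) • levi v z +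
          ((deriv (b1 s η) (v z) - deriv (bb s η) (v z) : ℝ) : ℂ) •
            vecMulVec (star (wirt v z)) (wirt v z) := by
        rw [hleviθ z hzK.1, hleviψ z hzK.1]
        push_cast
        rw [sub_smul, sub_smul]
        abel
      rw [e]
      exact psd_theta (hv.2 z hzK.1) _ (by linarith [bb_le_b1 s η (v z)])
        (by linarith [deriv_bb_le (s := s) hη (v z)])
    · exact psd_det_re (hθpsd z hzK.1)
  · -- comparison of the masses
    obtain ⟨κ, hκs, hκc, hκ1, hκ0⟩ := exists_cut hK hD hKD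
    set V : (Fin n → ℂ) → ℝ := fun z => κ z * v z with hV
    set Θ : (Fin n → ℂ) → ℝ := fun z => κ z * θ z with hΘ
    have hVs : ContDiff ℝ ∞ V := contDiff_glue hD hκs hκ0 hvs
    have hΘs : ContDiff ℝ ∞ Θ := contDiff_glue hD hκs hκ0 hθs
    have hVc : HasCompactSupport V := hκc.mul_right
    have hΘc : HasCompactSupport Θ := hκc.mul_right
    have I1 := integral_det_levi_eq_zero hn V hVs hVc
    have I2 := integral_det_levi_eq_zero hn Θ hΘs hΘc
    have hsub := integral_sub (det_levi_integrable hn hVs hVc) (det_levi_integrable hn hΘs hΘc)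
    rw [I1, I2, sub_zero] at hsub
    have hK2 : IsClosed {z | z ∈ K ∧ v z ≤ -s + η} := by
      have h1 : ContinuousOn v K := hvs.continuousOn.mono hKD
      exact h1.preimage_isClosed_of_isClosed hKc isClosed_Iic
    have hout : ∀ z ∉ K, (levi V z).det - (levi Θ z).det = 0 := by
      intro z hz
      have hVΘ : V =ᶠ[𝓝 z] Θ := by
        have hz2 : z ∈ {z | z ∈ K ∧ v z ≤ -s + η}ᶜ := fun h => hz h.1
        by_cases hzD : z ∈ D
        · filter_upwards [hK2.isOpen_compl.mem_nhds hz2, hD.mem_nhds hzD] with y hy hyD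
          have hvy : -s + η ≤ v y := by
            by_contra hcon
            push Not at hcon
            exact hy ⟨⟨hyD, by linarith⟩, hcon.le⟩
          simp only [hV, hΘ, hθ, chi1_eq hη hs hvy]
        · filter_upwards [hκ0 z hzD] with y hy
          simp only [hV, hΘ, hy, zero_mul]
      rw [levi_congr hVΘ, sub_self]
    have hset := setIntegral_eq_integral_of_forall_compl_eq_zero (μ := volume)
      (f := fun z => (levi V z).det - (levi Θ z).det) (s := K) hout
    have hVv : ∀ z ∈ K, levi V z = levi v z := by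
      intro z hz
      apply levi_congr
      filter_upwards [hκ1 z hz] with y hy
      simp only [hV, hy, one_mul]
    have hΘθ : ∀ z ∈ K, levi Θ z = levi θ z := by
      intro z hz
      apply levi_congr
      filter_upwards [hκ1 z hz] with y hy
      simp only [hΘ, hy, one_mul]
    have hcongr : ∫ z in K, ((levi V z).det - (levi Θ z).det) =
        ∫ z in K, ((levi v z).det - (levi θ z).det) := by
      apply setIntegral_congr_fun hKc.measurableSet
      intro z hz
      simp only [hVv z hz, hΘθ z hz]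
    have hfin : ∫ z in K, (levi v z).det = ∫ z in K, (levi θ z).det := by
      have h1 := integral_sub hintv hintθ
      have h2 : ∫ z in K, ((levi v z).det - (levi θ z).det) = 0 := by
        rw [← hcongr, hset, hsub]
      rw [h2] at h1
      linear_combination -h1
    have hre : ∫ z in K, (levi v z).det.re = ∫ z in K, (levi θ z).det.re := by
      have r1 := integral_re hintv
      have r2 := integral_re hintθ
      simp only [RCLike.re_to_complex] at r1 r2
      rw [r1, r2, hfin]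
    rw [hg, integral_indicator hKc.measurableSet, hre]

end Main

end Pool.Agent.Ceg
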