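import Pool.Agent.Ceg.Defs

set_option autoImplicit false

namespace Pool.Agent.Ceg

open MeasureTheory Filter Topology Set
open scoped ENNReal Real

/-! ### One complex variable -/

/-- the negative part of `log (|w|²/r²)` -/
noncomputable def hneg (r : ℝ) (w : ℂ) : ℝ := max 0 (-Real.log (‖w‖ ^ 2 / r ^ 2))

lemma hneg_nonneg (r : ℝ) (w : ℂ) : 0 ≤ hneg r w := le_max_left _ _

lemma measurable_hneg (r : ℝ) : Measurable (hneg r) := by
  unfold hneg; fun_prop

lemma lintegral_hneg (r : ℝ) (hr : 0 < r) :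
    ∫⁻ w, ENNReal.ofReal (hneg r w) ≤ ENNReal.ofReal (π * r ^ 2) := by
  rw [lintegral_eq_lintegral_meas_lt volume (Eventually.of_forall fun w => hneg_nonneg r w)
    (measurable_hneg r).aemeasurable]
  have h1 : ∀ t ∈ Ioi (0 : ℝ), volume {a : ℂ | t < hneg r a} ≤
      ENNReal.ofReal (π * r ^ 2 * Real.exp (-t)) := by
    intro t ht
    have hsub : {a : ℂ | t < hneg r a} ⊆ Metric.ball 0 (r * Real.exp (-t / 2)) := by
      intro a ha
      simp only [Set.mem_ofPred_eq, hneg, lt_max_iff] at ha
      rcases ha with ha | ha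
      · exact absurd ha (not_lt.2 (le_of_lt ht))
      · have ha' : Real.log (‖a‖ ^ 2 / r ^ 2) < -t := by linarith
        have hne : ‖a‖ ^ 2 / r ^ 2 ≠ 0 := by
          intro h0; rw [h0, Real.log_zero] at ha'
          have : (0:ℝ) < t := ht
          linarith
        have hpos : 0 < ‖a‖ ^ 2 / r ^ 2 := lt_of_le_of_ne (by positivity) (Ne.symm hne)
        have h2 : ‖a‖ ^ 2 / r ^ 2 < Real.exp (-t) := (Real.log_lt_iff_lt_exp hpos).1 ha'
        have h3 : ‖a‖ ^ 2 < (r * Real.exp (-t / 2)) ^ 2 := by
          rw [div_lt_iff₀ (by positivity)] at h2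
          have : (r * Real.exp (-t / 2)) ^ 2 = Real.exp (-t) * r ^ 2 := by
            rw [mul_pow, ← Real.exp_nat_mul]
            rw [show ((2 : ℕ) : ℝ) * (-t / 2) = -t by push_cast; ring]
            ring
          rw [this]; exact h2
        have h4 : ‖a‖ < r * Real.exp (-t / 2) := lt_of_pow_lt_pow_left₀ 2 (by positivity) h3
        simpa using h4
    refine (measure_mono hsub).trans (le_of_eq ?_)
    rw [Complex.volume_ball]
    rw [show ENNReal.ofReal (π * r ^ 2 * Real.exp (-t)) =
      ENNReal.ofReal ((r * Real.exp (-t / 2)) ^ 2) * ENNReal.ofReal π from ?_]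
    · rw [ENNReal.ofReal_pow (by positivity)]
      congr 1
      rw [← ENNReal.ofReal_coe_nnreal]; rfl
    · rw [← ENNReal.ofReal_mul (by positivity)]
      congr 1
      rw [mul_pow, ← Real.exp_nat_mul]
      rw [show ((2 : ℕ) : ℝ) * (-t / 2) = -t by push_cast; ring]
      ring
  refine (setLIntegral_mono' measurableSet_Ioi h1).trans (le_of_eq ?_)
  rw [← ofReal_integral_eq_lintegral_ofReal]
  · congr 1
    rw [integral_const_mul, integral_exp_neg_Ioi_zero, mul_one]
  · exact (exp_neg_integrableOn_Ioi 0 (by norm_num : (0:ℝ) < 1) |>.congr_fun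
      (fun x _ => by simp) measurableSet_Ioi).const_mul _
  · exact Eventually.of_forall fun t => by positivity


/-- product over a multiset of roots against `hneg` -/
lemma prod_roots_bound (r : ℝ) (hr : 0 < r) (S : Multiset ℂ) (w : ℂ) (hw : w ∉ S) :
    r ^ (2 * Multiset.card S) * Real.exp (-(Multiset.card S : ℝ)) * (1 + Multiset.card S) ≤
      (S.map fun a => ‖w - a‖ ^ 2).prod +
        r ^ (2 * Multiset.card S) * Real.exp (-(Multiset.card S : ℝ)) *
          (S.map fun a => hneg r (w - a)).sum := by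
  have key : r ^ (2 * Multiset.card S) * Real.exp (-(S.map fun a => hneg r (w - a)).sum) ≤
      (S.map fun a => ‖w - a‖ ^ 2).prod := by
    induction S using Multiset.induction_on with
    | empty => simp
    | cons a S ih =>
      have hw' : w ∉ S := fun h => hw (Multiset.mem_cons_of_mem h)
      have hwa : w ≠ a := fun h => hw (h ▸ Multiset.mem_cons_self a S)
      have ih' := ih hw'
      rw [Multiset.map_cons, Multiset.map_cons, Multiset.prod_cons, Multiset.sum_cons,
        Multiset.card_cons]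
      have hna : 0 < ‖w - a‖ := norm_pos_iff.2 (sub_ne_zero.2 hwa)
      have h1 : r ^ 2 * Real.exp (-hneg r (w - a)) ≤ ‖w - a‖ ^ 2 := by
        have hpos : 0 < ‖w - a‖ ^ 2 / r ^ 2 := by positivity
        have h2 : Real.exp (-hneg r (w - a)) ≤ ‖w - a‖ ^ 2 / r ^ 2 := by
          rw [← Real.le_log_iff_exp_le hpos]
          have : -Real.log (‖w - a‖ ^ 2 / r ^ 2) ≤ hneg r (w - a) := le_max_right _ _
          linarith
        rw [le_div_iff₀ (by positivity)] at h2
        linarith
      have h3 : r ^ (2 * (Multiset.card S + 1)) *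
          Real.exp (-(hneg r (w - a) + (S.map fun a => hneg r (w - a)).sum)) =
          (r ^ 2 * Real.exp (-hneg r (w - a))) * (r ^ (2 * Multiset.card S) *
            Real.exp (-(S.map fun a => hneg r (w - a)).sum)) := by
        rw [neg_add, Real.exp_add]; ring
      rw [h3]
      exact mul_le_mul h1 ih' (by positivity) (by positivity)
  set H := (S.map fun a => hneg r (w - a)).sum with hH
  set j := Multiset.card S with hj
  have h4 : Real.exp (-(j : ℝ)) * (1 + j - H) ≤ Real.exp (-H) := by
    have h5 := Real.add_one_le_exp ((j : ℝ) - H)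
    have h6 : Real.exp (-H) = Real.exp (-(j : ℝ)) * Real.exp ((j : ℝ) - H) := by
      rw [← Real.exp_add]; congr 1; ring
    rw [h6]
    exact mul_le_mul_of_nonneg_left (by linarith) (Real.exp_pos _).le
  have h7 : r ^ (2 * j) * (Real.exp (-(j : ℝ)) * (1 + j - H)) ≤ r ^ (2 * j) * Real.exp (-H) :=
    mul_le_mul_of_nonneg_left h4 (by positivity)
  nlinarith [key, h7]

/-- A monic polynomial is large in mean square on any set of area at least `π r²`. -/
lemma one_dim_monic (r : ℝ) (hr : 0 < r) (E : Set ℂ)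
    (hE : ENNReal.ofReal (π * r ^ 2) ≤ volume E) (q : Polynomial ℂ) (hq : q.Monic) :
    ENNReal.ofReal (π * r ^ 2 * (r ^ (2 * q.natDegree) * Real.exp (-(q.natDegree : ℝ)))) ≤
      ∫⁻ w in E, ‖q.eval w‖ₑ ^ 2 := by
  set j := q.natDegree with hj
  set c : ℝ := r ^ (2 * j) * Real.exp (-(j : ℝ)) with hc
  have hc0 : 0 < c := by positivity
  have hsplit : q.Splits := IsAlgClosed.splits q
  have hcard : Multiset.card q.roots = j := hsplit.natDegree_eq_card_roots.symm
  have hprod : ∀ w, ‖q.eval w‖ ^ 2 = (q.roots.map fun a => ‖w - a‖ ^ 2).prod := by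
    intro w
    rw [hsplit.eval_eq_prod_roots_of_monic hq]
    generalize q.roots = S
    induction S using Multiset.induction_on with
    | empty => simp
    | cons a S ih => simp [mul_pow, ih]
  -- pointwise inequality
  have hpt : ∀ᵐ w ∂(volume.restrict E), ENNReal.ofReal (c * (1 + j)) ≤
      ‖q.eval w‖ₑ ^ 2 + ENNReal.ofReal c *
        (q.roots.map fun a => ENNReal.ofReal (hneg r (w - a))).sum := by
    have hfin : (volume : Measure ℂ) {w | w ∈ q.roots} = 0 :=
      (Set.Finite.ofFinset q.roots.toFinset (fun w => by simp)).measure_zero _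
    have hae : ∀ᵐ w ∂(volume : Measure ℂ), w ∉ q.roots := by
      rw [ae_iff]; simpa using hfin
    filter_upwards [ae_restrict_of_ae hae] with w hw
    have h := prod_roots_bound r hr q.roots w hw
    rw [hcard, ← hprod] at h
    have hsum : (q.roots.map fun a => ENNReal.ofReal (hneg r (w - a))).sum =
        ENNReal.ofReal (q.roots.map fun a => hneg r (w - a)).sum := by
      generalize q.roots = S
      induction S using Multiset.induction_on with
      | empty => simp
      | cons a S ih =>
        rw [Multiset.map_cons, Multiset.sum_cons, Multiset.map_cons, Multiset.sum_cons, ih,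
          ENNReal.ofReal_add (hneg_nonneg _ _)]
        exact Multiset.sum_nonneg (by
          intro x hx
          obtain ⟨a, -, rfl⟩ := Multiset.mem_map.1 hx
          exact hneg_nonneg _ _)
    have hn : ‖q.eval w‖ₑ ^ 2 = ENNReal.ofReal (‖q.eval w‖ ^ 2) := by
      rw [ENNReal.ofReal_pow (norm_nonneg _), ofReal_norm]
    rw [hsum, hn, ← ENNReal.ofReal_mul hc0.le, ← ENNReal.ofReal_add (by positivity)]
    · exact ENNReal.ofReal_le_ofReal (by rw [hc]; exact h)
    · exact mul_nonneg hc0.le (Multiset.sum_nonneg (by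
          intro x hx
          obtain ⟨a, -, rfl⟩ := Multiset.mem_map.1 hx
          exact hneg_nonneg _ _))
  have hint := lintegral_mono_ae hpt
  rw [lintegral_const, Measure.restrict_apply_univ] at hint
  have hmeas : ∀ a : ℂ, Measurable fun w => ENNReal.ofReal (hneg r (w - a)) := fun a =>
    ENNReal.measurable_ofReal.comp ((measurable_hneg r).comp (measurable_id.sub_const a))
  have hqm : Measurable fun w => ‖q.eval w‖ₑ ^ 2 :=
    (q.continuous.measurable.enorm).pow_const 2
  rw [lintegral_add_left hqm, lintegral_const_mul'] at hint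
  swap; · exact ENNReal.ofReal_ne_top
  have hsumle : ∫⁻ w in E, (q.roots.map fun a => ENNReal.ofReal (hneg r (w - a))).sum ≤
      j * ENNReal.ofReal (π * r ^ 2) := by
    rw [← hcard]
    generalize q.roots = S
    induction S using Multiset.induction_on with
    | empty => simp
    | cons a S ih =>
      simp only [Multiset.map_cons, Multiset.sum_cons, Multiset.card_cons]
      rw [lintegral_add_left (hmeas a)]
      push_cast
      rw [add_mul, one_mul, add_comm]
      refine add_le_add ih ?_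
      calc ∫⁻ w in E, ENNReal.ofReal (hneg r (w - a))
          ≤ ∫⁻ w, ENNReal.ofReal (hneg r (w - a)) := setLIntegral_le_lintegral _ _
        _ = ∫⁻ w, ENNReal.ofReal (hneg r w) :=
            lintegral_sub_right_eq_self (fun w => ENNReal.ofReal (hneg r w)) a
        _ ≤ _ := lintegral_hneg r hr
  have h1 : ENNReal.ofReal (c * (1 + j)) * ENNReal.ofReal (π * r ^ 2) ≤
      (∫⁻ w in E, ‖q.eval w‖ₑ ^ 2) + ENNReal.ofReal c * (j * ENNReal.ofReal (π * r ^ 2)) :=
    (mul_le_mul_right hE _).trans (hint.trans (add_le_add le_rfl (mul_le_mul_right hsumle _)))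
  have h2 : ENNReal.ofReal (c * (1 + j)) * ENNReal.ofReal (π * r ^ 2) =
      ENNReal.ofReal (π * r ^ 2 * c) + ENNReal.ofReal c * (j * ENNReal.ofReal (π * r ^ 2)) := by
    rw [← ENNReal.ofReal_natCast j, ← ENNReal.ofReal_mul (by positivity),
      ← ENNReal.ofReal_mul (by positivity), ← ENNReal.ofReal_mul (by positivity),
      ← ENNReal.ofReal_add (by positivity) (by positivity)]
    congr 1; ring
  rw [h2] at h1
  exact (ENNReal.add_le_add_iff_right (ENNReal.mul_ne_top ENNReal.ofReal_ne_top
    (ENNReal.mul_ne_top (ENNReal.natCast_ne_top j) ENNReal.ofReal_ne_top))).1 h1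


lemma one_dim (r : ℝ) (hr : 0 < r) (E : Set ℂ) (hE : ENNReal.ofReal (π * r ^ 2) ≤ volume E)
    (j : ℕ) (b : ℂ) (c : ℕ → ℂ) :
    ENNReal.ofReal (π * r ^ 2 * (r ^ (2 * j) * Real.exp (-(j : ℝ)))) * ‖b‖ₑ ^ 2 ≤
      ∫⁻ w in E, ‖b * w ^ j + ∑ l ∈ Finset.range j, c l * w ^ l‖ₑ ^ 2 := by
  by_cases hb : b = 0
  · simp [hb]
  set p : Polynomial ℂ := ∑ l ∈ Finset.range j, Polynomial.C (c l / b) * Polynomial.X ^ l with hp
  have hdeg : p.degree < (j : ℕ) := by
    rw [← Polynomial.mem_degreeLT, hp]
    refine Submodule.sum_mem _ fun l hl => ?_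
    rw [Polynomial.mem_degreeLT]
    refine (Polynomial.degree_C_mul_X_pow_le _ _).trans_lt ?_
    exact_mod_cast Finset.mem_range.1 hl
  have hmonic : (Polynomial.X ^ j + p).Monic := Polynomial.monic_X_pow_add hdeg
  have hnat : (Polynomial.X ^ j + p).natDegree = j := by
    apply Polynomial.natDegree_eq_of_degree_eq_some
    rw [Polynomial.degree_add_eq_left_of_degree_lt (by rwa [Polynomial.degree_X_pow]),
      Polynomial.degree_X_pow]
  have h := one_dim_monic r hr E hE _ hmonic
  rw [hnat] at h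
  have heval : ∀ w : ℂ, b * w ^ j + ∑ l ∈ Finset.range j, c l * w ^ l =
      b * (Polynomial.X ^ j + p).eval w := by
    intro w
    rw [hp, Polynomial.eval_add, Polynomial.eval_pow, Polynomial.eval_X,
      Polynomial.eval_finsetSum, mul_add, Finset.mul_sum]
    congr 1
    refine Finset.sum_congr rfl fun l _ => ?_
    rw [Polynomial.eval_mul, Polynomial.eval_C, Polynomial.eval_pow, Polynomial.eval_X,
      ← mul_assoc, mul_div_cancel₀ _ hb]
  simp_rw [heval, enorm_mul, mul_pow]
  rw [lintegral_const_mul' _ _ (by simp), mul_comm]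
  exact mul_le_mul_right h _

/-! ### Measurability and closedness -/

/-- the lower bound in `goodSet` -/
noncomputable def lowBound {n : ℕ} (α : Fin n → ℕ) (x : Fin n → ℝ) : ℝ :=
  π ^ n * Real.exp (-∑ i, (α i : ℝ)) * ∏ i, x i ^ (α i + 1)

lemma measurableSet_goodSet {n : ℕ} (K : Set (Fin n → ℂ)) : MeasurableSet (goodSet K) := by
  have h : goodSet K = {x : Fin n → ℝ | ∀ i, 0 < x i} ∩
      ⋂ (α : Fin n → ℕ), ⋂ (f : (Fin n → ℂ) → ℂ), ⋂ (_ : LexMonic n α f), ⋂ (_ : Measurable f),
        {x : Fin n → ℝ | ENNReal.ofReal (lowBound α x) ≤ ∫⁻ z in K, ‖f z‖ₑ ^ 2} := by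
    ext x
    simp only [goodSet, Set.mem_inter_iff, Set.mem_iInter, Set.mem_ofPred_eq, lowBound]
  rw [h]
  refine MeasurableSet.inter ?_ (IsClosed.measurableSet ?_)
  · have : {x : Fin n → ℝ | ∀ i, 0 < x i} = ⋂ i, {x | 0 < x i} := by ext; simp
    rw [this]
    exact MeasurableSet.iInter fun i => measurableSet_lt measurable_const (measurable_pi_apply i)
  · refine isClosed_iInter fun α => isClosed_iInter fun f => isClosed_iInter fun _ =>
      isClosed_iInter fun _ => ?_
    refine isClosed_le (ENNReal.continuous_ofReal.comp ?_) continuous_const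
    unfold lowBound
    fun_prop

/-! ### Slicing -/

/-- the section of `K` at `z'` -/
def sect {n : ℕ} (K : Set (Fin (n + 1) → ℂ)) (z : Fin n → ℂ) : Set ℂ := {w | Fin.cons w z ∈ K}

lemma measurable_cons {n : ℕ} :
    Measurable fun p : ℂ × (Fin n → ℂ) => (Fin.cons p.1 p.2 : Fin (n + 1) → ℂ) := by
  rw [measurable_pi_iff]
  intro i
  refine Fin.cases ?_ (fun i => ?_) i
  · simpa using measurable_fst
  · have h : Measurable fun x : ℂ × (Fin n → ℂ) => x.2 i :=
      (measurable_pi_apply i).comp measurable_snd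
    simpa using h

lemma measurable_tail {n : ℕ} : Measurable fun z : Fin (n + 1) → ℂ => Fin.tail z := by
  rw [measurable_pi_iff]
  intro i
  exact measurable_pi_apply _

lemma lintegral_cons {n : ℕ} (F : (Fin (n + 1) → ℂ) → ℝ≥0∞) (hF : Measurable F) :
    ∫⁻ z, F z = ∫⁻ z : Fin n → ℂ, ∫⁻ w : ℂ, F (Fin.cons w z) := by
  have hmp := (volume_preserving_piFinSuccAbove (fun _ : Fin (n + 1) => ℂ) 0).symm
  rw [← hmp.lintegral_comp hF]
  have hG : Measurable fun p : ℂ × (Fin n → ℂ) => F (Fin.cons p.1 p.2) :=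
    hF.comp measurable_cons
  have heq : ∀ p : ℂ × (Fin n → ℂ),
      F ((MeasurableEquiv.piFinSuccAbove (fun _ : Fin (n + 1) => ℂ) 0).symm p) =
        F (Fin.cons p.1 p.2) := by
    intro p
    congr 1
    exact Fin.insertNth_zero' p.1 p.2
  simp_rw [heq]
  exact lintegral_prod_symm' _ hG

lemma volume_sect {n : ℕ} (K : Set (Fin (n + 1) → ℂ)) (hK : MeasurableSet K) :
    volume K = ∫⁻ z : Fin n → ℂ, volume (sect K z) ∧
      Measurable fun z : Fin n → ℂ => volume (sect K z) := by
  have hind : Measurable (K.indicator (fun _ => (1 : ℝ≥0∞))) := measurable_const.indicator hK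
  have hsm : ∀ z : Fin n → ℂ, MeasurableSet (sect K z) := fun z =>
    (measurable_cons.comp (measurable_id.prodMk measurable_const)) hK
  have hsec : ∀ z : Fin n → ℂ, ∫⁻ w : ℂ, K.indicator (fun _ => (1 : ℝ≥0∞)) (Fin.cons w z) =
      volume (sect K z) := by
    intro z
    have : ∀ w : ℂ, K.indicator (fun _ => (1 : ℝ≥0∞)) (Fin.cons w z) =
        (sect K z).indicator (fun _ => (1 : ℝ≥0∞)) w := by
      intro w
      by_cases h : (Fin.cons w z : Fin (n + 1) → ℂ) ∈ K
      · rw [Set.indicator_of_mem h, Set.indicator_of_mem (by exact h)]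
      · rw [Set.indicator_of_notMem h, Set.indicator_of_notMem (by exact h)]
    simp_rw [this]
    rw [lintegral_indicator (hsm z)]; simp
  refine ⟨?_, ?_⟩
  · rw [← lintegral_indicator_one hK]
    have := lintegral_cons _ hind
    simp only [hsec] at this
    exact this
  · simp_rw [← hsec]
    exact Measurable.lintegral_prod_left' (hind.comp measurable_cons)

lemma lintegral_sect {n : ℕ} (K : Set (Fin (n + 1) → ℂ)) (hK : MeasurableSet K)
    (F : (Fin (n + 1) → ℂ) → ℝ≥0∞) (hF : Measurable F) :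
    ∫⁻ z in K, F z = ∫⁻ z : Fin n → ℂ, ∫⁻ w in sect K z, F (Fin.cons w z) := by
  rw [← lintegral_indicator hK, lintegral_cons _ (hF.indicator hK)]
  refine lintegral_congr fun z => ?_
  have hsm : MeasurableSet (sect K z) :=
    (measurable_cons.comp (measurable_id.prodMk measurable_const)) hK
  rw [← lintegral_indicator hsm]
  refine lintegral_congr fun w => ?_
  by_cases h : (Fin.cons w z : Fin (n + 1) → ℂ) ∈ K
  · rw [Set.indicator_of_mem h, Set.indicator_of_mem (by exact h)]
  · rw [Set.indicator_of_notMem h, Set.indicator_of_notMem (by exact h)]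


/-- the `z'` whose section has area at least `π u` -/
def bigSect {n : ℕ} (K : Set (Fin (n + 1) → ℂ)) (u : ℝ) : Set (Fin n → ℂ) :=
  {z | ENNReal.ofReal (π * u) ≤ volume (sect K z)}

lemma measurableSet_bigSect {n : ℕ} (K : Set (Fin (n + 1) → ℂ)) (hK : MeasurableSet K) (u : ℝ) :
    MeasurableSet (bigSect K u) :=
  measurableSet_le measurable_const (volume_sect K hK).2

lemma lexMonic_measurable {n : ℕ} {α : Fin n → ℕ} {f : (Fin n → ℂ) → ℂ} (h : LexMonic n α f) :
    Measurable f := by
  cases n with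
  | zero =>
    have : f = fun _ => 1 := funext h
    rw [this]; exact measurable_const
  | succ n =>
    obtain ⟨g, c, -, hg, hc, hf⟩ := h
    have : f = fun z => g (Fin.tail z) * z 0 ^ α 0 +
        ∑ l ∈ Finset.range (α 0), c l (Fin.tail z) * z 0 ^ l := funext hf
    rw [this]
    refine ((hg.comp measurable_tail).mul ((measurable_pi_apply 0).pow_const _)).add ?_
    exact Finset.measurable_sum _ fun l _ =>
      ((hc l).comp measurable_tail).mul ((measurable_pi_apply 0).pow_const _)

lemma good_cons {n : ℕ} (K : Set (Fin (n + 1) → ℂ)) (hK : MeasurableSet K) (u : ℝ) (hu : 0 < u)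
    (x : Fin n → ℝ) (hx : x ∈ goodSet (bigSect K u)) :
    (Fin.cons u x : Fin (n + 1) → ℝ) ∈ goodSet K := by
  obtain ⟨hx0, hx1⟩ := hx
  refine ⟨fun i => ?_, fun α f hf hfm => ?_⟩
  · refine Fin.cases ?_ (fun i => ?_) i
    · simpa using hu
    · simpa using hx0 i
  obtain ⟨g, c, hg, hgm, hcm, hfz⟩ := hf
  have h1 := hx1 (Fin.tail α) g hg hgm
  have hF : Measurable fun z => ‖f z‖ₑ ^ 2 := (hfm.enorm).pow_const 2
  rw [lintegral_sect K hK _ hF]
  set a : ℝ := π * u * (u ^ α 0 * Real.exp (-(α 0 : ℝ))) with ha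
  have h2 : ∀ z ∈ bigSect K u, ENNReal.ofReal a * ‖g z‖ₑ ^ 2 ≤
      ∫⁻ w in sect K z, ‖f (Fin.cons w z)‖ₑ ^ 2 := by
    intro z hz
    have hr : 0 < Real.sqrt u := Real.sqrt_pos.2 hu
    have hr2 : Real.sqrt u ^ 2 = u := Real.sq_sqrt hu.le
    have h3 := one_dim (Real.sqrt u) hr (sect K z) (by rw [hr2]; exact hz) (α 0) (g z)
      (fun l => c l z)
    have hexp : ∀ w : ℂ, f (Fin.cons w z) =
        g z * w ^ α 0 + ∑ l ∈ Finset.range (α 0), c l z * w ^ l := by
      intro w
      rw [hfz]; simp [Fin.tail_cons]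
    simp_rw [hexp]
    rw [pow_mul, hr2] at h3
    exact h3
  calc ENNReal.ofReal (π ^ (n + 1) * Real.exp (-∑ i, (α i : ℝ)) *
        ∏ i, (Fin.cons u x : Fin (n + 1) → ℝ) i ^ (α i + 1))
      = ENNReal.ofReal a * ENNReal.ofReal (π ^ n * Real.exp (-∑ i, (Fin.tail α i : ℝ)) *
        ∏ i, x i ^ (Fin.tail α i + 1)) := by
        rw [← ENNReal.ofReal_mul (by positivity)]
        congr 1
        rw [Fin.sum_univ_succ, Fin.prod_univ_succ, neg_add, Real.exp_add]
        simp only [Fin.cons_zero, Fin.cons_succ, Fin.tail]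
        rw [ha]; ring
    _ ≤ ENNReal.ofReal a * ∫⁻ z in bigSect K u, ‖g z‖ₑ ^ 2 := mul_le_mul_right h1 _
    _ = ∫⁻ z in bigSect K u, ENNReal.ofReal a * ‖g z‖ₑ ^ 2 :=
        (lintegral_const_mul' _ _ ENNReal.ofReal_ne_top).symm
    _ ≤ ∫⁻ z in bigSect K u, ∫⁻ w in sect K z, ‖f (Fin.cons w z)‖ₑ ^ 2 :=
        setLIntegral_mono' (measurableSet_bigSect K hK u) h2
    _ ≤ _ := setLIntegral_le_lintegral _ _

lemma volume_cons_real {n : ℕ} (S : Set (Fin (n + 1) → ℝ)) (hS : MeasurableSet S) :
    volume S = ∫⁻ u : ℝ, volume {x : Fin n → ℝ | (Fin.cons u x : Fin (n + 1) → ℝ) ∈ S} := by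
  have hmp := (volume_preserving_piFinSuccAbove (fun _ : Fin (n + 1) => ℝ) 0).symm
  rw [← hmp.measure_preimage hS.nullMeasurableSet]
  rw [Measure.volume_eq_prod, Measure.prod_apply (hmp.measurable hS)]
  refine lintegral_congr fun u => ?_
  congr 1
  ext x
  simp only [Set.mem_preimage, Set.mem_ofPred_eq]
  rw [show (MeasurableEquiv.piFinSuccAbove (fun _ : Fin (n + 1) => ℝ) 0).symm (u, x) =
    (Fin.cons u x : Fin (n + 1) → ℝ) from Fin.insertNth_zero' u x]

lemma le_pi_mul_volume (h : ℝ≥0∞) :
    h ≤ ENNReal.ofReal π * ∫⁻ u in Ioi (0 : ℝ), {u : ℝ | ENNReal.ofReal (π * u) ≤ h}.indicator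
      (fun _ => (1 : ℝ≥0∞)) u := by
  have hm : MeasurableSet {u : ℝ | ENNReal.ofReal (π * u) ≤ h} :=
    measurableSet_le (by fun_prop) measurable_const
  rw [lintegral_indicator hm, setLIntegral_one, Measure.restrict_apply hm]
  by_cases ht : h = ⊤
  · subst ht
    simp [ENNReal.mul_top, Real.pi_pos]
  · obtain ⟨a, ha0, rfl⟩ : ∃ a : ℝ, 0 ≤ a ∧ h = ENNReal.ofReal a :=
      ⟨h.toReal, ENNReal.toReal_nonneg, (ENNReal.ofReal_toReal ht).symm⟩
    have hsub : Ioc 0 (a / π) ⊆ {u : ℝ | ENNReal.ofReal (π * u) ≤ ENNReal.ofReal a} ∩ Ioi 0 := by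
      intro u hu
      refine ⟨ENNReal.ofReal_le_ofReal ?_, hu.1⟩
      have := hu.2
      rw [le_div_iff₀ Real.pi_pos] at this
      linarith
    calc ENNReal.ofReal a = ENNReal.ofReal π * volume (Ioc 0 (a / π)) := by
          rw [Real.volume_Ioc, ← ENNReal.ofReal_mul Real.pi_pos.le]
          congr 1
          field_simp
          ring
      _ ≤ _ := mul_le_mul_right (measure_mono hsub) _

theorem slice (n : ℕ) (K : Set (Fin n → ℂ)) (hK : MeasurableSet K) :
    MeasurableSet (goodSet K) ∧ volume K ≤ ENNReal.ofReal (π ^ n) * volume (goodSet K) := by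
  refine ⟨measurableSet_goodSet K, ?_⟩
  induction n with
  | zero =>
    rcases K.eq_empty_or_nonempty with rfl | ⟨z, hz⟩
    · simp
    · have hvC : volume (univ : Set (Fin 0 → ℂ)) = 1 := by
        rw [volume_pi, Measure.pi_of_empty]; simp
      have hvR : volume (univ : Set (Fin 0 → ℝ)) = 1 := by
        rw [volume_pi, Measure.pi_of_empty]; simp
      have hKu : K = univ := by
        ext w; simp [Subsingleton.elim w z, hz]
      have hG : goodSet K = univ := by
        ext x
        simp only [goodSet, Set.mem_ofPred_eq, Set.mem_univ, iff_true]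
        refine ⟨fun i => i.elim0, fun α f hf _ => ?_⟩
        have hf' : f = fun _ => 1 := funext hf
        subst hf'
        simp [hKu, hvC]
      rw [hG, hKu, hvC, hvR]
      simp
  | succ n ih =>
    have hmeas2 : Measurable fun p : (Fin n → ℂ) × ℝ =>
        ({u : ℝ | ENNReal.ofReal (π * u) ≤ volume (sect K p.1)}.indicator
          (fun _ => (1 : ℝ≥0∞)) p.2) := by
      have hset : MeasurableSet {p : (Fin n → ℂ) × ℝ |
          ENNReal.ofReal (π * p.2) ≤ volume (sect K p.1)} :=
        measurableSet_le (by fun_prop) ((volume_sect K hK).2.comp measurable_fst)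
      have hi : Measurable ({p : (Fin n → ℂ) × ℝ |
          ENNReal.ofReal (π * p.2) ≤ volume (sect K p.1)}.indicator (fun _ => (1 : ℝ≥0∞))) :=
        Measurable.indicator measurable_const hset
      exact hi
    calc volume K = ∫⁻ z : Fin n → ℂ, volume (sect K z) := (volume_sect K hK).1
      _ ≤ ∫⁻ z : Fin n → ℂ, ENNReal.ofReal π * ∫⁻ u in Ioi (0 : ℝ),
            {u : ℝ | ENNReal.ofReal (π * u) ≤ volume (sect K z)}.indicator
              (fun _ => (1 : ℝ≥0∞)) u := lintegral_mono fun z => le_pi_mul_volume _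
      _ = ENNReal.ofReal π * ∫⁻ z : Fin n → ℂ, ∫⁻ u in Ioi (0 : ℝ),
            {u : ℝ | ENNReal.ofReal (π * u) ≤ volume (sect K z)}.indicator
              (fun _ => (1 : ℝ≥0∞)) u := lintegral_const_mul' _ _ ENNReal.ofReal_ne_top
      _ = ENNReal.ofReal π * ∫⁻ u in Ioi (0 : ℝ), ∫⁻ z : Fin n → ℂ,
            {u : ℝ | ENNReal.ofReal (π * u) ≤ volume (sect K z)}.indicator
              (fun _ => (1 : ℝ≥0∞)) u := by
          congr 1
          exact lintegral_lintegral_swap hmeas2.aemeasurable
      _ = ENNReal.ofReal π * ∫⁻ u in Ioi (0 : ℝ), volume (bigSect K u) := by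
          congr 1
          refine lintegral_congr fun u => ?_
          rw [← lintegral_indicator_one (measurableSet_bigSect K hK u)]
          refine lintegral_congr fun z => ?_
          by_cases h : ENNReal.ofReal (π * u) ≤ volume (sect K z)
          · rw [Set.indicator_of_mem (by exact h), Set.indicator_of_mem (by exact h)]; rfl
          · rw [Set.indicator_of_notMem (by exact h), Set.indicator_of_notMem (by exact h)]
      _ ≤ ENNReal.ofReal π * ∫⁻ u in Ioi (0 : ℝ), ENNReal.ofReal (π ^ n) *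
            volume {x : Fin n → ℝ | (Fin.cons u x : Fin (n + 1) → ℝ) ∈ goodSet K} := by
          refine mul_le_mul_right (setLIntegral_mono' measurableSet_Ioi fun u hu => ?_) _
          refine (ih (bigSect K u) (measurableSet_bigSect K hK u)).trans ?_
          exact mul_le_mul_right (measure_mono fun x hx => good_cons K hK u hu x hx) _
      _ = ENNReal.ofReal (π ^ (n + 1)) * ∫⁻ u in Ioi (0 : ℝ),
            volume {x : Fin n → ℝ | (Fin.cons u x : Fin (n + 1) → ℝ) ∈ goodSet K} := by
          rw [lintegral_const_mul' _ _ ENNReal.ofReal_ne_top, ← mul_assoc,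
            ← ENNReal.ofReal_mul Real.pi_pos.le, ← pow_succ']
      _ ≤ ENNReal.ofReal (π ^ (n + 1)) * volume (goodSet K) := by
          refine mul_le_mul_right ?_ _
          rw [volume_cons_real _ (measurableSet_goodSet K)]
          exact setLIntegral_le_lintegral _ _

end Pool.Agent.Ceg
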