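import Pool.Agent.Ceg.Defs

set_option autoImplicit false

namespace Pool.Agent.Ceg

open MeasureTheory Matrix Filter Topology
open scoped ContDiff ENNReal Real ComplexOrder

/-! ## Moments of the uniform distribution on compositions -/

theorem tor_raise (n d : ℕ) (i : Fin n) (F : (Fin n → ℕ) → ℝ) :
    ∑ α ∈ Finset.Nat.antidiagonalTuple n d, ((α i : ℝ) + 1) * F (α + Pi.single i 1) =
      ∑ β ∈ Finset.Nat.antidiagonalTuple n (d + 1), (β i : ℝ) * F β := by
  classical
  rw [← Finset.sum_filter_add_sum_filter_not (Finset.Nat.antidiagonalTuple n (d + 1))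
    (fun β => β i ≠ 0)]
  have h0 : ∑ β ∈ (Finset.Nat.antidiagonalTuple n (d + 1)).filter (fun β => ¬ β i ≠ 0),
      (β i : ℝ) * F β = 0 := by
    apply Finset.sum_eq_zero
    intro β hβ
    have : β i = 0 := by simpa using (Finset.mem_filter.mp hβ).2
    simp [this]
  rw [h0, add_zero]
  refine Finset.sum_bij (fun α _ => α + Pi.single i 1) ?_ ?_ ?_ ?_
  · intro α hα
    rw [Finset.Nat.mem_antidiagonalTuple] at hα
    rw [Finset.mem_filter, Finset.Nat.mem_antidiagonalTuple]
    constructor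
    · simp [Finset.sum_add_distrib, hα]
    · simp
  · intro α _ β _ h
    exact add_right_cancel h
  · intro β hβ
    rw [Finset.mem_filter, Finset.Nat.mem_antidiagonalTuple] at hβ
    have hle : (Pi.single i 1 : Fin n → ℕ) ≤ β := by
      intro j
      by_cases hj : j = i
      · subst hj
        simpa [Nat.one_le_iff_ne_zero] using hβ.2
      · simp [hj]
    refine ⟨β - Pi.single i 1, ?_, tsub_add_cancel_of_le hle⟩
    rw [Finset.Nat.mem_antidiagonalTuple]
    have h2 : ∑ j, ((β - Pi.single i 1 : Fin n → ℕ) + (Pi.single i 1 : Fin n → ℕ)) j = d + 1 := by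
      rw [tsub_add_cancel_of_le hle]; exact hβ.1
    simp only [Pi.add_apply, Finset.sum_add_distrib] at h2
    have h3 : ∑ j, (Pi.single i 1 : Fin n → ℕ) j = 1 := by simp
    rw [h3] at h2
    exact Nat.add_right_cancel h2
  · intro α _
    simp

theorem tor_raise_sum (n d : ℕ) (F : (Fin n → ℕ) → ℝ) :
    ∑ α ∈ Finset.Nat.antidiagonalTuple n d, ∑ i, ((α i : ℝ) + 1) * F (α + Pi.single i 1) =
      (d + 1) * ∑ β ∈ Finset.Nat.antidiagonalTuple n (d + 1), F β := by
  classical
  rw [Finset.sum_comm]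
  simp_rw [tor_raise n d]
  rw [Finset.sum_comm, Finset.mul_sum]
  refine Finset.sum_congr rfl fun β hβ => ?_
  rw [Finset.Nat.mem_antidiagonalTuple] at hβ
  rw [← Finset.sum_mul, ← Nat.cast_sum, hβ]
  push_cast
  ring

theorem tor_sum_add_one {n d : ℕ} {α : Fin n → ℕ} (hα : α ∈ Finset.Nat.antidiagonalTuple n d) :
    ∑ i, ((α i : ℝ) + 1) = d + n := by
  rw [Finset.Nat.mem_antidiagonalTuple] at hα
  rw [Finset.sum_add_distrib, ← Nat.cast_sum, hα]
  simp

theorem tor_card (n d : ℕ) :
    ((d : ℝ) + 1) * ((Finset.Nat.antidiagonalTuple n (d + 1)).card : ℝ) =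
      (d + n) * ((Finset.Nat.antidiagonalTuple n d).card : ℝ) := by
  have h := tor_raise_sum n d (fun _ => 1)
  simp only [mul_one, Finset.sum_const, nsmul_eq_mul] at h
  rw [← h, Finset.sum_congr rfl fun α hα => tor_sum_add_one hα]
  simp only [Finset.sum_const, nsmul_eq_mul]
  ring

theorem tor_mom1 (n : ℕ) (hn : 0 < n) (d : ℕ) (j : Fin n) :
    ∑ α ∈ Finset.Nat.antidiagonalTuple n d, (α j : ℝ) =
      (Finset.Nat.antidiagonalTuple n d).card * (d / n) := by
  classical
  have hn' : (n : ℝ) ≠ 0 := by positivity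
  induction d with
  | zero =>
    have : ∀ α ∈ Finset.Nat.antidiagonalTuple n 0, (α j : ℝ) = 0 := by
      intro α hα
      rw [Finset.Nat.mem_antidiagonalTuple] at hα
      have := (Finset.sum_eq_zero_iff.mp hα) j (Finset.mem_univ j)
      exact_mod_cast this
    rw [Finset.sum_eq_zero this]
    simp
  | succ d ih =>
    have h := tor_raise_sum n d (fun β => (β j : ℝ))
    have h1 : ∀ α ∈ Finset.Nat.antidiagonalTuple n d,
        ∑ i, ((α i : ℝ) + 1) * (((α + Pi.single i 1 : Fin n → ℕ) j : ℕ) : ℝ) =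
          (d + n + 1) * (α j : ℝ) + 1 := by
      intro α hα
      have : ∀ i, ((α i : ℝ) + 1) * (((α + Pi.single i 1 : Fin n → ℕ) j : ℕ) : ℝ) =
          ((α i : ℝ) + 1) * (α j : ℝ) + if i = j then ((α i : ℝ) + 1) else 0 := by
        intro i
        by_cases hij : i = j
        · subst hij; simp; ring
        · simp [hij, Ne.symm hij]
      simp_rw [this]
      rw [Finset.sum_add_distrib, ← Finset.sum_mul, tor_sum_add_one hα]
      simp
      ring
    rw [Finset.sum_congr rfl h1, Finset.sum_add_distrib, ← Finset.mul_sum, ih] at h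
    simp only [Finset.sum_const, nsmul_eq_mul, mul_one] at h
    have hc := tor_card n d
    have hd : ((d : ℝ) + 1) ≠ 0 := by positivity
    apply mul_left_cancel₀ hd
    rw [← h]
    push_cast
    have : ((d : ℝ) + 1) * (((Finset.Nat.antidiagonalTuple n (d + 1)).card : ℝ) * ((d + 1) / n)) =
        (((d : ℝ) + 1) * ((Finset.Nat.antidiagonalTuple n (d + 1)).card : ℝ)) * ((d + 1) / n) := by
      ring
    rw [this, hc]
    field_simp
    ring

theorem tor_mom2 (n : ℕ) (hn : 0 < n) (d : ℕ) (j l : Fin n) :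
    ∑ α ∈ Finset.Nat.antidiagonalTuple n d, (α j : ℝ) * (α l : ℝ) =
      (Finset.Nat.antidiagonalTuple n d).card *
        (d * (d - 1) / (n * (n + 1)) * (1 + if j = l then 1 else 0) +
          (if j = l then 1 else 0) * (d / n)) := by
  classical
  have hn' : (n : ℝ) ≠ 0 := by positivity
  induction d with
  | zero =>
    have : ∀ α ∈ Finset.Nat.antidiagonalTuple n 0, (α j : ℝ) * (α l : ℝ) = 0 := by
      intro α hα
      rw [Finset.Nat.mem_antidiagonalTuple] at hα
      have := (Finset.sum_eq_zero_iff.mp hα) j (Finset.mem_univ j)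
      simp [this]
    rw [Finset.sum_eq_zero this]
    simp
  | succ d ih =>
    have h := tor_raise_sum n d (fun β => (β j : ℝ) * (β l : ℝ))
    set δ : ℝ := if j = l then 1 else 0 with hδ
    have h1 : ∀ α ∈ Finset.Nat.antidiagonalTuple n d,
        ∑ i, ((α i : ℝ) + 1) * ((((α + Pi.single i 1 : Fin n → ℕ) j : ℕ) : ℝ) *
          (((α + Pi.single i 1 : Fin n → ℕ) l : ℕ) : ℝ)) =
          (d + n + 2) * ((α j : ℝ) * (α l : ℝ)) + (1 + δ) * (α j : ℝ) + (α l : ℝ) + δ := by
      intro α hα
      have : ∀ i, ((α i : ℝ) + 1) * ((((α + Pi.single i 1 : Fin n → ℕ) j : ℕ) : ℝ) *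
          (((α + Pi.single i 1 : Fin n → ℕ) l : ℕ) : ℝ)) =
          ((α i : ℝ) + 1) * ((α j : ℝ) * (α l : ℝ)) +
            ((if i = j then ((α i : ℝ) + 1) * (α l : ℝ) else 0) +
            ((if i = l then ((α i : ℝ) + 1) * (α j : ℝ) else 0) +
             (if i = j then ((α i : ℝ) + 1) * δ else 0))) := by
        intro i
        by_cases hij : i = j
        · subst hij
          by_cases hil : i = l
          · subst hil; simp [hδ]; ring
          · simp [hil, hδ, Ne.symm hil]; ring
        · by_cases hil : i = l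
          · subst hil; simp [hij, Ne.symm hij]; ring
          · simp [hij, hil, Ne.symm hij, Ne.symm hil]
      simp_rw [this]
      rw [Finset.sum_add_distrib, ← Finset.sum_mul, tor_sum_add_one hα,
        Finset.sum_add_distrib, Finset.sum_add_distrib]
      simp only [Finset.sum_ite_eq', Finset.mem_univ, if_true]
      ring
    rw [Finset.sum_congr rfl h1, Finset.sum_add_distrib, Finset.sum_add_distrib,
      Finset.sum_add_distrib, ← Finset.mul_sum, ← Finset.mul_sum, ih, tor_mom1 n hn,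
      tor_mom1 n hn] at h
    simp only [Finset.sum_const, nsmul_eq_mul] at h
    have hc := tor_card n d
    have hd : ((d : ℝ) + 1) ≠ 0 := by positivity
    apply mul_left_cancel₀ hd
    rw [← h]
    push_cast
    have : ((d : ℝ) + 1) * (((Finset.Nat.antidiagonalTuple n (d + 1)).card : ℝ) *
        ((d + 1) * (d + 1 - 1) / (n * (n + 1)) * (1 + δ) + δ * ((d + 1) / n))) =
        (((d : ℝ) + 1) * ((Finset.Nat.antidiagonalTuple n (d + 1)).card : ℝ)) *
          ((d + 1) * (d + 1 - 1) / (n * (n + 1)) * (1 + δ) + δ * ((d + 1) / n)) := by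
      ring
    rw [this, hc]
    have hn1 : ((n : ℝ) + 1) ≠ 0 := by positivity
    field_simp
    ring

/-- The weighted first moments used below. -/
theorem tor_test (n : ℕ) (hn : 0 < n) (d : ℕ) (hd : 0 < d) (i : Fin n) (σ : ℝ) (y : Fin n → ℝ) :
    ∑ α ∈ Finset.Nat.antidiagonalTuple n d,
      (1 + σ * (((α i : ℝ) - d / n) / d)) * ∑ j, ((α j : ℝ) + 1) * y j =
      (Finset.Nat.antidiagonalTuple n d).card * ((d + n) *
        ((∑ j, y j) / n + σ / (n * (n + 1)) * (y i - (∑ j, y j) / n))) := by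
  classical
  have hn' : (n : ℝ) ≠ 0 := by positivity
  have hn1 : ((n : ℝ) + 1) ≠ 0 := by positivity
  have hd' : (d : ℝ) ≠ 0 := by positivity
  set N : ℝ := ((Finset.Nat.antidiagonalTuple n d).card : ℝ) with hN
  have h1 : ∀ j : Fin n, ∑ α ∈ Finset.Nat.antidiagonalTuple n d,
      (1 + σ * (((α i : ℝ) - d / n) / d)) * ((α j : ℝ) + 1) =
      N * ((d + n) * (1 / n + σ / (n * (n + 1)) * ((if i = j then 1 else 0) - 1 / n))) := by
    intro j
    have : ∀ α : Fin n → ℕ, (1 + σ * (((α i : ℝ) - d / n) / d)) * ((α j : ℝ) + 1) =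
        (1 - σ / n) * (α j : ℝ) + (1 - σ / n) + σ / d * ((α i : ℝ) * (α j : ℝ)) +
          σ / d * (α i : ℝ) := by
      intro α
      field_simp
      ring
    simp_rw [this]
    rw [Finset.sum_add_distrib, Finset.sum_add_distrib, Finset.sum_add_distrib, ← Finset.mul_sum,
      ← Finset.mul_sum, ← Finset.mul_sum, tor_mom1 n hn, tor_mom1 n hn, tor_mom2 n hn]
    simp only [Finset.sum_const, nsmul_eq_mul]
    rw [← hN]
    by_cases hij : i = j
    · simp only [hij, if_true]
      field_simp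
      ring
    · simp only [hij, if_false]
      field_simp
      ring
  have h2 : ∑ α ∈ Finset.Nat.antidiagonalTuple n d,
      (1 + σ * (((α i : ℝ) - d / n) / d)) * ∑ j, ((α j : ℝ) + 1) * y j =
      ∑ j, y j * ∑ α ∈ Finset.Nat.antidiagonalTuple n d,
        (1 + σ * (((α i : ℝ) - d / n) / d)) * ((α j : ℝ) + 1) := by
    simp_rw [Finset.mul_sum]
    rw [Finset.sum_comm]
    refine Finset.sum_congr rfl fun j _ => Finset.sum_congr rfl fun α _ => ?_
    ring
  rw [h2]
  simp_rw [h1]
  have h3 : ∀ j : Fin n, y j * (N * (((d : ℝ) + n) * (1 / n + σ / (n * (n + 1)) *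
      ((if i = j then 1 else 0) - 1 / n)))) =
      N * (d + n) * (1 / n - σ / (n * (n + 1)) * (1 / n)) * y j +
        (if i = j then N * (d + n) * (σ / (n * (n + 1))) * y j else 0) := by
    intro j
    by_cases hij : i = j
    · simp only [hij, if_true]; ring
    · simp only [hij, if_false]; ring
  simp_rw [h3]
  rw [Finset.sum_add_distrib, ← Finset.mul_sum]
  simp only [Finset.sum_ite_eq, Finset.mem_univ, if_true]
  ring

/-! ## The one-dimensional integral -/

/-- The one-dimensional weight. -/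
noncomputable def torH (a θ : ℝ) : ℝ → ℝ :=
  (Set.Ioi (0 : ℝ)).indicator
    (fun x => Real.exp (-(Real.log x - Real.log a) - θ * |Real.log x - Real.log a|))

theorem torH_nonneg (a θ x : ℝ) : 0 ≤ torH a θ x := by
  unfold torH
  exact Set.indicator_nonneg (fun _ _ => (Real.exp_pos _).le) x

theorem torH_integral (a θ : ℝ) (ha : 0 < a) (hθ : 0 < θ) :
    Integrable (torH a θ) ∧ ∫ x, torH a θ x = a * (2 / θ) := by
  have e1 : Set.EqOn (fun x => Real.exp (-(Real.log x - Real.log a) -
      θ * |Real.log x - Real.log a|)) (fun x => x ^ (θ - 1) * a ^ (1 - θ)) (Set.Ioc 0 a) := by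
    intro x hx
    have hx0 : 0 < x := hx.1
    have hl : Real.log x - Real.log a ≤ 0 := by
      have := Real.log_le_log hx0 hx.2
      linarith
    simp only
    rw [abs_of_nonpos hl, Real.rpow_def_of_pos hx0, Real.rpow_def_of_pos ha, ← Real.exp_add]
    congr 1
    ring
  have e2 : Set.EqOn (fun x => Real.exp (-(Real.log x - Real.log a) -
      θ * |Real.log x - Real.log a|)) (fun x => x ^ (-1 - θ) * a ^ (1 + θ)) (Set.Ioi a) := by
    intro x hx
    have hx0 : 0 < x := ha.trans hx
    have hl : 0 ≤ Real.log x - Real.log a := by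
      have := Real.log_le_log ha (le_of_lt hx)
      linarith
    simp only
    rw [abs_of_nonneg hl, Real.rpow_def_of_pos hx0, Real.rpow_def_of_pos ha, ← Real.exp_add]
    congr 1
    ring
  have i1 : IntegrableOn (fun x => Real.exp (-(Real.log x - Real.log a) -
      θ * |Real.log x - Real.log a|)) (Set.Ioc 0 a) := by
    rw [integrableOn_congr_fun e1 measurableSet_Ioc]
    have := (intervalIntegral.intervalIntegrable_rpow' (a := 0) (b := a) (r := θ - 1)
      (by linarith))
    rw [intervalIntegrable_iff_integrableOn_Ioc_of_le ha.le] at this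
    exact this.mul_const _
  have i2 : IntegrableOn (fun x => Real.exp (-(Real.log x - Real.log a) -
      θ * |Real.log x - Real.log a|)) (Set.Ioi a) := by
    rw [integrableOn_congr_fun e2 measurableSet_Ioi]
    exact (integrableOn_Ioi_rpow_of_lt (by linarith) ha).mul_const _
  have hu : Set.Ioi (0 : ℝ) = Set.Ioc 0 a ∪ Set.Ioi a := (Set.Ioc_union_Ioi_eq_Ioi ha.le).symm
  constructor
  · unfold torH
    rw [integrable_indicator_iff measurableSet_Ioi, hu]
    exact i1.union i2
  · unfold torH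
    rw [integral_indicator measurableSet_Ioi, hu, setIntegral_union _ measurableSet_Ioi i1 i2,
      setIntegral_congr_fun measurableSet_Ioc e1, setIntegral_congr_fun measurableSet_Ioi e2,
      integral_mul_const, integral_mul_const, ← intervalIntegral.integral_of_le ha.le,
      integral_rpow (Or.inl (by linarith)), integral_Ioi_rpow_of_lt (by linarith) ha]
    · have h0 : (0 : ℝ) ^ (θ - 1 + 1) = 0 := Real.zero_rpow (by linarith)
      rw [h0, sub_zero]
      have h1 : a ^ (θ - 1 + 1) / (θ - 1 + 1) * a ^ (1 - θ) = a / θ := by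
        rw [div_mul_eq_mul_div, ← Real.rpow_add ha]
        rw [show θ - 1 + 1 + (1 - θ) = 1 by ring, show θ - 1 + 1 = θ by ring, Real.rpow_one]
      have h2 : -a ^ (-1 - θ + 1) / (-1 - θ + 1) * a ^ (1 + θ) = a / θ := by
        rw [show -1 - θ + 1 = -θ by ring, neg_div_neg_eq, div_mul_eq_mul_div, ← Real.rpow_add ha]
        rw [show -θ + (1 + θ) = 1 by ring, Real.rpow_one]
      rw [h1, h2]
      ring
    · rw [Set.disjoint_left]
      intro x hx hx2
      exact absurd hx.2 (not_le.mpr hx2)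

/-! ## The toric inequality -/

theorem toric (n : ℕ) (hn : 0 < n) : ∃ C : ℝ, ∀ d : ℕ, 0 < d →
    ∀ (S : Set (Fin n → ℝ)) (Φ : (Fin n → ℕ) → ℝ), MeasurableSet S →
      (∀ x ∈ S, ∀ i, 0 < x i) →
      (∀ α ∈ Finset.Nat.antidiagonalTuple n d, ∀ x ∈ S,
        ∑ i, ((α i : ℝ) + 1) * Real.log (x i) ≤ Φ α) →
      volume S ≤ ENNReal.ofReal (Real.exp ((n : ℝ) / (d + n) *
        ((∑ α ∈ Finset.Nat.antidiagonalTuple n d, Φ α) /
          (Finset.Nat.antidiagonalTuple n d).card) + C)) := by
  classical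
  refine ⟨1 + n * Real.log (4 * (n * (n + 1))), ?_⟩
  intro d hd S Φ hS hpos hΦ
  rcases S.eq_empty_or_nonempty with hSe | ⟨x₁, hx₁⟩
  · rw [hSe]; simp
  have hnR : (0 : ℝ) < n := by exact_mod_cast hn
  have hn1R : (1 : ℝ) ≤ n := by exact_mod_cast hn
  have hdR : (0 : ℝ) < d := by exact_mod_cast hd
  set T := Finset.Nat.antidiagonalTuple n d with hT
  have hTne : T.Nonempty := by
    refine ⟨Pi.single (⟨0, hn⟩ : Fin n) d, ?_⟩
    rw [hT, Finset.Nat.mem_antidiagonalTuple]
    simp
  have hNpos : (0 : ℝ) < T.card := by exact_mod_cast hTne.card_pos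
  -- averages
  have havg : ∀ y : Fin n → ℝ, ∑ α ∈ T, ∑ j, ((α j : ℝ) + 1) * y j =
      T.card * ((d + n) * ((∑ j, y j) / n)) := by
    intro y
    have := tor_test n hn d hd ⟨0, hn⟩ 0 y
    simpa using this
  set L : (Fin n → ℝ) → ℝ := fun x => ∑ i, Real.log (x i) with hL
  have hLb : ∀ x ∈ S, L x ≤ n / (d + n) * ((∑ α ∈ T, Φ α) / T.card) := by
    intro x hx
    have h1 : ∑ α ∈ T, ∑ j, ((α j : ℝ) + 1) * Real.log (x j) ≤ ∑ α ∈ T, Φ α :=
      Finset.sum_le_sum fun α hα => hΦ α hα x hx
    rw [havg (fun j => Real.log (x j))] at h1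
    have h2 : L x = n / (d + n) * ((T.card * ((d + n) * ((∑ j, Real.log (x j)) / n))) / T.card) := by
      simp only [hL]
      field_simp
    rw [h2]
    gcongr
  have hbdd : BddAbove (L '' S) := by
    refine ⟨n / (d + n) * ((∑ α ∈ T, Φ α) / T.card), ?_⟩
    · rintro _ ⟨x, hx, rfl⟩
      exact hLb x hx
  have hne : (L '' S).Nonempty := ⟨_, x₁, hx₁, rfl⟩
  obtain ⟨_, ⟨x₀, hx₀, rfl⟩, hx₀M⟩ := exists_lt_of_lt_csSup hne
    (show sSup (L '' S) - 1 < sSup (L '' S) by linarith)
  have hLx : ∀ x ∈ S, L x ≤ L x₀ + 1 := by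
    intro x hx
    have := le_csSup hbdd (Set.mem_image_of_mem L hx)
    linarith
  -- normalised potential
  set Ψ : (Fin n → ℕ) → ℝ := fun α => Φ α - ∑ i, ((α i : ℝ) + 1) * Real.log (x₀ i) with hΨ
  set κ : ℝ := (∑ α ∈ T, Ψ α) / (T.card * (d + n)) with hκ
  have hΨ0 : ∀ α ∈ T, 0 ≤ Ψ α := by
    intro α hα
    have := hΦ α hα x₀ hx₀
    simp only [hΨ]; linarith
  have hκ0 : 0 ≤ κ := div_nonneg (Finset.sum_nonneg hΨ0) (by positivity)
  have hκL : n * κ + L x₀ = n / (d + n) * ((∑ α ∈ T, Φ α) / T.card) := by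
    have h1 : ∑ α ∈ T, Ψ α = ∑ α ∈ T, Φ α - T.card * ((d + n) * (L x₀ / n)) := by
      simp only [hΨ]
      rw [Finset.sum_sub_distrib, havg (fun j => Real.log (x₀ j))]
    rw [hκ, h1]
    field_simp
    ring
  set b : ℝ := n * (n + 1) with hb
  have hb2 : 2 ≤ b := by rw [hb]; nlinarith
  set θ : ℝ := 1 / (2 * b) with hθ
  have hθpos : 0 < θ := by rw [hθ]; positivity
  have hθb : θ * b = 1 / 2 := by rw [hθ]; field_simp
  have hθ4 : θ ≤ 1 / 4 := by
    rw [hθ]
    exact one_div_le_one_div_of_le (by norm_num) (by linarith)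
  -- main pointwise inequality
  have hmain : ∀ x ∈ S, 0 ≤ n * κ + 1 + ∑ i, (-(Real.log (x i) - Real.log (x₀ i)) -
      θ * |Real.log (x i) - Real.log (x₀ i)|) := by
    intro x hx
    set y : Fin n → ℝ := fun i => Real.log (x i) - Real.log (x₀ i) with hy
    set τ : ℝ := (∑ j, y j) / n with hτ
    have hτ1 : n * τ = ∑ j, y j := by rw [hτ]; field_simp
    have hτle : n * τ ≤ 1 := by
      rw [hτ1]
      simp only [hy, Finset.sum_sub_distrib]
      have := hLx x hx
      simp only [hL] at this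
      linarith
    have hyΨ : ∀ α ∈ T, ∑ j, ((α j : ℝ) + 1) * y j ≤ Ψ α := by
      intro α hα
      have := hΦ α hα x hx
      simp only [hy, hΨ, mul_sub, Finset.sum_sub_distrib]
      linarith
    have hkey : ∀ i : Fin n, ∀ σ : ℝ, (σ = 1 ∨ σ = -1) → τ + σ / b * (y i - τ) ≤ 2 * κ := by
      intro i σ hσ
      have h1 := tor_test n hn d hd i σ y
      have hw : ∀ α ∈ T, 0 ≤ 1 + σ * (((α i : ℝ) - d / n) / d) ∧
          1 + σ * (((α i : ℝ) - d / n) / d) ≤ 2 := by
        intro α hα
        rw [hT, Finset.Nat.mem_antidiagonalTuple] at hα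
        have h2 : α i ≤ d := by
          rw [← hα]; exact Finset.single_le_sum (f := α) (fun _ _ => Nat.zero_le _) (Finset.mem_univ i)
        have h2' : (α i : ℝ) ≤ d := by exact_mod_cast h2
        have h2'' : (0 : ℝ) ≤ α i := by positivity
        have h3 : ((α i : ℝ) - d / n) / d ≤ 1 := by
          rw [div_le_one hdR]
          have : (0 : ℝ) ≤ d / n := by positivity
          linarith
        have h4 : -1 ≤ ((α i : ℝ) - d / n) / d := by
          rw [le_div_iff₀ hdR]
          have : (d : ℝ) / n ≤ d := div_le_self hdR.le hn1R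
          linarith
        rcases hσ with rfl | rfl
        · constructor <;> linarith
        · constructor <;> linarith
      have h5 : ∑ α ∈ T, (1 + σ * (((α i : ℝ) - d / n) / d)) * ∑ j, ((α j : ℝ) + 1) * y j ≤
          ∑ α ∈ T, 2 * Ψ α := by
        refine Finset.sum_le_sum fun α hα => ?_
        calc (1 + σ * (((α i : ℝ) - d / n) / d)) * ∑ j, ((α j : ℝ) + 1) * y j
            ≤ (1 + σ * (((α i : ℝ) - d / n) / d)) * Ψ α :=
              mul_le_mul_of_nonneg_left (hyΨ α hα) (hw α hα).1
          _ ≤ 2 * Ψ α := mul_le_mul_of_nonneg_right (hw α hα).2 (hΨ0 α hα)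
      rw [h1, ← Finset.mul_sum] at h5
      have h6 : ∑ α ∈ T, Ψ α = T.card * ((d + n) * κ) := by
        rw [hκ]; field_simp
      rw [h6] at h5
      have h7 : (T.card : ℝ) * ((d + n) * (τ + σ / b * (y i - τ))) ≤
          T.card * ((d + n) * (2 * κ)) := by
        calc (T.card : ℝ) * ((d + n) * (τ + σ / b * (y i - τ))) ≤ 2 * (T.card * ((d + n) * κ)) := h5
          _ = T.card * ((d + n) * (2 * κ)) := by ring
      have h8 := le_of_mul_le_mul_left h7 hNpos
      exact le_of_mul_le_mul_left h8 (by positivity)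
    have habs : ∀ i : Fin n, |y i - τ| ≤ b * (2 * κ - τ) := by
      intro i
      have hbpos : 0 < b := by linarith
      rw [abs_le]
      have h1 := hkey i 1 (Or.inl rfl)
      have h2 := hkey i (-1) (Or.inr rfl)
      constructor
      · have : (y i - τ) * (-1 / b) ≤ 2 * κ - τ := by linarith
        have h3 : b * ((y i - τ) * (-1 / b)) ≤ b * (2 * κ - τ) :=
          mul_le_mul_of_nonneg_left this hbpos.le
        have h4 : b * ((y i - τ) * (-1 / b)) = -(y i - τ) := by field_simp
        linarith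
      · have : (y i - τ) * (1 / b) ≤ 2 * κ - τ := by linarith
        have h3 : b * ((y i - τ) * (1 / b)) ≤ b * (2 * κ - τ) :=
          mul_le_mul_of_nonneg_left this hbpos.le
        have h4 : b * ((y i - τ) * (1 / b)) = (y i - τ) := by field_simp
        linarith
    have hsum : θ * ∑ i, |y i - τ| ≤ n * κ - n * τ / 2 := by
      have h1 : ∑ i, |y i - τ| ≤ n * (b * (2 * κ - τ)) := by
        calc ∑ i, |y i - τ| ≤ ∑ _i : Fin n, b * (2 * κ - τ) := Finset.sum_le_sum fun i _ => habs i
          _ = n * (b * (2 * κ - τ)) := by simp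
      calc θ * ∑ i, |y i - τ| ≤ θ * (n * (b * (2 * κ - τ))) :=
            mul_le_mul_of_nonneg_left h1 hθpos.le
        _ = (θ * b) * (n * (2 * κ - τ)) := by ring
        _ = n * κ - n * τ / 2 := by rw [hθb]; ring
    have hsum2 : ∑ i, |y i| ≤ ∑ i, |y i - τ| + n * |τ| := by
      calc ∑ i, |y i| ≤ ∑ i, (|y i - τ| + |τ|) := by
            refine Finset.sum_le_sum fun i _ => ?_
            have := abs_add_le (y i - τ) τ
            simpa using this
        _ = ∑ i, |y i - τ| + n * |τ| := by simp [Finset.sum_add_distrib]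
    have hgoal : ∑ i, (-(Real.log (x i) - Real.log (x₀ i)) -
        θ * |Real.log (x i) - Real.log (x₀ i)|) = -(n * τ) - θ * ∑ i, |y i| := by
      rw [hτ1, Finset.mul_sum, Finset.sum_sub_distrib, Finset.sum_neg_distrib]
    rw [hgoal]
    have h9 : θ * ∑ i, |y i| ≤ θ * ∑ i, |y i - τ| + θ * (n * |τ|) := by
      rw [← mul_add]; exact mul_le_mul_of_nonneg_left hsum2 hθpos.le
    have h10 : θ * (n * |τ|) ≤ 1 - n * τ / 2 := by
      rcases le_or_gt τ 0 with h | h
      · rw [abs_of_nonpos h]
        have : 0 ≤ n * (-τ) := by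
          apply mul_nonneg hnR.le; linarith
        nlinarith
      · rw [abs_of_pos h]
        have : 0 ≤ n * τ := by positivity
        nlinarith
    linarith
  -- integrate
  set G : (Fin n → ℝ) → ℝ := fun x => Real.exp (n * κ + 1) * ∏ i, torH (x₀ i) θ (x i) with hG
  have hx₀pos : ∀ i, 0 < x₀ i := hpos x₀ hx₀
  have hint : ∀ i, Integrable (torH (x₀ i) θ) ∧ ∫ x, torH (x₀ i) θ x = x₀ i * (2 / θ) :=
    fun i => torH_integral _ _ (hx₀pos i) hθpos
  have hGint : Integrable G := by
    have := Integrable.fintype_prod (f := fun i : Fin n => torH (x₀ i) θ)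
      (μ := fun _ => (volume : Measure ℝ)) (fun i => (hint i).1)
    exact this.const_mul _
  have hGI : ∫ x, G x = Real.exp (n * κ + 1) * ∏ i, (x₀ i * (2 / θ)) := by
    simp only [hG]
    rw [integral_const_mul]
    congr 1
    have := integral_fintype_prod_eq_prod (𝕜 := ℝ) (fun i : Fin n => torH (x₀ i) θ)
      (μ := fun _ => (volume : Measure ℝ))
    rw [← volume_pi] at this
    rw [this]
    exact Finset.prod_congr rfl fun i _ => (hint i).2
  have hGnn : ∀ x, 0 ≤ G x := fun x =>
    mul_nonneg (Real.exp_pos _).le (Finset.prod_nonneg fun i _ => torH_nonneg _ _ _)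
  have hG1 : ∀ x ∈ S, 1 ≤ G x := by
    intro x hx
    have h1 : G x = Real.exp (n * κ + 1 + ∑ i, (-(Real.log (x i) - Real.log (x₀ i)) -
        θ * |Real.log (x i) - Real.log (x₀ i)|)) := by
      simp only [hG]
      rw [Real.exp_add (n * κ + 1), Real.exp_sum]
      congr 1
      refine Finset.prod_congr rfl fun i _ => ?_
      unfold torH
      rw [Set.indicator_of_mem (Set.mem_Ioi.mpr (hpos x hx i))]
    rw [h1]
    exact Real.one_le_exp (hmain x hx)
  have hvol : volume S ≤ ENNReal.ofReal (∫ x, G x) := by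
    rw [ofReal_integral_eq_lintegral_ofReal hGint (Eventually.of_forall hGnn)]
    calc volume S = ∫⁻ x in S, 1 := by simp
      _ ≤ ∫⁻ x in S, ENNReal.ofReal (G x) := by
          refine setLIntegral_mono' hS fun x hx => ?_
          rw [← ENNReal.ofReal_one]
          exact ENNReal.ofReal_le_ofReal (hG1 x hx)
      _ ≤ ∫⁻ x, ENNReal.ofReal (G x) := setLIntegral_le_lintegral _ _
  refine hvol.trans (ENNReal.ofReal_le_ofReal (le_of_eq ?_))
  rw [hGI, Finset.prod_mul_distrib]
  have h2θ : (2 / θ : ℝ) = 4 * (n * (n + 1)) := by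
    rw [hθ, hb]; field_simp; norm_num
  have hprod : ∏ i, x₀ i = Real.exp (L x₀) := by
    simp only [hL]
    rw [Real.exp_sum]
    exact Finset.prod_congr rfl fun i _ => (Real.exp_log (hx₀pos i)).symm
  have hpow : ∏ _i : Fin n, (2 / θ : ℝ) = Real.exp (n * Real.log (4 * (n * (n + 1)))) := by
    rw [Finset.prod_const, Finset.card_univ, Fintype.card_fin, h2θ, Real.exp_nat_mul,
      Real.exp_log (by positivity)]
  rw [hprod, hpow, ← Real.exp_add, ← Real.exp_add, ← hκL]
  congr 1
  ring

end Pool.Agent.Ceg
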