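import Pool.Agent.Ceg.GramDefs
import Pool.Agent.Ceg.Slice
import Pool.Agent.Ceg.Toric

/-!
# Lower bound for the sum of the logarithms of the extremal norms over one degree
-/

set_option autoImplicit false

namespace Pool.Agent.Ceg

open MeasureTheory Matrix Filter Topology
open scoped ContDiff ENNReal Real ComplexOrder

theorem ls_mono_lexMonic {n : ℕ} (α : Fin n → ℕ) : LexMonic n α (mono α) := by
  induction n with
  | zero =>
    intro z
    simp [mono]
  | succ n ih =>
    refine ⟨mono (Fin.tail α), fun _ _ => 0, ih _, ?_, fun _ => measurable_const, ?_⟩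
    · unfold mono
      fun_prop
    · intro z
      simp only [mono, Fin.tail, zero_mul, Finset.sum_const_zero, add_zero]
      rw [Fin.prod_univ_succ, mul_comm]

/-- the extremal norms of a bounded set of positive measure are positive -/
theorem ls_tK_pos {n : ℕ} (K : Set (Fin n → ℂ)) (hK : MeasurableSet K)
    (hb : Bornology.IsBounded K) (hv : 0 < volume K) (α : Fin n → ℕ) : 0 < tK K α := by
  obtain ⟨-, hSv⟩ := slice n K hK
  obtain ⟨x, hx0, hx1⟩ : (goodSet K).Nonempty := by
    by_contra h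
    rw [Set.not_nonempty_iff_eq_empty] at h
    rw [h, measure_empty, mul_zero] at hSv
    exact absurd hv (not_lt.mpr hSv)
  have h1 : ENNReal.ofReal (π ^ n * Real.exp (-∑ i, (α i : ℝ)) * ∏ i, x i ^ (α i + 1)) ≤
      ⨅ (f : (Fin n → ℂ) → ℂ) (_ : LexMonic n α f) (_ : Measurable f), ∫⁻ z in K, ‖f z‖ₑ ^ 2 :=
    le_iInf fun f => le_iInf fun hf => le_iInf fun hm => hx1 α f hf hm
  have hprod : 0 < ∏ i, x i ^ (α i + 1) := Finset.prod_pos fun i _ => pow_pos (hx0 i) _
  have hpos : 0 < π ^ n * Real.exp (-∑ i, (α i : ℝ)) * ∏ i, x i ^ (α i + 1) := by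
    have := Real.pi_pos
    positivity
  obtain ⟨R, hR⟩ := hb.subset_closedBall (0 : Fin n → ℂ)
  have hcont : Continuous fun z : Fin n → ℂ => ‖mono α z‖₊ ^ 2 := by
    unfold mono
    fun_prop
  have hfin : (⨅ (f : (Fin n → ℂ) → ℂ) (_ : LexMonic n α f) (_ : Measurable f),
      ∫⁻ z in K, ‖f z‖ₑ ^ 2) < ⊤ := by
    refine lt_of_le_of_lt (iInf_le_of_le (mono α) (iInf_le_of_le (ls_mono_lexMonic α)
      (iInf_le_of_le ?_ le_rfl))) ?_
    · unfold mono
      fun_prop
    · refine lt_of_le_of_lt (lintegral_mono_set hR) ?_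
      have h2 := setLIntegral_lt_top_of_isCompact (μ := volume)
        (isCompact_closedBall (0 : Fin n → ℂ) R).measure_lt_top.ne
        (isCompact_closedBall (0 : Fin n → ℂ) R) hcont
      simpa [enorm_eq_nnnorm] using h2
  unfold tK
  refine ENNReal.toReal_pos ?_ hfin.ne
  intro h
  rw [h] at h1
  have := ENNReal.ofReal_pos.mpr hpos
  exact absurd this (not_lt.mpr h1)

/-- the inequality satisfied by the logarithms of the points of `goodSet K` -/
theorem ls_good {n : ℕ} (K : Set (Fin n → ℂ)) (α : Fin n → ℕ) (ht : 0 < tK K α)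
    (x : Fin n → ℝ) (hx : x ∈ goodSet K) :
    ∑ i, ((α i : ℝ) + 1) * Real.log (x i) ≤
      Real.log (tK K α) - n * Real.log π + ∑ i, (α i : ℝ) := by
  obtain ⟨hx0, hx1⟩ := hx
  have h1 : ENNReal.ofReal (π ^ n * Real.exp (-∑ i, (α i : ℝ)) * ∏ i, x i ^ (α i + 1)) ≤
      ⨅ (f : (Fin n → ℂ) → ℂ) (_ : LexMonic n α f) (_ : Measurable f), ∫⁻ z in K, ‖f z‖ₑ ^ 2 :=
    le_iInf fun f => le_iInf fun hf => le_iInf fun hm => hx1 α f hf hm
  have hne : (⨅ (f : (Fin n → ℂ) → ℂ) (_ : LexMonic n α f) (_ : Measurable f),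
      ∫⁻ z in K, ‖f z‖ₑ ^ 2) ≠ ⊤ := by
    intro h
    unfold tK at ht
    rw [h] at ht
    simp at ht
  have h2 : π ^ n * Real.exp (-∑ i, (α i : ℝ)) * ∏ i, x i ^ (α i + 1) ≤ tK K α := by
    unfold tK
    exact (ENNReal.ofReal_le_iff_le_toReal hne).mp h1
  have hprod : 0 < ∏ i, x i ^ (α i + 1) := Finset.prod_pos fun i _ => pow_pos (hx0 i) _
  have hpi : (0 : ℝ) < π ^ n := pow_pos Real.pi_pos _
  have h3 := Real.log_le_log (by positivity) h2
  rw [Real.log_mul (by positivity) hprod.ne', Real.log_mul hpi.ne' (Real.exp_pos _).ne',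
    Real.log_pow, Real.log_exp, Real.log_prod (fun i _ => (pow_pos (hx0 i) _).ne')] at h3
  have h4 : ∑ i, Real.log (x i ^ (α i + 1)) = ∑ i, ((α i : ℝ) + 1) * Real.log (x i) := by
    refine Finset.sum_congr rfl fun i _ => ?_
    rw [Real.log_pow]
    push_cast
    ring
  rw [h4] at h3
  linarith

theorem lower_sum (n : ℕ) (hn : 0 < n) : ∃ C : ℝ, ∀ (K : Set (Fin n → ℂ)), MeasurableSet K →
    Bornology.IsBounded K → 0 < volume K → ∀ d : ℕ, 0 < d →
      (Finset.Nat.antidiagonalTuple n d).card * ((d + n : ℝ) / n *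
        (Real.log (volume K).toReal - C)) ≤
        ∑ α ∈ Finset.Nat.antidiagonalTuple n d, Real.log (tK K α) := by
  obtain ⟨C₁, hC₁⟩ := toric n hn
  refine ⟨n * Real.log π + C₁ + n, ?_⟩
  intro K hK hb hv d hd
  have hnR : (0 : ℝ) < n := by exact_mod_cast hn
  have hdR : (0 : ℝ) < d := by exact_mod_cast hd
  set T := Finset.Nat.antidiagonalTuple n d with hT
  have hTne : T.Nonempty := by
    refine ⟨Pi.single ⟨0, hn⟩ d, ?_⟩
    rw [hT, Finset.Nat.mem_antidiagonalTuple]
    simp
  have hDpos : (0 : ℝ) < T.card := by exact_mod_cast hTne.card_pos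
  obtain ⟨hSm, hSv⟩ := slice n K hK
  have hvt : volume K ≠ ⊤ := hb.measure_lt_top.ne
  have hVpos : 0 < (volume K).toReal := ENNReal.toReal_pos hv.ne' hvt
  have htor := hC₁ d hd (goodSet K)
    (fun α => Real.log (tK K α) - n * Real.log π + ∑ i, (α i : ℝ)) hSm
    (fun x hx => hx.1) (fun α _ x hx => ls_good K α (ls_tK_pos K hK hb hv α) x hx)
  have hsum : ∑ α ∈ T, (Real.log (tK K α) - n * Real.log π + ∑ i, (α i : ℝ)) =
      ∑ α ∈ T, Real.log (tK K α) + T.card * (d - n * Real.log π) := by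
    have h0 : (T.card : ℝ) * (d - n * Real.log π) = ∑ _α ∈ T, ((d : ℝ) - n * Real.log π) := by
      rw [Finset.sum_const, nsmul_eq_mul]
    rw [h0, ← Finset.sum_add_distrib]
    refine Finset.sum_congr rfl fun α hα => ?_
    have : ∑ i, (α i : ℝ) = d := by
      rw [hT, Finset.Nat.mem_antidiagonalTuple] at hα
      exact_mod_cast hα
    rw [this]
    ring
  rw [← hT, hsum] at htor
  set Sg := ∑ α ∈ T, Real.log (tK K α) with hSg
  set E := (n : ℝ) / (d + n) * ((Sg + T.card * (d - n * Real.log π)) / T.card) + C₁ with hE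
  have hV : (volume K).toReal ≤ π ^ n * Real.exp E := by
    refine ENNReal.toReal_le_of_le_ofReal (by positivity) ?_
    calc volume K ≤ ENNReal.ofReal (π ^ n) * volume (goodSet K) := hSv
      _ ≤ ENNReal.ofReal (π ^ n) * ENNReal.ofReal (Real.exp E) := by gcongr
      _ = ENNReal.ofReal (π ^ n * Real.exp E) := by
        rw [ENNReal.ofReal_mul (by positivity)]
  have hlog := Real.log_le_log hVpos hV
  rw [Real.log_mul (by positivity) (Real.exp_pos _).ne', Real.log_pow, Real.log_exp] at hlog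
  -- solve for the sum
  have h1 : (Sg + T.card * (d - n * Real.log π)) / T.card =
      Sg / T.card + (d - n * Real.log π) := by
    field_simp
  have h2 : (d + n : ℝ) / n * (Real.log (volume K).toReal - n * Real.log π - C₁) ≤
      Sg / T.card + (d - n * Real.log π) := by
    have h3 : Real.log (volume K).toReal - n * Real.log π - C₁ ≤
        (n : ℝ) / (d + n) * (Sg / T.card + (d - n * Real.log π)) := by
      rw [hE, h1] at hlog
      linarith
    calc (d + n : ℝ) / n * (Real.log (volume K).toReal - n * Real.log π - C₁)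
        ≤ (d + n : ℝ) / n * ((n : ℝ) / (d + n) * (Sg / T.card + (d - n * Real.log π))) := by
          gcongr
      _ = Sg / T.card + (d - n * Real.log π) := by
        field_simp
  have hpi : 0 ≤ Real.log π := Real.log_nonneg (by linarith [Real.pi_gt_three])
  have h4 : (d + n : ℝ) / n * (Real.log (volume K).toReal - (n * Real.log π + C₁ + n)) ≤
      Sg / T.card := by
    have h5 : (d + n : ℝ) / n * (Real.log (volume K).toReal - (n * Real.log π + C₁ + n)) =
        (d + n : ℝ) / n * (Real.log (volume K).toReal - n * Real.log π - C₁) - (d + n) := by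
      field_simp
      ring
    have h6 : 0 ≤ (n : ℝ) * Real.log π := by positivity
    rw [h5]
    linarith
  calc (T.card : ℝ) * ((d + n : ℝ) / n *
        (Real.log (volume K).toReal - (n * Real.log π + C₁ + n)))
      ≤ T.card * (Sg / T.card) := by gcongr
    _ = Sg := by field_simp

/-- sums over `Idx n N` split by degree -/
theorem sum_idx {n N : ℕ} (F : (Fin n → ℕ) → ℝ) :
    ∑ a : Idx n N, F (ofLex a.1) =
      ∑ d ∈ Finset.range (N + 1), ∑ α ∈ Finset.Nat.antidiagonalTuple n d, F α := by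
  rw [Finset.sum_sigma']
  refine Finset.sum_bij (fun a _ => ⟨∑ i, ofLex a.1 i, ofLex a.1⟩) ?_ ?_ ?_ ?_
  · intro a _
    rw [Finset.mem_sigma, Finset.mem_range, Finset.Nat.mem_antidiagonalTuple]
    exact ⟨Nat.lt_succ_of_le a.2, rfl⟩
  · intro a _ b _ hab
    apply Subtype.ext
    apply ofLex.injective
    have := (Sigma.mk.inj_iff.mp hab).2
    exact eq_of_heq this
  · rintro ⟨d, α⟩ h
    rw [Finset.mem_sigma, Finset.mem_range, Finset.Nat.mem_antidiagonalTuple] at h
    simp only at h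
    obtain ⟨h1, h2⟩ := h
    subst h2
    exact ⟨⟨toLex α, by simpa using Nat.le_of_lt_succ h1⟩, Finset.mem_univ _, rfl⟩
  · intro a _
    rfl

end Pool.Agent.Ceg
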