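import Pool.Agent.Ceg.Defs

/-!
# A lower bound for Gaussian integrals (module GAUSS)
-/

set_option autoImplicit false

namespace Pool.Agent.Ceg

open MeasureTheory Matrix Filter Topology
open scoped ContDiff ENNReal Real ComplexOrder

/-- The integral of a Gaussian over a disc. -/
theorem gauss_disc (x ρ : ℝ) (hρ : 0 < ρ) :
    1 ≤ (1 / π) * (max x 0 + 1 / ρ ^ 2) *
      ∫ ζ in Metric.closedBall (0 : ℂ) ρ, Real.exp (-(x * ‖ζ‖ ^ 2)) := by
  have hpi := Real.pi_pos
  have hvol : (volume : Measure ℂ).real (Metric.closedBall (0 : ℂ) ρ) = π * ρ ^ 2 := by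
    rw [Measure.real, Complex.volume_closedBall, ENNReal.toReal_mul, ENNReal.toReal_pow,
      ENNReal.toReal_ofReal hρ.le]
    rw [mul_comm]; rfl
  rcases le_or_gt x 0 with hx | hx
  · rw [max_eq_right hx, zero_add]
    have hI : π * ρ ^ 2 ≤ ∫ ζ in Metric.closedBall (0 : ℂ) ρ, Real.exp (-(x * ‖ζ‖ ^ 2)) := by
      have h1 : ∫ _ζ in Metric.closedBall (0 : ℂ) ρ, (1 : ℝ) = π * ρ ^ 2 := by
        rw [setIntegral_const, smul_eq_mul, mul_one, hvol]
      rw [← h1]
      apply setIntegral_mono_on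
      · exact (continuous_const.continuousOn).integrableOn_compact (isCompact_closedBall 0 ρ)
      · exact (by fun_prop : Continuous fun ζ : ℂ => Real.exp (-(x * ‖ζ‖ ^ 2))).continuousOn
          |>.integrableOn_compact (isCompact_closedBall 0 ρ)
      · exact Metric.isClosed_closedBall.measurableSet
      · intro ζ _
        rw [Real.one_le_exp_iff]
        nlinarith [sq_nonneg ‖ζ‖]
    calc (1 : ℝ) = (1 / π) * (1 / ρ ^ 2) * (π * ρ ^ 2) := by field_simp
      _ ≤ _ := mul_le_mul_of_nonneg_left hI (by positivity)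
  · rw [max_eq_left hx.le]
    have hI : ∫ ζ in Metric.closedBall (0 : ℂ) ρ, Real.exp (-(x * ‖ζ‖ ^ 2)) =
        π * (1 - Real.exp (-(x * ρ ^ 2))) / x := by
      have e1 : ∫ ζ in Metric.closedBall (0 : ℂ) ρ, Real.exp (-(x * ‖ζ‖ ^ 2)) =
          ∫ ζ : ℂ, (Set.Iic ρ).indicator (fun y => Real.exp (-(x * y ^ 2))) ‖ζ‖ := by
        rw [← integral_indicator Metric.isClosed_closedBall.measurableSet]
        congr 1
        funext ζ
        by_cases h : ‖ζ‖ ≤ ρ
        · rw [Set.indicator_of_mem (by simpa using h), Set.indicator_of_mem (by simpa using h)]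
        · rw [Set.indicator_of_notMem (by simpa using h), Set.indicator_of_notMem (by simpa using h)]
      rw [e1, integral_fun_norm_addHaar]
      have hb : (volume : Measure ℂ).real (Metric.ball (0 : ℂ) 1) = π := by
        rw [Measure.real, Complex.volume_ball]
        simp
      rw [hb, Complex.finrank_real_complex]
      have e2 : ∫ y in Set.Ioi (0 : ℝ), y ^ (2 - 1) •
          (Set.Iic ρ).indicator (fun y => Real.exp (-(x * y ^ 2))) y =
          ∫ y in (0 : ℝ)..ρ, y * Real.exp (-(x * y ^ 2)) := by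
        rw [intervalIntegral.integral_of_le hρ.le, ← Set.Ioi_inter_Iic,
          ← setIntegral_indicator measurableSet_Iic]
        congr 1
        funext y
        by_cases h : y ≤ ρ
        · rw [Set.indicator_of_mem (by simpa using h), Set.indicator_of_mem (by simpa using h)]
          simp
        · rw [Set.indicator_of_notMem (by simpa using h), Set.indicator_of_notMem (by simpa using h)]
          simp
      rw [e2]
      have e3 : ∫ y in (0 : ℝ)..ρ, y * Real.exp (-(x * y ^ 2)) =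
          (-(Real.exp (-(x * ρ ^ 2)) / (2 * x))) - (-(Real.exp (-(x * 0 ^ 2)) / (2 * x))) := by
        apply intervalIntegral.integral_eq_sub_of_hasDerivAt
          (f := fun y => -(Real.exp (-(x * y ^ 2)) / (2 * x)))
        · intro y _
          have h1 : HasDerivAt (fun y : ℝ => -(x * y ^ 2)) (-(x * (2 * y))) y := by
            have h0 := ((hasDerivAt_pow 2 y).const_mul x).fun_neg
            norm_num at h0
            exact h0
          have h2 := (h1.exp.div_const (2 * x)).fun_neg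
          have h3 : -(Real.exp (-(x * y ^ 2)) * -(x * (2 * y)) / (2 * x)) =
              y * Real.exp (-(x * y ^ 2)) := by
            field_simp
          rw [h3] at h2
          exact h2
        · exact (by fun_prop : Continuous fun y : ℝ => y * Real.exp (-(x * y ^ 2))).intervalIntegrable _ _
      rw [e3]
      simp only [smul_eq_mul, nsmul_eq_mul]
      field_simp
      simp
      ring
    rw [hI]
    set y := x * ρ ^ 2 with hy
    have hy0 : 0 < y := by positivity
    have hk : (y + 1) * Real.exp (-y) ≤ 1 := by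
      have h1 : y + 1 ≤ Real.exp y := Real.add_one_le_exp y
      calc (y + 1) * Real.exp (-y) ≤ Real.exp y * Real.exp (-y) :=
            mul_le_mul_of_nonneg_right h1 (Real.exp_pos _).le
        _ = 1 := by rw [← Real.exp_add]; simp
    have e : (1 / π) * (x + 1 / ρ ^ 2) * (π * (1 - Real.exp (-y)) / x) =
        (y + 1) * (1 - Real.exp (-y)) / y := by
      rw [hy]; field_simp
    rw [e, le_div_iff₀ hy0]
    nlinarith

theorem prod_add_le {ι : Type} [DecidableEq ι] (s : Finset ι) (a : ι → ℝ) (M δ : ℝ) (hδ : 0 ≤ δ)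
    (hδ1 : δ ≤ 1) (hM : 0 ≤ M) (ha : ∀ i, 0 ≤ a i) (haM : ∀ i, a i ≤ M) :
    ∏ i ∈ s, (a i + δ) ≤ ∏ i ∈ s, a i + δ * s.card * (M + 1) ^ s.card := by
  induction s using Finset.induction_on with
  | empty => simp
  | insert i s hi ih =>
    rw [Finset.prod_insert hi, Finset.prod_insert hi, Finset.card_insert_of_notMem hi]
    have hP : ∏ j ∈ s, (a j + δ) ≤ (M + 1) ^ s.card := by
      calc ∏ j ∈ s, (a j + δ) ≤ ∏ _j ∈ s, (M + 1) := by
            apply Finset.prod_le_prod
            · intro j _; linarith [ha j]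
            · intro j _; linarith [haM j]
        _ = _ := by simp
    have hMp : 0 ≤ (M + 1) ^ s.card := by positivity
    have h1 : a i * ∏ j ∈ s, (a j + δ) ≤ a i * (∏ j ∈ s, a j) + M * (δ * s.card * (M + 1) ^ s.card) := by
      calc a i * ∏ j ∈ s, (a j + δ) ≤ a i * (∏ i ∈ s, a i + δ * s.card * (M + 1) ^ s.card) :=
            mul_le_mul_of_nonneg_left ih (ha i)
        _ = a i * (∏ j ∈ s, a j) + a i * (δ * s.card * (M + 1) ^ s.card) := by ring
        _ ≤ _ := by
            have : a i * (δ * s.card * (M + 1) ^ s.card) ≤ M * (δ * s.card * (M + 1) ^ s.card) :=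
              mul_le_mul_of_nonneg_right (haM i) (by positivity)
            linarith
    have h2 : δ * ∏ j ∈ s, (a j + δ) ≤ δ * (M + 1) ^ s.card := mul_le_mul_of_nonneg_left hP hδ
    have h3 : M * (δ * s.card * (M + 1) ^ s.card) + δ * (M + 1) ^ s.card ≤
        δ * ((s.card + 1 : ℕ) : ℝ) * (M + 1) ^ (s.card + 1) := by
      push_cast
      rw [pow_succ]
      have : 0 ≤ δ * (M + 1) ^ s.card := by positivity
      have hc : (0 : ℝ) ≤ s.card := Nat.cast_nonneg _
      nlinarith [mul_nonneg this hc, mul_nonneg this hM, mul_nonneg (mul_nonneg this hM) hc]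
    calc (a i + δ) * ∏ j ∈ s, (a j + δ) = a i * ∏ j ∈ s, (a j + δ) + δ * ∏ j ∈ s, (a j + δ) := by
          ring
      _ ≤ _ := by linarith

theorem unitary_measurePreserving {n : ℕ} (U : Matrix (Fin n) (Fin n) ℂ)
    (hU : U ∈ Matrix.unitaryGroup (Fin n) ℂ) :
    MeasurePreserving (fun ξ : Fin n → ℂ => U *ᵥ ξ) volume volume := by
  have hd : ‖U.det‖ = 1 := by
    have h1 : star U * U = 1 := (Matrix.mem_unitaryGroup_iff').1 hU
    have h2 := congrArg Matrix.det h1
    rw [Matrix.det_mul, Matrix.star_eq_conjTranspose, Matrix.det_conjTranspose, Matrix.det_one] at h2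
    have h3 := congrArg norm h2
    rw [norm_mul, norm_star, norm_one] at h3
    nlinarith [norm_nonneg U.det]
  set f : (Fin n → ℂ) →ₗ[ℝ] (Fin n → ℂ) := (Matrix.toLin' U).restrictScalars ℝ with hf
  have hdet : LinearMap.det f = 1 := by
    rw [hf, LinearMap.det_restrictScalars, LinearMap.det_toLin', Algebra.norm_complex_apply,
      Complex.normSq_eq_norm_sq, hd]
    norm_num
  have hff : (fun ξ : Fin n → ℂ => U *ᵥ ξ) = f := by
    funext ξ
    simp [hf, Matrix.toLin'_apply]
  constructor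
  · exact (by fun_prop : Continuous fun ξ : Fin n → ℂ => U *ᵥ ξ).measurable
  · rw [hff, Measure.map_linearMap_addHaar_eq_smul_addHaar volume (f := f) (by rw [hdet]; norm_num), hdet]
    simp

theorem gauss_lower (n : ℕ) (B ε : ℝ) (hε : 0 < ε) :
    ∃ R > 0, ∀ A : Matrix (Fin n) (Fin n) ℂ, A.IsHermitian → (∀ i j, ‖A i j‖ ≤ B) →
      ∀ t ∈ Set.Icc (0 : ℝ) 1,
        1 ≤ (1 / π) ^ n * ((2 * t) ^ n * dplus A + ε) *
          ∫ ζ in Metric.closedBall (0 : Fin n → ℂ) R,
            Real.exp (-(2 * t * (star ζ ⬝ᵥ A *ᵥ ζ).re)) := by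
  have hpi := Real.pi_pos
  set M : ℝ := 2 * (n * (n * |B|)) with hM
  have hM0 : 0 ≤ M := by positivity
  -- choose `δ`
  obtain ⟨δ, hδ0, hδ1, hδε⟩ : ∃ δ : ℝ, 0 < δ ∧ δ ≤ 1 ∧ δ * n * (M + 1) ^ n ≤ ε := by
    have hc : 0 < n * (M + 1) ^ n + 1 := by positivity
    refine ⟨min 1 (ε / (n * (M + 1) ^ n + 1)), lt_min one_pos (by positivity), min_le_left _ _, ?_⟩
    calc min 1 (ε / (n * (M + 1) ^ n + 1)) * n * (M + 1) ^ n
        = min 1 (ε / (n * (M + 1) ^ n + 1)) * (n * (M + 1) ^ n) := by ring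
      _ ≤ (ε / (n * (M + 1) ^ n + 1)) * (n * (M + 1) ^ n) :=
          mul_le_mul_of_nonneg_right (min_le_right _ _) (by positivity)
      _ ≤ (ε / (n * (M + 1) ^ n + 1)) * (n * (M + 1) ^ n + 1) :=
          mul_le_mul_of_nonneg_left (by linarith) (by positivity)
      _ = ε := by field_simp
  set ρ : ℝ := 1 / √δ with hρ
  have hsδ : 0 < √δ := Real.sqrt_pos.2 hδ0
  have hρ0 : 0 < ρ := by positivity
  have hρδ : 1 / ρ ^ 2 = δ := by
    rw [hρ]; rw [div_pow, one_pow, one_div_one_div, Real.sq_sqrt hδ0.le]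
  refine ⟨n * ρ + 1, by positivity, ?_⟩
  intro A hA hAB t ht
  obtain ⟨ht0, ht1⟩ := ht
  set U : Matrix (Fin n) (Fin n) ℂ := (hA.eigenvectorUnitary : Matrix (Fin n) (Fin n) ℂ) with hUdef
  have hU : U ∈ Matrix.unitaryGroup (Fin n) ℂ := hA.eigenvectorUnitary.2
  set lam := hA.eigenvalues with hlam
  have hUn : ∀ i j, ‖U i j‖ ≤ 1 := fun i j => entry_norm_bound_of_unitary hU i j
  have hdiag : star U * A * U = diagonal (fun i => (lam i : ℂ)) := by
    have := hA.conjStarAlgAut_star_eigenvectorUnitary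
    rw [Unitary.conjStarAlgAut_star_apply] at this
    exact this
  -- bound for the eigenvalues
  have hlamB : ∀ j, |lam j| ≤ n * (n * |B|) := by
    intro j
    have h1 : (lam j : ℂ) = (star U * A * U) j j := by rw [hdiag]; simp
    have h2 : ‖(star U * A * U) j j‖ ≤ n * (n * |B|) := by
      rw [Matrix.mul_apply]
      have h3 : ∀ k, ‖(star U * A) j k * U k j‖ ≤ n * |B| := by
        intro k
        rw [norm_mul, Matrix.mul_apply]
        calc ‖∑ l, (star U) j l * A l k‖ * ‖U k j‖ ≤ ‖∑ l, (star U) j l * A l k‖ * 1 :=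
              mul_le_mul_of_nonneg_left (hUn k j) (norm_nonneg _)
          _ = ‖∑ l, (star U) j l * A l k‖ := mul_one _
          _ ≤ ∑ l, ‖(star U) j l * A l k‖ := norm_sum_le _ _
          _ ≤ ∑ _l : Fin n, |B| := by
              apply Finset.sum_le_sum
              intro l _
              rw [norm_mul, Matrix.star_apply, norm_star]
              calc ‖U l j‖ * ‖A l k‖ ≤ 1 * |B| :=
                    mul_le_mul (hUn l j) ((hAB l k).trans (le_abs_self B)) (norm_nonneg _) one_pos.le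
                _ = |B| := one_mul _
          _ = n * |B| := by simp
      calc ‖∑ k, (star U * A) j k * U k j‖ ≤ ∑ k, ‖(star U * A) j k * U k j‖ := norm_sum_le _ _
        _ ≤ ∑ _k : Fin n, (n * |B|) := Finset.sum_le_sum fun k _ => h3 k
        _ = n * (n * |B|) := by simp
    rw [← h1, Complex.norm_real, Real.norm_eq_abs] at h2
    exact h2
  set x : Fin n → ℝ := fun j => 2 * t * lam j with hx
  have hxM : ∀ j, max (x j) 0 ≤ M := by
    intro j
    apply max_le _ hM0
    have := hlamB j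
    have h2 : |x j| ≤ M := by
      rw [hx]
      simp only
      rw [abs_mul, abs_of_nonneg (by positivity : 0 ≤ 2 * t), hM]
      have h0 : 0 ≤ |lam j| := abs_nonneg _
      nlinarith
    exact (le_abs_self _).trans h2
  -- quadratic form
  have hquad : ∀ ξ : Fin n → ℂ, (star (U *ᵥ ξ) ⬝ᵥ A *ᵥ (U *ᵥ ξ)).re = ∑ j, lam j * ‖ξ j‖ ^ 2 := by
    intro ξ
    have h1 : star (U *ᵥ ξ) ⬝ᵥ A *ᵥ (U *ᵥ ξ) = star ξ ⬝ᵥ (star U * A * U) *ᵥ ξ := by
      rw [Matrix.star_mulVec, ← Matrix.dotProduct_mulVec, Matrix.mulVec_mulVec, Matrix.mulVec_mulVec,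
        Matrix.star_eq_conjTranspose, Matrix.mul_assoc]
    rw [h1, hdiag]
    simp only [dotProduct, mulVec_diagonal, Pi.star_apply, Complex.re_sum]
    apply Finset.sum_congr rfl
    intro j _
    have : star (ξ j) * ((lam j : ℂ) * ξ j) = ((lam j * ‖ξ j‖ ^ 2 : ℝ) : ℂ) := by
      have h5 : star (ξ j) * ξ j = ((‖ξ j‖ ^ 2 : ℝ) : ℂ) := by
        rw [Complex.star_def, Complex.conj_mul']; push_cast; rfl
      calc star (ξ j) * ((lam j : ℂ) * ξ j) = (lam j : ℂ) * (star (ξ j) * ξ j) := by ring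
        _ = _ := by rw [h5]; push_cast; rfl
    rw [this, Complex.ofReal_re]
  -- change of variables
  set g : (Fin n → ℂ) → ℝ := fun ζ => Real.exp (-(2 * t * (star ζ ⬝ᵥ A *ᵥ ζ).re)) with hg
  have hgc : Continuous g := by
    rw [hg]
    have : Continuous fun ζ : Fin n → ℂ => star ζ ⬝ᵥ A *ᵥ ζ := by
      exact Continuous.dotProduct continuous_star (by fun_prop)
    fun_prop
  have hmp := unitary_measurePreserving U hU
  have hUU : star U * U = 1 := (Matrix.mem_unitaryGroup_iff').1 hU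
  have hUU' : U * star U = 1 := (Matrix.mem_unitaryGroup_iff).1 hU
  have hemb : MeasurableEmbedding (fun ξ : Fin n → ℂ => U *ᵥ ξ) := by
    let e : (Fin n → ℂ) ≃ₜ (Fin n → ℂ) :=
      { toFun := fun ξ => U *ᵥ ξ
        invFun := fun ξ => (star U) *ᵥ ξ
        left_inv := fun ξ => by simp [Matrix.mulVec_mulVec, hUU]
        right_inv := fun ξ => by simp [Matrix.mulVec_mulVec, hUU']
        continuous_toFun := by fun_prop
        continuous_invFun := by fun_prop }
    exact e.measurableEmbedding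
  set R : ℝ := n * ρ + 1 with hR
  have hsub : Metric.closedBall (0 : Fin n → ℂ) ρ ⊆
      (fun ξ : Fin n → ℂ => U *ᵥ ξ) ⁻¹' Metric.closedBall 0 R := by
    intro ξ hξ
    rw [mem_closedBall_zero_iff] at hξ
    rw [Set.mem_preimage, mem_closedBall_zero_iff, pi_norm_le_iff_of_nonneg (by positivity)]
    intro i
    calc ‖(U *ᵥ ξ) i‖ = ‖∑ j, U i j * ξ j‖ := rfl
      _ ≤ ∑ j, ‖U i j * ξ j‖ := norm_sum_le _ _
      _ ≤ ∑ _j : Fin n, ρ := by
          apply Finset.sum_le_sum
          intro j _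
          rw [norm_mul]
          calc ‖U i j‖ * ‖ξ j‖ ≤ 1 * ρ :=
                mul_le_mul (hUn i j) ((norm_le_pi_norm ξ j).trans hξ) (norm_nonneg _) one_pos.le
            _ = ρ := one_mul _
      _ = n * ρ := by simp
      _ ≤ R := by linarith
  have hcompact : IsCompact ((fun ξ : Fin n → ℂ => U *ᵥ ξ) ⁻¹' Metric.closedBall 0 R) := by
    have : (fun ξ : Fin n → ℂ => U *ᵥ ξ) ⁻¹' Metric.closedBall 0 R =
        (fun ξ : Fin n → ℂ => (star U) *ᵥ ξ) '' Metric.closedBall 0 R := by
      ext ξ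
      constructor
      · intro h
        exact ⟨U *ᵥ ξ, h, by simp [Matrix.mulVec_mulVec, hUU]⟩
      · rintro ⟨ζ, hζ, rfl⟩
        simpa [Matrix.mulVec_mulVec, hUU'] using hζ
    rw [this]
    exact (isCompact_closedBall 0 R).image (by fun_prop)
  have hint : ∫ ξ in Metric.closedBall (0 : Fin n → ℂ) ρ, g (U *ᵥ ξ) ≤
      ∫ ζ in Metric.closedBall (0 : Fin n → ℂ) R, g ζ := by
    rw [← hmp.setIntegral_preimage_emb hemb g (Metric.closedBall 0 R)]
    apply setIntegral_mono_set
    · exact (hgc.comp (by fun_prop)).continuousOn.integrableOn_compact hcompact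
    · exact Filter.Eventually.of_forall fun ξ => (Real.exp_pos _).le
    · exact hsub.eventuallyLE
  -- product structure
  have hprodI : ∫ ξ in Metric.closedBall (0 : Fin n → ℂ) ρ, g (U *ᵥ ξ) =
      ∏ j, ∫ ζ in Metric.closedBall (0 : ℂ) ρ, Real.exp (-(x j * ‖ζ‖ ^ 2)) := by
    have hb : Metric.closedBall (0 : Fin n → ℂ) ρ =
        Set.pi Set.univ fun _ => Metric.closedBall (0 : ℂ) ρ := by
      rw [closedBall_pi _ hρ0.le]; rfl
    rw [hb, volume_pi, Measure.restrict_pi_pi]
    rw [← integral_fintype_prod_eq_prod (μ := fun _ : Fin n => (volume : Measure ℂ).restrict (Metric.closedBall (0 : ℂ) ρ))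
      (fun j ζ => Real.exp (-(x j * ‖ζ‖ ^ 2)))]
    congr 1
    funext ξ
    rw [← Real.exp_sum]
    simp only [hg]
    rw [hquad ξ]
    congr 1
    rw [Finset.sum_neg_distrib, Finset.mul_sum]
    congr 1
    apply Finset.sum_congr rfl
    intro j _
    rw [hx]; ring
  -- positivity of the disc integrals and the final estimate
  have hone : 1 ≤ ∏ j : Fin n, ((1 / π) * (max (x j) 0 + δ) *
      ∫ ζ in Metric.closedBall (0 : ℂ) ρ, Real.exp (-(x j * ‖ζ‖ ^ 2))) := by
    have h1 : ∀ j : Fin n, 1 ≤ ((1 / π) * (max (x j) 0 + δ) *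
        ∫ ζ in Metric.closedBall (0 : ℂ) ρ, Real.exp (-(x j * ‖ζ‖ ^ 2))) := by
      intro j
      have := gauss_disc (x j) ρ hρ0
      rwa [hρδ] at this
    have h2 := Finset.prod_le_prod (s := (Finset.univ : Finset (Fin n)))
      (fun _ _ => zero_le_one) (fun j _ => h1 j)
    simpa only [Finset.prod_const_one] using h2
  have hsplit : ∏ j : Fin n, ((1 / π) * (max (x j) 0 + δ) *
      ∫ ζ in Metric.closedBall (0 : ℂ) ρ, Real.exp (-(x j * ‖ζ‖ ^ 2))) =
      (1 / π) ^ n * (∏ j : Fin n, (max (x j) 0 + δ)) *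
        ∫ ξ in Metric.closedBall (0 : Fin n → ℂ) ρ, g (U *ᵥ ξ) := by
    rw [hprodI, Finset.prod_mul_distrib, Finset.prod_mul_distrib]
    simp
  rw [hsplit] at hone
  have hmax : ∏ j : Fin n, max (x j) 0 = (2 * t) ^ n * dplus A := by
    unfold dplus
    split_ifs with hps
    · have hnn : ∀ j, 0 ≤ lam j := fun j => hps.eigenvalues_nonneg j
      have h1 : ∀ j, max (x j) 0 = 2 * t * lam j := fun j =>
        max_eq_left (by rw [hx]; exact mul_nonneg (by positivity) (hnn j))
      rw [Finset.prod_congr rfl fun j _ => h1 j, Finset.prod_mul_distrib]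
      rw [hA.det_eq_prod_eigenvalues]
      have h2 : (∏ i, ((hA.eigenvalues i : ℝ) : ℂ)) = ((∏ i, lam i : ℝ) : ℂ) := by
        push_cast; rfl
      have h3 : (∏ i, ((hA.eigenvalues i : ℝ) : ℂ)).re = ∏ i, lam i := by
        rw [h2, Complex.ofReal_re]
      simp only [Finset.prod_const, Finset.card_univ, Fintype.card_fin]
      rw [← h3]
      rfl
    · have hneg : ∃ j, lam j < 0 := by
        by_contra hcon
        push Not at hcon
        exact hps (hA.posSemidef_iff_eigenvalues_nonneg.2 hcon)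
      obtain ⟨j, hj⟩ := hneg
      rw [mul_zero]
      apply Finset.prod_eq_zero (Finset.mem_univ j)
      apply max_eq_right
      rw [hx]
      exact mul_nonpos_of_nonneg_of_nonpos (by positivity) hj.le
  have hfin : ∏ j : Fin n, (max (x j) 0 + δ) ≤ (2 * t) ^ n * dplus A + ε := by
    have := prod_add_le Finset.univ (fun j : Fin n => max (x j) 0) M δ hδ0.le hδ1 hM0
      (fun j => le_max_right _ _) hxM
    simp only [Finset.card_univ, Fintype.card_fin] at this
    rw [hmax] at this
    linarith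
  have hI0 : 0 ≤ ∫ ξ in Metric.closedBall (0 : Fin n → ℂ) ρ, g (U *ᵥ ξ) :=
    integral_nonneg fun ξ => (Real.exp_pos _).le
  have hp0 : 0 ≤ ∏ j : Fin n, (max (x j) 0 + δ) :=
    Finset.prod_nonneg fun j _ => by positivity
  calc (1 : ℝ) ≤ (1 / π) ^ n * (∏ j : Fin n, (max (x j) 0 + δ)) *
        ∫ ξ in Metric.closedBall (0 : Fin n → ℂ) ρ, g (U *ᵥ ξ) := hone
    _ ≤ (1 / π) ^ n * ((2 * t) ^ n * dplus A + ε) *
        ∫ ζ in Metric.closedBall (0 : Fin n → ℂ) R, g ζ := by
        apply mul_le_mul _ hint hI0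
        · exact mul_nonneg (by positivity) (hp0.trans hfin)
        · exact mul_le_mul_of_nonneg_left hfin (by positivity)

end Pool.Agent.Ceg
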