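import Pool.Agent.Ceg.Defs
import Pool.Agent.Ceg.Gauss

/-!
# Module LOCAL: sub-mean value inequality with a smooth weight
-/

set_option autoImplicit false

namespace Pool.Agent.Ceg

open MeasureTheory Matrix Filter Topology
open scoped ContDiff ENNReal Real ComplexOrder

/-! ## Taylor expansion with third order remainder -/

theorem hasFDerivAt_shift {E F : Type*} [NormedAddCommGroup E] [NormedSpace ℝ E]
    [NormedAddCommGroup F] [NormedSpace ℝ F] {f : E → F} {f' : E →L[ℝ] F} {z x : E}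
    (h : HasFDerivAt f f' (z + x)) : HasFDerivAt (fun x => f (z + x)) f' x := by
  exact (hasFDerivAt_comp_add_left z).2 h

theorem taylor_step1 {E F : Type*} [NormedAddCommGroup E] [NormedSpace ℝ E]
    [NormedAddCommGroup F] [NormedSpace ℝ F] {f : E → F} {f' : E → E →L[ℝ] F}
    (h : ∀ x, HasFDerivAt f (f' x) x) (L : NNReal) (hL : LipschitzWith L f') (z η : E) :
    ‖f (z + η) - f z - f' z η‖ ≤ L * ‖η‖ ^ 2 := by
  have key := Convex.norm_image_sub_le_of_norm_hasFDerivWithin_le (𝕜 := ℝ)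
      (f := fun x => f (z + x) - f' z x)
      (f' := fun x => f' (z + x) - f' z)
      (s := Metric.closedBall 0 ‖η‖) (x := 0) (y := η) (C := L * ‖η‖)
      (fun x _ => ((hasFDerivAt_shift (h (z + x))).sub (f' z).hasFDerivAt).hasFDerivWithinAt)
      (fun x hx => by
        have := hL.dist_le_mul (z + x) z
        rw [dist_eq_norm, dist_eq_norm, add_sub_cancel_left] at this
        refine this.trans ?_
        have hx' : ‖x‖ ≤ ‖η‖ := by simpa using hx
        exact mul_le_mul_of_nonneg_left hx' L.2)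
      (convex_closedBall _ _) (by simp) (by simp)
  have e : (f (z + η) - f' z η) - (f (z + 0) - f' z 0) = f (z + η) - f z - f' z η := by
    rw [add_zero, map_zero, sub_zero]; abel
  rw [e] at key
  calc _ ≤ _ := key
    _ = L * ‖η‖ ^ 2 := by rw [sub_zero]; ring

theorem hasFDerivAt_quad {E : Type*} [NormedAddCommGroup E] [NormedSpace ℝ E]
    (B : E →L[ℝ] E →L[ℝ] ℝ) (hB : ∀ v w, B v w = B w v) (x : E) :
    HasFDerivAt (fun x => (1 / 2 : ℝ) * B x x) (B x) x := by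
  have h := ((B.hasFDerivAt (x := x)).clm_apply (hasFDerivAt_id x)).const_mul (1 / 2 : ℝ)
  refine h.congr_fderiv ?_
  ext v
  simp [hB v x]
  ring

theorem taylor_step2 {E : Type*} [NormedAddCommGroup E] [NormedSpace ℝ E]
    {f : E → ℝ} {f' : E → E →L[ℝ] ℝ} {f'' : E → E →L[ℝ] E →L[ℝ] ℝ}
    (h : ∀ x, HasFDerivAt f (f' x) x) (h' : ∀ x, HasFDerivAt f' (f'' x) x)
    (hs : ∀ x v w, f'' x v w = f'' x w v)
    (L : NNReal) (hL : LipschitzWith L f'') (z ζ : E) :
    |f (z + ζ) - f z - f' z ζ - (1 / 2) * f'' z ζ ζ| ≤ L * ‖ζ‖ ^ 3 := by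
  have key := Convex.norm_image_sub_le_of_norm_hasFDerivWithin_le (𝕜 := ℝ)
      (f := fun x => f (z + x) - f' z x - (1 / 2) * f'' z x x)
      (f' := fun x => f' (z + x) - f' z - f'' z x)
      (s := Metric.closedBall 0 ‖ζ‖) (x := 0) (y := ζ) (C := L * ‖ζ‖ ^ 2)
      (fun x _ => (((hasFDerivAt_shift (h (z + x))).sub (f' z).hasFDerivAt).sub
        (hasFDerivAt_quad (f'' z) (hs z) x)).hasFDerivWithinAt)
      (fun x hx => by
        have hx' : ‖x‖ ≤ ‖ζ‖ := by simpa using hx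
        refine (taylor_step1 h' L hL z x).trans ?_
        exact mul_le_mul_of_nonneg_left (pow_le_pow_left₀ (norm_nonneg _) hx' 2) L.2)
      (convex_closedBall _ _) (by simp) (by simp)
  have e : (f (z + ζ) - f' z ζ - (1 / 2) * f'' z ζ ζ) -
      (f (z + 0) - f' z 0 - (1 / 2) * f'' z 0 0) =
      f (z + ζ) - f z - f' z ζ - (1 / 2) * f'' z ζ ζ := by
    rw [add_zero, map_zero, map_zero, sub_zero, mul_zero, sub_zero]; ring
  rw [e] at key
  rw [← Real.norm_eq_abs]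
  calc _ ≤ _ := key
    _ = L * ‖ζ‖ ^ 3 := by rw [sub_zero]; ring

theorem two_le_infty : (2 : WithTop ℕ∞) ≤ (∞ : WithTop ℕ∞) :=
  WithTop.coe_le_coe.2 (le_top : (2 : ℕ∞) ≤ ⊤)

theorem snd_symm {E : Type*} [NormedAddCommGroup E] [NormedSpace ℝ E] (ψ : E → ℝ)
    (hψ : ContDiff ℝ ∞ ψ) (x v w : E) :
    fderiv ℝ (fderiv ℝ ψ) x v w = fderiv ℝ (fderiv ℝ ψ) x w v :=
  (hψ.contDiffAt.isSymmSndFDerivAt (by
    rw [minSmoothness_of_isRCLikeNormedField]; exact two_le_infty)) v w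

theorem contDiff_fd {E F : Type*} [NormedAddCommGroup E] [NormedSpace ℝ E]
    [NormedAddCommGroup F] [NormedSpace ℝ F] (ψ : E → F)
    (hψ : ContDiff ℝ ∞ ψ) : ContDiff ℝ ∞ (fderiv ℝ ψ) := hψ.fderiv_right (by simp)

theorem lip_snd {E : Type*} [NormedAddCommGroup E] [NormedSpace ℝ E] (ψ : E → ℝ)
    (hψ : ContDiff ℝ ∞ ψ) (hc : HasCompactSupport ψ) :
    ∃ L, LipschitzWith L (fderiv ℝ (fderiv ℝ ψ)) :=
  ContDiff.lipschitzWith_of_hasCompactSupport ((hc.fderiv (𝕜 := ℝ)).fderiv (𝕜 := ℝ))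
    (contDiff_fd _ (contDiff_fd ψ hψ)) (by simp)

theorem taylor_bound0 {E : Type*} [NormedAddCommGroup E] [NormedSpace ℝ E] (ψ : E → ℝ)
    (h1 : Differentiable ℝ ψ) (h2 : Differentiable ℝ (fderiv ℝ ψ))
    (h3 : ∀ x v w, fderiv ℝ (fderiv ℝ ψ) x v w = fderiv ℝ (fderiv ℝ ψ) x w v)
    (L : NNReal) (hL : LipschitzWith L (fderiv ℝ (fderiv ℝ ψ))) :
    ∃ C : ℝ, 0 ≤ C ∧ ∀ z ζ, |ψ (z + ζ) - ψ z - fderiv ℝ ψ z ζ -
      (1 / 2) * fderiv ℝ (fderiv ℝ ψ) z ζ ζ| ≤ C * ‖ζ‖ ^ 3 := by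
  refine ⟨(L : ℝ), L.2, fun z ζ => ?_⟩
  exact taylor_step2 (f := ψ) (f' := fderiv ℝ ψ) (f'' := fderiv ℝ (fderiv ℝ ψ))
    (fun x => (h1 x).hasFDerivAt) (fun x => (h2 x).hasFDerivAt) h3 L hL z ζ

theorem taylor_bound {E : Type*} [NormedAddCommGroup E] [NormedSpace ℝ E] (ψ : E → ℝ)
    (hψ : ContDiff ℝ ∞ ψ) (hc : HasCompactSupport ψ) :
    ∃ C : ℝ, 0 ≤ C ∧ ∀ z ζ, |ψ (z + ζ) - ψ z - fderiv ℝ ψ z ζ -
      (1 / 2) * fderiv ℝ (fderiv ℝ ψ) z ζ ζ| ≤ C * ‖ζ‖ ^ 3 := by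
  obtain ⟨L, hL⟩ := lip_snd ψ hψ hc
  exact taylor_bound0 ψ (hψ.differentiable (by simp))
    ((contDiff_fd ψ hψ).differentiable (by simp)) (snd_symm ψ hψ) L hL

/-- Mean value inequality for an entire function. -/
theorem norm_zero_le_mean (G : ℂ → ℂ) (hG : Differentiable ℂ G) :
    2 * π * ‖G 0‖ ≤ ∫ θ in (0 : ℝ)..(2 * π), ‖G (Complex.exp (θ * Complex.I))‖ := by
  have h := DiffContOnCl.circleAverage (R := 1) (c := 0) (f := G) hG.diffContOnCl
  rw [Real.circleAverage_def] at h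
  have h2 : ‖∫ θ in (0 : ℝ)..(2 * π), G (circleMap 0 1 θ)‖ ≤
      ∫ θ in (0 : ℝ)..(2 * π), ‖G (circleMap 0 1 θ)‖ :=
    intervalIntegral.norm_integral_le_integral_norm (by positivity)
  have h3 : ‖G 0‖ = (2 * π)⁻¹ * ‖∫ θ in (0 : ℝ)..(2 * π), G (circleMap 0 1 θ)‖ := by
    rw [← h, norm_smul, Real.norm_of_nonneg (by positivity)]
  have h4 : (2 * π) * ‖G 0‖ = ‖∫ θ in (0 : ℝ)..(2 * π), G (circleMap 0 1 θ)‖ := by
    rw [h3, ← mul_assoc, mul_inv_cancel₀ (by positivity), one_mul]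
  rw [h4]
  refine h2.trans (le_of_eq ?_)
  simp [circleMap]

/-! ## The Levi form -/

/-- The quadratic form of the Levi matrix. -/
noncomputable def hform {n : ℕ} (B : (Fin n → ℂ) →L[ℝ] (Fin n → ℂ) →L[ℝ] ℝ) (ζ : Fin n → ℂ) : ℝ :=
  (1 / 4) * (B ζ ζ + B (Complex.I • ζ) (Complex.I • ζ))

theorem smul_decomp {n : ℕ} (l : ℂ) (ζ : Fin n → ℂ) :
    l • ζ = l.re • ζ + l.im • (Complex.I • ζ) := by
  ext i
  have : l = l.re + l.im * Complex.I := (Complex.re_add_im l).symm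
  simp only [Pi.smul_apply, Pi.add_apply, smul_eq_mul, Complex.real_smul]
  conv_lhs => rw [this]
  ring

theorem I_smul_decomp {n : ℕ} (l : ℂ) (ζ : Fin n → ℂ) :
    Complex.I • (l • ζ) = (-l.im) • ζ + l.re • (Complex.I • ζ) := by
  ext i
  have : l = l.re + l.im * Complex.I := (Complex.re_add_im l).symm
  simp only [Pi.smul_apply, Pi.add_apply, smul_eq_mul, Complex.real_smul]
  conv_lhs => rw [this]
  push_cast
  linear_combination (l.im * ζ i : ℂ) * Complex.I_sq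

theorem hform_smul {n : ℕ} (B : (Fin n → ℂ) →L[ℝ] (Fin n → ℂ) →L[ℝ] ℝ) (l : ℂ)
    (ζ : Fin n → ℂ) : hform B (l • ζ) = ‖l‖ ^ 2 * hform B ζ := by
  unfold hform
  rw [I_smul_decomp, smul_decomp, Complex.sq_norm, Complex.normSq_apply]
  simp only [map_add, map_smul, _root_.add_apply, _root_.smul_apply,
    smul_eq_mul]
  ring

theorem vec_decomp {n : ℕ} (ζ : Fin n → ℂ) :
    ζ = ∑ k : Fin n, ((ζ k).re • (Pi.single k (1 : ℂ) : Fin n → ℂ) +
      (ζ k).im • (Pi.single k Complex.I : Fin n → ℂ)) := by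
  ext i
  simp only [Finset.sum_apply, Pi.add_apply, Pi.smul_apply, Complex.real_smul]
  rw [Finset.sum_eq_single i]
  · simp
  · intro b _ hb
    simp [hb.symm]
  · simp

theorem I_vec_decomp {n : ℕ} (ζ : Fin n → ℂ) :
    Complex.I • ζ =
      ∑ k : Fin n, ((-(ζ k).im) • (Pi.single k (1 : ℂ) : Fin n → ℂ) +
        (ζ k).re • (Pi.single k Complex.I : Fin n → ℂ)) := by
  have h := vec_decomp (Complex.I • ζ)
  simpa using h

theorem bilin_decomp {n : ℕ} (B : (Fin n → ℂ) →L[ℝ] (Fin n → ℂ) →L[ℝ] ℝ)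
    (x y : Fin n → ℝ) (e f : Fin n → Fin n → ℂ) :
    B (∑ j, (x j • e j + y j • f j)) (∑ k, (x k • e k + y k • f k)) =
      ∑ j, ∑ k, (x j * x k * B (e j) (e k) + x j * y k * B (e j) (f k) +
        y j * x k * B (f j) (e k) + y j * y k * B (f j) (f k)) := by
  rw [map_sum B, _root_.sum_apply]
  refine Finset.sum_congr rfl fun j _ => ?_
  rw [map_sum]
  refine Finset.sum_congr rfl fun k _ => ?_
  simp only [map_add, map_smul, _root_.add_apply, _root_.smul_apply,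
    smul_eq_mul]
  ring

theorem quad_levi {n : ℕ} (u : (Fin n → ℂ) → ℝ) (z ζ : Fin n → ℂ) :
    (star ζ ⬝ᵥ levi u z *ᵥ ζ).re = hform (fderiv ℝ (fderiv ℝ u) z) ζ := by
  set B := fderiv ℝ (fderiv ℝ u) z with hB
  have h1 := bilin_decomp B (fun j => (ζ j).re) (fun j => (ζ j).im)
    (fun k => Pi.single k (1 : ℂ)) (fun k => Pi.single k Complex.I)
  rw [← vec_decomp ζ] at h1
  have h2 := bilin_decomp B (fun j => -(ζ j).im) (fun j => (ζ j).re)
    (fun k => Pi.single k (1 : ℂ)) (fun k => Pi.single k Complex.I)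
  rw [← I_vec_decomp ζ] at h2
  unfold hform
  rw [h1, h2, ← Finset.sum_add_distrib, Finset.mul_sum]
  simp only [dotProduct, mulVec, Complex.re_sum, Finset.mul_sum]
  refine Finset.sum_congr rfl fun j _ => ?_
  rw [← Finset.sum_add_distrib, Finset.mul_sum]
  refine Finset.sum_congr rfl fun k _ => ?_
  simp only [levi, hess, ← hB, Pi.star_apply, RCLike.star_def, Complex.mul_re, Complex.mul_im,
    Complex.conj_re, Complex.conj_im, Complex.add_re, Complex.add_im, Complex.ofReal_re,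
    Complex.ofReal_im, Complex.I_re, Complex.I_im, Complex.ofReal_add, Complex.ofReal_sub,
    Complex.sub_re, Complex.sub_im]
  norm_num
  ring

theorem levi_isHermitian {n : ℕ} (u : (Fin n → ℂ) → ℝ) (hu : ContDiff ℝ ∞ u) (z : Fin n → ℂ) :
    (levi u z).IsHermitian := by
  ext j k
  have h1 := snd_symm u hu z (Pi.single k (1 : ℂ)) (Pi.single j (1 : ℂ))
  have h2 := snd_symm u hu z (Pi.single k Complex.I) (Pi.single j Complex.I)
  have h3 := snd_symm u hu z (Pi.single k Complex.I) (Pi.single j (1 : ℂ))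
  have h4 := snd_symm u hu z (Pi.single k (1 : ℂ)) (Pi.single j Complex.I)
  simp only [conjTranspose_apply, levi, hess, RCLike.star_def, map_mul, map_add, Complex.conj_ofReal,
    Complex.conj_I, h1, h2, h3, h4]
  have : (starRingEnd ℂ) (1 / 4 : ℂ) = 1 / 4 := by
    rw [map_div₀, map_one]
    congr 1
    exact Complex.conj_ofNat 4
  rw [this]
  push_cast
  ring

theorem norm_levi_le {n : ℕ} (u : (Fin n → ℂ) → ℝ) (z : Fin n → ℂ) (M : ℝ)
    (hM : ‖fderiv ℝ (fderiv ℝ u) z‖ ≤ M) (j k : Fin n) : ‖levi u z j k‖ ≤ M := by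
  have hs : ∀ (i : Fin n) (c : ℂ), ‖c‖ = 1 → ‖(Pi.single i c : Fin n → ℂ)‖ = 1 := by
    intro i c hc
    rw [Pi.norm_single, hc]
  have hb : ∀ v w : Fin n → ℂ, ‖v‖ = 1 → ‖w‖ = 1 → |hess u z v w| ≤ M := by
    intro v w hv hw
    have := (fderiv ℝ (fderiv ℝ u) z).le_opNorm₂ v w
    rw [hv, hw, mul_one, mul_one] at this
    exact this.trans hM
  have b1 := hb _ _ (hs j 1 (by simp)) (hs k 1 (by simp))
  have b2 := hb _ _ (hs j Complex.I (by simp)) (hs k Complex.I (by simp))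
  have b3 := hb _ _ (hs j Complex.I (by simp)) (hs k 1 (by simp))
  have b4 := hb _ _ (hs j 1 (by simp)) (hs k Complex.I (by simp))
  unfold levi
  rw [norm_mul]
  have e1 : ‖(1 / 4 : ℂ)‖ = 1 / 4 := by simp
  rw [e1]
  have e2 := norm_add_le
    (((hess u z (Pi.single j 1) (Pi.single k 1) +
        hess u z (Pi.single j Complex.I) (Pi.single k Complex.I) : ℝ) : ℂ))
    (((hess u z (Pi.single j Complex.I) (Pi.single k 1) -
        hess u z (Pi.single j 1) (Pi.single k Complex.I) : ℝ) : ℂ) * Complex.I)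
  rw [norm_mul, Complex.norm_I, mul_one, Complex.norm_real, Complex.norm_real,
    Real.norm_eq_abs, Real.norm_eq_abs] at e2
  have e3 := abs_add_le (hess u z (Pi.single j 1) (Pi.single k 1))
    (hess u z (Pi.single j Complex.I) (Pi.single k Complex.I))
  have e4 := abs_sub (hess u z (Pi.single j Complex.I) (Pi.single k 1))
    (hess u z (Pi.single j 1) (Pi.single k Complex.I))
  linarith

theorem dplus_nonneg {n : ℕ} (A : Matrix (Fin n) (Fin n) ℂ) : 0 ≤ dplus A := by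
  unfold dplus
  split_ifs with h
  · exact (Complex.nonneg_iff.1 h.det_nonneg).1
  · exact le_rfl

theorem dplus_le {n : ℕ} (A : Matrix (Fin n) (Fin n) ℂ) (M : ℝ) (hM : 0 ≤ M)
    (h : ∀ i j, ‖A i j‖ ≤ M) : dplus A ≤ n.factorial * M ^ n := by
  unfold dplus
  split_ifs
  · have := Matrix.det_le (A := A) (abv := NormedField.toAbsoluteValue ℂ) (x := M) h
    simp only [Fintype.card_fin, nsmul_eq_mul] at this
    exact (Complex.re_le_norm _).trans this
  · positivity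

/-! ## Rotation average -/

theorem measurePreserving_rot (n : ℕ) (l : ℂ) (hl : ‖l‖ = 1) :
    MeasurePreserving (fun ζ : Fin n → ℂ => l • ζ) volume volume := by
  have h : MeasurePreserving (fun w : ℂ => l • w) volume volume := by
    have := (rotation ⟨l, mem_sphere_zero_iff_norm.2 hl⟩).measurePreserving
    exact this
  exact volume_preserving_pi (fun _ => h)

theorem integral_rot (n : ℕ) (l : ℂ) (hl : ‖l‖ = 1) (ρ : ℝ) (Φ : (Fin n → ℂ) → ℝ) :
    ∫ ζ in Metric.closedBall (0 : Fin n → ℂ) ρ, Φ (l • ζ) =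
      ∫ ζ in Metric.closedBall (0 : Fin n → ℂ) ρ, Φ ζ := by
  have hl0 : l ≠ 0 := by
    rintro rfl; simp at hl
  have hemb : MeasurableEmbedding (fun ζ : Fin n → ℂ => l • ζ) :=
    (Homeomorph.smulOfNeZero l hl0).measurableEmbedding
  have := (measurePreserving_rot n l hl).setIntegral_preimage_emb hemb Φ
    (Metric.closedBall (0 : Fin n → ℂ) ρ)
  rw [← this]
  congr 2
  ext ζ
  simp [norm_smul, hl]

theorem rot_average (n : ℕ) (ρ : ℝ) (Φ : (Fin n → ℂ) → ℝ) (hΦ : Continuous Φ) :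
    ∫ ζ in Metric.closedBall (0 : Fin n → ℂ) ρ,
      (∫ θ in (0 : ℝ)..(2 * π), Φ (Complex.exp (θ * Complex.I) • ζ)) =
      2 * π * ∫ ζ in Metric.closedBall (0 : Fin n → ℂ) ρ, Φ ζ := by
  rw [← intervalIntegral_integral_swap]
  · have : ∀ θ : ℝ, ∫ ζ in Metric.closedBall (0 : Fin n → ℂ) ρ,
        Φ (Complex.exp (θ * Complex.I) • ζ) =
        ∫ ζ in Metric.closedBall (0 : Fin n → ℂ) ρ, Φ ζ := by
      intro θ
      exact integral_rot n _ (by simp [Complex.norm_exp_ofReal_mul_I]) ρ Φ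
    simp only [this, intervalIntegral.integral_const, smul_eq_mul, sub_zero]
  · have hcont : Continuous (Function.uncurry fun (θ : ℝ) (ζ : Fin n → ℂ) =>
        Φ (Complex.exp (θ * Complex.I) • ζ)) := by
      unfold Function.uncurry
      fun_prop
    rw [Measure.prod_restrict]
    have hK : IsCompact ((Set.Icc 0 (2 * π)) ×ˢ Metric.closedBall (0 : Fin n → ℂ) ρ) :=
      isCompact_Icc.prod (isCompact_closedBall _ _)
    refine IntegrableOn.mono_set (hcont.continuousOn.integrableOn_compact hK) ?_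
    refine Set.prod_mono ?_ le_rfl
    rw [Set.uIoc_of_le (by positivity)]
    exact Set.Ioc_subset_Icc_self

/-- The second order Taylor polynomial without constant term. -/
noncomputable def tpoly {n : ℕ} (L : (Fin n → ℂ) →L[ℝ] ℝ) (B : (Fin n → ℂ) →L[ℝ] (Fin n → ℂ) →L[ℝ] ℝ)
    (ζ : Fin n → ℂ) : ℝ := L ζ + (1 / 2) * B ζ ζ

/-- The holomorphic part of the Taylor polynomial along the complex line of `ζ`. -/
noncomputable def hol {n : ℕ} (L : (Fin n → ℂ) →L[ℝ] ℝ) (B : (Fin n → ℂ) →L[ℝ] (Fin n → ℂ) →L[ℝ] ℝ)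
    (ζ : Fin n → ℂ) (l : ℂ) : ℂ :=
  l * ((L ζ : ℂ) - Complex.I * (L (Complex.I • ζ) : ℝ)) +
  l ^ 2 * (((B ζ ζ - B (Complex.I • ζ) (Complex.I • ζ)) / 4 : ℝ) -
    Complex.I * ((B ζ (Complex.I • ζ) + B (Complex.I • ζ) ζ) / 4 : ℝ))

theorem hol_re {n : ℕ} (L : (Fin n → ℂ) →L[ℝ] ℝ) (B : (Fin n → ℂ) →L[ℝ] (Fin n → ℂ) →L[ℝ] ℝ)
    (ζ : Fin n → ℂ) (l : ℂ) :
    (hol L B ζ l).re = tpoly L B (l • ζ) - hform B (l • ζ) := by
  rw [hform_smul, Complex.sq_norm, Complex.normSq_apply]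
  unfold hol tpoly hform
  rw [smul_decomp l ζ]
  simp only [map_add, map_smul, _root_.add_apply, _root_.smul_apply, smul_eq_mul]
  simp only [pow_two, Complex.add_re, Complex.mul_re, Complex.sub_re, Complex.mul_im, Complex.sub_im,
    Complex.ofReal_re, Complex.ofReal_im, Complex.I_re, Complex.I_im]
  ring

theorem core_ineq {n : ℕ} (L : (Fin n → ℂ) →L[ℝ] ℝ)
    (B : (Fin n → ℂ) →L[ℝ] (Fin n → ℂ) →L[ℝ] ℝ) (z₀ : Fin n → ℂ) (f : (Fin n → ℂ) → ℂ)
    (hf : Differentiable ℂ f) (a ρ : ℝ) :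
    ‖f z₀‖ ^ 2 * ∫ ζ in Metric.closedBall (0 : Fin n → ℂ) ρ, Real.exp (-(a * hform B ζ)) ≤
      ∫ ζ in Metric.closedBall (0 : Fin n → ℂ) ρ,
        ‖f (z₀ + ζ)‖ ^ 2 * Real.exp (-(a * tpoly L B ζ)) := by
  have hBc : Continuous fun ζ : Fin n → ℂ => B ζ ζ := by fun_prop
  have hBc2 : Continuous fun ζ : Fin n → ℂ => B (Complex.I • ζ) (Complex.I • ζ) := by fun_prop
  have hfc : Continuous f := hf.continuous
  have hΦ : Continuous fun ζ : Fin n → ℂ => ‖f (z₀ + ζ)‖ ^ 2 * Real.exp (-(a * tpoly L B ζ)) := by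
    unfold tpoly; fun_prop
  have hw : Continuous fun ζ : Fin n → ℂ => Real.exp (-(a * hform B ζ)) := by
    unfold hform; fun_prop
  have hint : ∀ F : (Fin n → ℂ) → ℝ, Continuous F →
      IntegrableOn F (Metric.closedBall (0 : Fin n → ℂ) ρ) := fun F hF =>
    hF.continuousOn.integrableOn_compact (isCompact_closedBall _ _)
  -- pointwise inequality
  have key : ∀ ζ : Fin n → ℂ, 2 * π * (‖f z₀‖ ^ 2 * Real.exp (-(a * hform B ζ))) ≤
      ∫ θ in (0 : ℝ)..(2 * π), (fun ζ => ‖f (z₀ + ζ)‖ ^ 2 * Real.exp (-(a * tpoly L B ζ)))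
        (Complex.exp (θ * Complex.I) • ζ) := by
    intro ζ
    have hG : Differentiable ℂ fun l : ℂ => f (z₀ + l • ζ) ^ 2 * Complex.exp (-(a * hol L B ζ l)) := by
      have h1 : Differentiable ℂ fun l : ℂ => f (z₀ + l • ζ) := by
        apply hf.comp
        fun_prop
      have h2 : Differentiable ℂ fun l : ℂ => hol L B ζ l := by
        unfold hol; fun_prop
      exact (h1.pow 2).mul ((h2.const_mul _).neg.cexp)
    have h := norm_zero_le_mean _ hG
    have e0 : ‖f (z₀ + (0 : ℂ) • ζ) ^ 2 * Complex.exp (-(a * hol L B ζ 0))‖ = ‖f z₀‖ ^ 2 := by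
      simp [hol]
    rw [e0] at h
    calc 2 * π * (‖f z₀‖ ^ 2 * Real.exp (-(a * hform B ζ)))
        = (2 * π * ‖f z₀‖ ^ 2) * Real.exp (-(a * hform B ζ)) := by ring
      _ ≤ (∫ θ in (0 : ℝ)..(2 * π), ‖f (z₀ + Complex.exp (θ * Complex.I) • ζ) ^ 2 *
            Complex.exp (-(a * hol L B ζ (Complex.exp (θ * Complex.I))))‖) *
            Real.exp (-(a * hform B ζ)) :=
          mul_le_mul_of_nonneg_right h (Real.exp_nonneg _)
      _ = _ := by
          rw [← intervalIntegral.integral_mul_const]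
          refine intervalIntegral.integral_congr fun θ _ => ?_
          simp only
          have e1 : ‖Complex.exp (θ * Complex.I)‖ = 1 := Complex.norm_exp_ofReal_mul_I θ
          have e2 : hform B (Complex.exp (θ * Complex.I) • ζ) = hform B ζ := by
            rw [hform_smul, e1]; ring
          rw [norm_mul, norm_pow, Complex.norm_exp, mul_assoc, ← Real.exp_add]
          congr 2
          rw [Complex.neg_re, Complex.re_ofReal_mul, hol_re, e2]
          ring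
  have hR : Integrable (fun ζ : Fin n → ℂ => ∫ θ in (0 : ℝ)..(2 * π),
      (fun ζ => ‖f (z₀ + ζ)‖ ^ 2 * Real.exp (-(a * tpoly L B ζ)))
        (Complex.exp (θ * Complex.I) • ζ)) (volume.restrict (Metric.closedBall (0 : Fin n → ℂ) ρ)) := by
    refine hint _ ?_
    apply intervalIntegral.continuous_parametric_intervalIntegral_of_continuous'
    unfold Function.uncurry
    exact hΦ.comp (by fun_prop)
  have h2 := integral_mono ((hint _ hw).const_mul (2 * π * ‖f z₀‖ ^ 2)) hR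
    (fun ζ => by
      have := key ζ
      simp only at this ⊢
      linarith)
  rw [rot_average n ρ _ hΦ, integral_const_mul] at h2
  have hpi : 0 < 2 * π := by positivity
  rw [mul_assoc] at h2
  exact le_of_mul_le_mul_left h2 hpi

theorem scale_int {n : ℕ} (B : (Fin n → ℂ) →L[ℝ] (Fin n → ℂ) →L[ℝ] ℝ) (k t R : ℝ) (hk : 0 < k)
    (hR : 0 ≤ R) :
    ∫ ζ in Metric.closedBall (0 : Fin n → ℂ) (R / √k), Real.exp (-(2 * k * t * hform B ζ)) =
      (k ^ n)⁻¹ * ∫ ζ in Metric.closedBall (0 : Fin n → ℂ) R, Real.exp (-(2 * t * hform B ζ)) := by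
  have hs : 0 < √k := Real.sqrt_pos.2 hk
  have hc : (√k)⁻¹ ≠ 0 := by positivity
  have h := Measure.setIntegral_comp_smul (volume : Measure (Fin n → ℂ))
    (fun ζ => Real.exp (-(2 * k * t * hform B ζ))) (Metric.closedBall (0 : Fin n → ℂ) R) hc
  have hfin : Module.finrank ℝ (Fin n → ℂ) = 2 * n := by
    rw [Module.finrank_pi_fintype]; simp [Complex.finrank_real_complex]; ring
  rw [smul_closedBall _ _ hR, smul_zero, Real.norm_of_nonneg (by positivity), hfin] at h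
  have e1 : (√k)⁻¹ * R = R / √k := by rw [mul_comm, div_eq_mul_inv]
  have e2 : |(((√k)⁻¹) ^ (2 * n))⁻¹| = k ^ n := by
    rw [abs_of_nonneg (by positivity), inv_pow, inv_inv, pow_mul, Real.sq_sqrt hk.le]
  rw [e1, e2] at h
  have e3 : ∀ ζ : Fin n → ℂ, Real.exp (-(2 * k * t * hform B ((√k)⁻¹ • ζ))) =
      Real.exp (-(2 * t * hform B ζ)) := by
    intro ζ
    have : ((√k)⁻¹ : ℝ) • ζ = (((√k)⁻¹ : ℝ) : ℂ) • ζ := by
      ext i; simp
    rw [this, hform_smul, Complex.norm_real, Real.norm_of_nonneg (by positivity), inv_pow,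
      Real.sq_sqrt hk.le]
    congr 1
    field_simp
  simp only [e3] at h
  rw [h, smul_eq_mul, ← mul_assoc, inv_mul_cancel₀ (by positivity), one_mul]


theorem bdd_aux {E F : Type*} [NormedAddCommGroup E] [NormedSpace ℝ E] [NormedAddCommGroup F]
    [NormedSpace ℝ F] (g : E → F)
    (h1 : ContDiff ℝ ∞ g) (h2 : HasCompactSupport g) : ∃ M : ℝ, 0 ≤ M ∧ ∀ z, ‖fderiv ℝ g z‖ ≤ M := by
  obtain ⟨M, hM⟩ := (contDiff_fd g h1).continuous.bounded_above_of_compact_support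
    (h2.fderiv (𝕜 := ℝ))
  exact ⟨max M 0, le_max_right _ _, fun z => (hM z).trans (le_max_left _ _)⟩

theorem bounded_snd {n : ℕ} (ψ : (Fin n → ℂ) → ℝ) (hψ : ContDiff ℝ ∞ ψ)
    (hc : HasCompactSupport ψ) :
    ∃ M : ℝ, 0 ≤ M ∧ ∀ z, ‖fderiv ℝ (fderiv ℝ ψ) z‖ ≤ M :=
  bdd_aux (fderiv ℝ ψ) (contDiff_fd ψ hψ) (hc.fderiv (𝕜 := ℝ))

theorem local_bound {n : ℕ} (ψ : (Fin n → ℂ) → ℝ) (hψ : ContDiff ℝ ∞ ψ)
    (hc : HasCompactSupport ψ) (r ε : ℝ) (hr : 0 < r) (hε : 0 < ε) :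
    ∃ k₀ > 0, ∀ k ≥ k₀, ∀ t ∈ Set.Icc (0 : ℝ) 1, ∀ (z₀ : Fin n → ℂ) (f : (Fin n → ℂ) → ℂ),
      Differentiable ℂ f →
        ‖f z₀‖ ^ 2 * Real.exp (-(2 * k * t * ψ z₀)) ≤
          (k / π) ^ n * ((2 * t) ^ n * dplus (levi ψ z₀) + ε) *
            ∫ z in Metric.closedBall z₀ r, ‖f z‖ ^ 2 * Real.exp (-(2 * k * t * ψ z)) := by
  obtain ⟨C, hC0, hC⟩ := taylor_bound ψ hψ hc
  obtain ⟨M, hM0, hM⟩ := bounded_snd ψ hψ hc
  obtain ⟨R, hR0, hR⟩ := gauss_lower n M (ε / 2) (by positivity)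
  -- bound of dplus
  set X : ℝ := 2 ^ n * (n.factorial * M ^ n) with hX
  have hX0 : 0 ≤ X := by positivity
  have hXb : ∀ t ∈ Set.Icc (0 : ℝ) 1, ∀ z₀, (2 * t) ^ n * dplus (levi ψ z₀) ≤ X := by
    intro t ht z₀
    have h1 : (2 * t) ^ n ≤ 2 ^ n := pow_le_pow_left₀ (by linarith [ht.1]) (by linarith [ht.2]) n
    have h2 := dplus_le (levi ψ z₀) M hM0 (norm_levi_le ψ z₀ M (hM z₀))
    exact mul_le_mul h1 h2 (dplus_nonneg _) (by positivity)
  set q : ℝ := 1 + (ε / 2) / (X + ε / 2) with hq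
  have hq1 : 1 < q := by
    have : 0 < (ε / 2) / (X + ε / 2) := by positivity
    linarith
  set δ : ℝ := Real.log q with hδ
  have hδ0 : 0 < δ := Real.log_pos hq1
  refine ⟨(R / r) ^ 2 + (2 * C * R ^ 3 / δ) ^ 2 + 1, by positivity, ?_⟩
  intro k hk t ht z₀ f hf
  have hk0 : 0 < k := lt_of_lt_of_le (by positivity) hk
  have hs : 0 < √k := Real.sqrt_pos.2 hk0
  have hs1 : R / r ≤ √k := by
    apply Real.le_sqrt_of_sq_le
    nlinarith [sq_nonneg (2 * C * R ^ 3 / δ)]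
  have hs2 : 2 * C * R ^ 3 / δ ≤ √k := by
    apply Real.le_sqrt_of_sq_le
    nlinarith [sq_nonneg (R / r)]
  set ρ : ℝ := R / √k with hρ
  have hρ0 : 0 < ρ := by positivity
  have hρr : ρ ≤ r := by
    rw [hρ, div_le_iff₀ hs]
    rw [div_le_iff₀ hr] at hs1
    linarith
  have herr : 2 * k * C * ρ ^ 3 ≤ δ := by
    have h1 : 2 * k * C * ρ ^ 3 = 2 * C * R ^ 3 / √k := by
      rw [hρ, div_pow]
      have h3 : √k ^ 3 = k * √k := by
        calc √k ^ 3 = √k ^ 2 * √k := by ring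
          _ = k * √k := by rw [Real.sq_sqrt hk0.le]
      rw [h3]
      field_simp
    rw [h1, div_le_iff₀ hs]
    rw [div_le_iff₀ hδ0] at hs2
    linarith
  set L := fderiv ℝ ψ z₀ with hL
  set B := fderiv ℝ (fderiv ℝ ψ) z₀ with hB
  -- Step 1: gauss and scaling
  have hI := hR (levi ψ z₀) (levi_isHermitian ψ hψ z₀) (norm_levi_le ψ z₀ M (hM z₀)) t ht
  simp only [quad_levi, ← hB] at hI
  set I := ∫ ζ in Metric.closedBall (0 : Fin n → ℂ) R, Real.exp (-(2 * t * hform B ζ)) with hIdef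
  have hI0 : 0 ≤ I := integral_nonneg fun ζ => Real.exp_nonneg _
  have hsc := scale_int B k t R hk0 hR0.le
  rw [← hρ, ← hIdef] at hsc
  have hcore := core_ineq L B z₀ f hf (2 * k * t) ρ
  rw [hsc] at hcore
  -- Step 2: comparison with the true weight
  have hfc : Continuous f := hf.continuous
  have hψc : Continuous ψ := hψ.continuous
  have hΦ : Continuous fun ζ : Fin n → ℂ =>
      ‖f (z₀ + ζ)‖ ^ 2 * Real.exp (-(2 * k * t * tpoly L B ζ)) := by
    unfold tpoly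
    have hBc : Continuous fun ζ : Fin n → ℂ => B ζ ζ := by fun_prop
    fun_prop
  have hF : Continuous fun z : Fin n → ℂ => ‖f z‖ ^ 2 * Real.exp (-(2 * k * t * ψ z)) := by
    fun_prop
  have hF2 : Continuous fun ζ : Fin n → ℂ =>
      ‖f (z₀ + ζ)‖ ^ 2 * Real.exp (-(2 * k * t * ψ (z₀ + ζ))) := by
    fun_prop
  have hstep : Real.exp (-(2 * k * t * ψ z₀)) * Real.exp (-δ) *
      ∫ ζ in Metric.closedBall (0 : Fin n → ℂ) ρ,
        ‖f (z₀ + ζ)‖ ^ 2 * Real.exp (-(2 * k * t * tpoly L B ζ)) ≤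
      ∫ z in Metric.closedBall z₀ r, ‖f z‖ ^ 2 * Real.exp (-(2 * k * t * ψ z)) := by
    calc _ = ∫ ζ in Metric.closedBall (0 : Fin n → ℂ) ρ,
          Real.exp (-(2 * k * t * ψ z₀)) * Real.exp (-δ) *
            (‖f (z₀ + ζ)‖ ^ 2 * Real.exp (-(2 * k * t * tpoly L B ζ))) :=
          (integral_const_mul _ _).symm
      _ ≤ ∫ ζ in Metric.closedBall (0 : Fin n → ℂ) ρ,
          ‖f (z₀ + ζ)‖ ^ 2 * Real.exp (-(2 * k * t * ψ (z₀ + ζ))) := by
          refine setIntegral_mono_on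
            ((hΦ.const_mul _).continuousOn.integrableOn_compact (isCompact_closedBall _ _))
            (hF2.continuousOn.integrableOn_compact (isCompact_closedBall _ _))
            measurableSet_closedBall ?_
          intro ζ hζ
          have hζ' : ‖ζ‖ ≤ ρ := by simpa using hζ
          have h1 := (abs_le.1 (hC z₀ ζ)).2
          rw [← hL, ← hB] at h1
          have h2 : C * ‖ζ‖ ^ 3 ≤ C * ρ ^ 3 :=
            mul_le_mul_of_nonneg_left (pow_le_pow_left₀ (norm_nonneg _) hζ' 3) hC0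
          have h3 : ψ (z₀ + ζ) ≤ ψ z₀ + tpoly L B ζ + C * ρ ^ 3 := by
            unfold tpoly; linarith
          have h4 : 2 * k * t * ψ (z₀ + ζ) ≤
              2 * k * t * ψ z₀ + 2 * k * t * tpoly L B ζ + δ := by
            have h5 := mul_le_mul_of_nonneg_left h3
              (show 0 ≤ 2 * k * t by have := ht.1; positivity)
            have h6 : 2 * k * t * (C * ρ ^ 3) ≤ 2 * k * C * ρ ^ 3 := by
              have h7 : 0 ≤ 2 * k * C * ρ ^ 3 := by positivity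
              calc 2 * k * t * (C * ρ ^ 3) = t * (2 * k * C * ρ ^ 3) := by ring
                _ ≤ 1 * (2 * k * C * ρ ^ 3) := mul_le_mul_of_nonneg_right ht.2 h7
                _ = _ := one_mul _
            calc _ ≤ _ := h5
              _ = 2 * k * t * ψ z₀ + 2 * k * t * tpoly L B ζ + 2 * k * t * (C * ρ ^ 3) := by ring
              _ ≤ _ := by linarith
          calc Real.exp (-(2 * k * t * ψ z₀)) * Real.exp (-δ) *
                (‖f (z₀ + ζ)‖ ^ 2 * Real.exp (-(2 * k * t * tpoly L B ζ)))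
              = ‖f (z₀ + ζ)‖ ^ 2 * (Real.exp (-(2 * k * t * ψ z₀)) * Real.exp (-δ) *
                Real.exp (-(2 * k * t * tpoly L B ζ))) := by ring
            _ ≤ _ := by
                refine mul_le_mul_of_nonneg_left ?_ (by positivity)
                rw [← Real.exp_add, ← Real.exp_add]
                apply Real.exp_le_exp.2
                linarith
      _ = ∫ z in Metric.closedBall z₀ ρ, ‖f z‖ ^ 2 * Real.exp (-(2 * k * t * ψ z)) := by
          have := (measurePreserving_add_left (volume : Measure (Fin n → ℂ)) z₀).setIntegral_preimage_emb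
            (Homeomorph.addLeft z₀).measurableEmbedding
            (fun z => ‖f z‖ ^ 2 * Real.exp (-(2 * k * t * ψ z))) (Metric.closedBall z₀ ρ)
          rw [← this]
          congr 2
          ext ζ
          simp
      _ ≤ _ := by
          refine setIntegral_mono_set
            (hF.continuousOn.integrableOn_compact (isCompact_closedBall _ _)) ?_ ?_
          · exact ae_of_all _ fun z => by positivity
          · exact (Metric.closedBall_subset_closedBall hρr).eventuallyLE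
  -- Step 3: assemble
  set J := ∫ z in Metric.closedBall z₀ r, ‖f z‖ ^ 2 * Real.exp (-(2 * k * t * ψ z)) with hJ
  set Y := (2 * t) ^ n * dplus (levi ψ z₀) with hY
  have hY0 : 0 ≤ Y := mul_nonneg (pow_nonneg (by linarith [ht.1]) _) (dplus_nonneg _)
  have hYX : Y ≤ X := hXb t ht z₀
  have hexp : Real.exp δ * (Y + ε / 2) ≤ Y + ε := by
    rw [hδ, Real.exp_log (by linarith)]
    have h1 : (ε / 2) / (X + ε / 2) * (Y + ε / 2) ≤ ε / 2 := by
      rw [div_mul_eq_mul_div, div_le_iff₀ (by positivity)]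
      exact mul_le_mul_of_nonneg_left (by linarith) (by positivity)
    calc q * (Y + ε / 2) = (Y + ε / 2) + (ε / 2) / (X + ε / 2) * (Y + ε / 2) := by rw [hq]; ring
      _ ≤ Y + ε := by linarith
  have hJ' : Real.exp (-(2 * k * t * ψ z₀)) * Real.exp (-δ) *
      (‖f z₀‖ ^ 2 * ((k ^ n)⁻¹ * I)) ≤ J :=
    (mul_le_mul_of_nonneg_left hcore (by positivity)).trans hstep
  have hkn : 0 < k ^ n := pow_pos hk0 n
  have hA : 0 ≤ ‖f z₀‖ ^ 2 * Real.exp (-(2 * k * t * ψ z₀)) := by positivity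
  calc ‖f z₀‖ ^ 2 * Real.exp (-(2 * k * t * ψ z₀))
      ≤ ‖f z₀‖ ^ 2 * Real.exp (-(2 * k * t * ψ z₀)) *
          ((1 / π) ^ n * (Y + ε / 2) * I) := le_mul_of_one_le_right hA hI
    _ = (1 / π) ^ n * (Real.exp δ * (Y + ε / 2)) * k ^ n *
          (Real.exp (-(2 * k * t * ψ z₀)) * Real.exp (-δ) * (‖f z₀‖ ^ 2 * ((k ^ n)⁻¹ * I))) := by
        have h1 : Real.exp δ * Real.exp (-δ) = 1 := by rw [← Real.exp_add]; simp
        have h2 : k ^ n * (k ^ n)⁻¹ = 1 := mul_inv_cancel₀ hkn.ne'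
        calc _ = (‖f z₀‖ ^ 2 * Real.exp (-(2 * k * t * ψ z₀)) *
            ((1 / π) ^ n * (Y + ε / 2) * I)) * (Real.exp δ * Real.exp (-δ)) *
              (k ^ n * (k ^ n)⁻¹) := by rw [h1, h2]; ring
          _ = _ := by ring
    _ ≤ (1 / π) ^ n * (Real.exp δ * (Y + ε / 2)) * k ^ n * J :=
        mul_le_mul_of_nonneg_left hJ' (by positivity)
    _ ≤ (1 / π) ^ n * (Y + ε) * k ^ n * J := by
        have hJ0 : 0 ≤ J := integral_nonneg fun z => by positivity
        gcongr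
    _ = (k / π) ^ n * (Y + ε) * J := by
        rw [div_pow, div_pow, one_pow]; ring

end Pool.Agent.Ceg
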