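import Pool.Agent.Ceg.Gram
import Pool.Agent.Ceg.Local
import Pool.Agent.Ceg.LogDet

/-!
# Upper bound for the growth of the Gram determinants
-/

set_option autoImplicit false

namespace Pool.Agent.Ceg

open MeasureTheory Matrix Filter Topology
open scoped ContDiff ENNReal Real ComplexOrder

namespace Upper

/-- `∑_{i<m} i^n ≤ m^{n+1}/(n+1)` -/
theorem sum_pow_le (n m : ℕ) : ((n : ℝ) + 1) * ∑ i ∈ Finset.range m, (i : ℝ) ^ n ≤ (m : ℝ) ^ (n + 1) := by
  induction m with
  | zero => simp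
  | succ m ih =>
    rw [Finset.sum_range_succ, mul_add]
    have h : ((n : ℝ) + 1) * (m : ℝ) ^ n + (m : ℝ) ^ (n + 1) ≤ ((m : ℝ) + 1) ^ (n + 1) := by
      rcases Nat.eq_zero_or_pos m with rfl | hm
      · rcases Nat.eq_zero_or_pos n with rfl | hn
        · norm_num
        · have : ((0 : ℕ) : ℝ) ^ n = 0 := by
            rw [Nat.cast_zero]; exact zero_pow hn.ne'
          rw [this]
          simp
      · have hm' : (0 : ℝ) < m := by exact_mod_cast hm
        have hb := one_add_mul_le_pow (show (-2 : ℝ) ≤ 1 / m by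
          have : (0 : ℝ) ≤ 1 / m := by positivity
          linarith) (n + 1)
        have h2 : ((m : ℝ) + 1) ^ (n + 1) = (m : ℝ) ^ (n + 1) * (1 + 1 / m) ^ (n + 1) := by
          rw [← mul_pow]; congr 1; field_simp
        rw [h2]
        have h3 : (m : ℝ) ^ (n + 1) * (1 + ((n + 1 : ℕ) : ℝ) * (1 / m)) ≤
            (m : ℝ) ^ (n + 1) * (1 + 1 / m) ^ (n + 1) :=
          mul_le_mul_of_nonneg_left hb (by positivity)
        refine le_trans (le_of_eq ?_) h3
        push_cast
        field_simp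
        ring
    push_cast
    linarith


open Gram

/-- the vector of conjugate monomials -/
noncomputable def wvec {n : ℕ} (N : ℕ) (z : Fin n → ℂ) : Idx n N → ℂ :=
  fun a => (starRingEnd ℂ) (mono (ofLex a.1) z)

/-- quadratic form of a matrix at the monomials -/
noncomputable def qf {n N : ℕ} (M : Matrix (Idx n N) (Idx n N) ℂ) (z : Fin n → ℂ) : ℂ :=
  star (wvec N z) ⬝ᵥ M *ᵥ wvec N z

theorem qf_eq {n N : ℕ} (M : Matrix (Idx n N) (Idx n N) ℂ) (z : Fin n → ℂ) :
    qf M z = ∑ a, ∑ b, mono (ofLex a.1) z * M a b * (starRingEnd ℂ) (mono (ofLex b.1) z) := by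
  unfold qf wvec dotProduct mulVec dotProduct
  refine Finset.sum_congr rfl fun a _ => ?_
  rw [Finset.mul_sum]
  refine Finset.sum_congr rfl fun b _ => ?_
  simp only [Pi.star_apply, RCLike.star_def, Complex.conj_conj]
  ring

theorem continuous_qf {n N : ℕ} (M : Matrix (Idx n N) (Idx n N) ℂ) : Continuous (qf M) := by
  have : qf M = fun z : Fin n → ℂ => ∑ a, ∑ b, mono (ofLex a.1) z * M a b *
      (starRingEnd ℂ) (mono (ofLex b.1) z) := funext (qf_eq M)
  rw [this]
  exact continuous_finsetSum _ fun a _ => continuous_finsetSum _ fun b _ =>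
    ((continuous_mono _).mul continuous_const).mul
      (Complex.continuous_conj.comp (continuous_mono _))

theorem trace_eq {n N : ℕ} (ρ k k' : ℝ) (ψ : (Fin n → ℂ) → ℝ) (hψ : Continuous ψ)
    (M : Matrix (Idx n N) (Idx n N) ℂ) :
    (M * (gram N ρ k' ψ - gram N ρ k ψ)).trace =
      ∫ z in Metric.closedBall (0 : Fin n → ℂ) ρ, qf M z *
        ((Real.exp (-(2 * k' * ψ z)) - Real.exp (-(2 * k * ψ z)) : ℝ) : ℂ) := by
  have hw : ∀ k : ℝ, Continuous fun z => ((Real.exp (-(2 * k * ψ z)) : ℝ) : ℂ) := fun k =>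
    Complex.continuous_ofReal.comp (cont_weight k hψ)
  have hc : ∀ (k : ℝ) (a b : Idx n N), Continuous fun z : Fin n → ℂ =>
      (starRingEnd ℂ) (mono (ofLex a.1) z) * mono (ofLex b.1) z *
        ((Real.exp (-(2 * k * ψ z)) : ℝ) : ℂ) := fun k a b =>
    ((Complex.continuous_conj.comp (continuous_mono _)).mul (continuous_mono _)).mul (hw k)
  have h1 : ∀ z : Fin n → ℂ, qf M z *
        ((Real.exp (-(2 * k' * ψ z)) - Real.exp (-(2 * k * ψ z)) : ℝ) : ℂ)
      = ∑ a, ∑ b, M a b * ((starRingEnd ℂ) (mono (ofLex b.1) z) * mono (ofLex a.1) z *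
          ((Real.exp (-(2 * k' * ψ z)) : ℝ) : ℂ) -
        (starRingEnd ℂ) (mono (ofLex b.1) z) * mono (ofLex a.1) z *
          ((Real.exp (-(2 * k * ψ z)) : ℝ) : ℂ)) := by
    intro z
    rw [qf_eq, Finset.sum_mul]
    refine Finset.sum_congr rfl fun a _ => ?_
    rw [Finset.sum_mul]
    refine Finset.sum_congr rfl fun b _ => ?_
    rw [Complex.ofReal_sub]
    ring
  have hcc : ∀ a b : Idx n N, Continuous fun z : Fin n → ℂ =>
      M a b * ((starRingEnd ℂ) (mono (ofLex b.1) z) * mono (ofLex a.1) z *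
          ((Real.exp (-(2 * k' * ψ z)) : ℝ) : ℂ) -
        (starRingEnd ℂ) (mono (ofLex b.1) z) * mono (ofLex a.1) z *
          ((Real.exp (-(2 * k * ψ z)) : ℝ) : ℂ)) := fun a b =>
    continuous_const.mul ((hc k' b a).sub (hc k b a))
  simp only [h1]
  rw [integral_finsetSum _ fun a _ => integrable_finsetSum _ fun b _ => intOn ρ _ (hcc a b)]
  unfold Matrix.trace Matrix.diag
  refine Finset.sum_congr rfl fun a _ => ?_
  rw [integral_finsetSum _ fun b _ => intOn ρ _ (hcc a b)]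
  rw [Matrix.mul_apply]
  refine Finset.sum_congr rfl fun b _ => ?_
  rw [integral_const_mul, integral_sub (intOn ρ _ (hc k' b a)) (intOn ρ _ (hc k b a))]
  rfl

/-- the Bergman function is real and nonnegative -/
theorem qf_nonneg {n N : ℕ} (M : Matrix (Idx n N) (Idx n N) ℂ) (hM : M.PosSemidef)
    (z : Fin n → ℂ) : 0 ≤ qf M z :=
  hM.dotProduct_mulVec_nonneg _

theorem poly_eq_qf {n N : ℕ} (M : Matrix (Idx n N) (Idx n N) ℂ) (z : Fin n → ℂ) :
    poly (M *ᵥ wvec N z) z = qf M z := by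
  unfold poly qf dotProduct
  refine Finset.sum_congr rfl fun a _ => ?_
  simp only [wvec, Pi.star_apply, RCLike.star_def, Complex.conj_conj]
  ring

theorem form_eq_qf {n N : ℕ} (G : Matrix (Idx n N) (Idx n N) ℂ) (hG : G.PosDef)
    (z : Fin n → ℂ) :
    star (G⁻¹ *ᵥ wvec N z) ⬝ᵥ G *ᵥ (G⁻¹ *ᵥ wvec N z) = qf G⁻¹ z := by
  have hu : IsUnit G.det := isUnit_iff_ne_zero.mpr hG.det_pos.ne'
  rw [Matrix.mulVec_mulVec, Matrix.mul_nonsing_inv _ hu, Matrix.one_mulVec, Matrix.star_mulVec,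
    ← Matrix.dotProduct_mulVec, hG.inv.isHermitian.eq]
  rfl

theorem differentiable_poly {n N : ℕ} (c : Idx n N → ℂ) : Differentiable ℂ (poly c) := by
  unfold poly mono
  refine Differentiable.fun_sum fun a _ => ?_
  refine (differentiable_const _).mul ?_
  intro x
  exact (HasFDerivAt.finsetProd (𝕜 := ℂ) (u := Finset.univ)
    (g := fun (i : Fin n) (z : Fin n → ℂ) => z i ^ (ofLex a.1) i)
    fun i _ => (((differentiable_apply (𝕜 := ℂ) i).pow _) x).hasFDerivAt).differentiableAt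

/-- the bound of the Bergman function -/
theorem qf_bound {n N : ℕ} (ρ k r b : ℝ) (hρ : 0 < ρ) (ψ : (Fin n → ℂ) → ℝ)
    (hψ : Continuous ψ) (z : Fin n → ℂ) (hz : Metric.closedBall z r ⊆ Metric.closedBall 0 ρ)
    (hb : 0 ≤ b)
    (h : ∀ f : (Fin n → ℂ) → ℂ, Differentiable ℂ f → ‖f z‖ ^ 2 * Real.exp (-(2 * k * ψ z)) ≤
      b * ∫ w in Metric.closedBall z r, ‖f w‖ ^ 2 * Real.exp (-(2 * k * ψ w))) :
    (qf (gram N ρ k ψ)⁻¹ z).re * Real.exp (-(2 * k * ψ z)) ≤ b := by
  set G := gram N ρ k ψ with hG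
  have hGp : G.PosDef := gram_posDef N ρ hρ k ψ hψ
  set c := G⁻¹ *ᵥ wvec N z with hc
  set κ := (qf G⁻¹ z).re with hκ
  have hq : qf G⁻¹ z = ((κ : ℝ) : ℂ) := by
    have h0 := (Complex.le_def.mp (qf_nonneg G⁻¹ hGp.inv.posSemidef z)).2
    apply Complex.ext
    · simp [hκ]
    · simpa using h0.symm
  have hκ0 : 0 ≤ κ := by
    have h0 := (Complex.le_def.mp (qf_nonneg G⁻¹ hGp.inv.posSemidef z)).1
    simpa using h0
  have hp : poly c z = ((κ : ℝ) : ℂ) := by rw [hc, poly_eq_qf, hq]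
  have hform : (∫ w in Metric.closedBall (0 : Fin n → ℂ) ρ,
      ‖poly c w‖ ^ 2 * Real.exp (-(2 * k * ψ w))) = κ := by
    have h1 := gram_form ρ k ψ hψ c
    rw [← hG] at h1
    rw [hc, form_eq_qf G hGp z, hq] at h1
    exact_mod_cast h1.symm
  have hcont : Continuous fun w => ‖poly c w‖ ^ 2 * Real.exp (-(2 * k * ψ w)) :=
    ((continuous_poly c).norm.pow 2).mul (cont_weight k hψ)
  have hmono : (∫ w in Metric.closedBall z r, ‖poly c w‖ ^ 2 * Real.exp (-(2 * k * ψ w))) ≤ κ := by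
    rw [← hform]
    exact setIntegral_mono_set (intOn ρ _ hcont)
      (Filter.Eventually.of_forall fun w => by simp only [Pi.zero_apply]; positivity)
      hz.eventuallyLE
  have h2 := h (poly c) (differentiable_poly c)
  rw [hp, Complex.norm_real, Real.norm_eq_abs, sq_abs] at h2
  have h3 : κ ^ 2 * Real.exp (-(2 * k * ψ z)) ≤ b * κ :=
    h2.trans (mul_le_mul_of_nonneg_left hmono hb)
  rcases hκ0.eq_or_lt with h0 | h0
  · rw [← h0, zero_mul]; exact hb
  · have h4 : κ * (κ * Real.exp (-(2 * k * ψ z))) ≤ κ * b := by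
      calc _ = κ ^ 2 * Real.exp (-(2 * k * ψ z)) := by ring
        _ ≤ b * κ := h3
        _ = κ * b := by ring
    exact le_of_mul_le_mul_left h4 h0

/-- elementary: `e^x - 1 ≤ x e^x` for `x ≥ 0`, in monotone form -/
theorem exp_sub_one_le (x y : ℝ) (hx : 0 ≤ x) (hxy : x ≤ y) :
    Real.exp x - 1 ≤ y * Real.exp y := by
  have h1 : Real.exp x - 1 ≤ x * Real.exp x := by
    have h := Real.add_one_le_exp (-x)
    have h2 : Real.exp x * Real.exp (-x) = 1 := by rw [← Real.exp_add]; simp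
    nlinarith [Real.exp_pos x]
  have h3 : x * Real.exp x ≤ y * Real.exp y :=
    mul_le_mul hxy (Real.exp_le_exp.mpr hxy) (Real.exp_pos x).le (hx.trans hxy)
  linarith

/-- one step of the discretised path -/
theorem step {n N : ℕ} (ρ k t δ s r ε₁ : ℝ) (hρ : 0 < ρ) (hk : 0 < k) (ht : 0 ≤ t) (hδ : 0 ≤ δ)
    (hs : 0 < s) (hε₁ : 0 < ε₁) (ψ g : (Fin n → ℂ) → ℝ) (hψ : Continuous ψ)
    (hsupp : ∀ z, ψ z ≠ 0 → Metric.closedBall z r ⊆ Metric.closedBall 0 ρ)
    (hψs : ∀ z, -s ≤ ψ z ∧ ψ z ≤ 0) (hg : Integrable g) (hg0 : ∀ z, 0 ≤ g z)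
    (hψg : ∀ z, ψ z ≠ 0 → dplus (levi ψ z) ≤ g z)
    (hloc : ∀ (z₀ : Fin n → ℂ) (f : (Fin n → ℂ) → ℂ), Differentiable ℂ f →
        ‖f z₀‖ ^ 2 * Real.exp (-(2 * k * t * ψ z₀)) ≤
          (k / π) ^ n * ((2 * t) ^ n * dplus (levi ψ z₀) + ε₁) *
            ∫ z in Metric.closedBall z₀ r, ‖f z‖ ^ 2 * Real.exp (-(2 * k * t * ψ z))) :
    Real.log (gram N ρ (k * (t + δ)) ψ).det.re - Real.log (gram N ρ (k * t) ψ).det.re ≤
      (2 * k * s * δ) * Real.exp (2 * k * s * δ) * (k / π) ^ n *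
        ((2 * t) ^ n * (∫ z, g z) +
          ε₁ * (volume (Metric.closedBall (0 : Fin n → ℂ) ρ)).toReal) := by
  have hA := gram_posDef N ρ hρ (k * t) ψ hψ
  have hB := gram_posDef N ρ hρ (k * (t + δ)) ψ hψ
  refine (log_det_sub_le _ _ hA hB).trans ?_
  rw [trace_eq ρ (k * t) (k * (t + δ)) ψ hψ]
  set M := (gram N ρ (k * t) ψ)⁻¹ with hM
  have hMp : M.PosSemidef := hA.inv.posSemidef
  have hq : ∀ z, qf M z = (((qf M z).re : ℝ) : ℂ) := by
    intro z
    have h0 := (Complex.le_def.mp (qf_nonneg M hMp z)).2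
    apply Complex.ext
    · simp
    · simpa using h0.symm
  have hq0 : ∀ z, 0 ≤ (qf M z).re := by
    intro z
    have h0 := (Complex.le_def.mp (qf_nonneg M hMp z)).1
    simpa using h0
  have hre : (∫ z in Metric.closedBall (0 : Fin n → ℂ) ρ, qf M z *
        ((Real.exp (-(2 * (k * (t + δ)) * ψ z)) - Real.exp (-(2 * (k * t) * ψ z)) : ℝ) : ℂ)) =
      ((∫ z in Metric.closedBall (0 : Fin n → ℂ) ρ, (qf M z).re *
        (Real.exp (-(2 * (k * (t + δ)) * ψ z)) - Real.exp (-(2 * (k * t) * ψ z))) : ℝ) : ℂ) := by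
    rw [← integral_complex_ofReal]
    refine integral_congr_ae (Filter.Eventually.of_forall fun z => ?_)
    simp only []
    rw [hq z]
    push_cast
    simp
  rw [hre, Complex.ofReal_re]
  set c₁ : ℝ := (2 * k * s * δ) * Real.exp (2 * k * s * δ) with hc₁
  have hc₁0 : 0 ≤ c₁ := by positivity
  have hkp : 0 ≤ (k / π) ^ n := by positivity
  have hcont1 : Continuous fun z => (qf M z).re *
      (Real.exp (-(2 * (k * (t + δ)) * ψ z)) - Real.exp (-(2 * (k * t) * ψ z))) :=
    (Complex.continuous_re.comp (continuous_qf M)).mul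
      ((cont_weight _ hψ).sub (cont_weight _ hψ))
  have hpt : ∀ z, (qf M z).re *
      (Real.exp (-(2 * (k * (t + δ)) * ψ z)) - Real.exp (-(2 * (k * t) * ψ z))) ≤
      c₁ * (k / π) ^ n * ((2 * t) ^ n * g z + ε₁) := by
    intro z
    have hrhs : 0 ≤ (k / π) ^ n * ((2 * t) ^ n * g z + ε₁) := by
      have := hg0 z
      positivity
    by_cases hz : ψ z = 0
    · rw [hz]
      simp only [mul_zero, neg_zero, sub_self]
      rw [mul_assoc]
      exact mul_nonneg hc₁0 hrhs
    · have hb : 0 ≤ (k / π) ^ n * ((2 * t) ^ n * dplus (levi ψ z) + ε₁) := by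
        have := dplus_nonneg (levi ψ z)
        positivity
      have h1 := qf_bound (N := N) ρ (k * t) r _ hρ ψ hψ z (hsupp z hz) hb (by
        intro f hf
        have h := hloc z f hf
        simpa only [mul_assoc] using h)
      rw [← hM] at h1
      have h2 : (k / π) ^ n * ((2 * t) ^ n * dplus (levi ψ z) + ε₁) ≤
          (k / π) ^ n * ((2 * t) ^ n * g z + ε₁) := by
        refine mul_le_mul_of_nonneg_left ?_ hkp
        have := mul_le_mul_of_nonneg_left (hψg z hz) (show 0 ≤ (2 * t) ^ n by positivity)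
        linarith
      have h3 : Real.exp (-(2 * (k * (t + δ)) * ψ z)) - Real.exp (-(2 * (k * t) * ψ z)) =
          Real.exp (-(2 * (k * t) * ψ z)) * (Real.exp (2 * k * δ * (-ψ z)) - 1) := by
        rw [mul_sub, ← Real.exp_add, mul_one]
        congr 2
        ring
      have h4 : Real.exp (2 * k * δ * (-ψ z)) - 1 ≤ c₁ := by
        rw [hc₁]
        have hz1 := (hψs z).1
        have hz2 := (hψs z).2
        refine exp_sub_one_le _ _ ?_ ?_
        · have : 0 ≤ -ψ z := by linarith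
          positivity
        · have h5 : 2 * k * δ * (-ψ z) ≤ 2 * k * δ * s :=
            mul_le_mul_of_nonneg_left (by linarith) (by positivity)
          calc 2 * k * δ * (-ψ z) ≤ 2 * k * δ * s := h5
            _ = 2 * k * s * δ := by ring
      have h6 : 0 ≤ (qf M z).re * Real.exp (-(2 * (k * t) * ψ z)) :=
        mul_nonneg (hq0 z) (Real.exp_pos _).le
      calc (qf M z).re *
            (Real.exp (-(2 * (k * (t + δ)) * ψ z)) - Real.exp (-(2 * (k * t) * ψ z)))
          = ((qf M z).re * Real.exp (-(2 * (k * t) * ψ z))) *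
              (Real.exp (2 * k * δ * (-ψ z)) - 1) := by rw [h3]; ring
        _ ≤ ((qf M z).re * Real.exp (-(2 * (k * t) * ψ z))) * c₁ :=
            mul_le_mul_of_nonneg_left h4 h6
        _ ≤ ((k / π) ^ n * ((2 * t) ^ n * g z + ε₁)) * c₁ :=
            mul_le_mul_of_nonneg_right (h1.trans h2) hc₁0
        _ = c₁ * (k / π) ^ n * ((2 * t) ^ n * g z + ε₁) := by ring
  have hint2 : IntegrableOn (fun z => c₁ * (k / π) ^ n * ((2 * t) ^ n * g z + ε₁))
      (Metric.closedBall (0 : Fin n → ℂ) ρ) := by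
    refine Integrable.const_mul ?_ _
    refine Integrable.add (hg.integrableOn.const_mul _) ?_
    exact integrableOn_const (by exact (isCompact_closedBall _ _).measure_lt_top.ne)
  refine (setIntegral_mono (intOn ρ _ hcont1) hint2 hpt).trans ?_
  rw [integral_const_mul, integral_add (hg.integrableOn.const_mul _)
    (integrableOn_const (by exact (isCompact_closedBall _ _).measure_lt_top.ne)),
    integral_const_mul, setIntegral_const]
  have h7 : (∫ z in Metric.closedBall (0 : Fin n → ℂ) ρ, g z) ≤ ∫ z, g z :=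
    setIntegral_le_integral hg (Filter.Eventually.of_forall hg0)
  refine mul_le_mul_of_nonneg_left ?_ (mul_nonneg hc₁0 hkp)
  have h8 := mul_le_mul_of_nonneg_left h7 (show 0 ≤ (2 * t) ^ n by positivity)
  simp only [smul_eq_mul, measureReal_def]
  linarith

end Upper

open Upper

theorem upper_bound {n : ℕ} (ψ g : (Fin n → ℂ) → ℝ) (r ρ s : ℝ) (hr : 0 < r) (hρ : 0 < ρ)
    (hs : 0 < s) (hψ : ContDiff ℝ ∞ ψ)
    (hsupp : ∀ z, ψ z ≠ 0 → Metric.closedBall z r ⊆ Metric.closedBall 0 ρ)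
    (hψs : ∀ z, -s ≤ ψ z ∧ ψ z ≤ 0) (hg : Integrable g) (hg0 : ∀ z, 0 ≤ g z)
    (hψg : ∀ z, ψ z ≠ 0 → dplus (levi ψ z) ≤ g z) (ε : ℝ) (hε : 0 < ε) :
    ∃ k₀ > 0, ∀ k ≥ k₀, ∀ N : ℕ,
      Real.log (gram N ρ k ψ).det.re - Real.log (gram N ρ 0 (fun _ : Fin n → ℂ => 0)).det.re ≤
        k ^ (n + 1) * (2 ^ (n + 1) * s / (π ^ n * (n + 1)) * (∫ z, g z) + ε) := by
  set V : ℝ := (volume (Metric.closedBall (0 : Fin n → ℂ) ρ)).toReal with hV
  have hV0 : 0 ≤ V := ENNReal.toReal_nonneg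
  have hπ := Real.pi_pos
  set ε₁ : ℝ := ε * π ^ n / (2 * s * (V + 1)) with hε₁d
  have hε₁ : 0 < ε₁ := by positivity
  have hc : HasCompactSupport ψ := by
    refine HasCompactSupport.of_support_subset_isCompact (isCompact_closedBall (0 : Fin n → ℂ) ρ) ?_
    intro z hz
    exact hsupp z hz (Metric.mem_closedBall_self hr.le)
  obtain ⟨k₀, hk₀, hloc⟩ := local_bound ψ hψ hc r ε₁ hr hε₁
  refine ⟨k₀, hk₀, fun k hk N => ?_⟩
  have hkpos : 0 < k := lt_of_lt_of_le hk₀ hk
  have hcont := hψ.continuous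
  set I : ℝ := ∫ z, g z with hI
  have hI0 : 0 ≤ I := integral_nonneg hg0
  set X : ℝ := 2 * k * s * (k / π) ^ n * (2 ^ n / (n + 1) * I + ε₁ * V) with hX
  have hX0 : 0 ≤ X := by positivity
  -- the telescoping sum
  have htel : ∀ m : ℕ, 0 < m →
      Real.log (gram N ρ k ψ).det.re - Real.log (gram N ρ 0 (fun _ : Fin n → ℂ => 0)).det.re ≤
        X * Real.exp (2 * k * s * (1 / m)) := by
    intro m hm
    have hm' : (0 : ℝ) < m := by exact_mod_cast hm
    set F : ℕ → ℝ := fun i => Real.log (gram N ρ (k * ((i : ℝ) / m)) ψ).det.re with hF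
    have h0 : F 0 = Real.log (gram N ρ 0 (fun _ : Fin n → ℂ => 0)).det.re := by
      have : gram N ρ (k * (((0 : ℕ) : ℝ) / m)) ψ = gram N ρ 0 (fun _ : Fin n → ℂ => 0) := by
        unfold gram
        funext a b
        simp
      rw [hF]
      simp only []
      rw [this]
    have h1 : F m = Real.log (gram N ρ k ψ).det.re := by
      rw [hF]
      simp only []
      rw [div_self hm'.ne', mul_one]
    rw [← h0, ← h1, ← Finset.sum_range_sub]
    have hstep : ∀ i ∈ Finset.range m, F (i + 1) - F i ≤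
        (2 * k * s * (1 / m)) * Real.exp (2 * k * s * (1 / m)) * (k / π) ^ n *
          ((2 * ((i : ℝ) / m)) ^ n * I + ε₁ * V) := by
      intro i hi
      have hi' : (i : ℝ) < m := by exact_mod_cast Finset.mem_range.mp hi
      have hti : (i : ℝ) / m ∈ Set.Icc (0 : ℝ) 1 :=
        ⟨by positivity, (div_le_one hm').mpr hi'.le⟩
      have h := step (N := N) ρ k ((i : ℝ) / m) (1 / m) s r ε₁ hρ hkpos hti.1 (by positivity) hs
        hε₁ ψ g hcont hsupp hψs hg hg0 hψg (hloc k hk _ hti)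
      have e : (((i + 1 : ℕ) : ℝ) / m) = (i : ℝ) / m + 1 / m := by
        push_cast
        ring
      rw [hF]
      simp only []
      rw [e]
      exact h
    refine (Finset.sum_le_sum hstep).trans ?_
    rw [← Finset.mul_sum, Finset.sum_add_distrib, ← Finset.sum_mul, Finset.sum_const,
      Finset.card_range, nsmul_eq_mul]
    have hsum : ∑ i ∈ Finset.range m, (2 * ((i : ℝ) / m)) ^ n ≤ m * (2 ^ n / (n + 1)) := by
      have e : ∀ i ∈ Finset.range m, (2 * ((i : ℝ) / m)) ^ n = 2 ^ n / m ^ n * (i : ℝ) ^ n := by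
        intro i _
        rw [mul_pow, div_pow]
        ring
      rw [Finset.sum_congr rfl e, ← Finset.mul_sum]
      have h2 := sum_pow_le n m
      have hn : (0 : ℝ) < n + 1 := by positivity
      have h3 : ∑ i ∈ Finset.range m, (i : ℝ) ^ n ≤ (m : ℝ) ^ (n + 1) / (n + 1) := by
        rw [le_div_iff₀ hn]
        linarith
      have h4 : (2 : ℝ) ^ n / m ^ n * ∑ i ∈ Finset.range m, (i : ℝ) ^ n ≤
          2 ^ n / m ^ n * ((m : ℝ) ^ (n + 1) / (n + 1)) :=
        mul_le_mul_of_nonneg_left h3 (by positivity)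
      refine h4.trans (le_of_eq ?_)
      have hmn : (m : ℝ) ^ n ≠ 0 := by positivity
      field_simp
      rw [pow_succ]
    have hC : 0 ≤ (2 * k * s * (1 / m)) * Real.exp (2 * k * s * (1 / m)) * (k / π) ^ n := by
      positivity
    have h5 : (∑ i ∈ Finset.range m, (2 * ((i : ℝ) / m)) ^ n) * I + m * (ε₁ * V) ≤
        m * (2 ^ n / (n + 1) * I + ε₁ * V) := by
      have := mul_le_mul_of_nonneg_right hsum hI0
      calc _ ≤ m * (2 ^ n / (n + 1)) * I + m * (ε₁ * V) := by linarith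
        _ = _ := by ring
    refine (mul_le_mul_of_nonneg_left h5 hC).trans (le_of_eq ?_)
    rw [hX]
    field_simp
  -- the limit
  have hlim : Tendsto (fun m : ℕ => X * Real.exp (2 * k * s * (1 / m))) atTop (𝓝 X) := by
    have h1 : Tendsto (fun m : ℕ => 2 * k * s * (1 / (m : ℝ))) atTop (𝓝 (2 * k * s * 0)) :=
      tendsto_one_div_atTop_nhds_zero_nat.const_mul _
    have h2 := (Real.continuous_exp.tendsto _).comp h1
    have h3 := h2.const_mul X
    simpa using h3
  have hle : Real.log (gram N ρ k ψ).det.re -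
      Real.log (gram N ρ 0 (fun _ : Fin n → ℂ => 0)).det.re ≤ X :=
    ge_of_tendsto hlim (by
      filter_upwards [Filter.eventually_gt_atTop 0] with m hm
      exact htel m hm)
  refine hle.trans ?_
  have hVε : 2 * s / π ^ n * (ε₁ * V) ≤ ε := by
    rw [hε₁d]
    have h1 : 2 * s / π ^ n * (ε * π ^ n / (2 * s * (V + 1)) * V) = ε * (V / (V + 1)) := by
      field_simp
    rw [h1]
    have h2 : V / (V + 1) ≤ 1 := (div_le_one (by positivity)).mpr (by linarith)
    nlinarith
  have hXe : X = k ^ (n + 1) * (2 ^ (n + 1) * s / (π ^ n * (n + 1)) * I +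
      2 * s / π ^ n * (ε₁ * V)) := by
    rw [hX, div_pow]
    field_simp
    ring
  rw [hXe]
  refine mul_le_mul_of_nonneg_left ?_ (by positivity)
  linarith

end Pool.Agent.Ceg
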