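import Pool.Agent.Ceg.LowerDet
import Pool.Agent.Ceg.LowerSum
import Pool.Agent.Ceg.Upper
import Pool.Agent.Ceg.Comb
import Pool.Agent.Ceg.Cut

/-!
# The core estimate for smooth plurisubharmonic functions
-/

set_option autoImplicit false

namespace Pool.Agent.Ceg

open MeasureTheory Matrix Filter Topology
open scoped ContDiff ENNReal Real ComplexOrder

/-- combination of the lower and the upper bound for the Gram determinant, for fixed `N`, `k` -/
lemma core_sum {n : ℕ} (hn : 0 < n) (C₁ : ℝ) (K : Set (Fin n → ℂ))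
    (hsum : ∀ d : ℕ, 0 < d → (Finset.Nat.antidiagonalTuple n d).card * ((d + n : ℝ) / n *
        (Real.log (volume K).toReal - C₁)) ≤
        ∑ α ∈ Finset.Nat.antidiagonalTuple n d, Real.log (tK K α))
    (ρ k s T : ℝ) (N : ℕ) (U : ℝ)
    (hT : 2 * n * T = C₁ + 2 * n * Real.log ρ + n * Real.log π - Real.log (volume K).toReal)
    (hlow : ∑ a : Idx n N, (2 * k * s + Real.log (tK K (ofLex a.1))) -
      ∑ a : Idx n N, (2 * ((∑ i, ofLex a.1 i : ℕ) : ℝ) * Real.log ρ +
        n * Real.log (π * ρ ^ 2)) ≤ U) (hρ : 0 < ρ) (hks : 0 ≤ k * s) :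
    (Real.log (tK K 0) - n * Real.log (π * ρ ^ 2)) +
      ∑ d ∈ Finset.range N, cardD n (d + 1) * (2 * (k * s - (((d + 1 : ℕ) : ℝ) + n) * T)) ≤ U := by
  have hnR : (0 : ℝ) < n := by exact_mod_cast hn
  refine le_trans ?_ hlow
  rw [← Finset.sum_sub_distrib]
  rw [sum_idx (N := N) (F := fun α => 2 * k * s + Real.log (tK K α) -
    (2 * ((∑ i, α i : ℕ) : ℝ) * Real.log ρ + n * Real.log (π * ρ ^ 2)))]
  rw [Finset.sum_range_succ']
  rw [add_comm]
  refine add_le_add ?_ ?_
  · refine Finset.sum_le_sum fun d _ => ?_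
    have h1 := hsum (d + 1) (Nat.succ_pos d)
    have h2 : ∑ α ∈ Finset.Nat.antidiagonalTuple n (d + 1), (2 * k * s + Real.log (tK K α) -
        (2 * ((∑ i, α i : ℕ) : ℝ) * Real.log ρ + n * Real.log (π * ρ ^ 2))) =
        cardD n (d + 1) * (2 * k * s - (2 * ((d + 1 : ℕ) : ℝ) * Real.log ρ +
          n * Real.log (π * ρ ^ 2))) +
        ∑ α ∈ Finset.Nat.antidiagonalTuple n (d + 1), Real.log (tK K α) := by
      have h0 : ∀ x : ℝ, cardD n (d + 1) * x =
          ∑ _α ∈ Finset.Nat.antidiagonalTuple n (d + 1), x := by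
        intro x; rw [Finset.sum_const, nsmul_eq_mul]; rfl
      rw [h0, ← Finset.sum_add_distrib]
      refine Finset.sum_congr rfl fun α hα => ?_
      rw [Finset.Nat.mem_antidiagonalTuple] at hα
      rw [hα]; ring
    rw [h2]
    refine le_trans ?_ (add_le_add le_rfl h1)
    have h3 : ((Finset.Nat.antidiagonalTuple n (d + 1)).card : ℝ) = cardD n (d + 1) := rfl
    rw [h3, ← mul_add]
    refine mul_le_mul_of_nonneg_left ?_ (by unfold cardD; positivity)
    have hlogpi : 0 ≤ Real.log π := Real.log_nonneg (by linarith [Real.pi_gt_three])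
    have hlogV : Real.log (volume K).toReal =
      C₁ + 2 * n * Real.log ρ + n * Real.log π - 2 * n * T := by linarith
    rw [hlogV, Real.log_mul Real.pi_pos.ne' (by positivity), Real.log_pow]
    have h4 : ((d + 1 : ℕ) : ℝ) + n = n * (((((d + 1 : ℕ) : ℝ)) + n) / n) := by
      field_simp
    have h5 : 1 ≤ (((((d + 1 : ℕ) : ℝ)) + n) / n) := by
      rw [le_div_iff₀ hnR]
      have : (0 : ℝ) ≤ ((d + 1 : ℕ) : ℝ) := by positivity
      linarith
    set D : ℝ := ((d + 1 : ℕ) : ℝ) with hD
    set q : ℝ := (D + n) / n with hq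
    have h6 : D = n * q - n := by rw [hq]; field_simp; ring
    have h7 : n * Real.log π ≤ q * (n * Real.log π) := by
      have : 0 ≤ n * Real.log π := by positivity
      nlinarith
    rw [h6]
    push_cast
    nlinarith [h7]
  · rw [Finset.Nat.antidiagonalTuple_zero_right, Finset.sum_singleton]
    simp only [Pi.zero_apply, Finset.sum_const_zero, Nat.cast_zero, mul_zero, zero_mul, zero_add]
    nlinarith [hks]

lemma core_limit {n : ℕ} (hn : 0 < n) (c₀ T s A : ℝ) (hT : 0 < T) (hs : 0 < s)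
    (h : ∀ ε > 0, ∃ k₀ : ℝ, ∀ k ≥ k₀, ∀ N : ℕ,
      c₀ + ∑ d ∈ Finset.range N, cardD n (d + 1) * (2 * (k * s - (((d + 1 : ℕ) : ℝ) + n) * T)) ≤
        k ^ (n + 1) * (A + ε)) :
    2 * T * (s / T) ^ (n + 1) / (n + 1).factorial ≤ A := by
  refine le_of_forall_pos_le_add fun ε hε => ?_
  obtain ⟨k₀, hk₀⟩ := h ε hε
  have hev : ∀ᶠ k : ℝ in atTop, c₀ / k ^ (n + 1) + 2 * T * ((s / T - (n + 1) / k) ^ (n + 1) /
      (n + 1).factorial - (s / T) / k ^ n) ≤ A + ε := by
    filter_upwards [eventually_ge_atTop k₀, eventually_gt_atTop 0,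
      eventually_ge_atTop ((n + 1) * T / s)] with k hk hk0 hk1
    set x : ℝ := k * s / T with hx
    have hxn : (n : ℝ) + 1 ≤ x := by
      rw [hx, le_div_iff₀ hT]
      rw [div_le_iff₀ hs] at hk1
      exact hk1
    have hfl : n + 1 ≤ ⌊x⌋₊ := Nat.le_floor (by push_cast; exact hxn)
    obtain ⟨N, hN⟩ : ∃ N, ⌊x⌋₊ = N + n + 1 := ⟨⌊x⌋₊ - n - 1, by omega⟩
    have hNx : (N : ℝ) + n + 1 ≤ x := by
      have := Nat.floor_le (show 0 ≤ x by positivity)
      rw [hN] at this; push_cast at this; exact this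
    have hNx2 : x < (N : ℝ) + n + 2 := by
      have := Nat.lt_floor_add_one x
      rw [hN] at this; push_cast at this; linarith
    have h1 := hk₀ k hk N
    have h2 : 2 * T * (((N : ℝ) + 1) ^ (n + 1) / (n + 1).factorial - ((N : ℝ) + 1)) ≤
        ∑ d ∈ Finset.range N, cardD n (d + 1) *
          (2 * (k * s - (((d + 1 : ℕ) : ℝ) + n) * T)) := by
      have h3 := sum_weighted_lower n N hn
      rw [Finset.sum_range_succ', cardD_zero] at h3
      have h4 : ((N : ℝ) + 1) ^ (n + 1) / (n + 1).factorial - ((N : ℝ) + 1) ≤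
          ∑ d ∈ Finset.range N, cardD n (d + 1) * ((N : ℝ) + 1 - ((d + 1 : ℕ) : ℝ)) := by
        have : (1 : ℝ) * ((N : ℝ) + 1 - ((0 : ℕ) : ℝ)) = (N : ℝ) + 1 := by push_cast; ring
        rw [this] at h3
        linarith
      calc 2 * T * (((N : ℝ) + 1) ^ (n + 1) / (n + 1).factorial - ((N : ℝ) + 1))
          ≤ 2 * T * ∑ d ∈ Finset.range N, cardD n (d + 1) * ((N : ℝ) + 1 - ((d + 1 : ℕ) : ℝ)) :=
            mul_le_mul_of_nonneg_left h4 (by positivity)
        _ ≤ _ := by
            rw [Finset.mul_sum]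
            refine Finset.sum_le_sum fun d _ => ?_
            have hc : 0 ≤ cardD n (d + 1) := by unfold cardD; positivity
            have h5 : 2 * T * (cardD n (d + 1) * ((N : ℝ) + 1 - ((d + 1 : ℕ) : ℝ))) =
                cardD n (d + 1) * (2 * (T * ((N : ℝ) + 1 - ((d + 1 : ℕ) : ℝ)))) := by ring
            rw [h5]
            refine mul_le_mul_of_nonneg_left ?_ hc
            have h6 : k * s = x * T := by rw [hx]; field_simp
            rw [h6]
            nlinarith
    have h7 : c₀ + 2 * T * ((x - (n + 1)) ^ (n + 1) / (n + 1).factorial - x) ≤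
        k ^ (n + 1) * (A + ε) := by
      refine le_trans ?_ h1
      refine le_trans ?_ (add_le_add le_rfl h2)
      have h8 : (x - (n + 1)) ^ (n + 1) ≤ ((N : ℝ) + 1) ^ (n + 1) :=
        pow_le_pow_left₀ (by linarith) (by linarith) _
      have h9 : (x - (n + 1)) ^ (n + 1) / (n + 1).factorial ≤
          ((N : ℝ) + 1) ^ (n + 1) / (n + 1).factorial := by gcongr
      have h10 : (N : ℝ) + 1 ≤ x := by
        have : (0 : ℝ) ≤ n := by positivity
        linarith
      have : (x - (n + 1)) ^ (n + 1) / (n + 1).factorial - x ≤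
          ((N : ℝ) + 1) ^ (n + 1) / (n + 1).factorial - ((N : ℝ) + 1) := by linarith
      have h11 := mul_le_mul_of_nonneg_left this (show 0 ≤ 2 * T by positivity)
      linarith
    have hkp : 0 < k ^ (n + 1) := by positivity
    have h12 : c₀ / k ^ (n + 1) + 2 * T * ((s / T - (n + 1) / k) ^ (n + 1) /
        (n + 1).factorial - (s / T) / k ^ n) =
        (c₀ + 2 * T * ((x - (n + 1)) ^ (n + 1) / (n + 1).factorial - x)) / k ^ (n + 1) := by
      have h13 : (s / T - (n + 1) / k) ^ (n + 1) = (x - (n + 1)) ^ (n + 1) / k ^ (n + 1) := by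
        rw [← div_pow]
        congr 1
        rw [hx]; field_simp
      have h14 : (s / T) / k ^ n = x / k ^ (n + 1) := by
        rw [hx, pow_succ]; field_simp
      rw [h13, h14]
      field_simp
    rw [h12, div_le_iff₀ hkp]
    linarith
  have hlim : Tendsto (fun k : ℝ => c₀ / k ^ (n + 1) + 2 * T * ((s / T - (n + 1) / k) ^ (n + 1) /
      (n + 1).factorial - (s / T) / k ^ n)) atTop
      (𝓝 (0 + 2 * T * ((s / T - 0) ^ (n + 1) / (n + 1).factorial - 0))) := by
    refine Tendsto.add ?_ (Tendsto.const_mul _ (Tendsto.sub (Tendsto.div_const (Tendsto.pow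
      (Tendsto.sub tendsto_const_nhds ?_) _) _) ?_))
    · exact tendsto_const_nhds.div_atTop (tendsto_pow_atTop (by omega))
    · exact tendsto_const_nhds.div_atTop tendsto_id
    · exact tendsto_const_nhds.div_atTop (tendsto_pow_atTop (by omega))
  have := le_of_tendsto hlim hev
  simp only [sub_zero, zero_add] at this
  calc 2 * T * (s / T) ^ (n + 1) / (n + 1).factorial
      = 2 * T * ((s / T) ^ (n + 1) / (n + 1).factorial) := by ring
    _ ≤ A + ε := this


/-- the core estimate, for sublevel sets centred at the origin -/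
theorem core_zero (n : ℕ) (hn : 0 < n) : ∃ C : ℝ, ∀ (D : Set (Fin n → ℂ)) (v : (Fin n → ℂ) → ℝ)
    (η s δ : ℝ), IsOpen D → SmoothPSHOn v D → 0 < η → 4 * η < s → 0 < δ →
      IsCompact {z | z ∈ D ∧ v z ≤ -η} → {z | z ∈ D ∧ v z ≤ -η} ⊆ Metric.closedBall 0 δ →
      0 < volume {z | z ∈ D ∧ v z ≤ -s} →
      ∃ T > 0, volume {z | z ∈ D ∧ v z ≤ -s} =
          ENNReal.ofReal (δ ^ (2 * n) * Real.exp (C - 2 * n * T)) ∧
        (s - 3 * η) ^ (n + 1) ≤
          s * T ^ n * ∫ z in {z | z ∈ D ∧ v z ≤ -η}, maDens v z := by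
  obtain ⟨C₀, hC₀⟩ := lower_sum n hn
  set C₁ : ℝ := max C₀ 0 with hC₁
  have hnR : (0 : ℝ) < n := by exact_mod_cast hn
  refine ⟨C₁ + 2 * n * Real.log 2 + n * Real.log π, ?_⟩
  intro D v η s δ hD hv hη hs hδ hcomp hsub hvol
  obtain ⟨ψ, g, hψ, hψL, hψs, hψK, hg, hg0, hψg, hgint⟩ := cutoff hn D v η s hD hv hη hs hcomp
  set L : Set (Fin n → ℂ) := {z | z ∈ D ∧ v z ≤ -η} with hL
  set K : Set (Fin n → ℂ) := {z | z ∈ D ∧ v z ≤ -s} with hK
  have hs0 : 0 < s := by linarith
  have hs' : 0 < s - 3 * η := by linarith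
  have hKL : K ⊆ L := fun z hz => ⟨hz.1, by have := hz.2; linarith⟩
  have hKclosed : IsClosed K := by
    have hvc : ContinuousOn v L := hv.1.continuousOn.mono fun z hz => hz.1
    have : K = L ∩ v ⁻¹' Set.Iic (-s) := by
      ext z
      constructor
      · intro hz; exact ⟨hKL hz, hz.2⟩
      · intro hz; exact ⟨hz.1.1, hz.2⟩
    rw [this]
    exact hvc.preimage_isClosed_of_isClosed hcomp.isClosed isClosed_Iic
  have hKm : MeasurableSet K := hKclosed.measurableSet
  have hKb : Bornology.IsBounded K := hcomp.isBounded.subset hKL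
  have hKfin : volume K ≠ ⊤ := (hcomp.isBounded.subset hKL).measure_lt_top.ne
  set V : ℝ := (volume K).toReal with hV
  have hVpos : 0 < V := ENNReal.toReal_pos hvol.ne' hKfin
  set ρ : ℝ := 2 * δ with hρ
  have hρ0 : 0 < ρ := by positivity
  set T : ℝ := (C₁ + 2 * n * Real.log ρ + n * Real.log π - Real.log V) / (2 * n) with hT
  have hT2 : 2 * n * T = C₁ + 2 * n * Real.log ρ + n * Real.log π - Real.log V := by
    rw [hT]; field_simp
  have hlogρ : Real.log ρ = Real.log 2 + Real.log δ := Real.log_mul (by norm_num) hδ.ne'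
  -- volume bound
  have hvolball : V ≤ (π * δ ^ 2) ^ n := by
    have h1 : volume K ≤ volume (Metric.closedBall (0 : Fin n → ℂ) δ) :=
      measure_mono (hKL.trans hsub)
    have h2 : volume (Metric.closedBall (0 : Fin n → ℂ) δ) = ENNReal.ofReal ((π * δ ^ 2) ^ n) := by
      rw [volume_pi_closedBall _ hδ.le]
      simp only [Complex.volume_closedBall, Finset.prod_const, Finset.card_univ, Fintype.card_fin]
      rw [ENNReal.ofReal_pow (by positivity), mul_comm π, ENNReal.ofReal_mul (by positivity),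
        ENNReal.ofReal_pow hδ.le]
      congr 2
      exact (ENNReal.ofReal_coe_nnreal).symm
    rw [hV]
    refine ENNReal.toReal_le_of_le_ofReal (by positivity) (h1.trans h2.le)
  have hTpos : 0 < T := by
    have h1 : Real.log V ≤ n * (Real.log π + 2 * Real.log δ) := by
      have := Real.log_le_log hVpos hvolball
      rw [Real.log_pow, Real.log_mul Real.pi_pos.ne' (by positivity), Real.log_pow] at this
      push_cast at this
      exact this
    have h2 : 0 < 2 * n * T := by
      rw [hT2, hlogρ]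
      have h3 : 0 ≤ C₁ := le_max_right _ _
      have h4 : 0 < Real.log 2 := Real.log_pos (by norm_num)
      nlinarith [mul_pos hnR h4]
    by_contra hcon
    push Not at hcon
    nlinarith
  refine ⟨T, hTpos, ?_, ?_⟩
  · have h1 : δ ^ (2 * n) * Real.exp (C₁ + 2 * n * Real.log 2 + n * Real.log π - 2 * n * T) = V := by
      rw [hT2, hlogρ]
      have h2 : δ ^ (2 * n) = Real.exp (2 * n * Real.log δ) := by
        rw [show (2 * (n : ℝ) * Real.log δ) = Real.log (δ ^ (2 * n)) by
          rw [Real.log_pow]; push_cast; ring, Real.exp_log (by positivity)]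
      rw [h2, ← Real.exp_add, ← Real.exp_log hVpos]
      congr 1
      rw [Real.exp_log hVpos]
      ring
    rw [h1, hV, ENNReal.ofReal_toReal hKfin]
  · have hmain : 2 * T * ((s - 3 * η) / T) ^ (n + 1) / (n + 1).factorial ≤
        2 ^ (n + 1) * s / (π ^ n * (n + 1)) * ∫ z, g z := by
      refine core_limit hn (Real.log (tK K 0) - n * Real.log (π * ρ ^ 2)) T (s - 3 * η) _ hTpos
        hs' fun ε hε => ?_
      have hsupp : ∀ z, ψ z ≠ 0 → Metric.closedBall z δ ⊆ Metric.closedBall 0 ρ := by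
        intro z hz
        have h1 := hsub (hψL z hz)
        refine Metric.closedBall_subset_closedBall' ?_
        rw [Metric.mem_closedBall] at h1
        linarith
      obtain ⟨k₀, hk₀, hk⟩ := upper_bound ψ g δ ρ s hδ hρ0 hs0 hψ hsupp hψs hg hg0 hψg ε hε
      refine ⟨max k₀ 0, fun k hkk N => ?_⟩
      have hkk0 : k₀ ≤ k := (le_max_left _ _).trans hkk
      have hkpos : 0 ≤ k := (le_max_right _ _).trans hkk
      refine core_sum hn C₁ K (fun d hd => ?_) ρ k (s - 3 * η) T N _ hT2 ?_ hρ0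
        (mul_nonneg hkpos hs'.le)
      · refine le_trans ?_ (hC₀ K hKm hKb hvol d hd)
        refine mul_le_mul_of_nonneg_left ?_ (by positivity)
        refine mul_le_mul_of_nonneg_left ?_ (by positivity)
        have : C₀ ≤ C₁ := le_max_left _ _
        linarith
      · have h1 := lower_det N ρ k (s - 3 * η) hρ0 hkpos ψ hψ.continuous K hKm
          ((hKL.trans hsub).trans (Metric.closedBall_subset_closedBall (by linarith))) hvol
          (fun z hz => hψK z hz.1 hz.2)
        have h2 := upper_det_zero (n := n) N ρ hρ0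
        have h3 := hk k hkk0 N
        linarith
    have hgM : 2 ^ (n + 1) * s / (π ^ n * (n + 1)) * ∫ z, g z ≤
        2 * s / (n + 1).factorial * ∫ z in L, maDens v z := by
      have h1 : ∫ z in L, maDens v z = 2 ^ n * (n.factorial : ℝ) / π ^ n *
          ∫ z in L, (levi v z).det.re := by
        unfold maDens; rw [integral_const_mul]
      rw [h1]
      have h2 : 2 * s / ((n + 1).factorial : ℝ) * (2 ^ n * (n.factorial : ℝ) / π ^ n *
          ∫ z in L, (levi v z).det.re) = 2 ^ (n + 1) * s / (π ^ n * (n + 1)) *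
            ∫ z in L, (levi v z).det.re := by
        rw [Nat.factorial_succ]
        push_cast
        have hf : (n.factorial : ℝ) ≠ 0 := by positivity
        field_simp
        ring
      rw [h2]
      exact mul_le_mul_of_nonneg_left hgint (by positivity)
    have h5 := hmain.trans hgM
    have hfac : (0 : ℝ) < (n + 1).factorial := by positivity
    have h6 : 2 * T * ((s - 3 * η) / T) ^ (n + 1) / (n + 1).factorial =
        2 / (n + 1).factorial * ((s - 3 * η) ^ (n + 1) / T ^ n) := by
      rw [div_pow, pow_succ T n]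
      field_simp
    rw [h6, show 2 * s / ((n + 1).factorial : ℝ) * ∫ z in L, maDens v z =
      2 / (n + 1).factorial * (s * ∫ z in L, maDens v z) by ring] at h5
    have h7 : (s - 3 * η) ^ (n + 1) / T ^ n ≤ s * ∫ z in L, maDens v z :=
      le_of_mul_le_mul_left h5 (by positivity)
    rw [div_le_iff₀ (by positivity)] at h7
    linarith


lemma levi_comp_add {n : ℕ} (v : (Fin n → ℂ) → ℝ) (c z : Fin n → ℂ) :
    levi (fun w => v (w + c)) z = levi v (z + c) := by
  have h1 : fderiv ℝ (fun w => v (w + c)) = fun w => fderiv ℝ v (w + c) := by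
    funext w
    exact fderiv_comp_add_right c
  have h2 : ∀ a b : Fin n → ℂ, hess (fun w => v (w + c)) z a b = hess v (z + c) a b := by
    intro a b
    unfold hess
    rw [h1]
    have : fderiv ℝ (fun w => fderiv ℝ v (w + c)) z = fderiv ℝ (fderiv ℝ v) (z + c) :=
      fderiv_comp_add_right (f := fderiv ℝ v) c
    rw [this]
  funext j k
  simp only [levi, h2]

theorem core (n : ℕ) (hn : 0 < n) : ∃ C : ℝ, ∀ (D : Set (Fin n → ℂ)) (v : (Fin n → ℂ) → ℝ)
    (c : Fin n → ℂ) (η s δ : ℝ), IsOpen D → SmoothPSHOn v D → 0 < η → 4 * η < s → 0 < δ →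
      IsCompact {z | z ∈ D ∧ v z ≤ -η} → {z | z ∈ D ∧ v z ≤ -η} ⊆ Metric.closedBall c δ →
      0 < volume {z | z ∈ D ∧ v z ≤ -s} →
      ∃ T > 0, volume {z | z ∈ D ∧ v z ≤ -s} =
          ENNReal.ofReal (δ ^ (2 * n) * Real.exp (C - 2 * n * T)) ∧
        (s - 3 * η) ^ (n + 1) ≤
          s * T ^ n * ∫ z in {z | z ∈ D ∧ v z ≤ -η}, maDens v z := by
  obtain ⟨C, hC⟩ := core_zero n hn
  refine ⟨C, ?_⟩
  intro D v c η s δ hD hv hη hs hδ hcomp hsub hvol
  have hcont : Continuous fun z : Fin n → ℂ => z + c := by fun_prop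
  have hmp : MeasurePreserving (fun z : Fin n → ℂ => z + c) volume volume :=
    measurePreserving_add_right volume c
  have hemb : MeasurableEmbedding (fun z : Fin n → ℂ => z + c) :=
    (MeasurableEquiv.addRight c).measurableEmbedding
  have hset : ∀ t : ℝ, {z : Fin n → ℂ | z ∈ (fun z : Fin n → ℂ => z + c) ⁻¹' D ∧ v (z + c) ≤ t} =
      (fun z : Fin n → ℂ => z + c) ⁻¹' {z | z ∈ D ∧ v z ≤ t} := fun t => rfl
  have hvolt : ∀ t : ℝ, volume {z : Fin n → ℂ | z ∈ (fun z : Fin n → ℂ => z + c) ⁻¹' D ∧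
      v (z + c) ≤ t} = volume {z | z ∈ D ∧ v z ≤ t} := by
    intro t
    rw [hset]
    exact measure_preimage_add_right volume c _
  have h := hC ((fun z : Fin n → ℂ => z + c) ⁻¹' D) (fun z => v (z + c)) η s δ
    (hD.preimage hcont) ⟨?_, ?_⟩ hη hs hδ ?_ ?_ ?_
  · obtain ⟨T, hT, h1, h2⟩ := h
    refine ⟨T, hT, ?_, ?_⟩
    · rw [← hvolt]; exact h1
    · refine h2.trans (le_of_eq ?_)
      congr 1
      have h3 : ∀ z, maDens (fun w => v (w + c)) z = maDens v (z + c) := by
        intro z; unfold maDens; rw [levi_comp_add]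
      simp_rw [h3]
      rw [hset]
      exact hmp.setIntegral_preimage_emb hemb (fun z => maDens v z) _
  · refine hv.1.comp ?_ (fun z hz => hz)
    fun_prop
  · intro z hz
    rw [levi_comp_add]
    exact hv.2 _ hz
  · rw [hset]
    exact (Homeomorph.addRight c).isCompact_preimage.2 hcomp
  · rw [hset]
    intro z hz
    have := hsub hz
    rw [Metric.mem_closedBall, dist_eq_norm] at this ⊢
    simpa using this
  · rw [hvolt]; exact hvol

end Pool.Agent.Ceg
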