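import Mathlib

/-!
# Sublevel sets of functions in the Cegrell class `F`: definitions

`ℂⁿ` is `Fin n → ℂ` with Lebesgue measure `volume`.
-/

set_option autoImplicit false

namespace Pool.Agent.Ceg

open MeasureTheory Matrix Filter Topology
open scoped ContDiff ENNReal Real ComplexOrder

variable {n : ℕ}

/-- Second real derivative of `u : ℂⁿ → ℝ` at `z` in the directions `v`, `w`. -/
noncomputable def hess (u : (Fin n → ℂ) → ℝ) (z v w : Fin n → ℂ) : ℝ :=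
  fderiv ℝ (fderiv ℝ u) z v w

/-- The Levi matrix `(∂²u/∂z̄ⱼ∂zₖ)ⱼₖ` of `u : ℂⁿ → ℝ` at `z`. -/
noncomputable def levi (u : (Fin n → ℂ) → ℝ) (z : Fin n → ℂ) : Matrix (Fin n) (Fin n) ℂ :=
  fun j k => (1 / 4 : ℂ) *
    (((hess u z (Pi.single j 1) (Pi.single k 1) +
        hess u z (Pi.single j Complex.I) (Pi.single k Complex.I) : ℝ) : ℂ) +
      ((hess u z (Pi.single j Complex.I) (Pi.single k 1) -
        hess u z (Pi.single j 1) (Pi.single k Complex.I) : ℝ) : ℂ) * Complex.I)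

/-- The density of `(dd^c u)ⁿ` with respect to Lebesgue measure, for smooth `u`, where
`dd^c = (i/π) ∂∂̄`. -/
noncomputable def maDens (u : (Fin n → ℂ) → ℝ) (z : Fin n → ℂ) : ℝ :=
  2 ^ n * (n.factorial : ℝ) / π ^ n * (levi u z).det.re

/-- `u` is smooth and plurisubharmonic on `D`. -/
def SmoothPSHOn (u : (Fin n → ℂ) → ℝ) (D : Set (Fin n → ℂ)) : Prop :=
  ContDiffOn ℝ ∞ u D ∧ ∀ z ∈ D, (levi u z).PosSemidef

open Classical in
/-- The determinant of a positive semidefinite matrix, `0` for other matrices. -/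
noncomputable def dplus (A : Matrix (Fin n) (Fin n) ℂ) : ℝ :=
  if A.PosSemidef then A.det.re else 0

/-- A real-valued function `u` is plurisubharmonic on `D`: upper semicontinuous with the
sub-mean value property on all closed complex discs contained in `D`. -/
def IsPSHOn (u : (Fin n → ℂ) → ℝ) (D : Set (Fin n → ℂ)) : Prop :=
  UpperSemicontinuousOn u D ∧
    ∀ z ∈ D, ∀ b : Fin n → ℂ, (∀ ζ : ℂ, ‖ζ‖ ≤ 1 → z + ζ • b ∈ D) →
      u z ≤ (2 * π)⁻¹ * ∫ θ in (0 : ℝ)..(2 * π), u (z + Complex.exp (θ * Complex.I) • b)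

/-- `μ` is the Monge-Ampère measure `(dd^c u)ⁿ` of the bounded plurisubharmonic function `u` on
`D` (Bedford-Taylor): on every open `W ⊆ D` the measures `(dd^c vⱼ)ⁿ` converge vaguely to `μ`
whenever `vⱼ` are smooth plurisubharmonic functions on `W` decreasing to `u`. -/
def IsMongeAmpere (D : Set (Fin n → ℂ)) (u : (Fin n → ℂ) → ℝ) (μ : Measure (Fin n → ℂ)) : Prop :=
  ∀ (W : Set (Fin n → ℂ)) (v : ℕ → (Fin n → ℂ) → ℝ), IsOpen W → W ⊆ D →
    (∀ j, SmoothPSHOn (v j) W) → (∀ z ∈ W, Antitone fun j => v j z) →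
    (∀ z ∈ W, Tendsto (fun j => v j z) atTop (𝓝 (u z))) →
    ∀ f : (Fin n → ℂ) → ℝ, Continuous f → HasCompactSupport f → tsupport f ⊆ W →
      Tendsto (fun j => ∫ z, f z * maDens (v j) z) atTop (𝓝 (∫ z, f z ∂μ))

/-- `u ∈ E₀(D)`, with Monge-Ampère measure `μ`. -/
structure IsE0 (D : Set (Fin n → ℂ)) (u : (Fin n → ℂ) → ℝ) (μ : Measure (Fin n → ℂ)) : Prop where
  psh : IsPSHOn u D
  bdd : ∃ C : ℝ, ∀ z ∈ D, -C ≤ u z
  nonpos : ∀ z ∈ D, u z ≤ 0
  boundary : ∀ ε > 0, ∃ K ⊆ D, IsCompact K ∧ ∀ z ∈ D, z ∉ K → -ε < u z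
  ma : IsMongeAmpere D u μ
  finite : μ D < ⊤

/-- `φ ∈ F(D)` with `λ(φ) = lam`: `φ` is the decreasing limit of `uⱼ ∈ E₀(D)`, and the total
masses of `(dd^c uⱼ)ⁿ` converge to `lamⁿ`. -/
def IsCegrellF (D : Set (Fin n → ℂ)) (φ : (Fin n → ℂ) → EReal) (lam : ℝ) : Prop :=
  ∃ (u : ℕ → (Fin n → ℂ) → ℝ) (μ : ℕ → Measure (Fin n → ℂ)),
    (∀ j, IsE0 D (u j) (μ j)) ∧ (∀ z ∈ D, Antitone fun j => u j z) ∧
    (∀ z ∈ D, φ z = ⨅ j, (u j z : EReal)) ∧
    Tendsto (fun j => μ j D) atTop (𝓝 (ENNReal.ofReal (lam ^ n)))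

/-- `f` is a polynomial-like function of `z₀, …, z_{n-1}` which is monic of multidegree `α` in the
lexicographic sense: `f = g(z₁,…) z₀^{α₀} + ∑_{l<α₀} c_l(z₁,…) z₀^l` with `g` of the same kind
in the remaining variables and `c_l` arbitrary measurable functions. -/
def LexMonic : (n : ℕ) → (Fin n → ℕ) → ((Fin n → ℂ) → ℂ) → Prop
  | 0, _, f => ∀ z, f z = 1
  | n + 1, α, f => ∃ (g : (Fin n → ℂ) → ℂ) (c : ℕ → (Fin n → ℂ) → ℂ),
      LexMonic n (Fin.tail α) g ∧ Measurable g ∧ (∀ l, Measurable (c l)) ∧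
      ∀ z, f z = g (Fin.tail z) * z 0 ^ α 0 + ∑ l ∈ Finset.range (α 0), c l (Fin.tail z) * z 0 ^ l

/-- The set of `x` in the open positive orthant such that
`πⁿ e^{-|α|} x^{α+1} ≤ ∫_K |f|²` for all lexicographically monic `f` of degree `α`. -/
def goodSet (K : Set (Fin n → ℂ)) : Set (Fin n → ℝ) :=
  {x | (∀ i, 0 < x i) ∧ ∀ (α : Fin n → ℕ) (f : (Fin n → ℂ) → ℂ), LexMonic n α f → Measurable f →
    ENNReal.ofReal (π ^ n * Real.exp (-∑ i, (α i : ℝ)) * ∏ i, x i ^ (α i + 1)) ≤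
      ∫⁻ z in K, ‖f z‖ₑ ^ 2}

end Pool.Agent.Ceg
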