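import Pool.Agent.Ceg.Defs

/-!
# Hyperconvex domains, the class `F` with its Monge-Ampère measure, and the Euclidean diameter
-/

set_option autoImplicit false

namespace Pool.Agent.Ceg

open MeasureTheory Filter Topology
open scoped ENNReal

variable {n : ℕ}

/-- Bounded hyperconvex domains of `ℂⁿ`: bounded open connected sets carrying a negative
plurisubharmonic function with relatively compact sublevel sets.  (The function may be taken
`≥ -1`: replace it by its maximum with `-1`.) -/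
structure IsHyperconvex (D : Set (Fin n → ℂ)) : Prop where
  isOpen : IsOpen D
  isConnected : IsConnected D
  isBounded : Bornology.IsBounded D
  exhaustion : ∃ ρ : (Fin n → ℂ) → ℝ, IsPSHOn ρ D ∧ (∀ z ∈ D, -1 ≤ ρ z ∧ ρ z < 0) ∧
    ∀ c < 0, ∃ K ⊆ D, IsCompact K ∧ ∀ z ∈ D, ρ z < c → z ∈ K

/-- vague convergence on `D` of measures: convergence of the integrals of all continuous functions
with compact support in `D` -/
def VagueLimit (D : Set (Fin n → ℂ)) (μ : ℕ → Measure (Fin n → ℂ))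
    (ν : Measure (Fin n → ℂ)) : Prop :=
  ∀ f : (Fin n → ℂ) → ℝ, Continuous f → HasCompactSupport f → tsupport f ⊆ D →
    Tendsto (fun j => ∫ z, f z ∂(μ j)) atTop (𝓝 (∫ z, f z ∂ν))

/-- `φ ∈ F(D)` and `ν = (dd^c φ)ⁿ`: `φ` is the pointwise decreasing limit of functions
`uⱼ ∈ E₀(D)` with `supⱼ ∫_D (dd^c uⱼ)ⁿ < ∞`, and `ν` is the weak limit of `(dd^c uⱼ)ⁿ` on `D`. -/
def IsCegrellFunction (D : Set (Fin n → ℂ)) (φ : (Fin n → ℂ) → EReal)
    (ν : Measure (Fin n → ℂ)) : Prop :=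
  ∃ (u : ℕ → (Fin n → ℂ) → ℝ) (μ : ℕ → Measure (Fin n → ℂ)),
    (∀ j, IsE0 D (u j) (μ j)) ∧ (∀ z ∈ D, Antitone fun j => u j z) ∧
    (∀ z ∈ D, φ z = ⨅ j, (u j z : EReal)) ∧ ⨆ j, μ j D < ⊤ ∧ VagueLimit D μ ν

/-- Euclidean diameter -/
noncomputable def euclDiam (D : Set (Fin n → ℂ)) : ℝ :=
  sSup {r : ℝ | ∃ z ∈ D, ∃ w ∈ D, r = Real.sqrt (∑ i, ‖z i - w i‖ ^ 2)}

end Pool.Agent.Ceg
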