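import Pool.Agent.Ceg.Mollify
import Pool.Agent.Ceg.Cut

/-!
# From smooth functions to the class `F`
-/

set_option autoImplicit false

namespace Pool.Agent.Ceg

open MeasureTheory Matrix Filter Topology
open scoped ContDiff ENNReal Real ComplexOrder

namespace Fin1

variable {n : ℕ}

/-- The conclusion of `core` with the constant `C`. -/
def CoreAt (n : ℕ) (C : ℝ) : Prop :=
  ∀ (D : Set (Fin n → ℂ)) (v : (Fin n → ℂ) → ℝ)
    (c : Fin n → ℂ) (η s δ : ℝ), IsOpen D → SmoothPSHOn v D → 0 < η → 4 * η < s → 0 < δ →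
      IsCompact {z | z ∈ D ∧ v z ≤ -η} → {z | z ∈ D ∧ v z ≤ -η} ⊆ Metric.closedBall c δ →
      0 < volume {z | z ∈ D ∧ v z ≤ -s} →
      ∃ T > 0, volume {z | z ∈ D ∧ v z ≤ -s} =
          ENNReal.ofReal (δ ^ (2 * n) * Real.exp (C - 2 * n * T)) ∧
        (s - 3 * η) ^ (n + 1) ≤
          s * T ^ n * ∫ z in {z | z ∈ D ∧ v z ≤ -η}, maDens v z

/-- The exponent `T` attached to a volume `V`. -/
noncomputable def TV (n : ℕ) (C δ V : ℝ) : ℝ := (C - Real.log (V / δ ^ (2 * n))) / (2 * n)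

lemma TV_eq (hn : 0 < n) {C δ V : ℝ} (hδ : 0 < δ) (hV : 0 < V) :
    V = δ ^ (2 * n) * Real.exp (C - 2 * n * TV n C δ V) := by
  have hn' : (n : ℝ) ≠ 0 := by positivity
  have h1 : C - 2 * n * TV n C δ V = Real.log (V / δ ^ (2 * n)) := by
    unfold TV
    field_simp
    ring
  rw [h1, Real.exp_log (by positivity)]
  field_simp

lemma TV_of_eq (hn : 0 < n) {C δ T : ℝ} (hδ : 0 < δ) :
    TV n C δ (δ ^ (2 * n) * Real.exp (C - 2 * n * T)) = T := by
  have hn' : (n : ℝ) ≠ 0 := by positivity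
  unfold TV
  rw [mul_div_cancel_left₀ _ (by positivity), Real.log_exp]
  field_simp
  ring

lemma TV_anti {C δ V V' : ℝ} (hδ : 0 < δ) (hV : 0 < V) (h : V ≤ V') :
    TV n C δ V' ≤ TV n C δ V := by
  unfold TV
  have : Real.log (V / δ ^ (2 * n)) ≤ Real.log (V' / δ ^ (2 * n)) := by
    apply Real.log_le_log (by positivity)
    gcongr
  gcongr

lemma TV_cont {C δ V : ℝ} (hδ : 0 < δ) (hV : 0 < V) :
    ContinuousAt (TV n C δ) V := by
  unfold TV
  apply ContinuousAt.div_const
  apply ContinuousAt.sub continuousAt_const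
  apply ContinuousAt.log
  · exact continuousAt_id.div_const _
  · positivity

lemma maDens_nonneg {W : Set (Fin n → ℂ)} {v : (Fin n → ℂ) → ℝ} (hv : SmoothPSHOn v W)
    {z : Fin n → ℂ} (hz : z ∈ W) : 0 ≤ maDens v z := by
  unfold maDens
  have := psd_det_re (hv.2 z hz)
  positivity

lemma maDens_contOn {W : Set (Fin n → ℂ)} (hW : IsOpen W) {v : (Fin n → ℂ) → ℝ}
    (hv : SmoothPSHOn v W) : ContinuousOn (maDens v) W := by
  unfold maDens
  exact continuousOn_const.mul (Complex.continuous_re.comp_continuousOn (det_levi_contOn hW hv.1))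

/-- integral over a sublevel set is at most the integral against a cut-off function -/
lemma integral_le {W L : Set (Fin n → ℂ)} (hW : IsOpen W) {v f : (Fin n → ℂ) → ℝ}
    (hv : SmoothPSHOn v W) (hf : Continuous f) (hfc : HasCompactSupport f) (hfW : tsupport f ⊆ W)
    (hf0 : ∀ z, 0 ≤ f z) (hf1 : ∀ z ∈ L, f z = 1) (hL : MeasurableSet L) :
    ∫ z in L, maDens v z ≤ ∫ z, f z * maDens v z := by
  have h1 : Integrable (fun z => f z * maDens v z) := by
    have h2 : IntegrableOn (fun z => f z * maDens v z) (tsupport f) := by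
      apply ContinuousOn.integrableOn_compact hfc
      exact hf.continuousOn.mul ((maDens_contOn hW hv).mono hfW)
    rw [integrableOn_iff_integrable_of_support_subset] at h2
    · exact h2
    · intro z hz
      apply subset_tsupport
      simp only [Function.mem_support] at hz ⊢
      exact left_ne_zero_of_mul hz
  have h2 : ∫ z in L, maDens v z = ∫ z in L, f z * maDens v z := by
    apply setIntegral_congr_fun hL
    intro z hz
    simp [hf1 z hz]
  rw [h2]
  apply setIntegral_le_integral h1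
  filter_upwards with z
  by_cases hz : z ∈ W
  · exact mul_nonneg (hf0 z) (maDens_nonneg hv hz)
  · have : f z = 0 := image_eq_zero_of_notMem_tsupport (fun h => hz (hfW h))
    simp [this]

lemma e0_eta (hn : 0 < n) {C : ℝ} (hC : CoreAt n C) {D : Set (Fin n → ℂ)} {δ : ℝ} (hδ : 0 < δ)
    (hD : IsOpen D) (hDb : Bornology.IsBounded D) (hDd : ∀ z ∈ D, ∀ w ∈ D, dist z w ≤ δ)
    {u : (Fin n → ℂ) → ℝ} {μ : Measure (Fin n → ℂ)} (hu : IsE0 D u μ) {s η : ℝ} (hη : 0 < η)
    (hs : 4 * η < s) (hV : 0 < volume {z | z ∈ D ∧ u z < -s}) :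
    0 ≤ TV n C δ (volume {z | z ∈ D ∧ u z < -s}).toReal ∧
    (s - 3 * η) ^ (n + 1) ≤
      s * (TV n C δ (volume {z | z ∈ D ∧ u z < -s}).toReal) ^ n * (μ D).toReal := by
  have hs0 : 0 < s := by linarith
  have hDfin : volume D < ⊤ := hDb.measure_lt_top
  obtain ⟨K, hKD, hK, hKu⟩ := hu.boundary η hη
  obtain ⟨r₀, hr₀, hr₀D⟩ := hK.exists_cthickening_subset_open hD hKD
  set r := r₀ / 2 with hr
  have hrpos : 0 < r := by positivity
  set W := Metric.thickening r K with hW
  have hWo : IsOpen W := Metric.isOpen_thickening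
  have hWD' : ∀ z ∈ W, Metric.closedBall z r ⊆ D := by
    intro z hz w hw
    obtain ⟨k, hk, hzk⟩ := Metric.mem_thickening_iff.1 hz
    apply hr₀D
    apply Metric.mem_cthickening_of_dist_le w k _ K hk
    have h1 : dist w z ≤ r := hw
    have h2 := dist_triangle w z k
    have h3 : r₀ = r + r := by rw [hr]; ring
    linarith
  have hWD : W ⊆ D := fun z hz => hWD' z hz (Metric.mem_closedBall_self hrpos.le)
  have hb : ∃ C, ∀ z ∈ D, |u z| ≤ C := by
    obtain ⟨B, hB⟩ := hu.bdd
    refine ⟨B, fun z hz => ?_⟩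
    rw [abs_of_nonpos (hu.nonpos z hz)]
    linarith [hB z hz]
  obtain ⟨v, hv1, hv2, hv3, hv4⟩ := mollify D W u r hD hu.psh hb hWo hrpos hWD'
  -- the compact set containing the sublevel sets
  set K' := Metric.cthickening (r / 2) K with hK'
  have hK'c : IsCompact K' := hK.cthickening
  have hK'W : K' ⊆ W := Metric.cthickening_subset_thickening' hrpos (by linarith) K
  have hKW : K ⊆ W := Metric.self_subset_thickening hrpos K
  -- cut-off function
  have hdisj : Disjoint K' (Metric.thickening (3 * r / 4) K)ᶜ := by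
    rw [Set.disjoint_compl_right_iff_subset]
    exact Metric.cthickening_subset_thickening' (by positivity) (by linarith) K
  obtain ⟨f, hf1, hf0, hfc, hf01⟩ := exists_continuous_one_zero_of_isCompact hK'c
    (Metric.isOpen_thickening (δ := 3 * r / 4) (E := K)).isClosed_compl hdisj
  have hfW : tsupport f ⊆ W := by
    have h1 : tsupport f ⊆ Metric.cthickening (3 * r / 4) K := by
      apply closure_minimal _ Metric.isClosed_cthickening
      intro z hz
      by_contra hz'
      apply hz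
      apply hf0
      intro hz2
      exact hz' (Metric.thickening_subset_cthickening _ _ hz2)
    exact h1.trans (Metric.cthickening_subset_thickening' hrpos (by linarith) K)
  have hlim := hu.ma W v hWo hWD hv1 hv2 hv3 f f.continuous hfc hfW
  set I := ∫ z, f z ∂μ with hI
  have hIM : I ≤ (μ D).toReal := by
    have h1 : ∫ z, D.indicator (fun _ => (1 : ℝ)) z ∂μ = (μ D).toReal := by
      rw [integral_indicator hD.measurableSet]
      simp [Measure.real]
    rw [← h1]
    apply integral_mono_of_nonneg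
    · filter_upwards with z
      exact (hf01 z).1
    · rw [integrable_indicator_iff hD.measurableSet]
      exact integrableOn_const hu.finite.ne
    · filter_upwards with z
      by_cases hz : z ∈ D
      · simpa [hz] using (hf01 z).2
      · have : f z = 0 := image_eq_zero_of_notMem_tsupport (fun h => hz (hWD (hfW h)))
        simp [hz, this]
  -- the sets
  set S : ℕ → Set (Fin n → ℂ) := fun j => {z | z ∈ W ∧ v j z ≤ -s} with hS
  have hSmono : Monotone S := by
    intro i j hij z hz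
    exact ⟨hz.1, (hv2 z hz.1 hij).trans hz.2⟩
  have hSD : (⋃ j, S j) ⊆ D := by
    intro z hz
    obtain ⟨j, hj⟩ := Set.mem_iUnion.1 hz
    exact hWD hj.1
  have hSfin : volume (⋃ j, S j) ≠ ⊤ := ((measure_mono hSD).trans_lt hDfin).ne
  have hsub : {z | z ∈ D ∧ u z < -s} ⊆ ⋃ j, S j := by
    rintro z ⟨hzD, hzu⟩
    have hzK : z ∈ K := by
      by_contra hzK
      have := hKu z hzD hzK
      linarith
    have h1 := (hv3 z (hKW hzK)).eventually_lt_const hzu
    obtain ⟨j, hj⟩ := h1.exists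
    exact Set.mem_iUnion.2 ⟨j, hKW hzK, hj.le⟩
  have hVle : volume {z | z ∈ D ∧ u z < -s} ≤ volume (⋃ j, S j) := measure_mono hsub
  have hV'pos : 0 < volume (⋃ j, S j) := hV.trans_le hVle
  have htend : Tendsto (fun j => volume (S j)) atTop (𝓝 (volume (⋃ j, S j))) :=
    tendsto_measure_iUnion_atTop hSmono
  have htend' : Tendsto (fun j => (volume (S j)).toReal) atTop (𝓝 (volume (⋃ j, S j)).toReal) :=
    (ENNReal.tendsto_toReal hSfin).comp htend
  have hVr' : 0 < (volume (⋃ j, S j)).toReal := ENNReal.toReal_pos hV'pos.ne' hSfin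
  have hVr : 0 < (volume {z | z ∈ D ∧ u z < -s}).toReal :=
    ENNReal.toReal_pos hV.ne' (hVle.trans_lt hSfin.lt_top).ne
  have hTtend : Tendsto (fun j => TV n C δ (volume (S j)).toReal) atTop
      (𝓝 (TV n C δ (volume (⋃ j, S j)).toReal)) := (TV_cont hδ hVr').tendsto.comp htend'
  have hTle : TV n C δ (volume (⋃ j, S j)).toReal ≤
      TV n C δ (volume {z | z ∈ D ∧ u z < -s}).toReal := by
    apply TV_anti hδ hVr
    exact ENNReal.toReal_mono hSfin hVle
  -- a point of `D`
  obtain ⟨c, hcD, -⟩ : ({z | z ∈ D ∧ u z < -s}).Nonempty := nonempty_of_measure_ne_zero hV.ne'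
  -- the key estimates
  have hkey : ∀ᶠ j in atTop, 0 < TV n C δ (volume (S j)).toReal ∧
      (s - 3 * η) ^ (n + 1) ≤ s * (TV n C δ (volume (S j)).toReal) ^ n * ∫ z, f z * maDens (v j) z := by
    filter_upwards [htend.eventually_const_lt hV'pos, eventually_ge_atTop 1] with j hj hj1
    have hLK : {z | z ∈ W ∧ v j z ≤ -η} ⊆ K' := by
      rintro z ⟨hzW, hzv⟩
      obtain ⟨w, hw, hwu⟩ := hv4 j z hzW
      have hj2 : r / ((j : ℝ) + 1) ≤ r / 2 := by
        have : (1 : ℝ) ≤ (j : ℝ) := by exact_mod_cast hj1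
        apply div_le_div_of_nonneg_left hrpos.le (by norm_num)
        linarith
      have hwz : dist w z ≤ r / 2 := (Metric.mem_closedBall.1 hw).trans hj2
      have hwD : w ∈ D := hWD' z hzW (Metric.mem_closedBall.2 (hwz.trans (by linarith)))
      have hwK : w ∈ K := by
        by_contra hwK
        have := hKu w hwD hwK
        linarith
      apply Metric.mem_cthickening_of_dist_le z w _ K hwK
      rwa [dist_comm]
    have hLeq : {z | z ∈ W ∧ v j z ≤ -η} = K' ∩ v j ⁻¹' Set.Iic (-η) := by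
      ext z
      constructor
      · intro hz
        exact ⟨hLK hz, hz.2⟩
      · intro hz
        exact ⟨hK'W hz.1, hz.2⟩
    have hLc : IsCompact {z | z ∈ W ∧ v j z ≤ -η} := by
      rw [hLeq]
      apply hK'c.of_isClosed_subset _ Set.inter_subset_left
      apply ContinuousOn.preimage_isClosed_of_isClosed _ hK'c.isClosed isClosed_Iic
      exact ((hv1 j).1.continuousOn).mono hK'W
    obtain ⟨T, hT, hT1, hT2⟩ := hC W (v j) c η s δ hWo (hv1 j) hη hs hδ hLc
      (fun z hz => Metric.mem_closedBall.2 (hDd z (hWD hz.1) c hcD)) hj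
    have hTT : TV n C δ (volume (S j)).toReal = T := by
      have : (volume (S j)).toReal = δ ^ (2 * n) * Real.exp (C - 2 * n * T) := by
        simp only [hS]
        rw [hT1, ENNReal.toReal_ofReal (by positivity)]
      rw [this, TV_of_eq hn hδ]
    rw [hTT]
    refine ⟨hT, hT2.trans ?_⟩
    apply mul_le_mul_of_nonneg_left _ (by positivity)
    exact integral_le hWo (hv1 j) f.continuous hfc hfW (fun z => (hf01 z).1)
      (fun z hz => hf1 (hLK hz)) hLc.measurableSet
  have hT0 : 0 ≤ TV n C δ (volume (⋃ j, S j)).toReal := by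
    apply ge_of_tendsto hTtend
    filter_upwards [hkey] with j hj
    exact hj.1.le
  refine ⟨hT0.trans hTle, ?_⟩
  have hfin : (s - 3 * η) ^ (n + 1) ≤ s * (TV n C δ (volume (⋃ j, S j)).toReal) ^ n * I := by
    apply ge_of_tendsto ((((hTtend.pow n).const_mul s)).mul hlim)
    filter_upwards [hkey] with j hj
    exact hj.2
  refine hfin.trans ?_
  have hM : 0 ≤ (μ D).toReal := ENNReal.toReal_nonneg
  calc s * (TV n C δ (volume (⋃ j, S j)).toReal) ^ n * I
      ≤ s * (TV n C δ (volume (⋃ j, S j)).toReal) ^ n * (μ D).toReal := by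
        apply mul_le_mul_of_nonneg_left hIM (by positivity)
    _ ≤ _ := by
        apply mul_le_mul_of_nonneg_right _ hM
        apply mul_le_mul_of_nonneg_left _ hs0.le
        exact pow_le_pow_left₀ hT0 hTle n

lemma e0 (hn : 0 < n) {C : ℝ} (hC : CoreAt n C) {D : Set (Fin n → ℂ)} {δ : ℝ} (hδ : 0 < δ)
    (hD : IsOpen D) (hDb : Bornology.IsBounded D) (hDd : ∀ z ∈ D, ∀ w ∈ D, dist z w ≤ δ)
    {u : (Fin n → ℂ) → ℝ} {μ : Measure (Fin n → ℂ)} (hu : IsE0 D u μ) {s : ℝ} (hs : 0 < s)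
    (hV : 0 < volume {z | z ∈ D ∧ u z < -s}) :
    0 ≤ TV n C δ (volume {z | z ∈ D ∧ u z < -s}).toReal ∧
    s ^ n ≤ (TV n C δ (volume {z | z ∈ D ∧ u z < -s}).toReal) ^ n * (μ D).toReal := by
  have h1 := fun (η : ℝ) (hη : 0 < η) (hs : 4 * η < s) => e0_eta hn hC hδ hD hDb hDd hu hη hs hV
  set T := TV n C δ (volume {z | z ∈ D ∧ u z < -s}).toReal with hT
  refine ⟨(h1 (s / 8) (by positivity) (by linarith)).1, ?_⟩
  have h2 : Tendsto (fun η : ℝ => (s - 3 * η) ^ (n + 1)) (𝓝[>] 0) (𝓝 ((s - 3 * 0) ^ (n + 1))) := by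
    apply Tendsto.mono_left _ nhdsWithin_le_nhds
    apply Continuous.tendsto
    fun_prop
  have h3 : (s - 3 * 0) ^ (n + 1) ≤ s * T ^ n * (μ D).toReal := by
    apply le_of_tendsto h2
    have h4 : ∀ᶠ η : ℝ in 𝓝[>] 0, η < s / 4 :=
      nhdsWithin_le_nhds (eventually_lt_nhds (by positivity))
    filter_upwards [h4, self_mem_nhdsWithin] with η h5 h6
    exact (h1 η h6 (by linarith)).2
  have h4 : s * s ^ n ≤ s * (T ^ n * (μ D).toReal) := by
    calc s * s ^ n = (s - 3 * 0) ^ (n + 1) := by ring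
      _ ≤ _ := h3
      _ = _ := by ring
  exact le_of_mul_le_mul_left h4 hs

theorem final_of_core (n : ℕ) (hn : 0 < n) {C₀ : ℝ} (hC : CoreAt n C₀) :
    ∃ C : ℝ, ∀ (D : Set (Fin n → ℂ)) (δ : ℝ), IsOpen D →
    Bornology.IsBounded D → (∀ z ∈ D, ∀ w ∈ D, ∑ i, ‖z i - w i‖ ^ 2 ≤ δ ^ 2) →
    ∀ (φ : (Fin n → ℂ) → EReal) (lam s : ℝ), 0 < lam → IsCegrellF D φ lam → 0 < s →
      volume {z | z ∈ D ∧ φ z < ((-s : ℝ) : EReal)} ≤
        ENNReal.ofReal (C * δ ^ (2 * n) * Real.exp (-(2 * n * s / lam))) := by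
  refine ⟨Real.exp C₀, ?_⟩
  intro D δ hD hDb hDd φ lam s hlam hφ hs
  have hDfin : volume D < ⊤ := hDb.measure_lt_top
  have : Nonempty (Fin n) := ⟨⟨0, hn⟩⟩
  rcases eq_or_ne (volume {z | z ∈ D ∧ φ z < ((-s : ℝ) : EReal)}) 0 with hV0 | hV0
  · rw [hV0]
    exact zero_le
  have hδ0 : δ ≠ 0 := by
    rintro rfl
    apply hV0
    apply Set.Subsingleton.measure_zero
    rintro z ⟨hz, -⟩ w ⟨hw, -⟩
    have h1 := hDd z hz w hw
    funext i
    have h2 : ‖z i - w i‖ ^ 2 ≤ ∑ i, ‖z i - w i‖ ^ 2 :=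
      Finset.single_le_sum (f := fun i => ‖z i - w i‖ ^ 2) (fun i _ => by positivity)
        (Finset.mem_univ i)
    have h3 : ‖z i - w i‖ ^ 2 ≤ 0 := by simpa using h2.trans h1
    have h4 : ‖z i - w i‖ = 0 := by
      have := sq_nonneg ‖z i - w i‖
      exact pow_eq_zero_iff (two_ne_zero) |>.1 (le_antisymm h3 this)
    exact sub_eq_zero.1 (norm_eq_zero.1 h4)
  have hδ : 0 < |δ| := abs_pos.2 hδ0
  have hδe : |δ| ^ (2 * n) = δ ^ (2 * n) := by
    rw [pow_mul, sq_abs, ← pow_mul]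
  have hDd' : ∀ z ∈ D, ∀ w ∈ D, dist z w ≤ |δ| := by
    intro z hz w hw
    rw [dist_pi_le_iff hδ.le]
    intro i
    rw [dist_eq_norm]
    have h2 : ‖z i - w i‖ ^ 2 ≤ ∑ i, ‖z i - w i‖ ^ 2 :=
      Finset.single_le_sum (f := fun i => ‖z i - w i‖ ^ 2) (fun i _ => by positivity)
        (Finset.mem_univ i)
    have h3 := sq_le_sq.1 (h2.trans (hDd z hz w hw))
    rwa [abs_norm] at h3
  obtain ⟨u, μ, hu, hanti, hinf, hmass⟩ := hφ
  set A : ℕ → Set (Fin n → ℂ) := fun j => {z | z ∈ D ∧ u j z < -s} with hA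
  have hAmono : Monotone A := by
    intro i j hij z hz
    exact ⟨hz.1, (hanti z hz.1 hij).trans_lt hz.2⟩
  have hAun : {z | z ∈ D ∧ φ z < ((-s : ℝ) : EReal)} = ⋃ j, A j := by
    ext z
    simp only [Set.mem_ofPred_eq, Set.mem_iUnion, hA]
    constructor
    · rintro ⟨hz, hz2⟩
      rw [hinf z hz, iInf_lt_iff] at hz2
      obtain ⟨j, hj⟩ := hz2
      exact ⟨j, hz, by exact_mod_cast hj⟩
    · rintro ⟨j, hz, hj⟩
      refine ⟨hz, ?_⟩
      rw [hinf z hz, iInf_lt_iff]
      exact ⟨j, by exact_mod_cast hj⟩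
  rw [hAun] at hV0 ⊢
  have hAD : (⋃ j, A j) ⊆ D := by
    intro z hz
    obtain ⟨j, hj⟩ := Set.mem_iUnion.1 hz
    exact hj.1
  have hVfin : volume (⋃ j, A j) ≠ ⊤ := ((measure_mono hAD).trans_lt hDfin).ne
  have hVr : 0 < (volume (⋃ j, A j)).toReal := ENNReal.toReal_pos hV0 hVfin
  have htend : Tendsto (fun j => volume (A j)) atTop (𝓝 (volume (⋃ j, A j))) :=
    tendsto_measure_iUnion_atTop hAmono
  have htend' : Tendsto (fun j => (volume (A j)).toReal) atTop (𝓝 (volume (⋃ j, A j)).toReal) :=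
    (ENNReal.tendsto_toReal hVfin).comp htend
  have hTtend : Tendsto (fun j => TV n C₀ |δ| (volume (A j)).toReal) atTop
      (𝓝 (TV n C₀ |δ| (volume (⋃ j, A j)).toReal)) := (TV_cont hδ hVr).tendsto.comp htend'
  have hM : Tendsto (fun j => (μ j D).toReal) atTop (𝓝 (lam ^ n)) := by
    have h1 := (ENNReal.tendsto_toReal (ENNReal.ofReal_ne_top (r := lam ^ n))).comp hmass
    rw [ENNReal.toReal_ofReal (by positivity)] at h1
    exact h1
  set T := TV n C₀ |δ| (volume (⋃ j, A j)).toReal with hT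
  have hkey : ∀ᶠ j in atTop, 0 ≤ TV n C₀ |δ| (volume (A j)).toReal ∧
      s ^ n ≤ (TV n C₀ |δ| (volume (A j)).toReal) ^ n * (μ j D).toReal := by
    filter_upwards [htend.eventually_const_lt (pos_iff_ne_zero.2 hV0)] with j hj
    exact e0 hn hC hδ hD hDb hDd' (hu j) hs hj
  have hT0 : 0 ≤ T := by
    apply ge_of_tendsto hTtend
    filter_upwards [hkey] with j hj
    exact hj.1
  have hT1 : s ^ n ≤ T ^ n * lam ^ n := by
    apply ge_of_tendsto ((hTtend.pow n).mul hM)
    filter_upwards [hkey] with j hj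
    exact hj.2
  have hT2 : s / lam ≤ T := by
    rw [← mul_pow] at hT1
    have := (pow_le_pow_iff_left₀ hs.le (by positivity) hn.ne').1 hT1
    rwa [div_le_iff₀ hlam]
  rw [← ENNReal.ofReal_toReal hVfin]
  apply ENNReal.ofReal_le_ofReal
  rw [TV_eq hn (C := C₀) hδ hVr, ← hT, hδe]
  have h5 : C₀ - 2 * n * T ≤ C₀ + -(2 * n * s / lam) := by
    have h6 : 2 * n * s / lam = 2 * n * (s / lam) := by ring
    have h7 : 2 * (n : ℝ) * (s / lam) ≤ 2 * n * T :=
      mul_le_mul_of_nonneg_left hT2 (by positivity)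
    linarith
  calc δ ^ (2 * n) * Real.exp (C₀ - 2 * n * T)
      ≤ δ ^ (2 * n) * Real.exp (C₀ + -(2 * n * s / lam)) := by
        apply mul_le_mul_of_nonneg_left (Real.exp_le_exp.2 h5)
        rw [pow_mul]
        positivity
    _ = _ := by
        rw [Real.exp_add]
        ring

end Fin1

end Pool.Agent.Ceg
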