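import Pool.Agent.Ceg.Mollify

/-!
# The mollification as an order preserving operator
-/

set_option autoImplicit false

namespace Pool.Agent.Ceg

open MeasureTheory Matrix Filter Topology
open scoped ContDiff ENNReal Real ComplexOrder

namespace Moll

variable {n : ℕ} {D : Set (Fin n → ℂ)} {u v : (Fin n → ℂ) → ℝ} {r C C' : ℝ} {z : Fin n → ℂ}

lemma G_point' (hU : BM (D.indicator u) C) (hz : Metric.closedBall z r ⊆ D) {t : ℝ} (ht : 0 < t)
    (htr : t ≤ r) : ∃ w ∈ Metric.closedBall z t, G (D.indicator u) z t ≤ u w := by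
  by_contra hcon
  push Not at hcon
  set c := G (D.indicator u) z t with hc
  have h1 : ∫ ζ, rh (n := n) ζ * (c - D.indicator u (z + (t : ℂ) • ζ)) = 0 := by
    simp_rw [mul_sub]
    rw [integral_sub (rh_int.mul_const c) (hU.int (by fun_prop)), integral_mul_const, rh_one,
      one_mul]
    exact sub_self c
  have hpos : ∀ ζ : Fin n → ℂ, rh ζ ≠ 0 → 0 < c - D.indicator u (z + (t : ℂ) • ζ) := by
    intro ζ hζ
    have h2 := rh_supp hζ
    have h3 : z + (t : ℂ) • ζ ∈ Metric.closedBall z t := by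
      rw [mem_closedBall_iff_norm, add_sub_cancel_left, norm_smul, Complex.norm_real,
        Real.norm_of_nonneg ht.le]
      nlinarith
    have h4 : z + (t : ℂ) • ζ ∈ D := hz (Metric.closedBall_subset_closedBall htr h3)
    rw [Set.indicator_of_mem h4]
    have := hcon _ h3
    linarith
  have hint : Integrable (fun ζ : Fin n → ℂ => rh ζ * (c - D.indicator u (z + (t : ℂ) • ζ))) := by
    simp_rw [mul_sub]
    exact (rh_int.mul_const c).sub (hU.int (by fun_prop))
  rw [integral_eq_zero_iff_of_nonneg _ hint] at h1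
  · have h2 : rh (n := n) =ᵐ[volume] 0 := by
      filter_upwards [h1] with ζ hζ
      by_contra h0
      have h3 := hpos ζ h0
      have h4 : 0 < rh ζ := lt_of_le_of_ne (rh_nonneg ζ) (Ne.symm h0)
      have := mul_pos h4 h3
      simp only [Pi.zero_apply] at hζ
      linarith
    have h5 := integral_congr_ae h2
    rw [rh_one] at h5
    simp at h5
  · intro ζ
    simp only [Pi.zero_apply]
    by_cases h0 : rh ζ = 0
    · rw [h0, zero_mul]
    · exact mul_nonneg (rh_nonneg ζ) (hpos ζ h0).le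

lemma G_le (hU : BM (D.indicator u) C) (hV : BM (D.indicator v) C')
    (huv : ∀ z ∈ D, u z ≤ v z) (t : ℂ) : G (D.indicator u) z t ≤ G (D.indicator v) z t := by
  unfold G
  apply integral_mono (hU.int (by fun_prop)) (hV.int (by fun_prop))
  intro ζ
  exact mul_le_mul_of_nonneg_left (Set.indicator_le_indicator' (fun h => huv _ h)) (rh_nonneg ζ)

lemma BM_of (hD : IsOpen D) (hu : IsPSHOn u D) (hb : ∃ C, ∀ z ∈ D, |u z| ≤ C) :
    ∃ C, BM (D.indicator u) C := by
  obtain ⟨C, hC⟩ := hb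
  refine ⟨max C 0, meas_U hD hu.1, fun z => ?_⟩
  by_cases hz : z ∈ D
  · rw [Set.indicator_of_mem hz]
    exact (hC z hz).trans (le_max_left _ _)
  · rw [Set.indicator_of_notMem hz, abs_zero]
    exact le_max_right _ _

end Moll

open Moll in
theorem mollifier {n : ℕ} (D W : Set (Fin n → ℂ)) (r : ℝ) (hD : IsOpen D) (hW : IsOpen W)
    (hr : 0 < r) (hWD : ∀ z ∈ W, Metric.closedBall z r ⊆ D) :
    ∃ M : ℕ → ((Fin n → ℂ) → ℝ) → (Fin n → ℂ) → ℝ,
      ∀ u : (Fin n → ℂ) → ℝ, IsPSHOn u D → (∃ C, ∀ z ∈ D, |u z| ≤ C) →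
        (∀ j, SmoothPSHOn (M j u) W) ∧ (∀ z ∈ W, Antitone fun j => M j u z) ∧
        (∀ z ∈ W, Tendsto (fun j => M j u z) atTop (𝓝 (u z))) ∧
        (∀ j : ℕ, ∀ z ∈ W, (∃ w ∈ Metric.closedBall z (r / (j + 1)), u w ≤ M j u z) ∧
          ∃ w ∈ Metric.closedBall z (r / (j + 1)), M j u z ≤ u w) ∧
        ∀ v : (Fin n → ℂ) → ℝ, IsPSHOn v D → (∃ C, ∀ z ∈ D, |v z| ≤ C) →
          (∀ z ∈ D, u z ≤ v z) → ∀ j, ∀ z ∈ W, M j u z ≤ M j v z := by
  have hpos : ∀ j : ℕ, 0 < r / (j + 1) := fun j => by positivity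
  have hle : ∀ j : ℕ, r / (j + 1) ≤ r := fun j => by
    apply div_le_self hr.le
    have : (0 : ℝ) ≤ j := Nat.cast_nonneg j
    linarith
  refine ⟨fun j u z => G (D.indicator u) z ((r / (j + 1) : ℝ) : ℂ), fun u hu hb => ?_⟩
  obtain ⟨C, hU⟩ := BM_of hD hu hb
  refine ⟨fun j => ?_, fun z hz => ?_, fun z hz => ?_, fun j z hz => ⟨?_, ?_⟩,
    fun v hv hvb huv j z _ => ?_⟩
  · exact G_psh hu hU hW hr hWD (hpos j) (hle j)
  · intro i j hij
    apply G_mono hD hu hU hr (hWD z hz) ⟨hpos j, hle j⟩ ⟨hpos i, hle i⟩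
    have : (i : ℝ) ≤ j := by exact_mod_cast hij
    gcongr
  · have hzD : z ∈ D := hWD z hz (Metric.mem_closedBall_self hr.le)
    have hlow : ∀ j : ℕ, u z ≤ G (D.indicator u) z ((r / (j + 1) : ℝ) : ℂ) :=
      fun j => G_low hu hU (hWD z hz) (hpos j) (hle j)
    rw [tendsto_order]
    constructor
    · intro a ha
      exact Eventually.of_forall fun j => ha.trans_le (hlow j)
    · intro c hc
      obtain ⟨δ, hδ, h1⟩ := G_up hD hu hU hzD hc
      have h2 : Tendsto (fun j : ℕ => r / ((j : ℝ) + 1)) atTop (𝓝 0) := by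
        apply Tendsto.div_atTop tendsto_const_nhds
        exact tendsto_atTop_add_const_right _ _ tendsto_natCast_atTop_atTop
      filter_upwards [h2.eventually (gt_mem_nhds hδ)] with j hj
      exact h1 _ (hpos j) hj
  · exact G_point hU (hWD z hz) (hpos j) (hle j)
  · exact G_point' hU (hWD z hz) (hpos j) (hle j)
  · obtain ⟨C', hV⟩ := BM_of hD hv hvb
    exact G_le hU hV huv _

end Pool.Agent.Ceg
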