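import Pool.Agent.Ceg.Mollify

/-!
# The strong maximum principle for plurisubharmonic functions with maximum zero
-/

set_option autoImplicit false

namespace Pool.Agent.Ceg

open MeasureTheory Matrix Filter Topology
open scoped ContDiff ENNReal Real ComplexOrder

theorem psh_eq_zero {n : ℕ} (D : Set (Fin n → ℂ)) (hD : IsOpen D) (hDc : IsConnected D)
    (u : (Fin n → ℂ) → ℝ) (hu : IsPSHOn u D) (hb : ∃ C, ∀ z ∈ D, |u z| ≤ C)
    (h0 : ∀ z ∈ D, u z ≤ 0) (z₀ : Fin n → ℂ) (hz₀ : z₀ ∈ D) (hz : u z₀ = 0) :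
    ∀ z ∈ D, u z = 0 := by
  obtain ⟨C, hC⟩ := hb
  have hpi := Real.pi_pos
  have hmeas := Moll.meas_U hD hu.1
  have hopen2 : IsOpen {z | z ∈ D ∧ u z < 0} := by
    rw [isOpen_iff_mem_nhds]
    intro z hz
    exact Moll.usc_nhds hD hu.1 hz.1 hz.2
  have hopen1 : IsOpen {z | z ∈ D ∧ u z = 0} := by
    rw [Metric.isOpen_iff]
    rintro z ⟨hzD, hzu⟩
    obtain ⟨r, hr, hball⟩ := Metric.isOpen_iff.1 hD z hzD
    refine ⟨r, hr, ?_⟩
    intro w hw
    have hwD : w ∈ D := hball hw
    refine ⟨hwD, ?_⟩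
    by_contra hne
    have hlt : u w < 0 := lt_of_le_of_ne (h0 w hwD) hne
    have hseg : ∀ ζ : ℂ, ‖ζ‖ ≤ 1 → z + ζ • (w - z) ∈ D := by
      intro ζ hζ
      apply hball
      rw [mem_ball_iff_norm, add_sub_cancel_left, norm_smul]
      rw [mem_ball_iff_norm] at hw
      calc ‖ζ‖ * ‖w - z‖ ≤ 1 * ‖w - z‖ := by gcongr
        _ < r := by linarith
    have h1 := hu.2 z hzD (w - z) hseg
    rw [hzu] at h1
    set F : ℝ → ℝ := fun θ => u (z + Complex.exp (θ * Complex.I) • (w - z)) with hF
    have hmem : ∀ θ : ℝ, z + Complex.exp (θ * Complex.I) • (w - z) ∈ D := fun θ =>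
      hseg _ (by rw [Complex.norm_exp_ofReal_mul_I])
    have hFm : Measurable F := by
      have h2 : F = fun θ : ℝ => D.indicator u (z + Complex.exp (θ * Complex.I) • (w - z)) := by
        funext θ
        rw [Set.indicator_of_mem (hmem θ)]
      rw [h2]
      apply hmeas.comp
      fun_prop
    have hFi : ∀ a b : ℝ, IntervalIntegrable F volume a b := by
      intro a b
      rw [intervalIntegrable_iff]
      apply Measure.integrableOn_of_bounded (M := C) measure_Ioc_lt_top.ne
        hFm.aestronglyMeasurable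
      exact Eventually.of_forall fun θ => hC _ (hmem θ)
    -- near `θ = 0`
    obtain ⟨c, hc1, hc2⟩ := exists_between hlt
    have h3 := Moll.usc_nhds hD hu.1 hwD hc1
    have hcont : Continuous fun θ : ℝ => z + Complex.exp (θ * Complex.I) • (w - z) := by fun_prop
    have h4 : Tendsto (fun θ : ℝ => z + Complex.exp (θ * Complex.I) • (w - z)) (𝓝 0) (𝓝 w) := by
      have := hcont.tendsto 0
      simpa using this
    have h5 := h4.eventually h3
    rw [Metric.eventually_nhds_iff] at h5
    obtain ⟨δ, hδ, h6⟩ := h5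
    set δ' := min (δ / 2) π with hδ'
    have hδ'0 : 0 < δ' := lt_min (by linarith) hpi
    have h7 : ∫ θ in (0 : ℝ)..δ', F θ ≤ ∫ _θ in (0 : ℝ)..δ', c := by
      apply intervalIntegral.integral_mono_on hδ'0.le (hFi _ _) (by simp)
      rintro θ ⟨h8, h9⟩
      have h10 : dist θ 0 < δ := by
        rw [Real.dist_eq, sub_zero, abs_of_nonneg h8]
        have : δ' ≤ δ / 2 := min_le_left _ _
        linarith
      exact (h6 h10).2.le
    have h8 : ∫ θ in δ'..(2 * π), F θ ≤ ∫ _θ in δ'..(2 * π), (0 : ℝ) := by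
      apply intervalIntegral.integral_mono_on (by
        have : δ' ≤ π := min_le_right _ _
        linarith) (hFi _ _) (by simp)
      intro θ _
      exact h0 _ (hmem θ)
    have h9 := intervalIntegral.integral_add_adjacent_intervals (hFi 0 δ') (hFi δ' (2 * π))
    rw [intervalIntegral.integral_const, sub_zero, smul_eq_mul] at h7
    rw [intervalIntegral.integral_zero] at h8
    have h10 : ∫ θ in (0 : ℝ)..(2 * π), F θ < 0 := by
      rw [← h9]
      have : δ' * c < 0 := mul_neg_of_pos_of_neg hδ'0 hc2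
      linarith
    have h11 : (2 * π)⁻¹ * ∫ θ in (0 : ℝ)..(2 * π), F θ < 0 :=
      mul_neg_of_pos_of_neg (by positivity) h10
    linarith
  have h1 := hDc.isPreconnected.subset_left_of_subset_union hopen1 hopen2
    (by
      rw [Set.disjoint_left]
      rintro z ⟨_, h1⟩ ⟨_, h2⟩
      linarith)
    (by
      intro z hz
      rcases (h0 z hz).lt_or_eq with h | h
      · exact Or.inr ⟨hz, h⟩
      · exact Or.inl ⟨hz, h⟩)
    ⟨z₀, hz₀, hz₀, hz⟩
  exact fun z hz => (h1 hz).2

end Pool.Agent.Ceg
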