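import Pool.Agent.Ceg.Defs2
import Pool.Agent.Ceg.FinalA
import Pool.Agent.Ceg.Neg
import Pool.Agent.Ceg.Compare
import Pool.Agent.Ceg.Mollifier

/-!
# Comparison of the Monge-Ampère masses in `E₀` weighted by a plurisubharmonic function
-/

set_option autoImplicit false

namespace Pool.Agent.Ceg

open MeasureTheory Matrix Filter Topology
open scoped ContDiff ENNReal Real ComplexOrder

namespace E0

variable {n : ℕ}

/-- Levi matrix of a multiple -/
lemma levi_mul {W : Set (Fin n → ℂ)} {u : (Fin n → ℂ) → ℝ} (hW : IsOpen W)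
    (hu : ContDiffOn ℝ ∞ u W) (t : ℝ) {z : Fin n → ℂ} (hz : z ∈ W) :
    levi (fun y => t * u y) z = ((t : ℝ) : ℂ) • levi u z := by
  have h := levi_comp (χ := fun x => t * x) (b := fun _ => t) hW hu
    (fun x => by simpa using (hasDerivAt_id x).const_mul t) (differentiable_const t) hz
  rw [h]
  simp

/-- Levi matrix of a translate -/
lemma levi_sub_const {W : Set (Fin n → ℂ)} {u : (Fin n → ℂ) → ℝ} (hW : IsOpen W)
    (hu : ContDiffOn ℝ ∞ u W) (c : ℝ) {z : Fin n → ℂ} (hz : z ∈ W) :
    levi (fun y => u y - c) z = levi u z := by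
  have h := levi_comp (χ := fun x => x - c) (b := fun _ => 1) hW hu
    (fun x => by simpa using (hasDerivAt_id x).sub_const c) (differentiable_const 1) hz
  rw [h]
  simp

lemma smooth_mul {W : Set (Fin n → ℂ)} {u : (Fin n → ℂ) → ℝ} (hW : IsOpen W)
    (hu : SmoothPSHOn u W) {t : ℝ} (ht : 0 ≤ t) : SmoothPSHOn (fun y => t * u y) W := by
  refine ⟨contDiffOn_const.mul hu.1, fun z hz => ?_⟩
  rw [levi_mul hW hu.1 t hz]
  exact (hu.2 z hz).smul (Complex.zero_le_real.2 ht)

lemma smooth_sub {W : Set (Fin n → ℂ)} {u : (Fin n → ℂ) → ℝ} (hW : IsOpen W)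
    (hu : SmoothPSHOn u W) (c : ℝ) : SmoothPSHOn (fun y => u y - c) W := by
  refine ⟨hu.1.sub contDiffOn_const, fun z hz => ?_⟩
  rw [levi_sub_const hW hu.1 c hz]
  exact hu.2 z hz

lemma det_levi_mul {W : Set (Fin n → ℂ)} {u : (Fin n → ℂ) → ℝ} (hW : IsOpen W)
    (hu : ContDiffOn ℝ ∞ u W) (t : ℝ) {z : Fin n → ℂ} (hz : z ∈ W) :
    (levi (fun y => t * u y) z).det.re = t ^ n * (levi u z).det.re := by
  rw [levi_mul hW hu t hz, Matrix.det_smul, Fintype.card_fin, ← Complex.ofReal_pow,
    Complex.re_ofReal_mul]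

/-- the product of a compactly supported function with a function continuous on `D` -/
lemma cont_mul {D : Set (Fin n → ℂ)} (hD : IsOpen D) {f g : (Fin n → ℂ) → ℝ}
    (hf : Continuous f) (hfD : tsupport f ⊆ D) (hg : ContinuousOn g D) :
    Continuous fun z => f z * g z := by
  rw [continuous_iff_continuousAt]
  intro z
  by_cases hz : z ∈ D
  · exact hf.continuousAt.mul (hg.continuousAt (hD.mem_nhds hz))
  · have h1 : f =ᶠ[𝓝 z] fun _ => 0 :=
      notMem_tsupport_iff_eventuallyEq.1 fun h => hz (hfD h)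
    have h2 : (fun z => f z * g z) =ᶠ[𝓝 z] fun _ => 0 := by
      filter_upwards [h1] with y hy
      rw [hy, zero_mul]
    exact continuousAt_const.congr h2.symm

lemma tsupport_mul_sub {f g : (Fin n → ℂ) → ℝ} : tsupport (fun z => f z * g z) ⊆ tsupport f :=
  closure_mono fun z hz => by
    simp only [Function.mem_support] at hz ⊢
    exact left_ne_zero_of_mul hz

/-- `compare_smooth` for the Monge-Ampère densities -/
lemma step {W C S : Set (Fin n → ℂ)} (hW : IsOpen W) (hC : IsCompact C) (hCW : C ⊆ W)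
    {u v h : (Fin n → ℂ) → ℝ} (hu : SmoothPSHOn u W) (hv : SmoothPSHOn v W)
    (hh : SmoothPSHOn h W) (hh0 : ∀ z ∈ W, h z ≤ 0) {t κ : ℝ} (ht : 0 ≤ t) (hκ : 0 < κ)
    (hout : ∀ z ∈ W, z ∉ C → κ ≤ t * u z - (v z - 2 * κ)) (hSm : MeasurableSet S)
    (hS : ∀ z ∈ S, z ∈ C ∧ κ ≤ (v z - 2 * κ) - t * u z) :
    ∫ z in S, (-h z) * maDens v z ≤ t ^ n * ∫ z in C, (-h z) * maDens u z := by
  have hg : SmoothPSHOn (fun z => -(fun z => -h z) z) W := by
    simpa only [neg_neg] using hh
  have h1 := compare_smooth W C S (fun z => t * u z) (fun z => v z - 2 * κ) (fun z => -h z) κ hκ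
    hW hC hCW (smooth_mul hW hu ht) (smooth_sub hW hv _) hg
    (fun z hz => neg_nonneg.2 (hh0 z hz)) hout hSm hS
  have hSW : S ⊆ W := fun z hz => hCW (hS z hz).1
  have e1 : ∫ z in S, (-h z) * maDens v z = 2 ^ n * (n.factorial : ℝ) / π ^ n *
      ∫ z in S, (-h z) * (levi (fun z => v z - 2 * κ) z).det.re := by
    rw [← integral_const_mul]
    apply setIntegral_congr_fun hSm
    intro z hz
    simp only [maDens]
    rw [levi_sub_const hW hv.1 _ (hSW hz)]
    ring
  have e2 : t ^ n * ∫ z in C, (-h z) * maDens u z = 2 ^ n * (n.factorial : ℝ) / π ^ n *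
      ∫ z in C, (-h z) * (levi (fun z => t * u z) z).det.re := by
    rw [← integral_const_mul, ← integral_const_mul]
    apply setIntegral_congr_fun hC.isClosed.measurableSet
    intro z hz
    simp only [maDens]
    rw [det_levi_mul hW hu.1 t (hCW hz)]
    ring
  rw [e1, e2]
  exact mul_le_mul_of_nonneg_left h1 (by positivity)

lemma integrable_ma {W : Set (Fin n → ℂ)} (hW : IsOpen W) {v f : (Fin n → ℂ) → ℝ}
    (hv : SmoothPSHOn v W) (hf : Continuous f) (hfc : HasCompactSupport f) (hfW : tsupport f ⊆ W) :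
    Integrable (fun z => f z * maDens v z) := by
  have h2 : IntegrableOn (fun z => f z * maDens v z) (tsupport f) := by
    apply ContinuousOn.integrableOn_compact hfc
    exact hf.continuousOn.mul ((Fin1.maDens_contOn hW hv).mono hfW)
  rw [integrableOn_iff_integrable_of_support_subset] at h2
  · exact h2
  · intro z hz
    apply subset_tsupport
    simp only [Function.mem_support] at hz ⊢
    exact left_ne_zero_of_mul hz

/-- right-hand side -/
lemma right {D W C : Set (Fin n → ℂ)} (hW : IsOpen W) (hC : IsCompact C)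
    (hCW : C ⊆ W) (hWD : W ⊆ D) {u h h' f : (Fin n → ℂ) → ℝ} (hu : SmoothPSHOn u W)
    (hh' : ContinuousOn h' W) (hh0 : ∀ z ∈ D, h z ≤ 0) (hle : ∀ z ∈ W, h z ≤ h' z)
    (hf : Continuous f) (hfc : HasCompactSupport f) (hfW : tsupport f ⊆ W) (hf0 : ∀ z, 0 ≤ f z)
    (hf1 : ∀ z ∈ C, f z = 1) (hhc : ContinuousOn h D) (hD : IsOpen D) :
    ∫ z in C, (-h' z) * maDens u z ≤ ∫ z, (f z * (-h z)) * maDens u z := by
  have hF : Continuous fun z => f z * (-h z) :=
    cont_mul hD hf (hfW.trans hWD) hhc.neg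
  have hFc : HasCompactSupport fun z => f z * (-h z) := hfc.mul_right
  have hFW : tsupport (fun z => f z * (-h z)) ⊆ W := tsupport_mul_sub.trans hfW
  have h1 := integrable_ma hW hu hF hFc hFW
  have h2 : ∫ z in C, (-h' z) * maDens u z ≤ ∫ z in C, (f z * (-h z)) * maDens u z := by
    apply setIntegral_mono_on
    · apply ContinuousOn.integrableOn_compact hC
      exact (hh'.mono hCW).neg.mul ((Fin1.maDens_contOn hW hu).mono hCW)
    · exact h1.integrableOn
    · exact hC.isClosed.measurableSet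
    · intro z hz
      rw [hf1 z hz, one_mul]
      exact mul_le_mul_of_nonneg_right (neg_le_neg (hle z (hCW hz)))
        (Fin1.maDens_nonneg hu (hCW hz))
  refine h2.trans (setIntegral_le_integral h1 ?_)
  filter_upwards with z
  by_cases hz : z ∈ W
  · exact mul_nonneg (mul_nonneg (hf0 z) (neg_nonneg.2 (hh0 z (hWD hz))))
      (Fin1.maDens_nonneg hu hz)
  · have : f z = 0 := image_eq_zero_of_notMem_tsupport (fun h => hz (hfW h))
    simp [this]

/-- left-hand side -/
lemma left {D W : Set (Fin n → ℂ)} (hW : IsOpen W) (hWD : W ⊆ D)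
    {v h h' f : (Fin n → ℂ) → ℝ} {ε : ℝ} (hv : SmoothPSHOn v W)
    (hh' : ContinuousOn h' W) (hh0 : ∀ z ∈ W, h' z ≤ 0)
    (hle : ∀ z ∈ tsupport f, h' z ≤ h z + ε)
    (hf : Continuous f) (hfc : HasCompactSupport f) (hfW : tsupport f ⊆ W)
    (hf01 : ∀ z, 0 ≤ f z ∧ f z ≤ 1) (hhc : ContinuousOn h D) (hD : IsOpen D) :
    (∫ z, (f z * (-h z)) * maDens v z) - ε * ∫ z, f z * maDens v z ≤
      ∫ z in tsupport f, (-h' z) * maDens v z := by
  have hF : Continuous fun z => f z * (-h z) :=
    cont_mul hD hf (hfW.trans hWD) hhc.neg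
  have hFc : HasCompactSupport fun z => f z * (-h z) := hfc.mul_right
  have hFW : tsupport (fun z => f z * (-h z)) ⊆ W := tsupport_mul_sub.trans hfW
  have h1 := integrable_ma hW hv hF hFc hFW
  have h2 := integrable_ma hW hv hf hfc hfW
  rw [← integral_const_mul, ← integral_sub h1 (h2.const_mul ε)]
  have h3 : ∫ z, ((f z * (-h z)) * maDens v z - ε * (f z * maDens v z)) =
      ∫ z in tsupport f, ((f z * (-h z)) * maDens v z - ε * (f z * maDens v z)) := by
    symm
    apply setIntegral_eq_integral_of_forall_compl_eq_zero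
    intro z hz
    have : f z = 0 := image_eq_zero_of_notMem_tsupport hz
    simp [this]
  rw [h3]
  have hfc' : IsCompact (tsupport f) := hfc
  apply setIntegral_mono_on
  · exact (h1.sub (h2.const_mul ε)).integrableOn
  · apply ContinuousOn.integrableOn_compact hfc'
    exact (hh'.mono hfW).neg.mul ((Fin1.maDens_contOn hW hv).mono hfW)
  · exact hfc'.isClosed.measurableSet
  · intro z hz
    have hm := Fin1.maDens_nonneg hv (hfW hz)
    have e : (f z * (-h z)) * maDens v z - ε * (f z * maDens v z) =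
        (f z * (-h z - ε)) * maDens v z := by ring
    rw [e]
    apply mul_le_mul_of_nonneg_right _ hm
    have a1 : f z * (-h z - ε) ≤ f z * (-h' z) :=
      mul_le_mul_of_nonneg_left (by linarith [hle z hz]) (hf01 z).1
    have a2 : f z * (-h' z) ≤ 1 * (-h' z) :=
      mul_le_mul_of_nonneg_right (hf01 z).2 (neg_nonneg.2 (hh0 z (hfW hz)))
    linarith

/-- a nonpositive weight against a finite measure -/
lemma integral_cut_le {D : Set (Fin n → ℂ)} (hD : IsOpen D) {μ : Measure (Fin n → ℂ)}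
    (hμ : μ D < ⊤) {h f : (Fin n → ℂ) → ℝ} (hhc : ContinuousOn h D)
    (hh1 : ∀ z ∈ D, -1 ≤ h z ∧ h z ≤ 0) (hfD : tsupport f ⊆ D)
    (hf : Continuous f) (hf01 : ∀ z, 0 ≤ f z ∧ f z ≤ 1) :
    ∫ z, f z * (-h z) ∂μ ≤ ∫ z in D, (-h z) ∂μ := by
  have hint : IntegrableOn (fun z => -h z) D μ := by
    have : IsFiniteMeasure (μ.restrict D) := ⟨by rwa [Measure.restrict_apply_univ]⟩
    apply Integrable.of_bound (C := 1) (hhc.neg.aestronglyMeasurable hD.measurableSet)
    · filter_upwards [ae_restrict_mem hD.measurableSet] with z hz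
      rw [Real.norm_eq_abs, abs_le, Pi.neg_apply]
      constructor <;> linarith [(hh1 z hz).1, (hh1 z hz).2]
  have h1 : ∫ z, f z * (-h z) ∂μ = ∫ z in D, f z * (-h z) ∂μ := by
    symm
    apply setIntegral_eq_integral_of_forall_compl_eq_zero
    intro z hz
    have : f z = 0 := image_eq_zero_of_notMem_tsupport fun h => hz (hfD h)
    simp [this]
  rw [h1]
  apply setIntegral_mono_on _ hint hD.measurableSet
  · intro z hz
    exact mul_le_of_le_one_left (neg_nonneg.2 (hh1 z hz).2) (hf01 z).2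
  · apply Integrable.mono hint
    · exact (hf.continuousOn.mul hhc.neg).aestronglyMeasurable hD.measurableSet
    · filter_upwards with z
      rw [norm_mul]
      have : ‖f z‖ ≤ 1 := by
        rw [Real.norm_eq_abs, abs_le]
        constructor <;> linarith [(hf01 z).1, (hf01 z).2]
      exact mul_le_of_le_one_left (norm_nonneg _) this

end E0

theorem e0_compare {n : ℕ} (hn : 0 < n) (D : Set (Fin n → ℂ)) (hD : IsHyperconvex D)
    (u v h : (Fin n → ℂ) → ℝ) (μ μ' : Measure (Fin n → ℂ)) (hu : IsE0 D u μ) (hv : IsE0 D v μ')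
    (huv : ∀ z ∈ D, u z ≤ v z) (hhc : ContinuousOn h D) (hh : IsPSHOn h D)
    (hh1 : ∀ z ∈ D, -1 ≤ h z ∧ h z ≤ 0) (f : (Fin n → ℂ) → ℝ) (hf : Continuous f)
    (hfc : HasCompactSupport f) (hfD : tsupport f ⊆ D) (hf1 : ∀ z, 0 ≤ f z ∧ f z ≤ 1) :
    ∫ z, f z * (-h z) ∂μ' ≤ ∫ z in D, (-h z) ∂μ := by
  have hDo := hD.isOpen
  have hF : Continuous fun z => f z * (-h z) := E0.cont_mul hDo hf hfD hhc.neg
  have hFc : HasCompactSupport fun z => f z * (-h z) := hfc.mul_right
  have hFD : tsupport (fun z => f z * (-h z)) ⊆ D := E0.tsupport_mul_sub.trans hfD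
  have hI0 : 0 ≤ ∫ z in D, (-h z) ∂μ :=
    setIntegral_nonneg hDo.measurableSet fun z hz => neg_nonneg.2 (hh1 z hz).2
  have hbu : ∃ C, ∀ z ∈ D, |u z| ≤ C := by
    obtain ⟨B, hB⟩ := hu.bdd
    refine ⟨B, fun z hz => ?_⟩
    rw [abs_of_nonpos (hu.nonpos z hz)]
    linarith [hB z hz]
  have hbv : ∃ C, ∀ z ∈ D, |v z| ≤ C := by
    obtain ⟨B, hB⟩ := hv.bdd
    refine ⟨B, fun z hz => ?_⟩
    rw [abs_of_nonpos (hv.nonpos z hz)]
    linarith [hB z hz]
  have hbh : ∃ C, ∀ z ∈ D, |h z| ≤ C := by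
    refine ⟨1, fun z hz => ?_⟩
    rw [abs_of_nonpos (hh1 z hz).2]
    linarith [(hh1 z hz).1]
  by_cases hcase : ∃ z₀ ∈ D, u z₀ = 0
  · -- both functions vanish
    obtain ⟨z₀, hz₀, hz₀'⟩ := hcase
    have hu0 := psh_eq_zero D hDo hD.isConnected u hu.psh hbu hu.nonpos z₀ hz₀ hz₀'
    have hv0 : ∀ z ∈ D, v z = 0 := fun z hz =>
      le_antisymm (hv.nonpos z hz) (by rw [← hu0 z hz]; exact huv z hz)
    have : Nonempty (Fin n) := ⟨⟨0, hn⟩⟩
    have hma0 : ∀ z : Fin n → ℂ, maDens (fun _ : Fin n → ℂ => (0 : ℝ)) z = 0 := by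
      intro z
      unfold maDens
      rw [levi_zero, Matrix.det_zero]
      simp
    have h1 := hv.ma D (fun _ _ => 0) hDo le_rfl
      (fun _ => ⟨contDiffOn_const, fun z _ => by rw [levi_zero]; exact Matrix.PosSemidef.zero⟩)
      (fun _ _ => antitone_const) (fun z hz => by rw [hv0 z hz]; exact tendsto_const_nhds)
      _ hF hFc hFD
    simp only [hma0, mul_zero, integral_zero] at h1
    have h2 := tendsto_nhds_unique h1 tendsto_const_nhds
    rw [h2]
    exact hI0
  have hneg : ∀ z ∈ D, u z < 0 := fun z hz =>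
    lt_of_le_of_ne (hu.nonpos z hz) fun h => hcase ⟨z, hz, h⟩
  -- the main inequality
  have hmain : ∀ t : ℝ, 1 < t → ∀ ε > 0,
      (∫ z, f z * (-h z) ∂μ') - ε * ∫ z, f z ∂μ' ≤ t ^ n * ∫ z in D, (-h z) ∂μ := by
    intro t ht ε hε
    set S := tsupport f with hSdef
    have hSc : IsCompact S := hfc
    obtain ⟨r₀, hr₀, hr₀D⟩ := hSc.exists_cthickening_subset_open hDo hfD
    set S' := Metric.cthickening r₀ S with hS'def
    have hS'c : IsCompact S' := hSc.cthickening
    -- `u ≤ -m` on `S'`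
    obtain ⟨m, hm, hum⟩ : ∃ m > 0, ∀ z ∈ S', u z ≤ -m := by
      rcases S'.eq_empty_or_nonempty with hemp | hne
      · exact ⟨1, one_pos, fun z hz => by rw [hemp] at hz; exact absurd hz (Set.notMem_empty z)⟩
      · obtain ⟨z₁, hz₁, hmax⟩ :=
          (hu.psh.1.mono hr₀D).exists_isMaxOn hne hS'c
        refine ⟨-u z₁, neg_pos.2 (hneg z₁ (hr₀D hz₁)), fun z hz => ?_⟩
        rw [neg_neg]
        exact hmax hz
    set κ := (t - 1) * m / 3 with hκdef
    have ht0 : 0 < t := by linarith
    have hκ : 0 < κ := by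
      have : 0 < t - 1 := by linarith
      positivity
    obtain ⟨K₁, hK₁D, hK₁, hK₁u⟩ := hu.boundary (κ / t) (by positivity)
    have hKS : IsCompact (K₁ ∪ S) := hK₁.union hSc
    obtain ⟨r₁, hr₁, hr₁D⟩ := hKS.exists_cthickening_subset_open hDo (Set.union_subset hK₁D hfD)
    set r := min r₀ (r₁ / 4) with hrdef
    have hr : 0 < r := lt_min hr₀ (by positivity)
    have hrr₀ : r ≤ r₀ := min_le_left _ _
    have hrr₁ : 4 * r ≤ r₁ := by
      have := min_le_right r₀ (r₁ / 4)
      linarith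
    set W := Metric.thickening (3 * r) (K₁ ∪ S) with hWdef
    set C := Metric.cthickening (2 * r) (K₁ ∪ S) with hCdef
    have hW : IsOpen W := Metric.isOpen_thickening
    have hC : IsCompact C := hKS.cthickening
    have hCW : C ⊆ W := Metric.cthickening_subset_thickening' (by positivity) (by linarith) _
    have hWD' : ∀ z ∈ W, Metric.closedBall z r ⊆ D := by
      intro z hz w hw
      obtain ⟨k, hk, hzk⟩ := Metric.mem_thickening_iff.1 hz
      apply hr₁D
      apply Metric.mem_cthickening_of_dist_le w k _ _ hk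
      have h1 : dist w z ≤ r := hw
      have h2 := dist_triangle w z k
      linarith
    have hWD : W ⊆ D := fun z hz => hWD' z hz (Metric.mem_closedBall_self hr.le)
    have hSW : S ⊆ W := fun z hz =>
      Metric.self_subset_thickening (by positivity) _ (Or.inr hz)
    have hSC : S ⊆ C := fun z hz => Metric.self_subset_cthickening _ (Or.inr hz)
    obtain ⟨M, hM⟩ := mollifier D W r hDo hW hr hWD'
    obtain ⟨u1, u2, u3, u4, u5⟩ := hM u hu.psh hbu
    obtain ⟨v1, v2, v3, v4, -⟩ := hM v hv.psh hbv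
    obtain ⟨h1, h2, h3, h4, -⟩ := hM h hh hbh
    have huvj : ∀ j, ∀ z ∈ W, M j u z ≤ M j v z := u5 v hv.psh hbv huv
    have hball : ∀ (j : ℕ) (z w : Fin n → ℂ), w ∈ Metric.closedBall z (r / (j + 1)) →
        w ∈ Metric.closedBall z r := by
      intro j z w hw
      refine Metric.closedBall_subset_closedBall ?_ hw
      apply div_le_self hr.le
      have : (0 : ℝ) ≤ j := by positivity
      linarith
    have hv0 : ∀ j, ∀ z ∈ W, M j v z ≤ 0 := by
      intro j z hz
      obtain ⟨w, hw, hle⟩ := (v4 j z hz).2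
      exact hle.trans (hv.nonpos w (hWD' z hz (hball j z w hw)))
    have hh0 : ∀ j, ∀ z ∈ W, M j h z ≤ 0 := by
      intro j z hz
      obtain ⟨w, hw, hle⟩ := (h4 j z hz).2
      exact hle.trans (hh1 w (hWD' z hz (hball j z w hw))).2
    have hum' : ∀ j, ∀ z ∈ S, M j u z ≤ -m := by
      intro j z hz
      obtain ⟨w, hw, hle⟩ := (u4 j z (hSW hz)).2
      refine hle.trans (hum w ?_)
      apply Metric.mem_cthickening_of_dist_le w z _ _ hz
      exact (Metric.mem_closedBall.1 (hball j z w hw)).trans hrr₀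
    have hout : ∀ j, ∀ z ∈ W, z ∉ C → κ ≤ t * M j u z - (M j v z - 2 * κ) := by
      intro j z hz hzC
      obtain ⟨w, hw, hle⟩ := (u4 j z hz).1
      have hwr := hball j z w hw
      have hwD : w ∈ D := hWD' z hz hwr
      have hwK : w ∉ K₁ := by
        intro hwK
        apply hzC
        apply Metric.mem_cthickening_of_dist_le z w _ _ (Or.inl hwK)
        rw [dist_comm]
        have := Metric.mem_closedBall.1 hwr
        linarith
      have h5 := hK₁u w hwD hwK
      have h6 : t * u w ≤ t * M j u z := mul_le_mul_of_nonneg_left hle ht0.le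
      have h7 : t * (-(κ / t)) ≤ t * u w := mul_le_mul_of_nonneg_left h5.le ht0.le
      have h8 : t * (-(κ / t)) = -κ := by field_simp
      have h9 := hv0 j z hz
      linarith
    have hin : ∀ j, ∀ z ∈ S, z ∈ C ∧ κ ≤ (M j v z - 2 * κ) - t * M j u z := by
      intro j z hz
      refine ⟨hSC hz, ?_⟩
      have h5 := huvj j z (hSW hz)
      have h6 := hum' j z hz
      have h7 : (t - 1) * m ≤ (t - 1) * (-M j u z) :=
        mul_le_mul_of_nonneg_left (by linarith) (by linarith)
      have h8 : 3 * κ = (t - 1) * m := by rw [hκdef]; ring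
      nlinarith
    -- cut-off function
    have hdisj : Disjoint C (Metric.thickening (5 * r / 2) (K₁ ∪ S))ᶜ := by
      rw [Set.disjoint_compl_right_iff_subset]
      exact Metric.cthickening_subset_thickening' (by positivity) (by linarith) _
    obtain ⟨f₂, hf₂1, hf₂0, hf₂c, hf₂01⟩ := exists_continuous_one_zero_of_isCompact hC
      (Metric.isOpen_thickening (δ := 5 * r / 2) (E := K₁ ∪ S)).isClosed_compl hdisj
    have hf₂W : tsupport f₂ ⊆ W := by
      have h5 : tsupport f₂ ⊆ Metric.cthickening (5 * r / 2) (K₁ ∪ S) := by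
        apply closure_minimal _ Metric.isClosed_cthickening
        intro z hz
        apply Metric.thickening_subset_cthickening
        by_contra hcon
        exact hz (hf₂0 hcon)
      exact h5.trans (Metric.cthickening_subset_thickening' (by positivity) (by linarith) _)
    -- the inequality for each large `j`
    have hstep : ∀ j, ∫ z in S, (-M j h z) * maDens (M j v) z ≤
        t ^ n * ∫ z, (f₂ z * (-h z)) * maDens (M j u) z := by
      intro j
      refine (E0.step hW hC hCW (u1 j) (v1 j) (h1 j) (hh0 j) ht0.le hκ (hout j)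
        hSc.isClosed.measurableSet (hin j)).trans ?_
      apply mul_le_mul_of_nonneg_left _ (by positivity)
      exact E0.right hW hC hCW hWD (u1 j) (h1 j).1.continuousOn (fun z hz => (hh1 z hz).2)
        (fun z hz => (h2 z hz).le_of_tendsto (h3 z hz) j) f₂.continuous hf₂c hf₂W
        (fun z => (hf₂01 z).1) (fun z hz => hf₂1 hz) hhc hDo
    have hunif : ∀ᶠ j : ℕ in atTop, ∀ z ∈ S, M j h z ≤ h z + ε := by
      have hu1 := hS'c.uniformContinuousOn_of_continuous (hhc.mono hr₀D)
      rw [Metric.uniformContinuousOn_iff] at hu1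
      obtain ⟨δ, hδ, hδh⟩ := hu1 ε hε
      have hlim : Tendsto (fun j : ℕ => r / ((j : ℝ) + 1)) atTop (𝓝 0) :=
        tendsto_const_nhds.div_atTop
          (tendsto_atTop_add_const_right _ _ tendsto_natCast_atTop_atTop)
      filter_upwards [hlim.eventually_lt_const hδ] with j hj z hz
      obtain ⟨w, hw, hle⟩ := (h4 j z (hSW hz)).2
      have hzS' : z ∈ S' := Metric.self_subset_cthickening _ hz
      have hwS' : w ∈ S' := by
        apply Metric.mem_cthickening_of_dist_le w z _ _ hz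
        exact (Metric.mem_closedBall.1 (hball j z w hw)).trans hrr₀
      have h5 := hδh w hwS' z hzS' ((Metric.mem_closedBall.1 hw).trans_lt hj)
      rw [Real.dist_eq, abs_lt] at h5
      linarith [h5.2]
    have hev : ∀ᶠ j : ℕ in atTop, (∫ z, (f z * (-h z)) * maDens (M j v) z) -
        ε * ∫ z, f z * maDens (M j v) z ≤
          t ^ n * ∫ z, (f₂ z * (-h z)) * maDens (M j u) z := by
      filter_upwards [hunif] with j hj
      refine le_trans ?_ (hstep j)
      exact E0.left hW hWD (v1 j) (h1 j).1.continuousOn (hh0 j) hj hf hfc hSW hf1 hhc hDo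
    -- limits
    have lim1 := hv.ma W (fun j => M j v) hW hWD v1 v2 v3 _ hF hFc
      (E0.tsupport_mul_sub.trans hSW)
    have lim2 := hv.ma W (fun j => M j v) hW hWD v1 v2 v3 f hf hfc hSW
    have hF₂ : Continuous fun z => f₂ z * (-h z) :=
      E0.cont_mul hDo f₂.continuous (hf₂W.trans hWD) hhc.neg
    have hF₂c : HasCompactSupport fun z => f₂ z * (-h z) := hf₂c.mul_right
    have lim3 := hu.ma W (fun j => M j u) hW hWD u1 u2 u3 _ hF₂ hF₂c
      (E0.tsupport_mul_sub.trans hf₂W)
    have hfin := le_of_tendsto_of_tendsto (lim1.sub (lim2.const_mul ε)) (lim3.const_mul (t ^ n))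
      hev
    refine hfin.trans (mul_le_mul_of_nonneg_left ?_ (by positivity))
    exact E0.integral_cut_le hDo hu.finite hhc hh1 (hf₂W.trans hWD) f₂.continuous
      (fun z => ⟨(hf₂01 z).1, (hf₂01 z).2⟩)
  -- `ε → 0`
  have hmain2 : ∀ t : ℝ, 1 < t → ∫ z, f z * (-h z) ∂μ' ≤ t ^ n * ∫ z in D, (-h z) ∂μ := by
    intro t ht
    have h1 : Tendsto (fun ε : ℝ => (∫ z, f z * (-h z) ∂μ') - ε * ∫ z, f z ∂μ') (𝓝[>] 0)
        (𝓝 ((∫ z, f z * (-h z) ∂μ') - 0 * ∫ z, f z ∂μ')) := by
      apply Tendsto.mono_left _ nhdsWithin_le_nhds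
      apply Continuous.tendsto
      fun_prop
    rw [zero_mul, sub_zero] at h1
    apply le_of_tendsto h1
    filter_upwards [self_mem_nhdsWithin] with ε hε
    exact hmain t ht ε hε
  -- `t → 1`
  have h1 : Tendsto (fun t : ℝ => t ^ n * ∫ z in D, (-h z) ∂μ) (𝓝[>] 1)
      (𝓝 (1 ^ n * ∫ z in D, (-h z) ∂μ)) := by
    apply Tendsto.mono_left _ nhdsWithin_le_nhds
    apply Continuous.tendsto
    fun_prop
  rw [one_pow, one_mul] at h1
  apply ge_of_tendsto h1
  filter_upwards [self_mem_nhdsWithin] with t ht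
  exact hmain2 t ht

end Pool.Agent.Ceg
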