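import Pool.Agent.Ceg.FinalA
import Pool.Agent.Ceg.Core

/-!
# The sharp volume estimate in the class `F`
-/

set_option autoImplicit false

namespace Pool.Agent.Ceg

open MeasureTheory Matrix Filter Topology
open scoped ContDiff ENNReal Real ComplexOrder

theorem final (n : ℕ) (hn : 0 < n) : ∃ C : ℝ, ∀ (D : Set (Fin n → ℂ)) (δ : ℝ), IsOpen D →
    Bornology.IsBounded D → (∀ z ∈ D, ∀ w ∈ D, ∑ i, ‖z i - w i‖ ^ 2 ≤ δ ^ 2) →
    ∀ (φ : (Fin n → ℂ) → EReal) (lam s : ℝ), 0 < lam → IsCegrellF D φ lam → 0 < s →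
      volume {z | z ∈ D ∧ φ z < ((-s : ℝ) : EReal)} ≤
        ENNReal.ofReal (C * δ ^ (2 * n) * Real.exp (-(2 * n * s / lam))) := by
  obtain ⟨C, hC⟩ := core n hn
  exact Fin1.final_of_core n hn hC

end Pool.Agent.Ceg
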