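import Pool.Agent.Ceg.Obstacle
import Pool.Agent.Ceg.E0Comp

/-!
# No loss of Monge-Ampère mass in the class `F`
-/

set_option autoImplicit false

namespace Pool.Agent.Ceg

open MeasureTheory Matrix Filter Topology
open scoped ContDiff ENNReal Real ComplexOrder

namespace NoLoss

variable {n : ℕ}

lemma exists_cut01 {K D : Set (Fin n → ℂ)} (hK : IsCompact K) (hD : IsOpen D) (hKD : K ⊆ D) :
    ∃ f : (Fin n → ℂ) → ℝ, Continuous f ∧ HasCompactSupport f ∧ tsupport f ⊆ D ∧
      (∀ z, 0 ≤ f z ∧ f z ≤ 1) ∧ ∀ z ∈ K, f z = 1 := by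
  obtain ⟨L, hL, hKL, hLD⟩ := exists_compact_between hK hD hKD
  have hd : Disjoint K (interior L)ᶜ := by
    rw [Set.disjoint_compl_right_iff_subset]
    exact hKL
  obtain ⟨f, hf1, hf0, hfc, hf01⟩ := exists_continuous_one_zero_of_isCompact hK
    (isOpen_interior.isClosed_compl) hd
  refine ⟨f, f.continuous, hfc, ?_, fun z => ⟨(hf01 z).1, (hf01 z).2⟩, fun z hz => hf1 hz⟩
  refine (closure_minimal ?_ hL.isClosed).trans hLD
  intro z hz
  by_contra hz'
  apply hz
  apply hf0
  intro hz2
  exact hz' (interior_subset hz2)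

lemma continuous_mul {D : Set (Fin n → ℂ)} (hD : IsOpen D) {f h : (Fin n → ℂ) → ℝ}
    (hf : Continuous f) (hfD : tsupport f ⊆ D) (hh : ContinuousOn h D) :
    Continuous fun z => f z * h z := by
  rw [continuous_iff_continuousAt]
  intro z
  by_cases hz : z ∈ tsupport f
  · exact hf.continuousAt.mul (hh.continuousAt (hD.mem_nhds (hfD hz)))
  · have h1 : (fun z => f z * h z) =ᶠ[𝓝 z] fun _ => 0 := by
      filter_upwards [(isClosed_tsupport f).isOpen_compl.mem_nhds hz] with y hy
      rw [image_eq_zero_of_notMem_tsupport hy, zero_mul]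
    exact continuousAt_const.congr h1.symm

lemma integrable_mul {D : Set (Fin n → ℂ)} (hD : IsOpen D) {f h : (Fin n → ℂ) → ℝ}
    (hf : Continuous f) (hfD : tsupport f ⊆ D) (hh : ContinuousOn h D)
    (hf1 : ∀ z, 0 ≤ f z ∧ f z ≤ 1) (hh1 : ∀ z ∈ D, -1 ≤ h z ∧ h z ≤ 0)
    {μ : Measure (Fin n → ℂ)} (hμ : μ D < ⊤) : Integrable (fun z => f z * -h z) μ := by
  have hc : Continuous fun z => f z * -h z := continuous_mul hD hf hfD hh.neg
  have hs : Function.support (fun z => f z * -h z) ⊆ D := by
    intro z hz
    exact hfD (subset_tsupport f (left_ne_zero_of_mul hz))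
  rw [← integrableOn_iff_integrable_of_support_subset hs]
  apply Measure.integrableOn_of_bounded (M := 1) hμ.ne hc.aestronglyMeasurable
  filter_upwards with z
  by_cases hz : z ∈ D
  · rw [Real.norm_eq_abs, abs_mul, abs_of_nonneg (hf1 z).1, abs_of_nonneg (by linarith [(hh1 z hz).2])]
    calc f z * -h z ≤ 1 * 1 := by
          apply mul_le_mul (hf1 z).2 (by linarith [(hh1 z hz).1]) (by linarith [(hh1 z hz).2])
            zero_le_one
      _ = 1 := one_mul 1
  · have : f z = 0 := image_eq_zero_of_notMem_tsupport (fun h => hz (hfD h))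
    simp [this]

lemma integrableOn_bdd {D : Set (Fin n → ℂ)} (hD : IsOpen D) {h : (Fin n → ℂ) → ℝ}
    (hh : ContinuousOn h D) (hh1 : ∀ z ∈ D, -1 ≤ h z ∧ h z ≤ 0)
    {μ : Measure (Fin n → ℂ)} (hμ : μ D < ⊤) : IntegrableOn (fun z => -h z) D μ := by
  have : IsFiniteMeasure (μ.restrict D) := ⟨by simpa using hμ⟩
  refine Integrable.of_bound (hh.neg.aestronglyMeasurable hD.measurableSet) 1 ?_
  apply ae_restrict_of_forall_mem hD.measurableSet
  intro z hz
  rw [norm_neg, Real.norm_eq_abs, abs_le]
  have := hh1 z hz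
  constructor <;> linarith

end NoLoss

open NoLoss in
theorem no_loss {n : ℕ} (hn : 0 < n) (D : Set (Fin n → ℂ)) (hD : IsHyperconvex D)
    (u : ℕ → (Fin n → ℂ) → ℝ) (μ : ℕ → Measure (Fin n → ℂ)) (ν : Measure (Fin n → ℂ))
    (hE : ∀ j, IsE0 D (u j) (μ j)) (hanti : ∀ z ∈ D, Antitone fun j => u j z)
    (hsup : ⨆ j, μ j D < ⊤) (hν : VagueLimit D μ ν) (hνfin : ν D < ⊤) (j : ℕ) :
    μ j D ≤ ν D := by
  have hDo := hD.isOpen
  set S := (⨆ j, μ j D).toReal with hS
  have hSk : ∀ k, (μ k D).toReal ≤ S := fun k =>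
    ENNReal.toReal_mono hsup.ne (le_iSup (fun j => μ j D) k)
  -- compact sets
  have key : ∀ L ⊆ D, IsCompact L → μ j L ≤ ν D := by
    intro L hLD hL
    obtain ⟨h, hhc, hhp, hh1, hhL, hhb⟩ := exists_continuous_psh D hD L hL hLD
    obtain ⟨f, hfc, hfs, hfD, hf1, hfL⟩ := exists_cut01 hL hDo hLD
    have hLfin : μ j L ≠ ⊤ := ((measure_mono hLD).trans_lt (hE j).finite).ne
    have hpos : ∀ z ∈ D, 0 ≤ -h z := fun z hz => by linarith [(hh1 z hz).2]
    -- lower bound
    have hlow : (μ j L).toReal ≤ ∫ z, f z * -h z ∂(μ j) := by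
      have h1 : ∫ z in L, f z * -h z ∂(μ j) = (μ j L).toReal := by
        have : ∫ z in L, f z * -h z ∂(μ j) = ∫ z in L, (1 : ℝ) ∂(μ j) := by
          apply setIntegral_congr_fun hL.measurableSet
          intro z hz
          simp [hfL z hz, hhL z hz]
        rw [this]
        simp [Measure.real]
      rw [← h1]
      apply setIntegral_le_integral (integrable_mul hDo hfc hfD hhc hf1 hh1 (hE j).finite)
      filter_upwards with z
      by_cases hz : z ∈ D
      · exact mul_nonneg (hf1 z).1 (hpos z hz)
      · have : f z = 0 := image_eq_zero_of_notMem_tsupport (fun h => hz (hfD h))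
        simp [this]
    have hcmp : ∀ k, j ≤ k → (μ j L).toReal ≤ ∫ z in D, (-h z) ∂(μ k) := by
      intro k hk
      exact hlow.trans (e0_compare hn D hD (u k) (u j) h (μ k) (μ j) (hE k) (hE j)
        (fun z hz => hanti z hz hk) hhc hhp hh1 f hfc hfs hfD hf1)
    -- upper bound
    have hup : ∀ ε > 0, (μ j L).toReal ≤ (ν D).toReal + ε * S := by
      intro ε hε
      obtain ⟨K, hKD, hK, hKh⟩ := hhb ε hε
      obtain ⟨g, hgc, hgs, hgD, hg1, hgK⟩ := exists_cut01 hK hDo hKD
      have h1 : ∀ k, ∫ z in D, (-h z) ∂(μ k) ≤ ∫ z, g z * -h z ∂(μ k) + ε * S := by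
        intro k
        have hi := integrable_mul hDo hgc hgD hhc hg1 hh1 (hE k).finite
        have hs : Function.support (fun z => g z * -h z) ⊆ D := by
          intro z hz
          exact hgD (subset_tsupport g (left_ne_zero_of_mul hz))
        have h2 : ∫ z, g z * -h z ∂(μ k) = ∫ z in D, g z * -h z ∂(μ k) :=
          (setIntegral_eq_integral_of_forall_compl_eq_zero fun z hz => by
            by_contra h3; exact hz (hs h3)).symm
        have h3 : ∫ z in D, (-h z) ∂(μ k) ≤ ∫ z in D, (g z * -h z + ε) ∂(μ k) := by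
          apply setIntegral_mono_on _ _ hDo.measurableSet
          · intro z hz
            by_cases hzK : z ∈ K
            · rw [hgK z hzK]; linarith
            · have h4 := hKh z hz hzK
              have h5 := mul_nonneg (hg1 z).1 (hpos z hz)
              linarith
          · refine integrableOn_bdd hDo hhc hh1 (hE k).finite
          · apply Integrable.add hi.integrableOn
            exact integrableOn_const (hE k).finite.ne
        refine h3.trans ?_
        rw [integral_add hi.integrableOn (integrableOn_const (hE k).finite.ne), ← h2]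
        have h4 : ∫ z in D, ε ∂(μ k) = ε * (μ k D).toReal := by
          simp [Measure.real, mul_comm]
        rw [h4]
        have := mul_le_mul_of_nonneg_left (hSk k) hε.le
        linarith
      have h2 := hν (fun z => g z * -h z) (continuous_mul hDo hgc hgD hhc.neg)
        (hgs.mul_right) ((tsupport_mul_subset_left).trans hgD)
      have h3 : (μ j L).toReal ≤ ∫ z, g z * -h z ∂ν + ε * S := by
        apply ge_of_tendsto (h2.add_const (ε * S))
        filter_upwards [eventually_ge_atTop j] with k hk
        exact (hcmp k hk).trans (h1 k)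
      have h4 : ∫ z, g z * -h z ∂ν ≤ (ν D).toReal := by
        have hs : ∀ z ∉ D, g z * -h z = 0 := by
          intro z hz
          have : g z = 0 := image_eq_zero_of_notMem_tsupport (fun h => hz (hgD h))
          simp [this]
        rw [← setIntegral_eq_integral_of_forall_compl_eq_zero hs]
        have h5 : ∫ z in D, (1 : ℝ) ∂ν = (ν D).toReal := by simp [Measure.real]
        rw [← h5]
        apply setIntegral_mono_on _ _ hDo.measurableSet
        · intro z hz
          have h6 := (hg1 z).2
          have h7 := (hg1 z).1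
          have h8 := hh1 z hz
          nlinarith
        · exact (integrable_mul hDo hgc hgD hhc hg1 hh1 hνfin).integrableOn
        · exact integrableOn_const hνfin.ne
      linarith
    have hfinal : (μ j L).toReal ≤ (ν D).toReal := by
      apply le_of_forall_pos_le_add
      intro δ hδ
      have hS0 : 0 ≤ S := ENNReal.toReal_nonneg
      have h1 := hup (δ / (S + 1)) (by positivity)
      have h2 : δ / (S + 1) * S ≤ δ := by
        rw [div_mul_eq_mul_div, div_le_iff₀ (by positivity)]
        nlinarith
      linarith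
    exact (ENNReal.toReal_le_toReal hLfin hνfin.ne).1 hfinal
  have : IsFiniteMeasure ((μ j).restrict D) := ⟨by simpa using (hE j).finite⟩
  have h1 : (μ j).restrict D D = ⨆ (K) (_ : K ⊆ D) (_ : IsCompact K), (μ j).restrict D K :=
    hDo.measure_eq_iSup_isCompact _
  rw [Measure.restrict_apply_self] at h1
  rw [h1]
  refine iSup_le fun K => iSup_le fun hK => iSup_le fun hKc => ?_
  exact (Measure.restrict_apply_le D K).trans (key K hK hKc)

end Pool.Agent.Ceg
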