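import Pool.Agent.Ceg.FinalA
import Pool.Agent.Ceg.Core
import Pool.Agent.Ceg.NoLoss

/-!
# The sharp volume estimate in the class `F`, in terms of the Monge-Ampère mass
-/

set_option autoImplicit false

namespace Pool.Agent.Ceg

open MeasureTheory Matrix Filter Topology
open scoped ContDiff ENNReal Real ComplexOrder

namespace FinB

variable {n : ℕ}

/-- the volume estimate for `u ∈ E₀` with mass at most `lamⁿ` -/
lemma e0_vol (hn : 0 < n) {C : ℝ} (hC : Fin1.CoreAt n C) {D : Set (Fin n → ℂ)} {δ : ℝ}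
    (hδ : 0 < δ) (hD : IsOpen D) (hDb : Bornology.IsBounded D)
    (hDd : ∀ z ∈ D, ∀ w ∈ D, dist z w ≤ δ)
    {u : (Fin n → ℂ) → ℝ} {μ : Measure (Fin n → ℂ)} (hu : IsE0 D u μ) {s lam : ℝ} (hs : 0 < s)
    (hlam : 0 < lam) (hμ : μ D ≤ ENNReal.ofReal (lam ^ n)) :
    volume {z | z ∈ D ∧ u z < -s} ≤
      ENNReal.ofReal (Real.exp C * δ ^ (2 * n) * Real.exp (-(2 * n * s / lam))) := by
  have hDfin : volume D < ⊤ := hDb.measure_lt_top
  rcases eq_or_ne (volume {z | z ∈ D ∧ u z < -s}) 0 with hV0 | hV0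
  · rw [hV0]; exact zero_le
  have hVfin : volume {z | z ∈ D ∧ u z < -s} ≠ ⊤ :=
    ((measure_mono fun z hz => hz.1).trans_lt hDfin).ne
  have hVr : 0 < (volume {z | z ∈ D ∧ u z < -s}).toReal := ENNReal.toReal_pos hV0 hVfin
  obtain ⟨h1, h2⟩ := Fin1.e0 hn hC hδ hD hDb hDd hu hs (pos_iff_ne_zero.2 hV0)
  set T := Fin1.TV n C δ (volume {z | z ∈ D ∧ u z < -s}).toReal with hT
  have h3 : (μ D).toReal ≤ lam ^ n := ENNReal.toReal_le_of_le_ofReal (by positivity) hμ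
  have h4 : s ^ n ≤ (T * lam) ^ n := by
    rw [mul_pow]
    exact h2.trans (mul_le_mul_of_nonneg_left h3 (by positivity))
  have h5 : s / lam ≤ T := by
    have := (pow_le_pow_iff_left₀ hs.le (by positivity) hn.ne').1 h4
    rwa [div_le_iff₀ hlam]
  rw [← ENNReal.ofReal_toReal hVfin]
  apply ENNReal.ofReal_le_ofReal
  rw [Fin1.TV_eq hn (C := C) hδ hVr, ← hT]
  have h6 : C - 2 * n * T ≤ C + -(2 * n * s / lam) := by
    have h6 : 2 * n * s / lam = 2 * n * (s / lam) := by ring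
    have h7 : 2 * (n : ℝ) * (s / lam) ≤ 2 * n * T :=
      mul_le_mul_of_nonneg_left h5 (by positivity)
    linarith
  calc δ ^ (2 * n) * Real.exp (C - 2 * n * T)
      ≤ δ ^ (2 * n) * Real.exp (C + -(2 * n * s / lam)) :=
        mul_le_mul_of_nonneg_left (Real.exp_le_exp.2 h6) (by positivity)
    _ = _ := by
        rw [Real.exp_add]
        ring

lemma le_euclDiam {D : Set (Fin n → ℂ)} (hD : Bornology.IsBounded D) {z w : Fin n → ℂ}
    (hz : z ∈ D) (hw : w ∈ D) : Real.sqrt (∑ i, ‖z i - w i‖ ^ 2) ≤ euclDiam D := by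
  obtain ⟨R, hR⟩ := hD.subset_closedBall 0
  have h0 : ∀ x ∈ D, ∀ i, ‖x i‖ ≤ R := by
    intro x hx i
    have := hR hx
    rw [Metric.mem_closedBall, dist_zero_right] at this
    exact (norm_le_pi_norm x i).trans this
  refine le_csSup ⟨Real.sqrt (∑ _i : Fin n, (R + R) ^ 2), ?_⟩ ⟨z, hz, w, hw, rfl⟩
  rintro r ⟨x, hx, y, hy, rfl⟩
  apply Real.sqrt_le_sqrt
  apply Finset.sum_le_sum
  intro i _
  have h1 : ‖x i - y i‖ ≤ R + R := (norm_sub_le _ _).trans (add_le_add (h0 x hx i) (h0 y hy i))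
  exact pow_le_pow_left₀ (norm_nonneg _) h1 2

lemma dist_le_euclDiam {D : Set (Fin n → ℂ)} (hD : Bornology.IsBounded D) {z w : Fin n → ℂ}
    (hz : z ∈ D) (hw : w ∈ D) : dist z w ≤ euclDiam D := by
  refine le_trans ?_ (le_euclDiam hD hz hw)
  rw [dist_pi_le_iff (Real.sqrt_nonneg _)]
  intro i
  apply Real.le_sqrt_of_sq_le
  rw [dist_eq_norm]
  exact Finset.single_le_sum (f := fun i => ‖z i - w i‖ ^ 2) (fun i _ => by positivity)
    (Finset.mem_univ i)

end FinB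

open FinB in
theorem final2 (n : ℕ) (hn : 0 < n) : ∃ C : ℝ, ∀ D : Set (Fin n → ℂ), IsHyperconvex D →
    ∀ (φ : (Fin n → ℂ) → EReal) (ν : Measure (Fin n → ℂ)), IsCegrellFunction D φ ν →
      ∀ lam > 0, ν D = ENNReal.ofReal (lam ^ n) → ∀ s > 0,
        volume {z | z ∈ D ∧ φ z < ((-s : ℝ) : EReal)} ≤
          ENNReal.ofReal (C * euclDiam D ^ (2 * n) * Real.exp (-(2 * n * s / lam))) := by
  obtain ⟨C, hC⟩ := core n hn
  have hC : Fin1.CoreAt n C := hC
  refine ⟨Real.exp C, ?_⟩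
  intro D hD φ ν hφ lam hlam hν s hs
  obtain ⟨u, μ, hu, hanti, hinf, hsup, hvague⟩ := hφ
  have : Nonempty (Fin n) := ⟨⟨0, hn⟩⟩
  have hδ : 0 < euclDiam D := by
    obtain ⟨z, hz⟩ := hD.isConnected.nonempty
    have h1 : ¬ D.Subsingleton := by
      intro h2
      have h3 : D = {z} := h2.eq_singleton_of_mem hz
      have h4 : IsOpen ({z} : Set (Fin n → ℂ)) := h3 ▸ hD.isOpen
      have h5 := h4.measure_pos (volume : Measure (Fin n → ℂ)) ⟨z, rfl⟩
      simp at h5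
    obtain ⟨x, hx, y, hy, hxy⟩ := Set.not_subsingleton_iff.1 h1
    exact (dist_pos.2 hxy).trans_le (dist_le_euclDiam hD.isBounded hx hy)
  have hmass : ∀ j, μ j D ≤ ENNReal.ofReal (lam ^ n) := by
    intro j
    rw [← hν]
    exact no_loss hn D hD u μ ν hu hanti hsup hvague (hν ▸ ENNReal.ofReal_lt_top) j
  set A : ℕ → Set (Fin n → ℂ) := fun j => {z | z ∈ D ∧ u j z < -s} with hA
  have hAmono : Monotone A := by
    intro i j hij z hz
    exact ⟨hz.1, (hanti z hz.1 hij).trans_lt hz.2⟩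
  have hAun : {z | z ∈ D ∧ φ z < ((-s : ℝ) : EReal)} = ⋃ j, A j := by
    ext z
    simp only [Set.mem_ofPred_eq, Set.mem_iUnion, hA]
    constructor
    · rintro ⟨hz, hz2⟩
      rw [hinf z hz, iInf_lt_iff] at hz2
      obtain ⟨j, hj⟩ := hz2
      exact ⟨j, hz, by exact_mod_cast hj⟩
    · rintro ⟨j, hz, hj⟩
      refine ⟨hz, ?_⟩
      rw [hinf z hz, iInf_lt_iff]
      exact ⟨j, by exact_mod_cast hj⟩
  rw [hAun]
  refine le_of_tendsto (tendsto_measure_iUnion_atTop hAmono) (Eventually.of_forall fun j => ?_)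
  exact e0_vol hn hC hδ hD.isOpen hD.isBounded
    (fun z hz w hw => dist_le_euclDiam hD.isBounded hz hw) (hu j) hs hlam (hmass j)

end Pool.Agent.Ceg
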