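import Pool.Agent.Ceg.GramDefs

/-!
# Gram matrices of monomials: positivity and lexicographically monic polynomials
-/

set_option autoImplicit false

namespace Pool.Agent.Ceg

open MeasureTheory Matrix Filter Topology
open scoped ContDiff ENNReal Real ComplexOrder

namespace Gram

theorem continuous_mono {n : ℕ} (α : Fin n → ℕ) : Continuous (mono α) := by
  unfold mono
  exact continuous_finsetProd _ fun i _ => (continuous_apply i).pow _

theorem continuous_poly {n N : ℕ} (c : Idx n N → ℂ) : Continuous (poly c) := by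
  unfold poly
  exact continuous_finsetSum _ fun a _ => continuous_const.mul (continuous_mono _)

theorem intOn {n : ℕ} (ρ : ℝ) {E : Type*} [NormedAddCommGroup E] (f : (Fin n → ℂ) → E)
    (hf : Continuous f) : IntegrableOn f (Metric.closedBall (0 : Fin n → ℂ) ρ) :=
  hf.continuousOn.integrableOn_compact (isCompact_closedBall _ _)

theorem cont_weight {n : ℕ} (k : ℝ) {ψ : (Fin n → ℂ) → ℝ} (hψ : Continuous ψ) :
    Continuous fun z => Real.exp (-(2 * k * ψ z)) :=
  Real.continuous_exp.comp ((continuous_const.mul hψ).neg)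

theorem exists_ne_zero {n N : ℕ} (ρ : ℝ) (hρ : 0 < ρ) (c : Idx n N → ℂ) (hc : c ≠ 0) :
    ∃ z ∈ Metric.ball (0 : Fin n → ℂ) ρ, poly c z ≠ 0 := by
  classical
  by_contra hcon
  push Not at hcon
  apply hc
  let e : Idx n N → (Fin n →₀ ℕ) := fun a => Finsupp.equivFunOnFinite.symm (ofLex a.1)
  have he : Function.Injective e := fun a b h =>
    Subtype.ext (ofLex.injective (Finsupp.equivFunOnFinite.symm.injective h))
  let P : MvPolynomial (Fin n) ℂ := ∑ a, MvPolynomial.monomial (e a) (c a)
  have hev : ∀ z, MvPolynomial.eval z P = poly c z := by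
    intro z
    show MvPolynomial.eval z (∑ a, MvPolynomial.monomial (e a) (c a)) = _
    rw [map_sum]
    unfold poly
    refine Finset.sum_congr rfl fun a _ => ?_
    rw [MvPolynomial.eval_monomial, Finsupp.prod_fintype _ _ (fun _ => pow_zero _)]
    rfl
  have hP : P = 0 := by
    refine MvPolynomial.funext_set (fun _ => Metric.ball (0 : ℂ) ρ)
      (fun _ => infinite_of_mem_nhds 0 (Metric.ball_mem_nhds 0 hρ)) fun z hz => ?_
    rw [hev, map_zero]
    apply hcon
    rw [Metric.mem_ball, dist_pi_lt_iff hρ]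
    intro i
    exact hz i (Set.mem_univ i)
  funext a
  have h1 : MvPolynomial.coeff (e a) P = c a := by
    show MvPolynomial.coeff (e a) (∑ b, MvPolynomial.monomial (e b) (c b)) = _
    rw [MvPolynomial.coeff_sum, Finset.sum_eq_single a]
    · rw [MvPolynomial.coeff_monomial, if_pos rfl]
    · intro b _ hb
      rw [MvPolynomial.coeff_monomial, if_neg (fun h => hb (he h))]
    · intro h; exact absurd (Finset.mem_univ a) h
  rw [← h1, hP]; simp

end Gram

open Gram

/-- the quadratic form of the Gram matrix -/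
theorem gram_form {n N : ℕ} (ρ : ℝ) (k : ℝ) (ψ : (Fin n → ℂ) → ℝ) (hψ : Continuous ψ)
    (c : Idx n N → ℂ) :
    (star c ⬝ᵥ gram N ρ k ψ *ᵥ c) = ((∫ z in Metric.closedBall (0 : Fin n → ℂ) ρ,
      ‖poly c z‖ ^ 2 * Real.exp (-(2 * k * ψ z)) : ℝ) : ℂ) := by
  have hw : Continuous fun z => ((Real.exp (-(2 * k * ψ z)) : ℝ) : ℂ) :=
    Complex.continuous_ofReal.comp (cont_weight k hψ)
  have hc : ∀ a b : Idx n N, Continuous fun z : Fin n → ℂ =>
      (starRingEnd ℂ) (mono (ofLex a.1) z) * mono (ofLex b.1) z *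
        ((Real.exp (-(2 * k * ψ z)) : ℝ) : ℂ) := fun a b =>
    ((Complex.continuous_conj.comp (continuous_mono _)).mul (continuous_mono _)).mul hw
  have h1 : ∀ z : Fin n → ℂ, ((‖poly c z‖ ^ 2 * Real.exp (-(2 * k * ψ z)) : ℝ) : ℂ)
      = ∑ a, ∑ b, (starRingEnd ℂ) (c a) * c b * ((starRingEnd ℂ) (mono (ofLex a.1) z) *
        mono (ofLex b.1) z * ((Real.exp (-(2 * k * ψ z)) : ℝ) : ℂ)) := by
    intro z
    have h2 : ((‖poly c z‖ ^ 2 : ℝ) : ℂ) = (starRingEnd ℂ) (poly c z) * poly c z := by
      rw [← Complex.normSq_eq_norm_sq, Complex.normSq_eq_conj_mul_self]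
    rw [Complex.ofReal_mul, h2]
    unfold poly
    rw [map_sum, Finset.sum_mul_sum, Finset.sum_mul]
    refine Finset.sum_congr rfl fun a _ => ?_
    rw [Finset.sum_mul]
    refine Finset.sum_congr rfl fun b _ => ?_
    rw [map_mul]; ring
  rw [← integral_complex_ofReal]
  simp only [h1]
  rw [integral_finsetSum _ fun a _ => integrable_finsetSum _ fun b _ =>
    (intOn ρ _ (hc a b)).const_mul _]
  unfold dotProduct mulVec
  refine Finset.sum_congr rfl fun a _ => ?_
  rw [integral_finsetSum _ fun b _ => (intOn ρ _ (hc a b)).const_mul _]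
  unfold dotProduct
  rw [Finset.mul_sum]
  refine Finset.sum_congr rfl fun b _ => ?_
  rw [integral_const_mul]
  unfold gram
  simp only [Pi.star_apply, RCLike.star_def]
  ring

theorem gram_posDef {n : ℕ} (N : ℕ) (ρ : ℝ) (hρ : 0 < ρ) (k : ℝ) (ψ : (Fin n → ℂ) → ℝ)
    (hψ : Continuous ψ) : (gram N ρ k ψ).PosDef := by
  refine Matrix.PosDef.of_dotProduct_mulVec_pos ?_ ?_
  · ext a b
    rw [Matrix.conjTranspose_apply]
    unfold gram
    rw [RCLike.star_def, ← integral_conj]
    refine integral_congr_ae (Filter.Eventually.of_forall fun z => ?_)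
    simp only [map_mul, Complex.conj_conj, Complex.conj_ofReal]
    ring
  · intro c hc
    rw [gram_form ρ k ψ hψ c, Complex.zero_lt_real]
    obtain ⟨z₀, hz₀, hz₁⟩ := exists_ne_zero ρ hρ c hc
    have hf : Continuous fun z => ‖poly c z‖ ^ 2 * Real.exp (-(2 * k * ψ z)) :=
      ((continuous_poly c).norm.pow 2).mul (cont_weight k hψ)
    rw [setIntegral_pos_iff_support_of_nonneg_ae
      (Filter.Eventually.of_forall fun z => by simp only [Pi.zero_apply]; positivity) (intOn ρ _ hf)]
    have hopen : IsOpen (Function.support (fun z => ‖poly c z‖ ^ 2 * Real.exp (-(2 * k * ψ z)))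
        ∩ Metric.ball 0 ρ) := hf.isOpen_support.inter Metric.isOpen_ball
    refine lt_of_lt_of_le (hopen.measure_pos _ ⟨z₀, ?_, hz₀⟩)
      (measure_mono (Set.inter_subset_inter_right _ Metric.ball_subset_closedBall))
    rw [Function.mem_support]
    have := norm_pos_iff.mpr hz₁
    positivity

theorem lexMonic_aux : ∀ (n : ℕ) (S : Finset (Fin n → ℕ)) (c : (Fin n → ℕ) → ℂ) (α : Fin n → ℕ),
    α ∈ S → c α = 1 → (∀ β ∈ S, (∃ i, (∀ j < i, α j = β j) ∧ α i < β i) → c β = 0) →
    LexMonic n α (fun z => ∑ β ∈ S, c β * mono β z)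
  | 0, S, c, α, hα, h1, _ => by
    intro z
    have hS : S = {α} := by
      ext β
      rw [Finset.mem_singleton]
      have : β = α := Subsingleton.elim _ _
      rw [this]; simp [hα]
    show ∑ β ∈ S, c β * mono β z = 1
    rw [hS, Finset.sum_singleton, h1]
    simp [mono]
  | n + 1, S, c, α, hα, h1, h2 => by
    classical
    let S' := (S.filter fun β => β 0 = α 0).image Fin.tail
    let c' : (Fin n → ℕ) → ℂ := fun γ => c (Fin.cons (α 0) γ)
    refine ⟨fun w => ∑ γ ∈ S', c' γ * mono γ w,
      fun l w => ∑ β ∈ S.filter fun β => β 0 = l, c β * mono (Fin.tail β) w, ?_, ?_, ?_, ?_⟩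
    · refine lexMonic_aux n S' c' (Fin.tail α) ?_ ?_ ?_
      · exact Finset.mem_image.mpr ⟨α, Finset.mem_filter.mpr ⟨hα, rfl⟩, rfl⟩
      · show c (Fin.cons (α 0) (Fin.tail α)) = 1
        rw [Fin.cons_self_tail]; exact h1
      · intro γ hγ hlt
        obtain ⟨β, hβ, rfl⟩ := Finset.mem_image.mp hγ
        rw [Finset.mem_filter] at hβ
        have e : Fin.cons (α 0) (Fin.tail β) = β := by rw [← hβ.2, Fin.cons_self_tail]
        show c (Fin.cons (α 0) (Fin.tail β)) = 0
        rw [e]
        obtain ⟨i, hi1, hi2⟩ := hlt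
        refine h2 β hβ.1 ⟨i.succ, ?_, hi2⟩
        intro j hj
        rcases Fin.eq_zero_or_eq_succ j with rfl | ⟨j', rfl⟩
        · exact hβ.2.symm
        · exact hi1 j' (Fin.succ_lt_succ_iff.mp hj)
    · exact (continuous_finsetSum _ fun γ _ =>
        continuous_const.mul (continuous_mono γ)).measurable
    · exact fun l => (continuous_finsetSum _ fun γ _ =>
        continuous_const.mul (continuous_mono _)).measurable
    · intro z
      have hm : ∀ β : Fin (n + 1) → ℕ, mono β z = z 0 ^ β 0 * mono (Fin.tail β) (Fin.tail z) := by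
        intro β
        unfold mono
        rw [Fin.prod_univ_succ]; rfl
      -- split the sum according to `β 0`
      have hsplit : (∑ β ∈ S, c β * mono β z)
          = (∑ β ∈ S.filter fun β => β 0 = α 0, c β * mono β z)
            + ∑ l ∈ Finset.range (α 0), ∑ β ∈ S.filter fun β => β 0 = l, c β * mono β z := by
        have h3 : ∀ β ∈ S, c β * mono β z = (if β 0 = α 0 then c β * mono β z else 0)
            + ∑ l ∈ Finset.range (α 0), if β 0 = l then c β * mono β z else 0 := by
          intro β hβ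
          rcases lt_trichotomy (β 0) (α 0) with h | h | h
          · rw [if_neg h.ne, zero_add, Finset.sum_ite_eq, if_pos (Finset.mem_range.mpr h)]
          · rw [if_pos h, Finset.sum_ite_eq, if_neg (by rw [Finset.mem_range]; omega), add_zero]
          · rw [if_neg h.ne', zero_add, Finset.sum_ite_eq,
              if_neg (by rw [Finset.mem_range]; omega),
              h2 β hβ ⟨0, fun j hj => absurd hj (Fin.not_lt_zero j), h⟩, zero_mul]
        rw [Finset.sum_congr rfl h3, Finset.sum_add_distrib, Finset.sum_filter, Finset.sum_comm]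
        congr 1
        refine Finset.sum_congr rfl fun l _ => ?_
        rw [Finset.sum_filter]
      simp only []
      rw [hsplit]
      congr 1
      · rw [Finset.sum_mul, Finset.sum_image]
        · refine Finset.sum_congr rfl fun β hβ => ?_
          rw [Finset.mem_filter] at hβ
          have e : Fin.cons (α 0) (Fin.tail β) = β := by rw [← hβ.2, Fin.cons_self_tail]
          show c β * mono β z = c (Fin.cons (α 0) (Fin.tail β)) * mono (Fin.tail β) (Fin.tail z) *
            z 0 ^ α 0
          rw [e, hm, hβ.2]; ring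
        · intro β hβ β' hβ' h
          rw [Finset.mem_coe, Finset.mem_filter] at hβ hβ'
          rw [← Fin.cons_self_tail β, ← Fin.cons_self_tail β', h, hβ.2, hβ'.2]
      · refine Finset.sum_congr rfl fun l _ => ?_
        rw [Finset.sum_mul]
        refine Finset.sum_congr rfl fun β hβ => ?_
        rw [Finset.mem_filter] at hβ
        rw [hm, hβ.2]; ring

/-- a polynomial with leading term `z^a` in the lexicographic order is `LexMonic` -/
theorem lexMonic_poly {n N : ℕ} (c : Idx n N → ℂ) (a : Idx n N) (ha : c a = 1)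
    (hc : ∀ b, a < b → c b = 0) : LexMonic n (ofLex a.1) (poly c) := by
  classical
  let S : Finset (Fin n → ℕ) := Finset.univ.image fun b : Idx n N => ofLex b.1
  let c' : (Fin n → ℕ) → ℂ := fun β => if h : ∑ i, β i ≤ N then c ⟨toLex β, h⟩ else 0
  have hc' : ∀ b : Idx n N, c' (ofLex b.1) = c b := by
    intro b
    show (if h : ∑ i, ofLex b.1 i ≤ N then c ⟨toLex (ofLex b.1), h⟩ else 0) = c b
    rw [dif_pos b.2]; rfl
  have hp : poly c = fun z => ∑ β ∈ S, c' β * mono β z := by
    funext z
    unfold poly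
    rw [Finset.sum_image]
    · exact Finset.sum_congr rfl fun b _ => by rw [hc']
    · intro b _ b' _ h
      exact Subtype.ext (ofLex.injective h)
  rw [hp]
  refine lexMonic_aux n S c' _ (Finset.mem_image.mpr ⟨a, Finset.mem_univ _, rfl⟩) ?_ ?_
  · rw [hc', ha]
  · intro β hβ hlt
    obtain ⟨b, _, rfl⟩ := Finset.mem_image.mp hβ
    rw [hc']
    apply hc
    exact hlt

end Pool.Agent.Ceg
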