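import Pool.Agent.Ceg.Defs

/-!
# Gram matrices of monomials: definitions and basic lemmas
-/

set_option autoImplicit false

namespace Pool.Agent.Ceg

open MeasureTheory Matrix
open scoped ENNReal Real ComplexOrder

/-- multi-indices of total degree at most `N`, with the lexicographic order -/
abbrev Idx (n N : ℕ) : Type := {a : Lex (Fin n → ℕ) // ∑ i, ofLex a i ≤ N}

noncomputable instance (n N : ℕ) : Fintype (Idx n N) := by
  have : Finite (Idx n N) := by
    refine Finite.of_injective
      (fun a : Idx n N => (fun i => (⟨ofLex a.1 i, Nat.lt_succ_of_le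
        ((Finset.single_le_sum (fun j _ => Nat.zero_le (ofLex a.1 j))
          (Finset.mem_univ i)).trans a.2)⟩ : Fin (N + 1)))) ?_
    intro a b hab
    apply Subtype.ext
    apply ofLex.injective
    funext i
    have := congrFun hab i
    simpa using this
  exact Fintype.ofFinite _

/-- the monomial `z^α` -/
def mono {n : ℕ} (α : Fin n → ℕ) (z : Fin n → ℂ) : ℂ := ∏ i, z i ^ α i

/-- Gram matrix of the monomials of degree at most `N` on the polydisc of radius `ρ` with weight
`exp (-2 k ψ)` -/
noncomputable def gram {n : ℕ} (N : ℕ) (ρ : ℝ) (k : ℝ) (ψ : (Fin n → ℂ) → ℝ) :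
    Matrix (Idx n N) (Idx n N) ℂ := fun a b =>
  ∫ z in Metric.closedBall (0 : Fin n → ℂ) ρ,
    (starRingEnd ℂ) (mono (ofLex a.1) z) * mono (ofLex b.1) z * (Real.exp (-(2 * k * ψ z)) : ℂ)

/-- the infimum of `∫_K |f|²` over lexicographically monic `f` of degree `α` -/
noncomputable def tK {n : ℕ} (K : Set (Fin n → ℂ)) (α : Fin n → ℕ) : ℝ :=
  (⨅ (f : (Fin n → ℂ) → ℂ) (_ : LexMonic n α f) (_ : Measurable f), ∫⁻ z in K, ‖f z‖ₑ ^ 2).toReal

/-- the polynomial with coefficients `c` -/
noncomputable def poly {n N : ℕ} (c : Idx n N → ℂ) (z : Fin n → ℂ) : ℂ := ∑ a, c a * mono (ofLex a.1) z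

end Pool.Agent.Ceg
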