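import Pool.Agent.Ceg.Mollify

/-!
# The local sub-mean value property implies the global one
-/

set_option autoImplicit false

namespace Pool.Agent.Ceg

open MeasureTheory Matrix Filter Topology
open scoped ContDiff ENNReal Real ComplexOrder

namespace LG

/-- the parametrised unit circle -/
noncomputable def e (θ : ℝ) : ℂ := Complex.exp (θ * Complex.I)

lemma e_cont : Continuous e := by unfold e; fun_prop

lemma e_norm (θ : ℝ) : ‖e θ‖ = 1 := Complex.norm_exp_ofReal_mul_I θ

lemma exists_e {ζ : ℂ} (h : ‖ζ‖ = 1) : ∃ θ : ℝ, e θ = ζ := by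
  have := (Complex.norm_eq_one_iff ζ).1 h
  exact this

/-- the mean value property of real parts of entire functions -/
lemma mean_entire {H : ℂ → ℂ} (hH : Differentiable ℂ H) (a : ℂ) (r : ℝ) :
    (2 * π)⁻¹ * ∫ θ in (0 : ℝ)..(2 * π), (H (a + r * e θ)).re = (H a).re := by
  have h1 : Real.circleAverage H a r = H a := hH.diffContOnCl.circleAverage
  have h2 : CircleIntegrable H a r := hH.continuous.continuousOn.circleIntegrable'
  have h3 := Complex.reCLM.circleAverage_comp_comm h2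
  rw [h1] at h3
  rw [Real.circleAverage_def] at h3
  exact h3

/-- real parts of entire functions approximate the continuous functions on the circle -/
lemma exists_entire {h : ℂ → ℝ} (hh : Continuous h) {ε : ℝ} (hε : 0 < ε) :
    ∃ H : ℂ → ℂ, Differentiable ℂ H ∧ ∀ θ : ℝ, |(H (e θ)).re - h (e θ)| < ε := by
  have : Fact (0 < 2 * π) := ⟨Real.two_pi_pos⟩
  have hcirc : ∀ θ : ℝ, ((AddCircle.toCircle ((θ : ℝ) : AddCircle (2 * π)) : Circle) : ℂ) = e θ := by
    intro θ
    rw [AddCircle.toCircle_apply_mk, Circle.coe_exp]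
    unfold e
    congr 2
    rw [div_self Real.two_pi_pos.ne', one_mul]
  let f : C(AddCircle (2 * π), ℂ) :=
    ⟨fun x => (h ((AddCircle.toCircle x : Circle) : ℂ) : ℂ), by
      apply Complex.continuous_ofReal.comp
      apply hh.comp
      exact continuous_induced_dom.comp AddCircle.continuous_toCircle⟩
  have hf : ∀ θ : ℝ, f (θ : AddCircle (2 * π)) = (h (e θ) : ℂ) := by
    intro θ
    simp only [f, ContinuousMap.coe_mk]
    rw [hcirc]
  have hmem : f ∈ (Submodule.span ℂ (Set.range <| @fourier (2 * π))).topologicalClosure := by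
    rw [span_fourier_closure_eq_top]
    trivial
  have hmem' : f ∈ closure ((Submodule.span ℂ (Set.range <| @fourier (2 * π)) :
      Submodule ℂ C(AddCircle (2 * π), ℂ)) : Set C(AddCircle (2 * π), ℂ)) := hmem
  obtain ⟨p, hp, hpd⟩ := Metric.mem_closure_iff.1 hmem' ε hε
  have key : ∀ q ∈ Submodule.span ℂ (Set.range <| @fourier (2 * π)),
      ∃ F G : ℂ → ℂ, Differentiable ℂ F ∧ Differentiable ℂ G ∧
        ∀ θ : ℝ, q (θ : AddCircle (2 * π)) = F (e θ) + (starRingEnd ℂ) (G (e θ)) := by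
    intro q hq
    induction hq using Submodule.span_induction with
    | mem q hq =>
      obtain ⟨k, rfl⟩ := hq
      have hk : ∀ θ : ℝ, fourier k ((θ : ℝ) : AddCircle (2 * π)) = (e θ) ^ k := by
        intro θ
        rw [fourier_coe_apply]
        unfold e
        rw [← Complex.exp_int_mul]
        congr 1
        have : (π : ℂ) ≠ 0 := by exact_mod_cast Real.pi_ne_zero
        push_cast
        field_simp
      rcases le_total 0 k with h0 | h0
      · obtain ⟨m, rfl⟩ := Int.eq_ofNat_of_zero_le h0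
        refine ⟨fun ζ => ζ ^ m, fun _ => 0, by fun_prop, by fun_prop, ?_⟩
        intro θ
        rw [hk]
        simp
      · obtain ⟨m, hm⟩ := Int.eq_ofNat_of_zero_le (neg_nonneg.2 h0)
        refine ⟨fun _ => 0, fun ζ => ζ ^ m, by fun_prop, by fun_prop, ?_⟩
        intro θ
        rw [hk]
        have hkm : k = -(m : ℤ) := by omega
        rw [hkm, _root_.zpow_neg, zpow_natCast, zero_add, map_pow, ← inv_pow]
        congr 1
        rw [Complex.inv_def, Complex.normSq_eq_norm_sq, e_norm]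
        simp
    | zero => exact ⟨fun _ => 0, fun _ => 0, by fun_prop, by fun_prop, by intro θ; simp⟩
    | add a b _ _ ha hb =>
      obtain ⟨F, G, hF, hG, h⟩ := ha
      obtain ⟨F', G', hF', hG', h'⟩ := hb
      refine ⟨fun ζ => F ζ + F' ζ, fun ζ => G ζ + G' ζ, hF.add hF', hG.add hG', ?_⟩
      intro θ
      rw [ContinuousMap.add_apply, h, h', map_add]
      ring
    | smul c a _ ha =>
      obtain ⟨F, G, hF, hG, h⟩ := ha
      refine ⟨fun ζ => c * F ζ, fun ζ => (starRingEnd ℂ) c * G ζ, hF.const_mul c,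
        hG.const_mul _, ?_⟩
      intro θ
      rw [ContinuousMap.smul_apply, h, smul_eq_mul, map_mul, Complex.conj_conj]
      ring
  obtain ⟨F, G, hF, hG, hFG⟩ := key p hp
  refine ⟨fun ζ => F ζ + G ζ, hF.add hG, ?_⟩
  intro θ
  have h1 : ‖f (θ : AddCircle (2 * π)) - p (θ : AddCircle (2 * π))‖ < ε := by
    rw [← dist_eq_norm]
    exact (ContinuousMap.dist_apply_le_dist _).trans_lt hpd
  rw [hf, hFG] at h1
  have h2 := (Complex.abs_re_le_norm _).trans_lt h1
  rw [abs_sub_comm]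
  simpa using h2

/-- upper semicontinuous functions on the circle are approximated from above -/
lemma exists_above {w : ℂ → ℝ} {C : ℝ} (hwC : ∀ ζ, |w ζ| ≤ C)
    (husc : ∀ ζ : ℂ, ‖ζ‖ ≤ 1 → ∀ c > w ζ, ∀ᶠ ξ in 𝓝 ζ, w ξ < c) {ε : ℝ} (hε : 0 < ε) :
    ∃ h : ℂ → ℝ, Continuous h ∧ (∀ θ, w (e θ) ≤ h (e θ)) ∧
      (2 * π)⁻¹ * ∫ θ in (0 : ℝ)..(2 * π), h (e θ) <
        (2 * π)⁻¹ * (∫ θ in (0 : ℝ)..(2 * π), w (e θ)) + ε := by
  have hne : Nonempty (Metric.sphere (0 : ℂ) 1) := ⟨⟨1, by simp⟩⟩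
  let h : ℕ → ℂ → ℝ := fun k x => ⨆ y : Metric.sphere (0 : ℂ) 1, (w y - k * dist x y)
  have hbdd : ∀ (k : ℕ) (x : ℂ), BddAbove (Set.range fun y : Metric.sphere (0 : ℂ) 1 =>
      (w y - k * dist x y)) := by
    intro k x
    refine ⟨C, ?_⟩
    rintro _ ⟨y, rfl⟩
    have h1 := (abs_le.1 (hwC y)).2
    have h2 : 0 ≤ (k : ℝ) * dist x y := by positivity
    simp only
    linarith
  have hle : ∀ (k : ℕ) (x : ℂ) (y : Metric.sphere (0 : ℂ) 1), w y - k * dist x y ≤ h k x :=
    fun k x y => le_ciSup (hbdd k x) y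
  have hup : ∀ (k : ℕ) (x : ℂ), h k x ≤ C := by
    intro k x
    apply ciSup_le
    intro y
    have h1 := (abs_le.1 (hwC y)).2
    have h2 : 0 ≤ (k : ℝ) * dist x y := by positivity
    linarith
  have hself : ∀ (k : ℕ) (x : ℂ), ‖x‖ = 1 → w x ≤ h k x := by
    intro k x hx
    have := hle k x ⟨x, by simpa using hx⟩
    simpa using this
  have hcont : ∀ k, Continuous (h k) := by
    intro k
    have : LipschitzWith (k : NNReal) (h k) := by
      apply LipschitzWith.of_le_add_mul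
      intro x x'
      apply ciSup_le
      intro y
      have h1 := hle k x' y
      have h2 := dist_triangle x' x y
      have h3 : (k : ℝ) * dist x' y ≤ k * (dist x' x + dist x y) :=
        mul_le_mul_of_nonneg_left h2 (by positivity)
      rw [dist_comm x' x] at h3
      simp only [NNReal.coe_natCast]
      linarith
    exact this.continuous
  have hlim : ∀ x : ℂ, ‖x‖ = 1 → Tendsto (fun k => h k x) atTop (𝓝 (w x)) := by
    intro x hx
    rw [tendsto_order]
    constructor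
    · intro a ha
      exact Eventually.of_forall fun k => ha.trans_le (hself k x hx)
    · intro c hc
      have h1 := husc x hx.le ((w x + c) / 2) (by linarith)
      obtain ⟨δ, hδ, hδ'⟩ := Metric.eventually_nhds_iff.1 h1
      obtain ⟨N, hN⟩ := exists_nat_gt ((C - (w x + c) / 2) / δ)
      filter_upwards [eventually_ge_atTop N] with k hk
      have h2 : h k x ≤ (w x + c) / 2 := by
        apply ciSup_le
        intro y
        by_cases hy : dist (y : ℂ) x < δ
        · have h3 := hδ' hy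
          have h4 : 0 ≤ (k : ℝ) * dist x y := by positivity
          linarith
        · push Not at hy
          have h3 := (abs_le.1 (hwC y)).2
          have h4 : (C - (w x + c) / 2) / δ * δ ≤ (k : ℝ) * dist x y := by
            rw [dist_comm x y]
            apply mul_le_mul _ hy hδ.le (by positivity)
            exact hN.le.trans (by exact_mod_cast hk)
          rw [div_mul_cancel₀ _ hδ.ne'] at h4
          linarith
      linarith
  have hint : Tendsto (fun k => ∫ θ in (0 : ℝ)..(2 * π), h k (e θ)) atTop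
      (𝓝 (∫ θ in (0 : ℝ)..(2 * π), w (e θ))) := by
    apply intervalIntegral.tendsto_integral_filter_of_dominated_convergence (fun _ => C)
    · apply Eventually.of_forall
      intro k
      exact ((hcont k).comp e_cont).aestronglyMeasurable
    · apply Eventually.of_forall
      intro k
      apply Eventually.of_forall
      intro θ _
      rw [Real.norm_eq_abs, abs_le]
      refine ⟨?_, hup k _⟩
      exact (abs_le.1 (hwC (e θ))).1.trans (hself k _ (e_norm θ))
    · exact intervalIntegrable_const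
    · apply Eventually.of_forall
      intro θ _
      exact hlim _ (e_norm θ)
  have hint' := (hint.const_mul (2 * π)⁻¹)
  have hev := (tendsto_order.1 hint').2
    ((2 * π)⁻¹ * (∫ θ in (0 : ℝ)..(2 * π), w (e θ)) + ε) (by linarith)
  obtain ⟨k, hk⟩ := hev.exists
  exact ⟨h k, hcont k, fun θ => hself k _ (e_norm θ), hk⟩

/-- the sub-mean value property in one variable -/
lemma one_var {w : ℂ → ℝ} {C : ℝ} (hwm : Measurable w) (hwC : ∀ ζ, |w ζ| ≤ C)
    (husc : ∀ ζ : ℂ, ‖ζ‖ ≤ 1 → ∀ c > w ζ, ∀ᶠ ξ in 𝓝 ζ, w ξ < c)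
    (hloc : ∀ ζ : ℂ, ‖ζ‖ < 1 → ∃ r₀ > 0, ∀ r ∈ Set.Ioo (0 : ℝ) r₀,
      w ζ ≤ (2 * π)⁻¹ * ∫ θ in (0 : ℝ)..(2 * π), w (ζ + r * e θ)) :
    w 0 ≤ (2 * π)⁻¹ * ∫ θ in (0 : ℝ)..(2 * π), w (e θ) := by
  have hpi := Real.pi_pos
  have h2pi : (0 : ℝ) ≤ 2 * π := by positivity
  apply le_of_forall_pos_le_add
  intro ε hε
  obtain ⟨h, hh, hwh, hhw⟩ := exists_above hwC husc (ε := ε / 3) (by positivity)
  obtain ⟨H, hH, hHh⟩ := exists_entire hh (ε := ε / 3) (by positivity)
  let P : ℂ → ℝ := fun ζ => (H ζ).re + ε / 3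
  have hPc : Continuous P := (Complex.continuous_re.comp hH.continuous).add continuous_const
  have hPi : ∀ (a : ℂ) (r : ℝ), IntervalIntegrable (fun θ => P (a + r * e θ)) volume 0 (2 * π) := by
    intro a r
    apply Continuous.intervalIntegrable
    exact hPc.comp (continuous_const.add (continuous_const.mul e_cont))
  have hPmean : ∀ (a : ℂ) (r : ℝ),
      (2 * π)⁻¹ * ∫ θ in (0 : ℝ)..(2 * π), P (a + r * e θ) = P a := by
    intro a r
    simp only [P]
    rw [intervalIntegral.integral_add, mul_add, mean_entire hH, intervalIntegral.integral_const,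
      smul_eq_mul, sub_zero, ← mul_assoc, inv_mul_cancel₀ (by positivity), one_mul]
    · apply Continuous.intervalIntegrable
      exact Complex.continuous_re.comp (hH.continuous.comp
        (continuous_const.add (continuous_const.mul e_cont)))
    · exact intervalIntegrable_const
  have hwP : ∀ θ, w (e θ) ≤ P (e θ) := by
    intro θ
    have h1 := hwh θ
    have h2 := (abs_lt.1 (hHh θ)).1
    simp only [P]
    linarith
  have hPh : ∀ θ, P (e θ) ≤ h (e θ) + 2 * ε / 3 := by
    intro θ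
    have h2 := (abs_lt.1 (hHh θ)).2
    simp only [P]
    linarith
  have hP0 : P 0 ≤ (2 * π)⁻¹ * (∫ θ in (0 : ℝ)..(2 * π), w (e θ)) + ε := by
    have h1 := hPmean 0 1
    simp only [zero_add, Complex.ofReal_one, one_mul] at h1
    rw [← h1]
    have h2 : ∫ θ in (0 : ℝ)..(2 * π), P (e θ) ≤
        ∫ θ in (0 : ℝ)..(2 * π), (h (e θ) + 2 * ε / 3) := by
      apply intervalIntegral.integral_mono_on h2pi
      · exact (hPc.comp e_cont).intervalIntegrable _ _
      · exact ((hh.comp e_cont).add continuous_const).intervalIntegrable _ _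
      · intro θ _
        exact hPh θ
    have h3 : ∫ θ in (0 : ℝ)..(2 * π), (h (e θ) + 2 * ε / 3) =
        (∫ θ in (0 : ℝ)..(2 * π), h (e θ)) + 2 * π * (2 * ε / 3) := by
      have hi : IntervalIntegrable (fun θ => h (e θ)) volume 0 (2 * π) :=
        (hh.comp e_cont).intervalIntegrable _ _
      rw [intervalIntegral.integral_add hi intervalIntegrable_const,
        intervalIntegral.integral_const, smul_eq_mul, sub_zero]
    have h4 : (2 * π)⁻¹ * ∫ θ in (0 : ℝ)..(2 * π), P (e θ) ≤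
        (2 * π)⁻¹ * ((∫ θ in (0 : ℝ)..(2 * π), h (e θ)) + 2 * π * (2 * ε / 3)) := by
      rw [← h3]
      exact mul_le_mul_of_nonneg_left h2 (by positivity)
    rw [mul_add, ← mul_assoc, inv_mul_cancel₀ (by positivity), one_mul] at h4
    linarith
  refine le_trans ?_ hP0
  -- the maximum principle
  set v : ℂ → ℝ := fun ζ => w ζ - P ζ with hv
  have hvusc : ∀ ζ : ℂ, ‖ζ‖ ≤ 1 → ∀ c > v ζ, ∀ᶠ ξ in 𝓝 ζ, v ξ < c := by
    intro ζ hζ c hc
    set δ := (c - v ζ) / 2 with hδ
    have hδ0 : 0 < δ := by rw [hδ]; linarith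
    have h1 := husc ζ hζ (w ζ + δ) (by linarith)
    have h2 : ∀ᶠ ξ in 𝓝 ζ, P ζ - δ < P ξ :=
      (tendsto_order.1 (hPc.tendsto ζ)).1 _ (by linarith)
    filter_upwards [h1, h2] with ξ h3 h4
    simp only [hv] at hδ ⊢
    linarith
  by_contra hcon
  push Not at hcon
  have h0 : 0 < v 0 := by simp only [hv]; linarith
  have huscOn : UpperSemicontinuousOn v (Metric.closedBall (0 : ℂ) 1) := by
    intro ζ hζ c hc
    exact (hvusc ζ (by simpa using hζ) c hc).filter_mono nhdsWithin_le_nhds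
  obtain ⟨a, ha, hamax⟩ := huscOn.exists_isMaxOn ⟨0, by simp⟩ (isCompact_closedBall (0 : ℂ) 1)
  set M := v a with hM
  have hM0 : 0 < M := h0.trans_le (hamax (by simp))
  have hmax : ∀ ζ : ℂ, ‖ζ‖ ≤ 1 → v ζ ≤ M := fun ζ hζ => hamax (by simpa using hζ)
  have hKc : IsClosed {ζ : ℂ | ‖ζ‖ ≤ 1 ∧ M ≤ v ζ} := by
    rw [← isOpen_compl_iff, isOpen_iff_mem_nhds]
    intro ζ hζ
    rw [Set.mem_compl_iff, Set.mem_ofPred_eq, not_and, not_le] at hζ
    by_cases h1 : ‖ζ‖ ≤ 1
    · filter_upwards [hvusc ζ h1 M (hζ h1)] with ξ hξ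
      rw [Set.mem_compl_iff, Set.mem_ofPred_eq, not_and, not_le]
      intro _
      exact hξ
    · push Not at h1
      filter_upwards [(continuous_norm.tendsto ζ).eventually (lt_mem_nhds h1)] with ξ hξ
      rw [Set.mem_compl_iff, Set.mem_ofPred_eq, not_and, not_le]
      intro h2
      linarith
  have hKK : IsCompact {ζ : ℂ | ‖ζ‖ ≤ 1 ∧ M ≤ v ζ} :=
    (isCompact_closedBall (0 : ℂ) 1).of_isClosed_subset hKc fun ζ hζ => by simpa using hζ.1
  obtain ⟨ζ₀, hζ₀, hζmax⟩ := hKK.exists_isMaxOn ⟨a, by simpa using ha, le_rfl⟩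
    continuous_norm.continuousOn
  have hfar : ∀ ζ : ℂ, ‖ζ‖ ≤ 1 → ‖ζ₀‖ < ‖ζ‖ → v ζ < M := by
    intro ζ h1 h2
    by_contra h3
    push Not at h3
    have h4 : ‖ζ‖ ≤ ‖ζ₀‖ := hζmax (⟨h1, h3⟩ : ζ ∈ {ζ : ℂ | ‖ζ‖ ≤ 1 ∧ M ≤ v ζ})
    linarith
  have hlt1 : ‖ζ₀‖ < 1 := by
    rcases lt_or_eq_of_le hζ₀.1 with h1 | h1
    · exact h1
    · exfalso
      obtain ⟨θ, hθ⟩ := exists_e h1
      have h2 := hwP θ
      have h3 := hζ₀.2
      rw [← hθ] at h3
      simp only [hv] at h3
      linarith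
  obtain ⟨r₀, hr₀, hr₀'⟩ := hloc ζ₀ hlt1
  set r := min r₀ (1 - ‖ζ₀‖) / 2 with hr
  have hmin : 0 < min r₀ (1 - ‖ζ₀‖) := lt_min hr₀ (by linarith)
  have hr0 : 0 < r := by rw [hr]; positivity
  have hrr : r < r₀ := by
    have := min_le_left r₀ (1 - ‖ζ₀‖)
    rw [hr]; linarith
  have hr1 : r < 1 - ‖ζ₀‖ := by
    have := min_le_right r₀ (1 - ‖ζ₀‖)
    rw [hr]; linarith
  have hin : ∀ θ, ‖ζ₀ + r * e θ‖ ≤ 1 := by
    intro θ
    calc ‖ζ₀ + r * e θ‖ ≤ ‖ζ₀‖ + ‖(r : ℂ) * e θ‖ := norm_add_le _ _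
      _ = ‖ζ₀‖ + r := by
        rw [norm_mul, e_norm, mul_one, Complex.norm_real, Real.norm_of_nonneg hr0.le]
      _ ≤ 1 := by linarith
  have hmean := hr₀' r ⟨hr0, hrr⟩
  have hwi : IntervalIntegrable (fun θ => w (ζ₀ + r * e θ)) volume 0 (2 * π) := by
    rw [intervalIntegrable_iff_integrableOn_Ioc_of_le h2pi]
    apply Measure.integrableOn_of_bounded (M := C) measure_Ioc_lt_top.ne
    · exact (hwm.comp (continuous_const.add
        (continuous_const.mul e_cont)).measurable).aestronglyMeasurable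
    · apply Eventually.of_forall
      intro θ
      rw [Real.norm_eq_abs]
      exact hwC _
  have hPint := hPi ζ₀ r
  have hvi : IntervalIntegrable (fun θ => M - v (ζ₀ + r * e θ)) volume 0 (2 * π) :=
    intervalIntegrable_const.sub (hwi.sub hPint)
  have hzero : ∫ θ in (0 : ℝ)..(2 * π), (M - v (ζ₀ + r * e θ)) = 0 := by
    apply le_antisymm
    · have h1 : ∫ θ in (0 : ℝ)..(2 * π), (M - v (ζ₀ + r * e θ)) =
          2 * π * M - ((∫ θ in (0 : ℝ)..(2 * π), w (ζ₀ + r * e θ)) -
            ∫ θ in (0 : ℝ)..(2 * π), P (ζ₀ + r * e θ)) := by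
        rw [intervalIntegral.integral_sub intervalIntegrable_const (hwi.sub hPint),
          intervalIntegral.integral_const, smul_eq_mul, sub_zero,
          intervalIntegral.integral_sub hwi hPint]
      rw [h1]
      have h2 := hPmean ζ₀ r
      have h3 : ∫ θ in (0 : ℝ)..(2 * π), P (ζ₀ + r * e θ) = 2 * π * P ζ₀ := by
        rw [← h2, ← mul_assoc, mul_inv_cancel₀ (by positivity), one_mul]
      have h4 : 2 * π * w ζ₀ ≤ ∫ θ in (0 : ℝ)..(2 * π), w (ζ₀ + r * e θ) := by
        have h5 := mul_le_mul_of_nonneg_left hmean h2pi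
        rwa [← mul_assoc (2 * π) (2 * π)⁻¹, mul_inv_cancel₀ (by positivity), one_mul] at h5
      have h5 : M ≤ w ζ₀ - P ζ₀ := hζ₀.2
      have h6 := mul_le_mul_of_nonneg_left h5 h2pi
      rw [h3]
      linarith
    · apply intervalIntegral.integral_nonneg h2pi
      intro θ _
      have := hmax _ (hin θ)
      linarith
  have hae := (intervalIntegral.integral_eq_zero_iff_of_le_of_nonneg_ae h2pi
    (Eventually.of_forall fun θ => sub_nonneg.2 (hmax _ (hin θ))) hvi).1 hzero
  -- an open set of angles with larger norm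
  have hopen : IsOpen (Set.Ioo 0 (2 * π) ∩ {θ : ℝ | ‖ζ₀‖ < ‖ζ₀ + r * e θ‖}) := by
    apply isOpen_Ioo.inter
    apply isOpen_lt continuous_const
    exact (continuous_const.add (continuous_const.mul e_cont)).norm
  have hnon : (Set.Ioo 0 (2 * π) ∩ {θ : ℝ | ‖ζ₀‖ < ‖ζ₀ + r * e θ‖}).Nonempty := by
    have hsq : ∀ x y : ℂ, Complex.normSq x < Complex.normSq y → ‖x‖ < ‖y‖ := by
      intro x y h1
      rw [Complex.normSq_eq_norm_sq, Complex.normSq_eq_norm_sq] at h1
      exact lt_of_pow_lt_pow_left₀ 2 (norm_nonneg _) h1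
    rcases le_total 0 ζ₀.im with h1 | h1
    · refine ⟨π / 2, ⟨by positivity, by linarith⟩, ?_⟩
      apply hsq
      have h2 : e (π / 2) = Complex.I := by
        unfold e
        push_cast
        exact Complex.exp_pi_div_two_mul_I
      rw [h2, Complex.normSq_apply, Complex.normSq_apply]
      simp
      nlinarith
    · refine ⟨3 * π / 2, ⟨by positivity, by linarith⟩, ?_⟩
      apply hsq
      have h2 : e (3 * π / 2) = -Complex.I := by
        unfold e
        have h3 : ((3 * π / 2 : ℝ) : ℂ) * Complex.I = -(π / 2 * Complex.I) + 2 * π * Complex.I := by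
          push_cast
          ring
        rw [h3, Complex.exp_add, Complex.exp_two_pi_mul_I, mul_one, Complex.exp_neg,
          Complex.exp_pi_div_two_mul_I, Complex.inv_I]
      rw [h2, Complex.normSq_apply, Complex.normSq_apply]
      simp
      nlinarith
  have hpos := hopen.measure_pos volume hnon
  rw [Filter.EventuallyEq, ae_restrict_iff' measurableSet_Ioc, ae_iff] at hae
  have hsub : (Set.Ioo 0 (2 * π) ∩ {θ : ℝ | ‖ζ₀‖ < ‖ζ₀ + r * e θ‖}) ⊆
      {θ : ℝ | ¬(θ ∈ Set.Ioc 0 (2 * π) → M - v (ζ₀ + r * e θ) = (0 : ℝ → ℝ) θ)} := by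
    intro θ hθ
    rw [Set.mem_ofPred_eq]
    intro h1
    have h2 := h1 ⟨hθ.1.1, hθ.1.2.le⟩
    have h3 := hfar _ (hin θ) hθ.2
    simp only [Pi.zero_apply] at h2
    linarith
  have := measure_mono_null hsub hae
  rw [this] at hpos
  exact lt_irrefl _ hpos

end LG

theorem isPSHOn_of_local {n : ℕ} (D : Set (Fin n → ℂ)) (W : (Fin n → ℂ) → ℝ) (hD : IsOpen D)
    (husc : UpperSemicontinuousOn W D) (hb : ∃ C, ∀ z ∈ D, |W z| ≤ C)
    (hloc : ∀ z ∈ D, ∀ b : Fin n → ℂ, ∃ r₀ > 0, ∀ r ∈ Set.Ioo (0 : ℝ) r₀,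
      W z ≤ (2 * π)⁻¹ * ∫ θ in (0 : ℝ)..(2 * π), W (z + (r * Complex.exp (θ * Complex.I)) • b)) :
    IsPSHOn W D := by
  refine ⟨husc, ?_⟩
  intro z hz b hdisc
  obtain ⟨C, hC⟩ := hb
  have hC0 : 0 ≤ C := (abs_nonneg _).trans (hC z hz)
  have hline : Continuous fun ζ : ℂ => z + ζ • b :=
    continuous_const.add (continuous_id.smul continuous_const)
  have hind : ∀ ζ : ℂ, ‖ζ‖ ≤ 1 → D.indicator W (z + ζ • b) = W (z + ζ • b) :=
    fun ζ hζ => Set.indicator_of_mem (hdisc ζ hζ) W
  have key := LG.one_var (w := fun ζ => D.indicator W (z + ζ • b)) (C := C)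
    ((Moll.meas_U hD husc).comp hline.measurable)
    (by
      intro ζ
      by_cases h : z + ζ • b ∈ D
      · rw [Set.indicator_of_mem h]; exact hC _ h
      · rw [Set.indicator_of_notMem h, abs_zero]; exact hC0)
    (by
      intro ζ hζ c hc
      rw [gt_iff_lt, hind ζ hζ] at hc
      have h1 := Moll.usc_nhds hD husc (hdisc ζ hζ) hc
      filter_upwards [hline.continuousAt.eventually h1] with ξ hξ
      rw [Set.indicator_of_mem hξ.1]
      exact hξ.2)
    (by
      intro ζ hζ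
      obtain ⟨r₀, hr₀, hr⟩ := hloc _ (hdisc ζ hζ.le) b
      refine ⟨min r₀ (1 - ‖ζ‖), lt_min hr₀ (by linarith), ?_⟩
      intro r hr'
      have h1 := hr r ⟨hr'.1, hr'.2.trans_le (min_le_left _ _)⟩
      have h2 : r < 1 - ‖ζ‖ := hr'.2.trans_le (min_le_right _ _)
      rw [hind ζ hζ.le]
      refine h1.trans (le_of_eq ?_)
      congr 2
      funext θ
      have h3 : ‖ζ + r * LG.e θ‖ ≤ 1 := by
        calc ‖ζ + r * LG.e θ‖ ≤ ‖ζ‖ + ‖(r : ℂ) * LG.e θ‖ := norm_add_le _ _
          _ = ‖ζ‖ + r := by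
            rw [norm_mul, LG.e_norm, mul_one, Complex.norm_real, Real.norm_of_nonneg hr'.1.le]
          _ ≤ 1 := by linarith
      rw [hind _ h3, add_smul, ← add_assoc]
      rfl)
  rw [zero_smul, add_zero, Set.indicator_of_mem hz] at key
  refine key.trans (le_of_eq ?_)
  congr 2
  funext θ
  rw [hind _ (LG.e_norm θ).le]
  rfl

end Pool.Agent.Ceg
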