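import Pool.Agent.Ceg.GramDefs
import Pool.Agent.Ceg.Gram
import Pool.Agent.Ceg.LogDet
import Pool.Agent.Ceg.LowerSum

/-!
# Lower bound for the determinant of the Gram matrix, and an upper bound for the trivial weight
-/

set_option autoImplicit false

namespace Pool.Agent.Ceg

open MeasureTheory Matrix Filter Topology
open scoped ContDiff ENNReal Real ComplexOrder

theorem tK_pos {n : ℕ} (K : Set (Fin n → ℂ)) (hK : MeasurableSet K)
    (hb : Bornology.IsBounded K) (hv : 0 < volume K) (α : Fin n → ℕ) : 0 < tK K α :=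
  ls_tK_pos K hK hb hv α

/-- the extremal norm is at most the norm of any lexicographically monic continuous function -/
theorem ld_tK_le {n : ℕ} (K : Set (Fin n → ℂ)) (hb : Bornology.IsBounded K) (α : Fin n → ℕ)
    (f : (Fin n → ℂ) → ℂ) (hf : LexMonic n α f) (hc : Continuous f) :
    tK K α ≤ ∫ z in K, ‖f z‖ ^ 2 := by
  obtain ⟨R, hR⟩ := hb.subset_closedBall (0 : Fin n → ℂ)
  have hcont : Continuous fun z : Fin n → ℂ => ‖f z‖₊ ^ 2 := hc.nnnorm.pow 2
  have hfin : ∫⁻ z in K, ‖f z‖ₑ ^ 2 < ⊤ := by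
    refine lt_of_le_of_lt (lintegral_mono_set hR) ?_
    have h2 := setLIntegral_lt_top_of_isCompact (μ := volume)
      (isCompact_closedBall (0 : Fin n → ℂ) R).measure_lt_top.ne
      (isCompact_closedBall (0 : Fin n → ℂ) R) hcont
    simpa [enorm_eq_nnnorm] using h2
  have h1 : (⨅ (f : (Fin n → ℂ) → ℂ) (_ : LexMonic n α f) (_ : Measurable f),
      ∫⁻ z in K, ‖f z‖ₑ ^ 2) ≤ ∫⁻ z in K, ‖f z‖ₑ ^ 2 :=
    iInf_le_of_le f (iInf_le_of_le hf (iInf_le_of_le hc.measurable le_rfl))
  have h2 : ∫ z in K, ‖f z‖ ^ 2 = (∫⁻ z in K, ‖f z‖ₑ ^ 2).toReal := by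
    have hcc : Continuous fun z => ‖f z‖ ^ 2 := hc.norm.pow 2
    rw [integral_eq_lintegral_of_nonneg_ae (f := fun z => ‖f z‖ ^ 2)
      (Eventually.of_forall fun z => by simp only [Pi.zero_apply]; positivity)
      hcc.aestronglyMeasurable]
    congr 1
    refine lintegral_congr fun z => ?_
    rw [ENNReal.ofReal_pow (norm_nonneg _), ofReal_norm]
  rw [h2]
  unfold tK
  exact ENNReal.toReal_mono hfin.ne h1

theorem lower_det {n : ℕ} (N : ℕ) (ρ k s : ℝ) (hρ : 0 < ρ) (hk : 0 ≤ k)
    (ψ : (Fin n → ℂ) → ℝ) (hψ : Continuous ψ) (K : Set (Fin n → ℂ)) (hK : MeasurableSet K)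
    (hKρ : K ⊆ Metric.closedBall 0 ρ) (hv : 0 < volume K) (hs : ∀ z ∈ K, ψ z ≤ -s) :
    ∑ a : Idx n N, (2 * k * s + Real.log (tK K (ofLex a.1))) ≤
      Real.log (gram N ρ k ψ).det.re := by
  have hpd := gram_posDef N ρ hρ k ψ hψ
  have hb : Bornology.IsBounded K := Metric.isBounded_closedBall.subset hKρ
  have htK : ∀ α, 0 < tK K α := fun α => tK_pos K hK hb hv α
  have hpos : ∀ a : Idx n N, 0 < Real.exp (2 * k * s) * tK K (ofLex a.1) := fun a =>
    mul_pos (Real.exp_pos _) (htK _)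
  have key : ∏ a : Idx n N, (Real.exp (2 * k * s) * tK K (ofLex a.1)) ≤
      (gram N ρ k ψ).det.re := by
    have h := prod_le_det (gram N ρ k ψ) hpd
      (fun a => Real.exp (2 * k * s) * tK K (ofLex a.1)) (fun a => (hpos a).le) ?_
    · have e : ∀ d₁ d₂ : DecidableEq (Idx n N), @Matrix.det (Idx n N) d₁ _ ℂ _ (gram N ρ k ψ) =
          @Matrix.det (Idx n N) d₂ _ ℂ _ (gram N ρ k ψ) := by
        intro d₁ d₂
        rw [Subsingleton.elim d₁ d₂]
      exact h.trans (le_of_eq (congrArg Complex.re (e _ _)))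
    · intro a c hca hcb
      rw [gram_form ρ k ψ hψ c, Complex.ofReal_re]
      have hlm := lexMonic_poly c a hca hcb
      have hcp := Gram.continuous_poly c
      have h1 := ld_tK_le K hb _ _ hlm hcp
      have hi1 : IntegrableOn (fun z => ‖poly c z‖ ^ 2) K :=
        ((hcp.norm.pow 2).continuousOn.integrableOn_compact
          (isCompact_closedBall (0 : Fin n → ℂ) ρ)).mono_set hKρ
      have hcw : Continuous fun z => ‖poly c z‖ ^ 2 * Real.exp (-(2 * k * ψ z)) :=
        (hcp.norm.pow 2).mul (Real.continuous_exp.comp (by fun_prop))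
      have hi2 : IntegrableOn (fun z => ‖poly c z‖ ^ 2 * Real.exp (-(2 * k * ψ z)))
          (Metric.closedBall (0 : Fin n → ℂ) ρ) :=
        hcw.continuousOn.integrableOn_compact (isCompact_closedBall (0 : Fin n → ℂ) ρ)
      calc Real.exp (2 * k * s) * tK K (ofLex a.1)
          ≤ Real.exp (2 * k * s) * ∫ z in K, ‖poly c z‖ ^ 2 :=
            mul_le_mul_of_nonneg_left h1 (Real.exp_pos _).le
        _ = ∫ z in K, Real.exp (2 * k * s) * ‖poly c z‖ ^ 2 := (integral_const_mul _ _).symm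
        _ ≤ ∫ z in K, ‖poly c z‖ ^ 2 * Real.exp (-(2 * k * ψ z)) := by
            refine setIntegral_mono_on (hi1.const_mul _) (hi2.mono_set hKρ) hK ?_
            intro z hz
            rw [mul_comm]
            refine mul_le_mul_of_nonneg_left (Real.exp_le_exp.mpr ?_) (by positivity)
            have := hs z hz
            nlinarith
        _ ≤ ∫ z in Metric.closedBall (0 : Fin n → ℂ) ρ,
              ‖poly c z‖ ^ 2 * Real.exp (-(2 * k * ψ z)) :=
            setIntegral_mono_set hi2 (Eventually.of_forall fun z => by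
              simp only [Pi.zero_apply]; positivity) hKρ.eventuallyLE
  have hlog := Real.log_le_log (Finset.prod_pos fun a _ => hpos a) key
  rw [Real.log_prod fun a _ => (hpos a).ne'] at hlog
  refine le_trans (le_of_eq ?_) hlog
  refine Finset.sum_congr rfl fun a _ => ?_
  rw [Real.log_mul (Real.exp_pos _).ne' (htK _).ne', Real.log_exp]

theorem ld_volume_ball {n : ℕ} (ρ : ℝ) (hρ : 0 < ρ) :
    (volume (Metric.closedBall (0 : Fin n → ℂ) ρ)).toReal = (π * ρ ^ 2) ^ n := by
  have h1 : Metric.closedBall (0 : Fin n → ℂ) ρ =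
      Set.pi Set.univ fun _ : Fin n => Metric.closedBall (0 : ℂ) ρ := by
    rw [closedBall_pi _ hρ.le]; rfl
  rw [h1, volume_pi_pi]
  simp only [Complex.volume_closedBall, Finset.prod_const, Finset.card_univ, Fintype.card_fin]
  rw [ENNReal.toReal_pow, ENNReal.toReal_mul, ENNReal.toReal_pow, ENNReal.toReal_ofReal hρ.le]
  rw [mul_comm (ρ ^ 2)]
  rfl

theorem upper_det_zero {n : ℕ} (N : ℕ) (ρ : ℝ) (hρ : 0 < ρ) :
    Real.log (gram N ρ 0 (fun _ : Fin n → ℂ => 0)).det.re ≤
      ∑ a : Idx n N, (2 * ((∑ i, ofLex a.1 i : ℕ) : ℝ) * Real.log ρ +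
        n * Real.log (π * ρ ^ 2)) := by
  set A := gram N ρ 0 (fun _ : Fin n → ℂ => 0) with hA
  have hpd : A.PosDef := gram_posDef N ρ hρ 0 _ continuous_const
  have hdiag : ∀ a : Idx n N, 0 < (A a a).re := fun a => by
    have := hpd.diag_pos (i := a)
    exact (Complex.pos_iff.mp this).1
  have hdet : 0 < A.det.re := (Complex.pos_iff.mp hpd.det_pos).1
  have hle : ∀ a : Idx n N, (A a a).re ≤
      (ρ ^ 2) ^ (∑ i, ofLex a.1 i) * (π * ρ ^ 2) ^ n := by
    intro a
    have h1 : A a a = ((∫ z in Metric.closedBall (0 : Fin n → ℂ) ρ,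
        ‖mono (ofLex a.1) z‖ ^ 2 : ℝ) : ℂ) := by
      rw [hA, ← integral_complex_ofReal]
      unfold gram
      refine integral_congr_ae (Eventually.of_forall fun z => ?_)
      simp only [mul_zero, neg_zero, Real.exp_zero, Complex.ofReal_one, mul_one]
      rw [← Complex.normSq_eq_norm_sq, Complex.normSq_eq_conj_mul_self]
    rw [h1, Complex.ofReal_re, ← ld_volume_ball ρ hρ]
    have h2 : ∀ z ∈ Metric.closedBall (0 : Fin n → ℂ) ρ,
        ‖mono (ofLex a.1) z‖ ^ 2 ≤ (ρ ^ 2) ^ (∑ i, ofLex a.1 i) := by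
      intro z hz
      rw [mem_closedBall_zero_iff] at hz
      have h3 : ‖mono (ofLex a.1) z‖ ≤ ρ ^ (∑ i, ofLex a.1 i) := by
        unfold mono
        rw [norm_prod, ← Finset.prod_pow_eq_pow_sum]
        refine Finset.prod_le_prod (fun i _ => norm_nonneg _) fun i _ => ?_
        rw [norm_pow]
        exact pow_le_pow_left₀ (norm_nonneg _) ((norm_le_pi_norm z i).trans hz) _
      calc ‖mono (ofLex a.1) z‖ ^ 2 ≤ (ρ ^ (∑ i, ofLex a.1 i)) ^ 2 :=
            pow_le_pow_left₀ (norm_nonneg _) h3 2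
        _ = (ρ ^ 2) ^ (∑ i, ofLex a.1 i) := by rw [← pow_mul, ← pow_mul, mul_comm]
    calc ∫ z in Metric.closedBall (0 : Fin n → ℂ) ρ, ‖mono (ofLex a.1) z‖ ^ 2
        ≤ ∫ _z in Metric.closedBall (0 : Fin n → ℂ) ρ, (ρ ^ 2) ^ (∑ i, ofLex a.1 i) := by
          refine setIntegral_mono_on ?_ ?_ measurableSet_closedBall h2
          · exact ((Gram.continuous_mono _).norm.pow 2).continuousOn.integrableOn_compact
              (isCompact_closedBall (0 : Fin n → ℂ) ρ)
          · exact (continuous_const (y := (ρ ^ 2) ^ (∑ i, ofLex a.1 i))).continuousOn.integrableOn_compact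
              (isCompact_closedBall (0 : Fin n → ℂ) ρ)
      _ = (ρ ^ 2) ^ (∑ i, ofLex a.1 i) *
            (volume (Metric.closedBall (0 : Fin n → ℂ) ρ)).toReal := by
          rw [setIntegral_const, smul_eq_mul, mul_comm]; rfl
  have h1 : A.det.re ≤ ∏ a, (A a a).re := by
    classical
    have := det_le_prod_diag A hpd
    convert this
  have h2 : Real.log A.det.re ≤ ∑ a, Real.log (A a a).re := by
    rw [← Real.log_prod fun a _ => (hdiag a).ne']
    exact Real.log_le_log hdet h1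
  refine h2.trans (Finset.sum_le_sum fun a _ => ?_)
  have h3 := Real.log_le_log (hdiag a) (hle a)
  refine h3.trans (le_of_eq ?_)
  have hρ2 : 0 < ρ ^ 2 := by positivity
  rw [Real.log_mul (pow_pos hρ2 _).ne' (pow_pos (mul_pos Real.pi_pos hρ2) _).ne', Real.log_pow,
    Real.log_pow, Real.log_pow]
  push_cast
  ring

end Pool.Agent.Ceg
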