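import Pool.Agent.Ceg.Stokes

/-!
# Null Lagrangians and the symmetry of the mixed complex Hessian form
-/

set_option autoImplicit false

namespace Pool.Agent.Ceg

open MeasureTheory Matrix Filter Topology
open scoped ContDiff ENNReal Real ComplexOrder

namespace NullLag

open Stokes

variable {n : ℕ}

/-- the derivative `a ∂/∂xₖ + b ∂/∂yₖ` -/
noncomputable def dk (a b : ℂ) (k : Fin n) : ((Fin n → ℂ) → ℂ) → (Fin n → ℂ) → ℂ :=
  cd a b (Pi.single k 1) (Pi.single k Complex.I)

theorem hcs_sum {ι : Type*} (s : Finset ι) (f : ι → (Fin n → ℂ) → ℂ)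
    (h : ∀ i, HasCompactSupport (f i)) : HasCompactSupport fun z => ∑ i ∈ s, f i z := by
  classical
  induction s using Finset.induction_on with
  | empty =>
    simp only [Finset.sum_empty]
    exact HasCompactSupport.zero
  | insert i s hi ih =>
    simp only [Finset.sum_insert hi]
    exact (h i).add ih

theorem smooth_dk (a b : ℂ) (k : Fin n) {f : (Fin n → ℂ) → ℂ} (hf : ContDiff ℝ ∞ f) :
    ContDiff ℝ ∞ (dk a b k f) := smooth_cd _ _ _ _ hf

/-- the null Lagrangian property of determinants of derivatives -/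
theorem null_lag (a b : ℂ) (F : Fin n → (Fin n → ℂ) → ℂ) (hF : ∀ l, ContDiff ℝ ∞ (F l))
    (k : Fin n) (hk : HasCompactSupport (F k)) :
    ∫ z, (Matrix.of fun j l => dk a b j (F l) z).det = 0 := by
  classical
  have hM : ∀ j l, ContDiff ℝ ∞ (dk a b j (F l)) := fun j l => smooth_dk _ _ _ (hF l)
  let G : Equiv.Perm (Fin n) → (Fin n → ℂ) → ℂ := fun σ z =>
    F k z * ∏ i ∈ Finset.univ.erase k, dk a b (σ i) (F i) z
  have hGs : ∀ σ, ContDiff ℝ ∞ (G σ) := fun σ =>
    (hF k).mul (smooth_prod _ _ fun i => hM (σ i) i)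
  have hGc : ∀ σ, HasCompactSupport (G σ) := fun σ => hk.mul_right
  have key : ∀ z, (Matrix.of fun j l => dk a b j (F l) z).det
      = ∑ σ : Equiv.Perm (Fin n), (Equiv.Perm.sign σ : ℂ) * dk a b (σ k) (G σ) z := by
    intro z
    have h1 : ∀ σ : Equiv.Perm (Fin n), dk a b (σ k) (G σ) z
        = (∏ i, dk a b (σ i) (F i) z) + F k z *
          ∑ i ∈ Finset.univ.erase k, (∏ j ∈ (Finset.univ.erase k).erase i,
            dk a b (σ j) (F j) z) * dk a b (σ k) (dk a b (σ i) (F i)) z := by
      intro σ
      have h2 := cd_mul a b (Pi.single (σ k) 1) (Pi.single (σ k) Complex.I) (hF k)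
        (smooth_prod (Finset.univ.erase k) (fun i => dk a b (σ i) (F i)) fun i => hM (σ i) i) z
      have h3 := cd_prod a b (Pi.single (σ k) 1)
        (Pi.single (σ k) Complex.I) (Finset.univ.erase k) (fun i => dk a b (σ i) (F i))
        (fun i => hM (σ i) i) z
      have h4 := Finset.mul_prod_erase Finset.univ (fun i => dk a b (σ i) (F i) z)
        (Finset.mem_univ k)
      rw [h3] at h2
      rw [← h4, add_comm]
      exact h2
    have h5 : ∀ i ∈ Finset.univ.erase k, ∑ σ : Equiv.Perm (Fin n), (Equiv.Perm.sign σ : ℂ) *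
        ((∏ j ∈ (Finset.univ.erase k).erase i, dk a b (σ j) (F j) z) *
          dk a b (σ k) (dk a b (σ i) (F i)) z) = 0 := by
      intro i hi
      have hne : i ≠ k := Finset.ne_of_mem_erase hi
      set T : Equiv.Perm (Fin n) → ℂ := fun σ =>
        (∏ j ∈ (Finset.univ.erase k).erase i, dk a b (σ j) (F j) z) *
          dk a b (σ k) (dk a b (σ i) (F i)) z with hT
      have h6 : ∀ σ : Equiv.Perm (Fin n), T (σ * Equiv.swap k i) = T σ := by
        intro σ
        rw [hT]
        simp only [Equiv.Perm.coe_mul, Function.comp_apply, Equiv.swap_apply_left,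
          Equiv.swap_apply_right]
        rw [show dk a b (σ i) (dk a b (σ k) (F i)) = dk a b (σ k) (dk a b (σ i) (F i)) from
          cd_comm _ _ _ _ _ _ _ _ (hF i)]
        congr 1
        refine Finset.prod_congr rfl fun j hj => ?_
        rw [Finset.mem_erase, Finset.mem_erase] at hj
        rw [Equiv.swap_apply_of_ne_of_ne hj.2.1 hj.1]
      have h7 : ∑ σ : Equiv.Perm (Fin n), (Equiv.Perm.sign σ : ℂ) * T σ
          = ∑ σ : Equiv.Perm (Fin n), (Equiv.Perm.sign (σ * Equiv.swap k i) : ℂ) *
            T (σ * Equiv.swap k i) :=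
        (Equiv.sum_comp (Equiv.mulRight (Equiv.swap k i))
          (fun σ : Equiv.Perm (Fin n) => (Equiv.Perm.sign σ : ℂ) * T σ)).symm
      have h8 : ∑ σ : Equiv.Perm (Fin n), (Equiv.Perm.sign (σ * Equiv.swap k i) : ℂ) *
            T (σ * Equiv.swap k i) = -∑ σ : Equiv.Perm (Fin n), (Equiv.Perm.sign σ : ℂ) * T σ := by
        rw [← Finset.sum_neg_distrib]
        refine Finset.sum_congr rfl fun σ _ => ?_
        rw [h6, Equiv.Perm.sign_mul, Equiv.Perm.sign_swap hne.symm]
        push_cast
        ring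
      rw [h8] at h7
      exact self_eq_neg.mp h7
    rw [Matrix.det_apply']
    simp only [Matrix.of_apply, h1, mul_add, Finset.sum_add_distrib]
    have h9 : ∑ σ : Equiv.Perm (Fin n), (Equiv.Perm.sign σ : ℂ) * (F k z *
        ∑ i ∈ Finset.univ.erase k, (∏ j ∈ (Finset.univ.erase k).erase i,
            dk a b (σ j) (F j) z) * dk a b (σ k) (dk a b (σ i) (F i)) z) = 0 := by
      have : ∀ σ : Equiv.Perm (Fin n), (Equiv.Perm.sign σ : ℂ) * (F k z *
        ∑ i ∈ Finset.univ.erase k, (∏ j ∈ (Finset.univ.erase k).erase i,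
            dk a b (σ j) (F j) z) * dk a b (σ k) (dk a b (σ i) (F i)) z)
          = F k z * ∑ i ∈ Finset.univ.erase k, (Equiv.Perm.sign σ : ℂ) *
            ((∏ j ∈ (Finset.univ.erase k).erase i, dk a b (σ j) (F j) z) *
              dk a b (σ k) (dk a b (σ i) (F i)) z) := by
        intro σ
        rw [← Finset.mul_sum]; ring
      rw [Finset.sum_congr rfl (fun σ _ => this σ), ← Finset.mul_sum, Finset.sum_comm,
        Finset.sum_eq_zero h5, mul_zero]
    rw [h9, add_zero]
  have hI : ∀ σ : Equiv.Perm (Fin n), Integrable (dk a b (σ k) (G σ)) ∧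
      ∫ z, dk a b (σ k) (G σ) z = 0 := fun σ => integral_cd _ _ _ _ (hGs σ) (hGc σ)
  simp only [key]
  rw [integral_finsetSum _ (fun σ _ => (hI σ).1.const_mul _)]
  refine Finset.sum_eq_zero fun σ _ => ?_
  rw [integral_const_mul, (hI σ).2, mul_zero]

theorem continuous_levi {q : (Fin n → ℂ) → ℝ} (hq : ContDiff ℝ ∞ q) :
    Continuous fun z => levi q z := by
  refine continuous_matrix fun j k => ?_
  have h : (fun z => levi q z j k) = dbar j (dhol k (fun z => (q z : ℂ))) := by
    funext z; exact levi_eq hq z j k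
  rw [h]
  exact (smooth_cd _ _ _ _ (smooth_cd _ _ _ _ (Complex.ofRealCLM.contDiff.comp hq))).continuous

/-- the rows of the adjugate are divergence free -/
theorem adj_row (q : (Fin n → ℂ) → ℝ) (hq : ContDiff ℝ ∞ q) (H : (Fin n → ℂ) → ℂ)
    (hH : ContDiff ℝ ∞ H) (hHc : HasCompactSupport H) (k : Fin n) :
    Integrable (fun z => ∑ j, (levi q z).adjugate k j * dbar j H z) ∧
    ∫ z, ∑ j, (levi q z).adjugate k j * dbar j H z = 0 := by
  classical
  constructor
  · apply Continuous.integrable_of_hasCompactSupport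
    · refine continuous_finsetSum _ fun j _ => ?_
      exact ((continuous_levi hq).matrix_adjugate.matrix_elem k j).mul
        (smooth_cd _ _ _ _ hH).continuous
    · have : ∀ j, HasCompactSupport fun z => (levi q z).adjugate k j * dbar j H z := fun j =>
        (compact_cd _ _ _ _ hHc).mul_left
      exact hcs_sum _ _ this
  · set Q : (Fin n → ℂ) → ℂ := fun z => (q z : ℂ) with hQ
    have hQs : ContDiff ℝ ∞ Q := Complex.ofRealCLM.contDiff.comp hq
    let F : Fin n → (Fin n → ℂ) → ℂ := fun l => if l = k then H else dhol l Q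
    have hF : ∀ l, ContDiff ℝ ∞ (F l) := by
      intro l
      by_cases h : l = k
      · simp only [F, h, if_true]; exact hH
      · simp only [F, h, if_false]; exact smooth_cd _ _ _ _ hQs
    have hk : HasCompactSupport (F k) := by simp only [F, if_true]; exact hHc
    have h1 := null_lag (1 / 2) (Complex.I / 2) F hF k hk
    rw [← h1]
    congr 1
    funext z
    have e1 : (Matrix.of fun j l => dk (1 / 2) (Complex.I / 2) j (F l) z) =
        (levi q z).updateCol k (fun j => dbar j H z) := by
      ext j l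
      rw [Matrix.of_apply, Matrix.updateCol_apply]
      by_cases h : l = k
      · simp only [F, h, if_true]; rfl
      · simp only [F, h, if_false]
        exact (levi_eq hq z j l).symm
    rw [e1, ← Matrix.cramer_apply, Matrix.cramer_eq_adjugate_mulVec]
    rfl

/-- the columns of the adjugate are divergence free -/
theorem adj_col (q : (Fin n → ℂ) → ℝ) (hq : ContDiff ℝ ∞ q) (H : (Fin n → ℂ) → ℂ)
    (hH : ContDiff ℝ ∞ H) (hHc : HasCompactSupport H) (j : Fin n) :
    Integrable (fun z => ∑ k, (levi q z).adjugate k j * dhol k H z) ∧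
    ∫ z, ∑ k, (levi q z).adjugate k j * dhol k H z = 0 := by
  classical
  constructor
  · apply Continuous.integrable_of_hasCompactSupport
    · refine continuous_finsetSum _ fun k _ => ?_
      exact ((continuous_levi hq).matrix_adjugate.matrix_elem k j).mul
        (smooth_cd _ _ _ _ hH).continuous
    · have : ∀ k, HasCompactSupport fun z => (levi q z).adjugate k j * dhol k H z := fun k =>
        (compact_cd _ _ _ _ hHc).mul_left
      exact hcs_sum _ _ this
  · set Q : (Fin n → ℂ) → ℂ := fun z => (q z : ℂ) with hQ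
    have hQs : ContDiff ℝ ∞ Q := Complex.ofRealCLM.contDiff.comp hq
    let F : Fin n → (Fin n → ℂ) → ℂ := fun l => if l = j then H else dbar l Q
    have hF : ∀ l, ContDiff ℝ ∞ (F l) := by
      intro l
      by_cases h : l = j
      · simp only [F, h, if_true]; exact hH
      · simp only [F, h, if_false]; exact smooth_cd _ _ _ _ hQs
    have hk : HasCompactSupport (F j) := by simp only [F, if_true]; exact hHc
    have h1 := null_lag (1 / 2) (-Complex.I / 2) F hF j hk
    rw [← h1]
    congr 1
    funext z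
    have e1 : (Matrix.of fun k l => dk (1 / 2) (-Complex.I / 2) k (F l) z) =
        (levi q z)ᵀ.updateCol j (fun k => dhol k H z) := by
      ext k l
      rw [Matrix.of_apply, Matrix.updateCol_apply]
      by_cases h : l = j
      · simp only [F, h, if_true]; rfl
      · simp only [F, h, if_false]
        rw [Matrix.transpose_apply, levi_eq hq z l k]
        exact congrFun (cd_comm _ _ _ _ _ _ _ _ hQs) z
    rw [e1, ← Matrix.cramer_apply, Matrix.cramer_eq_adjugate_mulVec, ← Matrix.adjugate_transpose]
    rfl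

end NullLag

open Stokes NullLag

theorem mixed_symm {n : ℕ} (q f g : (Fin n → ℂ) → ℝ) (hq : ContDiff ℝ ∞ q)
    (hqc : HasCompactSupport q) (hf : ContDiff ℝ ∞ f) (hfc : HasCompactSupport f)
    (hg : ContDiff ℝ ∞ g) (hgc : HasCompactSupport g) :
    ∫ z, (g z : ℂ) * ((levi q z).adjugate * levi f z).trace =
      ∫ z, (f z : ℂ) * ((levi q z).adjugate * levi g z).trace := by
  classical
  set f' : (Fin n → ℂ) → ℂ := fun z => (f z : ℂ) with hf'
  set g' : (Fin n → ℂ) → ℂ := fun z => (g z : ℂ) with hg'
  have hfs : ContDiff ℝ ∞ f' := Complex.ofRealCLM.contDiff.comp hf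
  have hgs : ContDiff ℝ ∞ g' := Complex.ofRealCLM.contDiff.comp hg
  have hfc' : HasCompactSupport f' := hfc.comp_left (g := ((↑) : ℝ → ℂ)) (by simp)
  have hgc' : HasCompactSupport g' := hgc.comp_left (g := ((↑) : ℝ → ℂ)) (by simp)
  -- the first form
  have e1 : ∀ z, g' z * ((levi q z).adjugate * levi f z).trace =
      ∑ k, ∑ j, (levi q z).adjugate k j * dbar j (fun z => g' z * dhol k f' z) z -
        ∑ k, ∑ j, (levi q z).adjugate k j * (dbar j g' z * dhol k f' z) := by
    intro z
    rw [Matrix.trace, Finset.mul_sum, ← Finset.sum_sub_distrib]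
    refine Finset.sum_congr rfl fun k _ => ?_
    rw [Matrix.diag_apply, Matrix.mul_apply, Finset.mul_sum, ← Finset.sum_sub_distrib]
    refine Finset.sum_congr rfl fun j _ => ?_
    have h1 := cd_mul (1 / 2) (Complex.I / 2) (Pi.single j 1) (Pi.single j Complex.I) hgs
      (smooth_cd (1 / 2) (-Complex.I / 2) (Pi.single k 1) (Pi.single k Complex.I) hfs) z
    have h2 : dbar j (fun z => g' z * dhol k f' z) z = g' z * dbar j (dhol k f') z +
        dbar j g' z * dhol k f' z := h1
    rw [h2, levi_eq hf z j k]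
    ring
  have e2 : ∀ z, f' z * ((levi q z).adjugate * levi g z).trace =
      ∑ j, ∑ k, (levi q z).adjugate k j * dhol k (fun z => f' z * dbar j g' z) z -
        ∑ k, ∑ j, (levi q z).adjugate k j * (dbar j g' z * dhol k f' z) := by
    intro z
    rw [Matrix.trace, Finset.mul_sum, Finset.sum_comm (f := fun j k => (levi q z).adjugate k j *
      dhol k (fun z => f' z * dbar j g' z) z), ← Finset.sum_sub_distrib]
    refine Finset.sum_congr rfl fun k _ => ?_
    rw [Matrix.diag_apply, Matrix.mul_apply, Finset.mul_sum, ← Finset.sum_sub_distrib]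
    refine Finset.sum_congr rfl fun j _ => ?_
    have h1 := cd_mul (1 / 2) (-Complex.I / 2) (Pi.single k 1) (Pi.single k Complex.I) hfs
      (smooth_cd (1 / 2) (Complex.I / 2) (Pi.single j 1) (Pi.single j Complex.I) hgs) z
    have h2 : dhol k (fun z => f' z * dbar j g' z) z = f' z * dhol k (dbar j g') z +
        dhol k f' z * dbar j g' z := h1
    have h3 : dhol k (dbar j g') = dbar j (dhol k g') := cd_comm _ _ _ _ _ _ _ _ hgs
    rw [h2, h3, levi_eq hg z j k]
    ring
  have r1 : ∀ k, Integrable (fun z => ∑ j, (levi q z).adjugate k j *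
      dbar j (fun z => g' z * dhol k f' z) z) ∧
      ∫ z, ∑ j, (levi q z).adjugate k j * dbar j (fun z => g' z * dhol k f' z) z = 0 := fun k =>
    adj_row q hq _ (hgs.mul (smooth_cd _ _ _ _ hfs)) (hgc'.mul_right) k
  have r2 : ∀ j, Integrable (fun z => ∑ k, (levi q z).adjugate k j *
      dhol k (fun z => f' z * dbar j g' z) z) ∧
      ∫ z, ∑ k, (levi q z).adjugate k j * dhol k (fun z => f' z * dbar j g' z) z = 0 := fun j =>
    adj_col q hq _ (hfs.mul (smooth_cd _ _ _ _ hgs)) (hfc'.mul_right) j
  have r3 : Integrable (fun z => ∑ k, ∑ j, (levi q z).adjugate k j *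
      (dbar j g' z * dhol k f' z)) := by
    apply Continuous.integrable_of_hasCompactSupport
    · refine continuous_finsetSum _ fun k _ => continuous_finsetSum _ fun j _ => ?_
      exact ((continuous_levi hq).matrix_adjugate.matrix_elem k j).mul
        ((smooth_cd _ _ _ _ hgs).continuous.mul (smooth_cd _ _ _ _ hfs).continuous)
    · refine hcs_sum _ _ fun k => hcs_sum _ _ fun j => ?_
      have h1 : HasCompactSupport (dbar j g') := compact_cd _ _ _ _ hgc'
      exact (h1.mul_right).mul_left
  have s1 : ∫ z, ∑ k, ∑ j, (levi q z).adjugate k j * dbar j (fun z => g' z * dhol k f' z) z = 0 := by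
    rw [integral_finsetSum _ (fun k _ => (r1 k).1)]
    exact Finset.sum_eq_zero fun k _ => (r1 k).2
  have s2 : ∫ z, ∑ j, ∑ k, (levi q z).adjugate k j * dhol k (fun z => f' z * dbar j g' z) z = 0 := by
    rw [integral_finsetSum _ (fun j _ => (r2 j).1)]
    exact Finset.sum_eq_zero fun j _ => (r2 j).2
  have t1 : Integrable (fun z => ∑ k, ∑ j, (levi q z).adjugate k j *
      dbar j (fun z => g' z * dhol k f' z) z) := integrable_finsetSum _ fun k _ => (r1 k).1
  have t2 : Integrable (fun z => ∑ j, ∑ k, (levi q z).adjugate k j *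
      dhol k (fun z => f' z * dbar j g' z) z) := integrable_finsetSum _ fun j _ => (r2 j).1
  have E1 : ∫ z, (g z : ℂ) * ((levi q z).adjugate * levi f z).trace =
      ∫ z, (∑ k, ∑ j, (levi q z).adjugate k j * dbar j (fun z => g' z * dhol k f' z) z -
        ∑ k, ∑ j, (levi q z).adjugate k j * (dbar j g' z * dhol k f' z)) :=
    integral_congr_ae (Filter.Eventually.of_forall e1)
  have E2 : ∫ z, (f z : ℂ) * ((levi q z).adjugate * levi g z).trace =
      ∫ z, (∑ j, ∑ k, (levi q z).adjugate k j * dhol k (fun z => f' z * dbar j g' z) z -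
        ∑ k, ∑ j, (levi q z).adjugate k j * (dbar j g' z * dhol k f' z)) :=
    integral_congr_ae (Filter.Eventually.of_forall e2)
  rw [E1, E2]
  rw [integral_sub t1 r3, integral_sub t2 r3, s1, s2]

end Pool.Agent.Ceg
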