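import Pool.Agent.Ceg.Defs2
import Pool.Agent.Ceg.Cut
import Pool.Agent.Ceg.NullLag

/-!
# Monotonicity of the weighted Monge-Ampere mass (module MIXED)
-/

set_option autoImplicit false

namespace Pool.Agent.Ceg

open MeasureTheory Matrix Filter Topology
open scoped ContDiff ENNReal Real ComplexOrder

section MixedAux

lemma levi_add {n : ℕ} {U : Set (Fin n → ℂ)} (hU : IsOpen U) {u v : (Fin n → ℂ) → ℝ}
    (hu : ContDiffOn ℝ ∞ u U) (hv : ContDiffOn ℝ ∞ v U) {z : Fin n → ℂ} (hz : z ∈ U) :
    levi (fun y => u y + v y) z = levi u z + levi v z := by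
  have hd : ∀ {w : (Fin n → ℂ) → ℝ}, ContDiffOn ℝ ∞ w U → ∀ y ∈ U, DifferentiableAt ℝ w y :=
    fun {w} hw y hy => ((hw.contDiffAt (hU.mem_nhds hy)).differentiableAt (by simp))
  have hd2 : ∀ {w : (Fin n → ℂ) → ℝ}, ContDiffOn ℝ ∞ w U → DifferentiableAt ℝ (fderiv ℝ w) z := by
    intro w hw
    have h4 : ContDiffAt ℝ 1 (fderiv ℝ w) z :=
      (hw.contDiffAt (hU.mem_nhds hz)).fderiv_right (m := 1) (by norm_cast)
    exact h4.differentiableAt (by simp)
  have h1 : fderiv ℝ (fun y => u y + v y) =ᶠ[𝓝 z] fun y => fderiv ℝ u y + fderiv ℝ v y := by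
    filter_upwards [hU.mem_nhds hz] with y hy
    exact fderiv_fun_add (hd hu y hy) (hd hv y hy)
  have hh : ∀ a b, hess (fun y => u y + v y) z a b = hess u z a b + hess v z a b := by
    intro a b
    unfold hess
    rw [h1.fderiv_eq, fderiv_fun_add (hd2 hu) (hd2 hv)]
    rfl
  ext j k
  simp only [levi, hh, Matrix.add_apply]
  push_cast
  ring

lemma levi_sub {n : ℕ} {U : Set (Fin n → ℂ)} (hU : IsOpen U) {u v : (Fin n → ℂ) → ℝ}
    (hu : ContDiffOn ℝ ∞ u U) (hv : ContDiffOn ℝ ∞ v U) {z : Fin n → ℂ} (hz : z ∈ U) :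
    levi (fun y => u y - v y) z = levi u z - levi v z := by
  have h := levi_add hU (hu.sub hv) hv hz
  have h2 : (fun y => u y - v y + v y) = u := by funext y; ring
  rw [h2] at h
  rw [h]
  simp

lemma levi_sub_const {n : ℕ} (u : (Fin n → ℂ) → ℝ) (c : ℝ) (z : Fin n → ℂ) :
    levi (fun y => u y - c) z = levi u z := by
  have h1 : fderiv ℝ (fun y => u y - c) = fderiv ℝ u := by
    funext y
    exact fderiv_sub_const c
  unfold levi hess
  rw [h1]

lemma levi_neg {n : ℕ} {U : Set (Fin n → ℂ)} (hU : IsOpen U) {u : (Fin n → ℂ) → ℝ}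
    (hu : ContDiffOn ℝ ∞ u U) {z : Fin n → ℂ} (hz : z ∈ U) :
    levi (fun y => -u y) z = -levi u z := by
  have h0 : ContDiffOn ℝ ∞ (fun _ : Fin n → ℂ => (0 : ℝ)) U := contDiffOn_const
  have h := levi_sub hU h0 hu hz
  simp only [zero_sub] at h
  rw [h, levi_zero, zero_sub]

lemma levi_const_mul {n : ℕ} {U : Set (Fin n → ℂ)} (hU : IsOpen U) {u : (Fin n → ℂ) → ℝ}
    (hu : ContDiffOn ℝ ∞ u U) {z : Fin n → ℂ} (hz : z ∈ U) {t : ℝ} :
    levi (fun y => t * u y) z = (t : ℂ) • levi u z := by
  have hb : ∀ s : ℝ, HasDerivAt (fun x : ℝ => t * x) ((fun _ : ℝ => t) s) s := fun s => by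
    simpa using (hasDerivAt_id s).const_mul t
  have h := levi_comp hU hu hb (differentiable_const t) hz
  rw [h]
  simp

/-- derivative of the determinant along a line -/
lemma hasDerivAt_det_line {n : ℕ} (A B : Matrix (Fin n) (Fin n) ℂ) (t : ℝ) :
    HasDerivAt (fun s : ℝ => (A + (s : ℂ) • B).det) (((A + (t : ℂ) • B).adjugate * B).trace) t := by
  have hent : ∀ i j, HasDerivAt (fun s : ℝ => (A + (s : ℂ) • B) i j) (B i j) t := by
    intro i j
    have h1 : HasDerivAt (fun s : ℝ => (s : ℂ)) 1 t := Complex.ofRealCLM.hasDerivAt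
    have h2 := (h1.mul_const (B i j)).const_add (A i j)
    simpa using h2
  have hdet : (fun s : ℝ => (A + (s : ℂ) • B).det) = fun s : ℝ =>
      ∑ σ : Equiv.Perm (Fin n), ((Equiv.Perm.sign σ : ℤ) : ℂ) * ∏ i, (A + (s : ℂ) • B) (σ i) i := by
    funext s
    rw [Matrix.det_apply']
  have htr : ((A + (t : ℂ) • B).adjugate * B).trace =
      ∑ σ : Equiv.Perm (Fin n), ((Equiv.Perm.sign σ : ℤ) : ℂ) *
        ∑ i, (∏ j ∈ Finset.univ.erase i, (A + (t : ℂ) • B) (σ j) j) * B (σ i) i := by
    set M := A + (t : ℂ) • B with hM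
    have h1 : ∀ i, (M.adjugate * B) i i = (M.updateCol i (fun k => B k i)).det := by
      intro i
      rw [← Matrix.cramer_apply, Matrix.cramer_eq_adjugate_mulVec]
      rfl
    simp only [Matrix.trace, Matrix.diag, h1, Matrix.det_apply']
    rw [Finset.sum_comm]
    refine Finset.sum_congr rfl fun σ _ => ?_
    rw [Finset.mul_sum]
    refine Finset.sum_congr rfl fun i _ => ?_
    rw [← Finset.prod_erase_mul (Finset.univ : Finset (Fin n)) _ (Finset.mem_univ i)]
    congr 1
    rw [Matrix.updateCol_self]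
    congr 1
    refine Finset.prod_congr rfl fun j hj => ?_
    rw [Matrix.updateCol_ne (Finset.ne_of_mem_erase hj)]
  rw [hdet, htr]
  apply HasDerivAt.fun_sum
  intro σ _
  apply HasDerivAt.const_mul
  have h := HasDerivAt.fun_finsetProd (u := (Finset.univ : Finset (Fin n)))
    (f := fun i (s : ℝ) => (A + (s : ℂ) • B) (σ i) i) (f' := fun i => B (σ i) i) (x := t)
    (fun i _ => hent (σ i) i)
  simpa [smul_eq_mul] using h

lemma exists_factor_psd {n : ℕ} (A : Matrix (Fin n) (Fin n) ℂ) (hA : A.PosSemidef) :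
    ∃ S : Matrix (Fin n) (Fin n) ℂ, A = Sᴴ * S := by
  open scoped MatrixOrder in
  obtain ⟨S, hS⟩ := CStarAlgebra.nonneg_iff_eq_star_mul_self.mp hA.nonneg
  exact ⟨S, by rw [hS, star_eq_conjTranspose]⟩

lemma trace_adj_mul_nonneg {n : ℕ} {X Y : Matrix (Fin n) (Fin n) ℂ} (hX : X.PosSemidef)
    (hY : Y.PosSemidef) : 0 ≤ (X.adjugate * Y).trace := by
  obtain ⟨S, hS⟩ := exists_factor_psd X hX
  obtain ⟨T, hT⟩ := exists_factor_psd Y hY
  have h1 : X.adjugate = S.adjugate * (S.adjugate)ᴴ := by
    rw [hS, Matrix.adjugate_mul_distrib, Matrix.adjugate_conjTranspose]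
  have h2 : X.adjugate.PosSemidef := by
    rw [h1]
    exact Matrix.posSemidef_self_mul_conjTranspose _
  rw [hT, ← Matrix.mul_assoc, Matrix.trace_mul_comm, ← Matrix.mul_assoc]
  exact (h2.mul_mul_conjTranspose_same T).trace_nonneg

/-- derivative under the integral sign -/
lemma hasDerivAt_integral_det {n : ℕ} {K : Set (Fin n → ℂ)} (hK : IsCompact K)
    {G : (Fin n → ℂ) → ℂ} {A B : (Fin n → ℂ) → Matrix (Fin n) (Fin n) ℂ} (hG : Continuous G)
    (hA : Continuous A) (hB : Continuous B) (t : ℝ) :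
    HasDerivAt (fun s : ℝ => ∫ z in K, G z * (A z + (s : ℂ) • B z).det)
      (∫ z in K, G z * ((A z + (t : ℂ) • B z).adjugate * B z).trace) t := by
  have hM : Continuous fun p : (Fin n → ℂ) × ℝ => A p.1 + (p.2 : ℂ) • B p.1 :=
    (hA.comp continuous_fst).add
      ((Complex.continuous_ofReal.comp continuous_snd).smul (hB.comp continuous_fst))
  have hF : Continuous fun p : (Fin n → ℂ) × ℝ => G p.1 * (A p.1 + (p.2 : ℂ) • B p.1).det :=
    (hG.comp continuous_fst).mul hM.matrix_det
  have hF' : Continuous fun p : (Fin n → ℂ) × ℝ =>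
      G p.1 * ((A p.1 + (p.2 : ℂ) • B p.1).adjugate * B p.1).trace :=
    (hG.comp continuous_fst).mul
      ((hM.matrix_adjugate.matrix_mul (hB.comp continuous_fst)).matrix_trace)
  obtain ⟨c, hc⟩ := (hK.prod (isCompact_Icc (a := t - 1) (b := t + 1))).exists_bound_of_continuousOn
    hF'.continuousOn
  refine (hasDerivAt_integral_of_dominated_loc_of_deriv_le (μ := volume.restrict K)
    (F := fun (s : ℝ) z => G z * (A z + (s : ℂ) • B z).det)
    (F' := fun (s : ℝ) z => G z * ((A z + (s : ℂ) • B z).adjugate * B z).trace)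
    (bound := fun _ => c) (s := Set.Icc (t - 1) (t + 1)) (x₀ := t)
    (Icc_mem_nhds (by linarith) (by linarith)) ?_ ?_ ?_ ?_ ?_ ?_).2
  · refine Eventually.of_forall fun s => ?_
    exact (hF.comp (continuous_id.prodMk continuous_const)).aestronglyMeasurable
  · exact ((hF.comp (continuous_id.prodMk continuous_const)).continuousOn).integrableOn_compact hK
  · exact (hF'.comp (continuous_id.prodMk continuous_const)).aestronglyMeasurable
  · filter_upwards [ae_restrict_mem hK.isClosed.measurableSet] with z hz s hs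
    exact hc (z, s) ⟨hz, hs⟩
  · exact integrableOn_const hK.measure_lt_top.ne
  · refine Eventually.of_forall fun z s _ => ?_
    exact (hasDerivAt_det_line (A z) (B z) s).const_mul (G z)

end MixedAux

theorem integral_mul_det_levi_le {n : ℕ} (U : Set (Fin n → ℂ)) (hU : IsOpen U)
    (P f g : (Fin n → ℂ) → ℝ) (hP : SmoothPSHOn P U) (hw : SmoothPSHOn (fun z => P z + f z) U)
    (hf : ContDiff ℝ ∞ f) (hfc : HasCompactSupport f) (hfU : tsupport f ⊆ U)
    (hf0 : ∀ z, 0 ≤ f z) (hg : SmoothPSHOn (fun z => -g z) U) :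
    ∫ z in tsupport f, g z * (levi (fun w => P w + f w) z).det.re ≤
      ∫ z in tsupport f, g z * (levi P z).det.re := by
  classical
  set K : Set (Fin n → ℂ) := tsupport f with hKdef
  have hK : IsCompact K := hfc.isCompact
  obtain ⟨κ, hκs, hκc, hκ1, hκ0⟩ := exists_cut hK hU hfU
  have hgs : ContDiffOn ℝ ∞ g U := (hg.1.neg).congr fun z _ => by simp
  set p : (Fin n → ℂ) → ℝ := fun z => κ z * P z with hp
  set G : (Fin n → ℂ) → ℝ := fun z => κ z * g z with hG
  have hps : ContDiff ℝ ∞ p := contDiff_glue hU hκs hκ0 hP.1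
  have hGs : ContDiff ℝ ∞ G := contDiff_glue hU hκs hκ0 hgs
  have hpc : HasCompactSupport p := hκc.mul_right
  have hGc : HasCompactSupport G := hκc.mul_right
  have hpK : ∀ z ∈ K, p =ᶠ[𝓝 z] P := by
    intro z hz
    filter_upwards [hκ1 z hz] with y hy
    simp only [hp, hy, one_mul]
  have hGK : ∀ z ∈ K, G =ᶠ[𝓝 z] g := by
    intro z hz
    filter_upwards [hκ1 z hz] with y hy
    simp only [hG, hy, one_mul]
  have hlin : ∀ (t : ℝ) z, levi (fun y => p y + t * f y) z = levi p z + (t : ℂ) • levi f z := by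
    intro t z
    have h1 : ContDiff ℝ ∞ fun y => t * f y := contDiff_const.mul hf
    rw [levi_add isOpen_univ hps.contDiffOn h1.contDiffOn (Set.mem_univ z),
      levi_const_mul isOpen_univ hf.contDiffOn (Set.mem_univ z)]
  have hfoff : ∀ z ∉ K, levi f z = 0 := by
    intro z hz
    have h1 : f =ᶠ[𝓝 z] fun _ => 0 := notMem_tsupport_iff_eventuallyEq.1 hz
    rw [levi_congr h1, levi_zero]
  -- `levi (p + t f)` is positive semidefinite on `K`
  have hPf : ∀ z ∈ K, levi (fun y => P y + f y) z = levi p z + levi f z := by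
    intro z hz
    rw [levi_add hU hP.1 hf.contDiffOn (hfU hz), levi_congr (hpK z hz)]
  have hpsd : ∀ t ∈ Set.Icc (0 : ℝ) 1, ∀ z ∈ K, (levi p z + (t : ℂ) • levi f z).PosSemidef := by
    intro t ht z hz
    have e : levi p z + (t : ℂ) • levi f z =
        ((1 - t : ℝ) : ℂ) • levi P z + ((t : ℝ) : ℂ) • levi (fun y => P y + f y) z := by
      rw [hPf z hz, levi_congr (hpK z hz)]
      push_cast
      rw [sub_smul, one_smul, smul_add]
      abel
    rw [e]
    apply Matrix.PosSemidef.add
    · exact (hP.2 z (hfU hz)).smul (Complex.zero_le_real.2 (by linarith [ht.2]))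
    · exact (hw.2 z (hfU hz)).smul (Complex.zero_le_real.2 ht.1)
  have hA : Continuous (levi p) := by
    rw [← continuousOn_univ]; exact levi_contOn isOpen_univ hps.contDiffOn
  have hB : Continuous (levi f) := by
    rw [← continuousOn_univ]; exact levi_contOn isOpen_univ hf.contDiffOn
  have hLG : Continuous (levi G) := by
    rw [← continuousOn_univ]; exact levi_contOn isOpen_univ hGs.contDiffOn
  have hM : ∀ t : ℝ, Continuous fun z => levi p z + (t : ℂ) • levi f z := fun t =>
    hA.add (hB.const_smul (t : ℂ))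
  have hGcont : Continuous fun z => (G z : ℂ) := Complex.continuous_ofReal.comp hGs.continuous
  set Φ : ℝ → ℂ := fun t => ∫ z in K, (G z : ℂ) * (levi p z + (t : ℂ) • levi f z).det with hΦ
  have hΦd : ∀ t : ℝ, HasDerivAt Φ
      (∫ z in K, (G z : ℂ) * ((levi p z + (t : ℂ) • levi f z).adjugate * levi f z).trace) t :=
    fun t => hasDerivAt_integral_det hK hGcont hA hB t
  have hΦ' : ∀ t : ℝ, ∫ z in K, (G z : ℂ) *
      ((levi p z + (t : ℂ) • levi f z).adjugate * levi f z).trace =
      ∫ z in K, (f z : ℂ) * ((levi p z + (t : ℂ) • levi f z).adjugate * levi G z).trace := by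
    intro t
    have hqs : ContDiff ℝ ∞ fun y => p y + t * f y := hps.add (contDiff_const.mul hf)
    have hqc : HasCompactSupport fun y => p y + t * f y := hpc.add hfc.mul_left
    have h := mixed_symm (fun y => p y + t * f y) f G hqs hqc hf hfc hGs hGc
    simp only [hlin] at h
    rw [setIntegral_eq_integral_of_forall_compl_eq_zero, h,
      setIntegral_eq_integral_of_forall_compl_eq_zero]
    · intro z hz
      have : f z = 0 := image_eq_zero_of_notMem_tsupport hz
      rw [this]; simp
    · intro z hz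
      rw [hfoff z hz]; simp
  have hneg : ∀ t ∈ Set.Icc (0 : ℝ) 1, (∫ z in K, (G z : ℂ) *
      ((levi p z + (t : ℂ) • levi f z).adjugate * levi f z).trace).re ≤ 0 := by
    intro t ht
    rw [hΦ' t]
    have hcont : Continuous fun z => (f z : ℂ) *
        ((levi p z + (t : ℂ) • levi f z).adjugate * levi G z).trace :=
      (Complex.continuous_ofReal.comp hf.continuous).mul
        (((hM t).matrix_adjugate.matrix_mul hLG).matrix_trace)
    have hint : IntegrableOn (fun z => (f z : ℂ) *
        ((levi p z + (t : ℂ) • levi f z).adjugate * levi G z).trace) K :=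
      hcont.continuousOn.integrableOn_compact hK
    have hre := integral_re hint
    simp only [RCLike.re_to_complex] at hre
    rw [← hre]
    apply setIntegral_nonpos hK.isClosed.measurableSet
    intro z hz
    have h1 : (-levi G z).PosSemidef := by
      have h2 := hg.2 z (hfU hz)
      rw [levi_neg hU hgs (hfU hz)] at h2
      rw [levi_congr (hGK z hz)]
      exact h2
    have h3 := trace_adj_mul_nonneg (hpsd t ht z hz) h1
    rw [Matrix.mul_neg, Matrix.trace_neg] at h3
    have h4 := (Complex.nonneg_iff.1 h3).1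
    rw [Complex.neg_re] at h4
    rw [Complex.re_ofReal_mul]
    exact mul_nonpos_of_nonneg_of_nonpos (hf0 z) (by linarith)
  have hanti : AntitoneOn (fun t => (Φ t).re) (Set.Icc 0 1) := by
    have hd : ∀ t : ℝ, HasDerivAt (fun t => (Φ t).re) (∫ z in K, (G z : ℂ) *
      ((levi p z + (t : ℂ) • levi f z).adjugate * levi f z).trace).re t := fun t => by
      exact Complex.reCLM.hasFDerivAt.comp_hasDerivAt t (hΦd t)
    apply antitoneOn_of_deriv_nonpos (convex_Icc 0 1)
    · exact fun t _ => (hd t).continuousAt.continuousWithinAt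
    · exact fun t _ => (hd t).differentiableAt.differentiableWithinAt
    · intro t ht
      rw [(hd t).deriv]
      rw [interior_Icc] at ht
      exact hneg t (Set.Ioo_subset_Icc_self ht)
  have h01 := hanti (Set.left_mem_Icc.2 zero_le_one) (Set.right_mem_Icc.2 zero_le_one) zero_le_one
  have hval : ∀ t : ℝ, (Φ t).re = ∫ z in K, G z * (levi p z + (t : ℂ) • levi f z).det.re := by
    intro t
    have hcont : Continuous fun z => (G z : ℂ) * (levi p z + (t : ℂ) • levi f z).det :=
      hGcont.mul (hM t).matrix_det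
    have hre := integral_re (hcont.continuousOn.integrableOn_compact hK :
      IntegrableOn (fun z => (G z : ℂ) * (levi p z + (t : ℂ) • levi f z).det) K volume)
    simp only [RCLike.re_to_complex] at hre
    simp only [hΦ]
    rw [← hre]
    simp only [Complex.re_ofReal_mul]
  simp only [hval] at h01
  have hG' : ∀ z ∈ K, G z = g z := fun z hz => (hGK z hz).self_of_nhds
  have e1 : ∫ z in K, G z * (levi p z + ((1 : ℝ) : ℂ) • levi f z).det.re =
      ∫ z in K, g z * (levi (fun w => P w + f w) z).det.re := by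
    apply setIntegral_congr_fun hK.isClosed.measurableSet
    intro z hz
    simp only [hG' z hz, hPf z hz, Complex.ofReal_one, one_smul]
  have e0 : ∫ z in K, G z * (levi p z + ((0 : ℝ) : ℂ) • levi f z).det.re =
      ∫ z in K, g z * (levi P z).det.re := by
    apply setIntegral_congr_fun hK.isClosed.measurableSet
    intro z hz
    simp only [hG' z hz, levi_congr (hpK z hz), Complex.ofReal_zero, zero_smul, add_zero]
  rw [e1, e0] at h01
  exact h01

end Pool.Agent.Ceg
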