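import Pool.Agent.Ceg.Defs

/-!
# Smooth functions with the sub-mean value property are plurisubharmonic
-/

set_option autoImplicit false

namespace Pool.Agent.Ceg

open MeasureTheory Matrix Filter Topology
open scoped ContDiff ENNReal Real ComplexOrder

namespace Moll

variable {n : ℕ}

lemma two_le : (2 : WithTop ℕ∞) ≤ ((⊤ : ℕ∞) : WithTop ℕ∞) := by
  have : ((2 : ℕ∞) : WithTop ℕ∞) ≤ ((⊤ : ℕ∞) : WithTop ℕ∞) := WithTop.coe_le_coe.2 le_top
  exact this

lemma hess_symm {E : Type*} [NormedAddCommGroup E] [NormedSpace ℝ E] {f : E → ℝ}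
    (hf : ContDiff ℝ 2 f) (x v w : E) :
    fderiv ℝ (fderiv ℝ f) x v w = fderiv ℝ (fderiv ℝ f) x w v :=
  (hf.contDiffAt.isSymmSndFDerivAt (by simp)) v w

/-- second order Taylor expansion -/
lemma taylor2 {E : Type*} [NormedAddCommGroup E] [NormedSpace ℝ E] {f : E → ℝ}
    (hf : ContDiff ℝ 2 f) (x : E) {ε : ℝ} (hε : 0 < ε) : ∃ δ > 0, ∀ h : E, ‖h‖ < δ →
      |f (x + h) - f x - fderiv ℝ f x h - 1 / 2 * fderiv ℝ (fderiv ℝ f) x h h| ≤ ε * ‖h‖ ^ 2 := by
  have hd1 : Differentiable ℝ f := hf.differentiable (by norm_num)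
  have hf1 : ContDiff ℝ 1 (fderiv ℝ f) := hf.fderiv_right (by norm_num)
  have hd2 : Differentiable ℝ (fderiv ℝ f) := hf1.differentiable (by norm_num)
  have h0 := (hd2 x).hasFDerivAt
  rw [hasFDerivAt_iff_isLittleO_nhds_zero] at h0
  have h1 := h0.def hε
  rw [Metric.eventually_nhds_iff] at h1
  obtain ⟨δ, hδ, h2⟩ := h1
  refine ⟨δ, hδ, fun h hh => ?_⟩
  set R : E → ℝ := fun k => f (x + k) - f x - fderiv ℝ f x k -
    1 / 2 * fderiv ℝ (fderiv ℝ f) x k k with hR
  set Q := fderiv ℝ (fderiv ℝ f) x with hQ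
  have hRd : ∀ k : E, HasFDerivAt R (fderiv ℝ f (x + k) - fderiv ℝ f x - Q k) k := by
    intro k
    have d1 : HasFDerivAt (fun k => f (x + k)) (fderiv ℝ f (x + k)) k := by
      have h5 : HasFDerivAt (fun k => x + k) (ContinuousLinearMap.id ℝ E) k :=
        (hasFDerivAt_id k).const_add x
      have h6 := HasFDerivAt.comp (g := f) k (hd1 (x + k)).hasFDerivAt h5
      exact h6
    have d2 : HasFDerivAt (fun k => fderiv ℝ f x k) (fderiv ℝ f x) k :=
      (fderiv ℝ f x).hasFDerivAt
    have d3 : HasFDerivAt (fun k => Q k k) ((Q k) + Q.flip k) k :=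
      (Q.hasFDerivAt (x := k)).clm_apply (hasFDerivAt_id k)
    have d4 := ((d1.sub_const (f x)).sub d2).sub (d3.const_mul (1 / 2 : ℝ))
    refine d4.congr_fderiv ?_
    ext w
    have hs : Q w k = Q k w := hess_symm hf x w k
    simp only [_root_.sub_apply, _root_.smul_apply, _root_.add_apply,
      ContinuousLinearMap.flip_apply, hs, smul_eq_mul]
    ring
  have h3 : ‖R h - R 0‖ ≤ (ε * ‖h‖) * ‖h - 0‖ := by
    apply (convex_closedBall (0 : E) ‖h‖).norm_image_sub_le_of_norm_hasFDerivWithin_le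
      (f' := fun k => fderiv ℝ f (x + k) - fderiv ℝ f x - Q k)
    · intro k _
      exact (hRd k).hasFDerivWithinAt
    · intro k hk
      rw [mem_closedBall_zero_iff] at hk
      have := h2 (y := k) (by rw [dist_zero_right]; linarith)
      exact this.trans (mul_le_mul_of_nonneg_left hk hε.le)
    · simp
    · simp
  have h4 : R 0 = 0 := by simp [hR]
  rw [h4, sub_zero, sub_zero, Real.norm_eq_abs] at h3
  calc |R h| ≤ ε * ‖h‖ * ‖h‖ := h3
    _ = ε * ‖h‖ ^ 2 := by ring

lemma trig_int (a p q A B C : ℝ) : ∫ θ in (0 : ℝ)..(2 * π), (a + (p * Real.cos θ + q * Real.sin θ) +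
      (A * Real.cos θ ^ 2 + B * (Real.sin θ * Real.cos θ) + C * Real.sin θ ^ 2)) =
      2 * π * a + π * (A + C) := by
  have i : ∀ f : ℝ → ℝ, Continuous f → IntervalIntegrable f volume 0 (2 * π) :=
    fun f hf => hf.intervalIntegrable _ _
  rw [intervalIntegral.integral_add (i _ (by fun_prop)) (i _ (by fun_prop)),
    intervalIntegral.integral_add (i _ (by fun_prop)) (i _ (by fun_prop)),
    intervalIntegral.integral_add (i _ (by fun_prop)) (i _ (by fun_prop)),
    intervalIntegral.integral_add (i _ (by fun_prop)) (i _ (by fun_prop)),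
    intervalIntegral.integral_add (i _ (by fun_prop)) (i _ (by fun_prop))]
  simp only [intervalIntegral.integral_const_mul, intervalIntegral.integral_const]
  rw [integral_cos, integral_sin, integral_cos_sq, integral_sin_sq, integral_sin_mul_cos₁]
  simp
  ring

/-- the Laplacian along a complex line is nonnegative -/
lemma hess_nonneg {V : (Fin n → ℂ) → ℝ} (hV : ContDiff ℝ ∞ V) {z b : Fin n → ℂ} {s₀ : ℝ}
    (hs₀ : 0 < s₀) (hm : ∀ s : ℝ, 0 < s → s < s₀ → V z ≤ (2 * π)⁻¹ * ∫ θ in (0 : ℝ)..(2 * π),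
      V (z + Complex.exp (θ * Complex.I) • ((s : ℂ) • b))) :
    0 ≤ hess V z b b + hess V z (Complex.I • b) (Complex.I • b) := by
  have hV2 : ContDiff ℝ 2 V := hV.of_le two_le
  have hpi := Real.pi_pos
  unfold hess
  set Q := fderiv ℝ (fderiv ℝ V) z with hQ
  have key : ∀ ε > 0, 0 ≤ (Q b b + Q (Complex.I • b) (Complex.I • b)) / 4 + ε * ‖b‖ ^ 2 := by
    intro ε hε
    obtain ⟨δ, hδ, ht⟩ := taylor2 hV2 z hε
    obtain ⟨s, hs, hs1, hs2⟩ : ∃ s : ℝ, 0 < s ∧ s < s₀ ∧ s * ‖b‖ < δ := by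
      refine ⟨min (s₀ / 2) (δ / (2 * (‖b‖ + 1))), ?_, ?_, ?_⟩
      · positivity
      · exact (min_le_left _ _).trans_lt (by linarith)
      · have h1 : min (s₀ / 2) (δ / (2 * (‖b‖ + 1))) ≤ δ / (2 * (‖b‖ + 1)) := min_le_right _ _
        have h2 : 0 ≤ ‖b‖ := norm_nonneg _
        calc _ ≤ δ / (2 * (‖b‖ + 1)) * ‖b‖ := mul_le_mul_of_nonneg_right h1 h2
          _ ≤ δ / (2 * (‖b‖ + 1)) * (‖b‖ + 1) := by gcongr; linarith
          _ = δ / 2 := by field_simp
          _ < δ := by linarith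
    have h1 := hm s hs hs1
    have hexp : ∀ θ : ℝ, Complex.exp (θ * Complex.I) • ((s : ℂ) • b) =
        (s * Real.cos θ) • b + (s * Real.sin θ) • (Complex.I • b) := by
      intro θ
      ext i
      simp only [Pi.smul_apply, Pi.add_apply, smul_eq_mul, Complex.real_smul, Complex.exp_mul_I]
      push_cast
      ring
    have hnorm : ∀ θ : ℝ, ‖Complex.exp (θ * Complex.I) • ((s : ℂ) • b)‖ = s * ‖b‖ := by
      intro θ
      rw [norm_smul, norm_smul, Complex.norm_exp_ofReal_mul_I, one_mul, Complex.norm_real,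
        Real.norm_of_nonneg hs.le]
    have hle : ∀ θ ∈ Set.Icc (0 : ℝ) (2 * π), V (z + Complex.exp (θ * Complex.I) • ((s : ℂ) • b)) ≤
        (V z + ε * (s * ‖b‖) ^ 2) + ((s * fderiv ℝ V z b) * Real.cos θ +
          (s * fderiv ℝ V z (Complex.I • b)) * Real.sin θ) +
        ((s ^ 2 / 2 * Q b b) * Real.cos θ ^ 2 +
          (s ^ 2 / 2 * (Q b (Complex.I • b) + Q (Complex.I • b) b)) * (Real.sin θ * Real.cos θ) +
          (s ^ 2 / 2 * Q (Complex.I • b) (Complex.I • b)) * Real.sin θ ^ 2) := by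
      intro θ _
      have h2 := ht (Complex.exp (θ * Complex.I) • ((s : ℂ) • b)) (by rw [hnorm]; exact hs2)
      rw [hnorm] at h2
      have h3 := (abs_le.1 h2).2
      have e1 : fderiv ℝ V z (Complex.exp (θ * Complex.I) • ((s : ℂ) • b)) =
          (s * fderiv ℝ V z b) * Real.cos θ + (s * fderiv ℝ V z (Complex.I • b)) * Real.sin θ := by
        rw [hexp, map_add, map_smul, map_smul, smul_eq_mul, smul_eq_mul]
        ring
      have e2 : Q (Complex.exp (θ * Complex.I) • ((s : ℂ) • b))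
          (Complex.exp (θ * Complex.I) • ((s : ℂ) • b)) =
          s ^ 2 * (Q b b * Real.cos θ ^ 2 +
          (Q b (Complex.I • b) + Q (Complex.I • b) b) * (Real.sin θ * Real.cos θ) +
          Q (Complex.I • b) (Complex.I • b) * Real.sin θ ^ 2) := by
        rw [hexp]
        simp only [map_add, map_smul, _root_.add_apply, _root_.smul_apply,
          smul_eq_mul]
        ring
      rw [e1, e2] at h3
      linarith
    have h4 : ∫ θ in (0 : ℝ)..(2 * π), V (z + Complex.exp (θ * Complex.I) • ((s : ℂ) • b)) ≤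
        ∫ θ in (0 : ℝ)..(2 * π), ((V z + ε * (s * ‖b‖) ^ 2) + ((s * fderiv ℝ V z b) * Real.cos θ +
          (s * fderiv ℝ V z (Complex.I • b)) * Real.sin θ) +
        ((s ^ 2 / 2 * Q b b) * Real.cos θ ^ 2 +
          (s ^ 2 / 2 * (Q b (Complex.I • b) + Q (Complex.I • b) b)) * (Real.sin θ * Real.cos θ) +
          (s ^ 2 / 2 * Q (Complex.I • b) (Complex.I • b)) * Real.sin θ ^ 2)) := by
      apply intervalIntegral.integral_mono_on (by positivity) _ _ hle
      · apply Continuous.intervalIntegrable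
        exact hV.continuous.comp (by fun_prop)
      · apply Continuous.intervalIntegrable
        fun_prop
    rw [trig_int] at h4
    have h5 : V z ≤ (2 * π)⁻¹ * (2 * π * (V z + ε * (s * ‖b‖) ^ 2) +
        π * (s ^ 2 / 2 * Q b b + s ^ 2 / 2 * Q (Complex.I • b) (Complex.I • b))) :=
      h1.trans (mul_le_mul_of_nonneg_left h4 (by positivity))
    have h6 : (2 * π)⁻¹ * (2 * π * (V z + ε * (s * ‖b‖) ^ 2) +
        π * (s ^ 2 / 2 * Q b b + s ^ 2 / 2 * Q (Complex.I • b) (Complex.I • b))) =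
        V z + s ^ 2 * ((Q b b + Q (Complex.I • b) (Complex.I • b)) / 4 + ε * ‖b‖ ^ 2) := by
      field_simp
      ring
    rw [h6] at h5
    have h7 : 0 ≤ s ^ 2 * ((Q b b + Q (Complex.I • b) (Complex.I • b)) / 4 + ε * ‖b‖ ^ 2) := by
      linarith
    exact nonneg_of_mul_nonneg_right h7 (by positivity)
  by_contra hneg
  push Not at hneg
  set L := Q b b + Q (Complex.I • b) (Complex.I • b) with hL
  have h1 := key (-L / (8 * (‖b‖ ^ 2 + 1))) (by
    have : 0 < -L := by linarith
    positivity)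
  have h2 : -L / (8 * (‖b‖ ^ 2 + 1)) * ‖b‖ ^ 2 ≤ -L / 8 := by
    rw [div_mul_eq_mul_div, div_le_div_iff₀ (by positivity) (by norm_num)]
    nlinarith [sq_nonneg ‖b‖]
  linarith

/-! ### the Levi matrix -/

/-- the polarised form -/
lemma levi_herm {V : (Fin n → ℂ) → ℝ} (hV : ContDiff ℝ ∞ V) (z : Fin n → ℂ) :
    (levi V z).IsHermitian := by
  have hV2 : ContDiff ℝ 2 V := hV.of_le two_le
  ext j k
  rw [Matrix.conjTranspose_apply]
  unfold levi hess
  rw [hess_symm hV2 z (Pi.single k 1) (Pi.single j 1),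
    hess_symm hV2 z (Pi.single k Complex.I) (Pi.single j Complex.I),
    hess_symm hV2 z (Pi.single k Complex.I) (Pi.single j 1),
    hess_symm hV2 z (Pi.single k 1) (Pi.single j Complex.I)]
  simp only [star_mul', star_add, Complex.star_def, Complex.conj_ofReal, Complex.conj_I, map_div₀,
    map_one]
  have : (starRingEnd ℂ) 4 = 4 := by
    rw [← Complex.ofReal_ofNat, Complex.conj_ofReal]
  rw [this]
  push_cast
  ring

lemma decomp (x : Fin n → ℂ) : x = ∑ k, ((x k).re • (Pi.single k (1 : ℂ) : Fin n → ℂ) +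
    (x k).im • (Pi.single k Complex.I : Fin n → ℂ)) := by
  ext i
  rw [Finset.sum_apply, Finset.sum_eq_single i]
  · simp only [Pi.add_apply, Pi.smul_apply, Pi.single_eq_same, Complex.real_smul, mul_one]
    exact (Complex.re_add_im _).symm
  · intro k _ hk
    simp [Pi.single_eq_of_ne (Ne.symm hk)]
  · intro h; exact absurd (Finset.mem_univ _) h

lemma bil (Q : (Fin n → ℂ) →L[ℝ] (Fin n → ℂ) →L[ℝ] ℝ) (a b : Fin n → ℝ) (e f : Fin n → Fin n → ℂ) :
    Q (∑ j, (a j • e j + b j • f j)) (∑ k, (a k • e k + b k • f k)) =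
      ∑ j, ∑ k, ((a j * a k) * Q (e j) (e k) + (a j * b k) * Q (e j) (f k) +
        (b j * a k) * Q (f j) (e k) + (b j * b k) * Q (f j) (f k)) := by
  rw [map_sum Q, _root_.sum_apply]
  apply Finset.sum_congr rfl
  intro j _
  rw [map_sum]
  apply Finset.sum_congr rfl
  intro k _
  simp only [map_add, map_smul, _root_.add_apply, _root_.smul_apply, smul_eq_mul]
  ring

/-- the quadratic form of the Levi matrix -/
theorem levi_quad {V : (Fin n → ℂ) → ℝ} (z x : Fin n → ℂ) :
    (star x ⬝ᵥ (levi V z *ᵥ x)).re = (hess V z x x + hess V z (Complex.I • x) (Complex.I • x)) / 4 := by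
  set Q := fderiv ℝ (fderiv ℝ V) z with hQ
  have hI : Complex.I • x = ∑ k, ((-(x k).im) • (Pi.single k (1 : ℂ) : Fin n → ℂ) +
      (x k).re • (Pi.single k Complex.I : Fin n → ℂ)) := by
    have := decomp (Complex.I • x)
    simpa using this
  have h1 : hess V z x x = ∑ j, ∑ k, (((x j).re * (x k).re) * Q (Pi.single j 1) (Pi.single k 1) +
      ((x j).re * (x k).im) * Q (Pi.single j 1) (Pi.single k Complex.I) +
      ((x j).im * (x k).re) * Q (Pi.single j Complex.I) (Pi.single k 1) +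
      ((x j).im * (x k).im) * Q (Pi.single j Complex.I) (Pi.single k Complex.I)) := by
    unfold hess
    rw [← hQ]
    conv_lhs => rw [decomp x]
    exact bil Q _ _ _ _
  have h2 : hess V z (Complex.I • x) (Complex.I • x) =
      ∑ j, ∑ k, (((x j).im * (x k).im) * Q (Pi.single j 1) (Pi.single k 1) -
      ((x j).im * (x k).re) * Q (Pi.single j 1) (Pi.single k Complex.I) -
      ((x j).re * (x k).im) * Q (Pi.single j Complex.I) (Pi.single k 1) +
      ((x j).re * (x k).re) * Q (Pi.single j Complex.I) (Pi.single k Complex.I)) := by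
    unfold hess
    rw [← hQ, hI, bil Q (fun k => -(x k).im) (fun k => (x k).re) _ _]
    apply Finset.sum_congr rfl
    intro j _
    apply Finset.sum_congr rfl
    intro k _
    ring
  rw [h1, h2, ← Finset.sum_add_distrib, Finset.sum_div]
  simp only [dotProduct, mulVec, Finset.mul_sum, Complex.re_sum]
  apply Finset.sum_congr rfl
  intro j _
  rw [← Finset.sum_add_distrib, Finset.sum_div]
  apply Finset.sum_congr rfl
  intro k _
  unfold levi hess
  rw [← hQ]
  simp only [Pi.star_apply, Complex.star_def, Complex.mul_re, Complex.mul_im, Complex.conj_re,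
    Complex.conj_im, Complex.add_re, Complex.add_im, Complex.ofReal_re, Complex.ofReal_im,
    Complex.I_re, Complex.I_im]
  have e1 : ((1 : ℂ) / 4).re = 1 / 4 := by norm_num
  have e2 : ((1 : ℂ) / 4).im = 0 := by norm_num
  rw [e1, e2]
  ring

lemma levi_psd {V : (Fin n → ℂ) → ℝ} (hV : ContDiff ℝ ∞ V) (z : Fin n → ℂ)
    (h : ∀ b : Fin n → ℂ, 0 ≤ hess V z b b + hess V z (Complex.I • b) (Complex.I • b)) :
    (levi V z).PosSemidef := by
  apply Matrix.PosSemidef.of_dotProduct_mulVec_nonneg (levi_herm hV z)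
  intro x
  have h1 := levi_quad (V := V) z x
  have h2 : (star x ⬝ᵥ (levi V z *ᵥ x)).im = 0 := by
    have := (levi_herm hV z).im_star_dotProduct_mulVec_self x
    simpa using this
  rw [Complex.le_def]
  constructor
  · rw [h1, Complex.zero_re]
    have := h x
    linarith
  · rw [h2, Complex.zero_im]

end Moll

end Pool.Agent.Ceg
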