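import Pool.Agent.Ceg.MollA

/-!
# Radial mollifiers
-/

set_option autoImplicit false

namespace Pool.Agent.Ceg

open MeasureTheory Matrix Filter Topology
open scoped ContDiff ENNReal Real ComplexOrder

namespace Moll

variable {n : ℕ}

/-- the radial bump function before normalisation -/
noncomputable def r0 (ζ : Fin n → ℂ) : ℝ := Real.smoothTransition (1 - ∑ i, ‖ζ i‖ ^ 2)

lemma r0_smooth : ContDiff ℝ (⊤ : ℕ∞) (r0 (n := n)) := by
  unfold r0
  apply Real.smoothTransition.contDiff.comp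
  apply contDiff_const.sub
  apply ContDiff.sum
  intro i _
  exact (contDiff_apply ℝ ℂ i).norm_sq ℝ

lemma r0_nonneg (ζ : Fin n → ℂ) : 0 ≤ r0 ζ := Real.smoothTransition.nonneg _

lemma r0_le_one (ζ : Fin n → ℂ) : r0 ζ ≤ 1 := Real.smoothTransition.le_one _

lemma r0_zero : r0 (0 : Fin n → ℂ) = 1 := by
  unfold r0
  apply Real.smoothTransition.one_of_one_le
  simp

lemma r0_supp {ζ : Fin n → ℂ} (h : r0 ζ ≠ 0) : ‖ζ‖ ≤ 1 := by
  rw [pi_norm_le_iff_of_nonneg zero_le_one]
  intro i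
  by_contra hi
  push Not at hi
  apply h
  apply Real.smoothTransition.zero_of_nonpos
  have h1 : ‖ζ i‖ ^ 2 ≤ ∑ i, ‖ζ i‖ ^ 2 :=
    Finset.single_le_sum (f := fun i => ‖ζ i‖ ^ 2) (fun i _ => sq_nonneg _) (Finset.mem_univ i)
  nlinarith

lemma r0_rot {c : ℂ} (hc : ‖c‖ = 1) (ζ : Fin n → ℂ) : r0 (c • ζ) = r0 ζ := by
  unfold r0
  congr 2
  apply Finset.sum_congr rfl
  intro i _
  rw [Pi.smul_apply, norm_smul, hc, one_mul]

lemma r0_cont : Continuous (r0 (n := n)) := r0_smooth.continuous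

lemma r0_hcs : HasCompactSupport (r0 (n := n)) := by
  apply HasCompactSupport.intro (isCompact_closedBall (0 : Fin n → ℂ) 1)
  intro ζ hζ
  by_contra h
  exact hζ (mem_closedBall_zero_iff.2 (r0_supp h))

lemma r0_int : Integrable (r0 (n := n)) := r0_cont.integrable_of_hasCompactSupport r0_hcs

lemma r0_pos : 0 < ∫ ζ, r0 (n := n) ζ :=
  integral_pos_of_integrable_nonneg_nonzero (x := 0) r0_cont r0_int r0_nonneg (by
    rw [r0_zero]; exact one_ne_zero)

/-- the normalised radial bump function -/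
noncomputable def rh (ζ : Fin n → ℂ) : ℝ := r0 ζ / ∫ ζ, r0 (n := n) ζ

lemma rh_smooth : ContDiff ℝ (⊤ : ℕ∞) (rh (n := n)) := r0_smooth.div_const _

lemma rh_cont : Continuous (rh (n := n)) := rh_smooth.continuous

lemma rh_nonneg (ζ : Fin n → ℂ) : 0 ≤ rh ζ := div_nonneg (r0_nonneg _) r0_pos.le

lemma rh_supp {ζ : Fin n → ℂ} (h : rh ζ ≠ 0) : ‖ζ‖ ≤ 1 := by
  apply r0_supp
  intro h0
  apply h
  unfold rh
  rw [h0, zero_div]

lemma rh_rot {c : ℂ} (hc : ‖c‖ = 1) (ζ : Fin n → ℂ) : rh (c • ζ) = rh ζ := by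
  unfold rh
  rw [r0_rot hc]

lemma rh_neg (ζ : Fin n → ℂ) : rh (-ζ) = rh ζ := by
  have := rh_rot (c := -1) (by simp) ζ
  simpa using this

lemma rh_hcs : HasCompactSupport (rh (n := n)) := by
  apply HasCompactSupport.intro (isCompact_closedBall (0 : Fin n → ℂ) 1)
  intro ζ hζ
  by_contra h
  exact hζ (mem_closedBall_zero_iff.2 (rh_supp h))

lemma rh_int : Integrable (rh (n := n)) := rh_cont.integrable_of_hasCompactSupport rh_hcs

lemma rh_one : ∫ ζ, rh (n := n) ζ = 1 := by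
  unfold rh
  rw [integral_div, div_self r0_pos.ne']

/-- bounded measurable functions -/
structure BM (U : (Fin n → ℂ) → ℝ) (C : ℝ) : Prop where
  meas : Measurable U
  bdd : ∀ z, |U z| ≤ C

lemma BM.int {U : (Fin n → ℂ) → ℝ} {C : ℝ} (hU : BM U C) {p : (Fin n → ℂ) → (Fin n → ℂ)}
    (hp : Continuous p) : Integrable (fun ζ => rh ζ * U (p ζ)) := by
  have h1 : Integrable (fun ζ : Fin n → ℂ => rh ζ * C) := rh_int.mul_const C
  apply h1.mono'
  · exact (rh_cont.measurable.mul (hU.meas.comp hp.measurable)).aestronglyMeasurable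
  · apply Eventually.of_forall
    intro ζ
    rw [Real.norm_eq_abs, abs_mul, abs_of_nonneg (rh_nonneg ζ)]
    exact mul_le_mul_of_nonneg_left (hU.bdd _) (rh_nonneg ζ)

/-- rotations preserve the volume -/
lemma mp_rot {c : ℂ} (hc : ‖c‖ = 1) : MeasurePreserving (fun ζ : Fin n → ℂ => c • ζ) := by
  have h1 : MeasurePreserving (fun w : ℂ => c * w) := by
    have h2 := (rotation (⟨c, mem_sphere_zero_iff_norm.2 hc⟩ : Circle)).measurePreserving
    exact h2
  exact volume_preserving_pi (fun _ : Fin n => h1)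

/-- the averages -/
noncomputable def G (U : (Fin n → ℂ) → ℝ) (z : Fin n → ℂ) (l : ℂ) : ℝ :=
  ∫ ζ, rh ζ * U (z + l • ζ)

lemma G_rot (U : (Fin n → ℂ) → ℝ) (z : Fin n → ℂ) {c : ℂ} (hc : ‖c‖ = 1) (l : ℂ) :
    G U z (l * c) = G U z l := by
  unfold G
  have h1 := (mp_rot (n := n) hc).integral_comp
    (Homeomorph.smulOfNeZero c (by rintro rfl; simp at hc)).measurableEmbedding
    (fun ζ => rh ζ * U (z + l • ζ))
  rw [← h1]
  congr 1
  funext ζ
  rw [rh_rot hc, mul_smul]

lemma G_abs (U : (Fin n → ℂ) → ℝ) (z : Fin n → ℂ) (l : ℂ) : G U z l = G U z (‖l‖ : ℂ) := by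
  by_cases hl : l = 0
  · rw [hl, norm_zero, Complex.ofReal_zero]
  · have h1 : (‖l‖ : ℂ) ≠ 0 := by
      rw [Complex.ofReal_ne_zero]; exact norm_ne_zero_iff.2 hl
    have h2 := G_rot U z (c := l / ‖l‖) (by
      rw [norm_div, Complex.norm_real, norm_norm, div_self (norm_ne_zero_iff.2 hl)]) (‖l‖ : ℂ)
    rw [mul_div_cancel₀ _ h1] at h2
    exact h2

/-- the sub-mean value property passes to the averages -/
lemma submean_int {U : (Fin n → ℂ) → ℝ} {C : ℝ} (hU : BM U C) {p q : (Fin n → ℂ) → (Fin n → ℂ)}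
    (hp : Continuous p) (hq : Continuous q) (h : ∀ ζ, rh ζ ≠ 0 →
      U (p ζ) ≤ (2 * π)⁻¹ * ∫ θ in (0 : ℝ)..(2 * π), U (p ζ + Complex.exp (θ * Complex.I) • q ζ)) :
    ∫ ζ, rh ζ * U (p ζ) ≤ (2 * π)⁻¹ * ∫ θ in (0 : ℝ)..(2 * π),
      ∫ ζ, rh ζ * U (p ζ + Complex.exp (θ * Complex.I) • q ζ) := by
  have hpi := Real.pi_pos
  have h2pi : (0 : ℝ) ≤ 2 * π := by positivity
  have hint : Integrable (Function.uncurry fun (ζ : Fin n → ℂ) (θ : ℝ) =>
      rh ζ * U (p ζ + Complex.exp (θ * Complex.I) • q ζ))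
      (volume.prod (volume.restrict (Set.Ioc 0 (2 * π)))) := by
    have h1 : Integrable (fun x : (Fin n → ℂ) × ℝ => (rh x.1 * C) * 1)
        (volume.prod (volume.restrict (Set.Ioc 0 (2 * π)))) :=
      (rh_int.mul_const C).mul_prod (integrable_const 1)
    apply h1.mono'
    · apply Measurable.aestronglyMeasurable
      apply Measurable.mul
      · exact rh_cont.measurable.comp measurable_fst
      · apply hU.meas.comp
        apply Continuous.measurable
        apply Continuous.add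
        · exact hp.comp continuous_fst
        · have c1 : Continuous (fun a : (Fin n → ℂ) × ℝ => Complex.exp (a.2 * Complex.I)) := by
            fun_prop
          exact c1.smul (hq.comp continuous_fst)
    · apply Eventually.of_forall
      intro x
      simp only [Function.uncurry]
      rw [Real.norm_eq_abs, abs_mul, abs_of_nonneg (rh_nonneg _), mul_one]
      exact mul_le_mul_of_nonneg_left (hU.bdd _) (rh_nonneg _)
  have h3 : ∫ ζ, rh ζ * U (p ζ) ≤ ∫ ζ, (2 * π)⁻¹ * ∫ θ in (0 : ℝ)..(2 * π),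
      rh ζ * U (p ζ + Complex.exp (θ * Complex.I) • q ζ) := by
    apply integral_mono (hU.int hp)
    · apply Integrable.const_mul
      simp_rw [intervalIntegral.integral_of_le h2pi]
      exact hint.integral_prod_left
    · intro ζ
      simp only
      rw [intervalIntegral.integral_const_mul]
      by_cases h0 : rh ζ = 0
      · rw [h0]; simp
      · calc rh ζ * U (p ζ) ≤ rh ζ * ((2 * π)⁻¹ * ∫ θ in (0 : ℝ)..(2 * π),
              U (p ζ + Complex.exp (θ * Complex.I) • q ζ)) :=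
              mul_le_mul_of_nonneg_left (h ζ h0) (rh_nonneg ζ)
          _ = _ := by ring
  refine h3.trans (le_of_eq ?_)
  rw [integral_const_mul]
  congr 1
  simp_rw [intervalIntegral.integral_of_le h2pi]
  exact integral_integral_swap hint

/-! ### scaling -/

lemma real_smul_eq (t : ℝ) (x : Fin n → ℂ) : (t : ℂ) • x = t • x := by
  ext i
  simp

lemma G_scale (U : (Fin n → ℂ) → ℝ) (z : Fin n → ℂ) {t : ℝ} (ht : 0 < t) :
    G U z t = (t ^ Module.finrank ℝ (Fin n → ℂ))⁻¹ * ∫ x, rh (t⁻¹ • x) * U (z + x) := by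
  have h1 := Measure.integral_comp_smul (volume : Measure (Fin n → ℂ))
    (fun x => rh (t⁻¹ • x) * U (z + x)) t
  rw [abs_of_pos (by positivity), smul_eq_mul] at h1
  rw [← h1]
  unfold G
  congr 1
  funext ζ
  rw [smul_smul, inv_mul_cancel₀ ht.ne', one_smul, real_smul_eq]

lemma rh_le (ζ : Fin n → ℂ) : rh ζ ≤ (∫ ζ, r0 (n := n) ζ)⁻¹ := by
  unfold rh
  rw [div_eq_mul_inv]
  exact mul_le_of_le_one_left (inv_nonneg.2 r0_pos.le) (r0_le_one _)

lemma G_cont {U : (Fin n → ℂ) → ℝ} {C : ℝ} (hU : BM U C) (z : Fin n → ℂ) :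
    ContinuousOn (fun t : ℝ => G U z t) (Set.Ioi 0) := by
  intro t₀ ht₀
  rw [Set.mem_Ioi] at ht₀
  apply ContinuousAt.continuousWithinAt
  have hC : 0 ≤ C := (abs_nonneg _).trans (hU.bdd 0)
  have h1 : ContinuousAt (fun t : ℝ => (t ^ Module.finrank ℝ (Fin n → ℂ))⁻¹ *
      ∫ x, rh (t⁻¹ • x) * U (z + x)) t₀ := by
    apply ContinuousAt.mul
    · apply ContinuousAt.inv₀ (by fun_prop) (by positivity)
    · apply continuousAt_of_dominated (bound := fun x => (Metric.closedBall (0 : Fin n → ℂ) (2 * t₀)).indicator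
        (fun _ => (∫ ζ, r0 (n := n) ζ)⁻¹ * C) x)
      · apply Eventually.of_forall
        intro t
        apply Measurable.aestronglyMeasurable
        apply Measurable.mul
        · exact rh_cont.measurable.comp (measurable_const_smul _)
        · exact hU.meas.comp (measurable_const_add z)
      · have hmem : Set.Ioo 0 (2 * t₀) ∈ 𝓝 t₀ := Ioo_mem_nhds ht₀ (by linarith)
        filter_upwards [hmem] with t ht
        apply Eventually.of_forall
        intro x
        by_cases h0 : rh (t⁻¹ • x) = 0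
        · rw [h0, zero_mul, norm_zero]
          apply Set.indicator_nonneg
          intro _ _
          exact mul_nonneg (inv_nonneg.2 r0_pos.le) hC
        · have h2 := rh_supp h0
          rw [norm_smul, norm_inv, Real.norm_of_nonneg ht.1.le] at h2
          have h3 : ‖x‖ ≤ t := by
            have h5 := mul_le_mul_of_nonneg_left h2 ht.1.le
            rwa [← mul_assoc, mul_inv_cancel₀ ht.1.ne', one_mul, mul_one] at h5
          have h4 : x ∈ Metric.closedBall (0 : Fin n → ℂ) (2 * t₀) := by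
            rw [mem_closedBall_zero_iff]
            linarith [ht.2]
          rw [Set.indicator_of_mem h4, norm_mul, Real.norm_of_nonneg (rh_nonneg _), Real.norm_eq_abs]
          exact mul_le_mul (rh_le _) (hU.bdd _) (abs_nonneg _) (inv_nonneg.2 r0_pos.le)
      · rw [integrable_indicator_iff measurableSet_closedBall]
        exact integrableOn_const (measure_closedBall_lt_top).ne
      · apply Eventually.of_forall
        intro x
        apply ContinuousAt.mul _ continuousAt_const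
        apply rh_cont.continuousAt.comp
        exact (continuousAt_id.inv₀ ht₀.ne').smul continuousAt_const
  apply h1.congr
  filter_upwards [Ioi_mem_nhds ht₀] with t ht
  exact (G_scale U z ht).symm

lemma G_smooth {U : (Fin n → ℂ) → ℝ} {C : ℝ} (hU : BM U C) {t : ℝ} (ht : 0 < t) :
    ContDiff ℝ (⊤ : ℕ∞) (fun z => G U z t) := by
  have hC : 0 ≤ C := (abs_nonneg _).trans (hU.bdd 0)
  have hUl : LocallyIntegrable U (volume : Measure (Fin n → ℂ)) := by
    have h1 : LocallyIntegrable (fun _ : Fin n → ℂ => C) volume := locallyIntegrable_const C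
    apply h1.mono hU.meas.aestronglyMeasurable
    apply Eventually.of_forall
    intro z
    rw [Real.norm_eq_abs, Real.norm_of_nonneg hC]
    exact hU.bdd z
  have hs : ContDiff ℝ (⊤ : ℕ∞) (fun x : Fin n → ℂ => rh (t⁻¹ • x)) :=
    rh_smooth.comp (contDiff_const_smul _)
  have hcs : HasCompactSupport (fun x : Fin n → ℂ => rh (t⁻¹ • x)) :=
    rh_hcs.comp_homeomorph (Homeomorph.smulOfNeZero t⁻¹ (inv_ne_zero ht.ne'))
  have h2 := hcs.contDiff_convolution_left (ContinuousLinearMap.mul ℝ ℝ) hs hUl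
  have h3 : (fun z => G U z t) = fun z => (t ^ Module.finrank ℝ (Fin n → ℂ))⁻¹ *
      (convolution (fun x : Fin n → ℂ => rh (t⁻¹ • x)) U (ContinuousLinearMap.mul ℝ ℝ) volume) z := by
    funext z
    rw [G_scale U z ht]
    congr 1
    unfold convolution
    rw [← integral_neg_eq_self]
    congr 1
    funext x
    rw [smul_neg, rh_neg, ContinuousLinearMap.mul_apply', sub_eq_add_neg]
  rw [h3]
  exact contDiff_const.mul h2

/-! ### radial monotonicity -/

lemma radial_mono {g : ℝ → ℝ} {r g₀ : ℝ} (hc : ContinuousOn g (Set.Ioi 0))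
    (husc : ∀ c > g₀, ∃ δ > 0, ∀ t, 0 < t → t < δ → g t < c)
    (hlow : ∀ t, 0 < t → t ≤ r → g₀ ≤ g t)
    (hsm : ∀ t₀ s, 0 < s → s < t₀ → t₀ + s ≤ r → g t₀ ≤ (2 * π)⁻¹ *
      ∫ θ in (0 : ℝ)..(2 * π), g ‖(t₀ : ℂ) + Complex.exp (θ * Complex.I) * s‖) :
    MonotoneOn g (Set.Ioc 0 r) := by
  intro t₁ ht₁ t₂ ht₂ h12
  by_contra hlt
  push Not at hlt
  have hpi := Real.pi_pos
  have h0 : g₀ ≤ g t₂ := hlow t₂ ht₂.1 ht₂.2
  obtain ⟨δ, hδ, hδ'⟩ := husc (g t₁) (by linarith)
  have hδ1 : δ ≤ t₁ := by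
    by_contra h
    push Not at h
    exact lt_irrefl _ (hδ' t₁ ht₁.1 h)
  set δ' := δ / 2 with hδ'd
  have hδ'0 : 0 < δ' := by positivity
  have hsmall : ∀ t, 0 < t → t ≤ δ' → g t < g t₁ := fun t h0 h1 => hδ' t h0 (by linarith)
  have hsub : Set.Icc δ' t₂ ⊆ Set.Ioi 0 := fun t ht => lt_of_lt_of_le hδ'0 ht.1
  have hcI : ContinuousOn g (Set.Icc δ' t₂) := hc.mono hsub
  have hmem1 : t₁ ∈ Set.Icc δ' t₂ := ⟨by linarith, h12⟩
  obtain ⟨x, hx, hxmax⟩ := isCompact_Icc.exists_isMaxOn ⟨t₁, hmem1⟩ hcI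
  set M := g x with hM
  have hMt1 : g t₁ ≤ M := hxmax hmem1
  -- the largest argument of the maximum
  have hK : IsCompact (Set.Icc δ' t₂ ∩ g ⁻¹' {M}) := by
    have := hcI.preimage_isClosed_of_isClosed isClosed_Icc (isClosed_singleton (x := M))
    exact isCompact_Icc.of_isClosed_subset this Set.inter_subset_left
  obtain ⟨t₀, ht₀, ht₀max⟩ := hK.exists_isMaxOn ⟨x, hx, rfl⟩ (continuousOn_id (s := _))
  have hgt0 : g t₀ = M := ht₀.2
  have ht0lt : t₀ < t₂ := by
    apply lt_of_le_of_ne ht₀.1.2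
    rintro rfl
    linarith
  have ht0gt : δ' < t₀ := by
    by_contra h
    push Not at h
    have := hsmall t₀ (hsub ht₀.1) h
    linarith
  have hle : ∀ t, 0 < t → t ≤ t₂ → g t ≤ M := by
    intro t h0 h1
    rcases le_total t δ' with h2 | h2
    · exact (hsmall t h0 h2).le.trans hMt1
    · exact hxmax ⟨h2, h1⟩
  have hstrict : ∀ t, t₀ < t → t ≤ t₂ → g t < M := by
    intro t h0 h1
    have hmem : t ∈ Set.Icc δ' t₂ := ⟨by linarith, h1⟩
    apply lt_of_le_of_ne (hxmax hmem)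
    intro heq
    have : t ≤ t₀ := ht₀max ⟨hmem, heq⟩
    linarith
  set s := min (t₂ - t₀) (t₀ / 2) with hs
  have ht0pos : 0 < t₀ := hsub ht₀.1
  have hs0 : 0 < s := lt_min (by linarith) (by linarith)
  have hs1 : s ≤ t₂ - t₀ := min_le_left _ _
  have hs2 : s ≤ t₀ / 2 := min_le_right _ _
  have h3 := hsm t₀ s hs0 (by linarith) (by linarith [ht₂.2])
  have hn1 : ∀ θ : ℝ, ‖(t₀ : ℂ) + Complex.exp (θ * Complex.I) * s‖ ≤ t₀ + s := by
    intro θ
    refine (norm_add_le _ _).trans ?_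
    rw [norm_mul, Complex.norm_exp_ofReal_mul_I, one_mul, Complex.norm_real, Complex.norm_real,
      Real.norm_of_nonneg ht0pos.le, Real.norm_of_nonneg hs0.le]
  have hn2 : ∀ θ : ℝ, 0 < ‖(t₀ : ℂ) + Complex.exp (θ * Complex.I) * s‖ := by
    intro θ
    have h4 := norm_sub_norm_le (t₀ : ℂ) (-(Complex.exp (θ * Complex.I) * s))
    rw [sub_neg_eq_add, norm_neg, norm_mul, Complex.norm_exp_ofReal_mul_I, one_mul,
      Complex.norm_real, Complex.norm_real, Real.norm_of_nonneg ht0pos.le,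
      Real.norm_of_nonneg hs0.le] at h4
    linarith
  have hcont : Continuous (fun θ : ℝ => g ‖(t₀ : ℂ) + Complex.exp (θ * Complex.I) * s‖) := by
    apply hc.comp_continuous (by fun_prop)
    intro θ
    exact hn2 θ
  have h5 : ∫ θ in (0 : ℝ)..(2 * π), g ‖(t₀ : ℂ) + Complex.exp (θ * Complex.I) * s‖ <
      ∫ _ in (0 : ℝ)..(2 * π), M := by
    apply intervalIntegral.integral_lt_integral_of_continuousOn_of_le_of_exists_lt (by positivity)
      hcont.continuousOn continuousOn_const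
    · intro θ _
      exact hle _ (hn2 θ) ((hn1 θ).trans (by linarith))
    · refine ⟨0, ⟨le_rfl, by positivity⟩, ?_⟩
      have h6 : ‖(t₀ : ℂ) + Complex.exp ((0 : ℝ) * Complex.I) * s‖ = t₀ + s := by
        rw [Complex.ofReal_zero, zero_mul, Complex.exp_zero, one_mul, ← Complex.ofReal_add,
          Complex.norm_real, Real.norm_of_nonneg (by linarith)]
      rw [h6]
      exact hstrict _ (by linarith) (by linarith)
  rw [intervalIntegral.integral_const, sub_zero, smul_eq_mul] at h5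
  have h7 : (2 * π)⁻¹ * ∫ θ in (0 : ℝ)..(2 * π),
      g ‖(t₀ : ℂ) + Complex.exp (θ * Complex.I) * s‖ < M := by
    calc _ < (2 * π)⁻¹ * (2 * π * M) := mul_lt_mul_of_pos_left h5 (by positivity)
      _ = M := by field_simp
  linarith

end Moll

end Pool.Agent.Ceg
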