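import Pool.Agent.Ceg.MollB

/-!
# Smooth plurisubharmonic functions decreasing to a bounded plurisubharmonic function
-/

set_option autoImplicit false

namespace Pool.Agent.Ceg

open MeasureTheory Matrix Filter Topology
open scoped ContDiff ENNReal Real ComplexOrder

namespace Moll

variable {n : ℕ}

lemma usc_nhds {D : Set (Fin n → ℂ)} {u : (Fin n → ℂ) → ℝ} (hD : IsOpen D)
    (hu : UpperSemicontinuousOn u D) {z : Fin n → ℂ} (hz : z ∈ D) {c : ℝ} (hc : u z < c) :
    ∀ᶠ w in 𝓝 z, w ∈ D ∧ u w < c := by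
  have h1 := hu z hz c hc
  rw [hD.nhdsWithin_eq hz] at h1
  filter_upwards [h1, hD.mem_nhds hz] with w h2 h3
  exact ⟨h3, h2⟩

lemma meas_U {D : Set (Fin n → ℂ)} {u : (Fin n → ℂ) → ℝ} (hD : IsOpen D)
    (hu : UpperSemicontinuousOn u D) : Measurable (D.indicator u) := by
  apply measurable_of_Iio
  intro c
  have h1 : IsOpen {z | z ∈ D ∧ u z < c} := by
    rw [isOpen_iff_mem_nhds]
    intro z hz
    exact usc_nhds hD hu hz.1 hz.2
  by_cases hc : 0 < c
  · have h2 : D.indicator u ⁻¹' Set.Iio c = {z | z ∈ D ∧ u z < c} ∪ Dᶜ := by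
      ext z
      by_cases hz : z ∈ D
      · simp [hz]
      · simp [hz, hc]
    rw [h2]
    exact h1.measurableSet.union hD.measurableSet.compl
  · have h2 : D.indicator u ⁻¹' Set.Iio c = {z | z ∈ D ∧ u z < c} := by
      ext z
      by_cases hz : z ∈ D
      · simp [hz]
      · simp [hz, hc]
    rw [h2]
    exact h1.measurableSet

lemma submean_U {D : Set (Fin n → ℂ)} {u : (Fin n → ℂ) → ℝ} (hu : IsPSHOn u D)
    {z b : Fin n → ℂ} (h : ∀ ζ : ℂ, ‖ζ‖ ≤ 1 → z + ζ • b ∈ D) :
    D.indicator u z ≤ (2 * π)⁻¹ * ∫ θ in (0 : ℝ)..(2 * π),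
      D.indicator u (z + Complex.exp (θ * Complex.I) • b) := by
  have hz : z ∈ D := by simpa using h 0 (by simp)
  have h1 := hu.2 z hz b h
  rw [Set.indicator_of_mem hz]
  refine h1.trans (le_of_eq ?_)
  congr 2
  funext θ
  rw [Set.indicator_of_mem (h _ (by rw [Complex.norm_exp_ofReal_mul_I]))]

variable {D : Set (Fin n → ℂ)} {u : (Fin n → ℂ) → ℝ} {r C : ℝ} {z : Fin n → ℂ}

lemma G_low (hu : IsPSHOn u D) (hU : BM (D.indicator u) C) (hz : Metric.closedBall z r ⊆ D)
    {t : ℝ} (ht : 0 < t) (htr : t ≤ r) : u z ≤ G (D.indicator u) z t := by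
  have hzD : z ∈ D := hz (Metric.mem_closedBall_self (by linarith))
  have hpi := Real.pi_pos
  have h1 := submean_int hU (p := fun _ => z) (q := fun ζ => (t : ℂ) • ζ) continuous_const
    (by fun_prop) (by
      intro ζ hζ
      apply submean_U hu
      intro l hl
      apply hz
      rw [mem_closedBall_iff_norm, add_sub_cancel_left, norm_smul, norm_smul, Complex.norm_real,
        Real.norm_of_nonneg ht.le]
      have h2 := rh_supp hζ
      calc ‖l‖ * (t * ‖ζ‖) ≤ 1 * (t * 1) := by gcongr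
        _ ≤ r := by linarith)
  have h3 : ∫ ζ : Fin n → ℂ, rh ζ * D.indicator u z = u z := by
    rw [integral_mul_const, rh_one, one_mul, Set.indicator_of_mem hzD]
  have h4 : ∀ θ : ℝ, ∫ ζ, rh ζ * D.indicator u (z + Complex.exp (θ * Complex.I) • ((t : ℂ) • ζ)) =
      G (D.indicator u) z t := by
    intro θ
    rw [← G_rot (D.indicator u) z (Complex.norm_exp_ofReal_mul_I θ) t]
    unfold G
    congr 1
    funext ζ
    rw [smul_smul, mul_comm (Complex.exp _)]
  simp only [h3, h4, intervalIntegral.integral_const, sub_zero, smul_eq_mul] at h1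
  rwa [← mul_assoc, inv_mul_cancel₀ (by positivity), one_mul] at h1

lemma G_up (hD : IsOpen D) (hu : IsPSHOn u D) (hU : BM (D.indicator u) C) (hz : z ∈ D)
    {c : ℝ} (hc : u z < c) : ∃ δ > 0, ∀ t : ℝ, 0 < t → t < δ → G (D.indicator u) z t < c := by
  obtain ⟨c', h1, h2⟩ := exists_between hc
  have h3 := usc_nhds hD hu.1 hz h1
  rw [Metric.eventually_nhds_iff] at h3
  obtain ⟨δ, hδ, h4⟩ := h3
  refine ⟨δ, hδ, fun t ht htδ => ?_⟩
  have h5 : G (D.indicator u) z t ≤ ∫ ζ, rh (n := n) ζ * c' := by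
    unfold G
    apply integral_mono (hU.int (by fun_prop)) (rh_int.mul_const c')
    intro ζ
    simp only
    by_cases h0 : rh ζ = 0
    · rw [h0, zero_mul, zero_mul]
    · have h6 := rh_supp h0
      have h7 : dist (z + (t : ℂ) • ζ) z < δ := by
        rw [dist_eq_norm, add_sub_cancel_left, norm_smul, Complex.norm_real,
          Real.norm_of_nonneg ht.le]
        nlinarith
      obtain ⟨h8, h9⟩ := h4 h7
      rw [Set.indicator_of_mem h8]
      exact mul_le_mul_of_nonneg_left h9.le (rh_nonneg ζ)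
  rw [integral_mul_const, rh_one, one_mul] at h5
  linarith

lemma G_mono (hD : IsOpen D) (hu : IsPSHOn u D) (hU : BM (D.indicator u) C)
    (hr : 0 < r) (hz : Metric.closedBall z r ⊆ D) :
    MonotoneOn (fun t : ℝ => G (D.indicator u) z t) (Set.Ioc 0 r) := by
  have hzD : z ∈ D := hz (Metric.mem_closedBall_self hr.le)
  apply radial_mono (g₀ := u z) (G_cont hU z)
  · intro c hc
    exact G_up hD hu hU hzD hc
  · intro t h0 h1
    exact G_low hu hU hz h0 h1
  · intro t₀ s hs hst hsr
    have h1 := submean_int hU (p := fun ζ => z + (t₀ : ℂ) • ζ) (q := fun ζ => (s : ℂ) • ζ)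
      (by fun_prop) (by fun_prop) (by
        intro ζ hζ
        apply submean_U hu
        intro l hl
        apply hz
        have e : z + (t₀ : ℂ) • ζ + l • ((s : ℂ) • ζ) - z = ((t₀ : ℂ) + l * s) • ζ := by
          rw [add_smul, mul_smul]; abel
        rw [mem_closedBall_iff_norm, e, norm_smul]
        have h2 := rh_supp hζ
        have h3 : ‖(t₀ : ℂ) + l * s‖ ≤ t₀ + s := by
          refine (norm_add_le _ _).trans ?_
          rw [norm_mul, Complex.norm_real, Complex.norm_real, Real.norm_of_nonneg hs.le,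
            Real.norm_of_nonneg (hs.trans hst).le]
          nlinarith
        calc ‖(t₀ : ℂ) + l * s‖ * ‖ζ‖ ≤ (t₀ + s) * 1 := by
              apply mul_le_mul h3 h2 (norm_nonneg _)
              linarith
          _ ≤ r := by linarith)
    refine h1.trans (le_of_eq ?_)
    congr 2
    funext θ
    rw [← G_abs]
    unfold G
    congr 1
    funext ζ
    congr 2
    rw [add_smul, mul_smul]
    abel

lemma G_psh (hu : IsPSHOn u D) (hU : BM (D.indicator u) C)
    {W : Set (Fin n → ℂ)} (hW : IsOpen W) (hr : 0 < r)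
    (hWD : ∀ z ∈ W, Metric.closedBall z r ⊆ D) {t : ℝ} (ht : 0 < t) (htr : t ≤ r) :
    SmoothPSHOn (fun z => G (D.indicator u) z t) W := by
  have hsm := G_smooth hU ht
  refine ⟨hsm.contDiffOn, fun z hz => ?_⟩
  apply levi_psd hsm
  intro b
  obtain ⟨ε, hε, hball⟩ := Metric.isOpen_iff.1 hW z hz
  have hs0 : 0 < ε / (‖b‖ + 1) := by positivity
  apply hess_nonneg hsm hs0
  intro s hs hs1
  have hin : ∀ l : ℂ, ‖l‖ ≤ 1 → z + l • ((s : ℂ) • b) ∈ W := by
    intro l hl
    apply hball
    rw [mem_ball_iff_norm, add_sub_cancel_left, norm_smul, norm_smul, Complex.norm_real,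
      Real.norm_of_nonneg hs.le]
    have h1 : s * (‖b‖ + 1) < ε := by
      rwa [lt_div_iff₀ (by positivity)] at hs1
    have h2 : 0 ≤ ‖b‖ := norm_nonneg _
    have h3 : 0 ≤ s * ‖b‖ := by positivity
    nlinarith
  have h1 := submean_int hU (p := fun ζ => z + (t : ℂ) • ζ) (q := fun _ => (s : ℂ) • b)
    (by fun_prop) continuous_const (by
      intro ζ hζ
      apply submean_U hu
      intro l hl
      apply hWD _ (hin l hl)
      have e : z + (t : ℂ) • ζ + l • ((s : ℂ) • b) - (z + l • ((s : ℂ) • b)) = (t : ℂ) • ζ := by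
        abel
      rw [mem_closedBall_iff_norm, e, norm_smul, Complex.norm_real, Real.norm_of_nonneg ht.le]
      have h2 := rh_supp hζ
      nlinarith)
  refine h1.trans (le_of_eq ?_)
  congr 2
  funext θ
  unfold G
  congr 1
  funext ζ
  congr 2
  abel

lemma G_point (hU : BM (D.indicator u) C) (hz : Metric.closedBall z r ⊆ D) {t : ℝ} (ht : 0 < t)
    (htr : t ≤ r) : ∃ w ∈ Metric.closedBall z t, u w ≤ G (D.indicator u) z t := by
  by_contra hcon
  push Not at hcon
  set c := G (D.indicator u) z t with hc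
  have h1 : ∫ ζ, rh (n := n) ζ * (D.indicator u (z + (t : ℂ) • ζ) - c) = 0 := by
    simp_rw [mul_sub]
    rw [integral_sub (hU.int (by fun_prop)) (rh_int.mul_const c), integral_mul_const, rh_one,
      one_mul]
    exact sub_self c
  have hpos : ∀ ζ : Fin n → ℂ, rh ζ ≠ 0 → 0 < D.indicator u (z + (t : ℂ) • ζ) - c := by
    intro ζ hζ
    have h2 := rh_supp hζ
    have h3 : z + (t : ℂ) • ζ ∈ Metric.closedBall z t := by
      rw [mem_closedBall_iff_norm, add_sub_cancel_left, norm_smul, Complex.norm_real,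
        Real.norm_of_nonneg ht.le]
      nlinarith
    have h4 : z + (t : ℂ) • ζ ∈ D := hz (Metric.closedBall_subset_closedBall htr h3)
    rw [Set.indicator_of_mem h4]
    have := hcon _ h3
    linarith
  have hint : Integrable (fun ζ : Fin n → ℂ => rh ζ * (D.indicator u (z + (t : ℂ) • ζ) - c)) := by
    simp_rw [mul_sub]
    exact (hU.int (by fun_prop)).sub (rh_int.mul_const c)
  rw [integral_eq_zero_iff_of_nonneg _ hint] at h1
  · have h2 : rh (n := n) =ᵐ[volume] 0 := by
      filter_upwards [h1] with ζ hζ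
      by_contra h0
      have h3 := hpos ζ h0
      have h4 : 0 < rh ζ := lt_of_le_of_ne (rh_nonneg ζ) (Ne.symm h0)
      have := mul_pos h4 h3
      simp only [Pi.zero_apply] at hζ
      linarith
    have h5 := integral_congr_ae h2
    rw [rh_one] at h5
    simp at h5
  · intro ζ
    simp only [Pi.zero_apply]
    by_cases h0 : rh ζ = 0
    · rw [h0, zero_mul]
    · exact mul_nonneg (rh_nonneg ζ) (hpos ζ h0).le

end Moll

open Moll in
theorem mollify {n : ℕ} (D W : Set (Fin n → ℂ)) (u : (Fin n → ℂ) → ℝ) (r : ℝ) (hD : IsOpen D)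
    (hu : IsPSHOn u D) (hb : ∃ C, ∀ z ∈ D, |u z| ≤ C) (hW : IsOpen W) (hr : 0 < r)
    (hWD : ∀ z ∈ W, Metric.closedBall z r ⊆ D) :
    ∃ v : ℕ → (Fin n → ℂ) → ℝ, (∀ j, SmoothPSHOn (v j) W) ∧
      (∀ z ∈ W, Antitone fun j => v j z) ∧
      (∀ z ∈ W, Tendsto (fun j => v j z) atTop (𝓝 (u z))) ∧
      (∀ j : ℕ, ∀ z ∈ W, ∃ w ∈ Metric.closedBall z (r / (j + 1)), u w ≤ v j z) := by
  obtain ⟨C, hC⟩ := hb
  have hU : BM (D.indicator u) (max C 0) := by
    refine ⟨meas_U hD hu.1, fun z => ?_⟩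
    by_cases hz : z ∈ D
    · rw [Set.indicator_of_mem hz]
      exact (hC z hz).trans (le_max_left _ _)
    · rw [Set.indicator_of_notMem hz, abs_zero]
      exact le_max_right _ _
  have hpos : ∀ j : ℕ, 0 < r / (j + 1) := fun j => by positivity
  have hle : ∀ j : ℕ, r / (j + 1) ≤ r := fun j => by
    apply div_le_self hr.le
    have : (0 : ℝ) ≤ j := Nat.cast_nonneg j
    linarith
  refine ⟨fun j z => G (D.indicator u) z ((r / (j + 1) : ℝ) : ℂ), fun j => ?_, fun z hz => ?_,
    fun z hz => ?_, fun j z hz => ?_⟩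
  · exact G_psh hu hU hW hr hWD (hpos j) (hle j)
  · intro i j hij
    apply G_mono hD hu hU hr (hWD z hz) ⟨hpos j, hle j⟩ ⟨hpos i, hle i⟩
    have : (i : ℝ) ≤ j := by exact_mod_cast hij
    gcongr
  · have hzD : z ∈ D := hWD z hz (Metric.mem_closedBall_self hr.le)
    have hlow : ∀ j : ℕ, u z ≤ G (D.indicator u) z ((r / (j + 1) : ℝ) : ℂ) :=
      fun j => G_low hu hU (hWD z hz) (hpos j) (hle j)
    rw [tendsto_order]
    constructor
    · intro a ha
      exact Eventually.of_forall fun j => ha.trans_le (hlow j)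
    · intro c hc
      obtain ⟨δ, hδ, h1⟩ := G_up hD hu hU hzD hc
      have h2 : Tendsto (fun j : ℕ => r / ((j : ℝ) + 1)) atTop (𝓝 0) := by
        apply Tendsto.div_atTop tendsto_const_nhds
        exact tendsto_atTop_add_const_right _ _ tendsto_natCast_atTop_atTop
      filter_upwards [h2.eventually (gt_mem_nhds hδ)] with j hj
      exact h1 _ (hpos j) hj
  · exact G_point hU (hWD z hz) (hpos j) (hle j)

end Pool.Agent.Ceg
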