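import Pool.Agent.Ceg.Defs2
import Pool.Agent.Ceg.LocGlob

/-!
# A continuous plurisubharmonic exhaustion equal to `-1` on a given compact set
-/

set_option autoImplicit false

namespace Pool.Agent.Ceg

open MeasureTheory Matrix Filter Topology
open scoped ContDiff ENNReal Real ComplexOrder

namespace Obst

variable {n : ℕ}

lemma circle_cont (z b : Fin n → ℂ) :
    Continuous fun θ : ℝ => z + Complex.exp (θ * Complex.I) • b := by
  fun_prop

/-- circle means of bounded upper semicontinuous functions make sense -/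
lemma int_circle {D : Set (Fin n → ℂ)} {u : (Fin n → ℂ) → ℝ} {C : ℝ}
    (hu : UpperSemicontinuousOn u D) (hb : ∀ z ∈ D, |u z| ≤ C) {z b : Fin n → ℂ}
    (h : ∀ θ : ℝ, z + Complex.exp (θ * Complex.I) • b ∈ D) :
    IntervalIntegrable (fun θ : ℝ => u (z + Complex.exp (θ * Complex.I) • b)) volume 0 (2 * π) := by
  have h1 : UpperSemicontinuous (fun θ : ℝ => u (z + Complex.exp (θ * Complex.I) • b)) := by
    intro θ y hy
    have h2 := hu _ (h θ) y hy
    have h3 : Tendsto (fun θ : ℝ => z + Complex.exp (θ * Complex.I) • b) (𝓝 θ)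
        (𝓝[D] (z + Complex.exp (θ * Complex.I) • b)) := by
      rw [tendsto_nhdsWithin_iff]
      exact ⟨(circle_cont z b).continuousAt, Eventually.of_forall h⟩
    exact h3.eventually h2
  rw [intervalIntegrable_iff]
  have h5 : volume (Set.uIoc 0 (2 * π)) ≠ ⊤ := by simp [Set.uIoc]
  have h4 : IntegrableOn (fun _ : ℝ => C) (Set.uIoc 0 (2 * π)) volume :=
    integrableOn_const h5 enorm_ne_top
  refine Integrable.mono' h4 h1.measurable.aestronglyMeasurable ?_
  apply Eventually.of_forall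
  intro θ
  rw [Real.norm_eq_abs]
  exact hb _ (h θ)

lemma circle_mem {D : Set (Fin n → ℂ)} {z b : Fin n → ℂ}
    (h : ∀ ζ : ℂ, ‖ζ‖ ≤ 1 → z + ζ • b ∈ D) (θ : ℝ) :
    z + Complex.exp (θ * Complex.I) • b ∈ D :=
  h _ (by rw [Complex.norm_exp_ofReal_mul_I])

lemma mean_const (c : ℝ) : (2 * π)⁻¹ * ∫ _θ in (0 : ℝ)..(2 * π), c = c := by
  have hpi := Real.pi_pos
  rw [intervalIntegral.integral_const, sub_zero, smul_eq_mul, ← mul_assoc,
    inv_mul_cancel₀ (by positivity), one_mul]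

lemma mean_mono {f g : ℝ → ℝ} (hf : IntervalIntegrable f volume 0 (2 * π))
    (hg : IntervalIntegrable g volume 0 (2 * π)) (h : ∀ θ, f θ ≤ g θ) :
    (2 * π)⁻¹ * ∫ θ in (0 : ℝ)..(2 * π), f θ ≤ (2 * π)⁻¹ * ∫ θ in (0 : ℝ)..(2 * π), g θ := by
  have hpi := Real.pi_pos
  apply mul_le_mul_of_nonneg_left _ (by positivity)
  exact intervalIntegral.integral_mono (by positivity) hf hg h

lemma psh_const (c : ℝ) (D : Set (Fin n → ℂ)) : IsPSHOn (fun _ => c) D := by
  refine ⟨?_, ?_⟩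
  · intro z _ y hy
    exact Eventually.of_forall fun _ => hy
  · intro z _ b _
    rw [mean_const]

lemma psh_mono {u : (Fin n → ℂ) → ℝ} {D D' : Set (Fin n → ℂ)} (hu : IsPSHOn u D) (h : D' ⊆ D) :
    IsPSHOn u D' :=
  ⟨hu.1.mono h, fun z hz b hb => hu.2 z (h hz) b fun ζ hζ => h (hb ζ hζ)⟩

lemma psh_max {u v : (Fin n → ℂ) → ℝ} {D : Set (Fin n → ℂ)} {C C' : ℝ} (hu : IsPSHOn u D)
    (hv : IsPSHOn v D) (hub : ∀ z ∈ D, |u z| ≤ C) (hvb : ∀ z ∈ D, |v z| ≤ C') :
    IsPSHOn (fun z => max (u z) (v z)) D := by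
  have husc : UpperSemicontinuousOn (fun z => max (u z) (v z)) D := by
    intro z hz y hy
    rw [max_lt_iff] at hy
    filter_upwards [hu.1 z hz y hy.1, hv.1 z hz y hy.2] with w h1 h2
    exact max_lt h1 h2
  refine ⟨husc, ?_⟩
  intro z hz b hb
  have hc := circle_mem hb
  have hm : ∀ z ∈ D, |max (u z) (v z)| ≤ max C C' := by
    intro z hz
    rcases le_total (u z) (v z) with h | h
    · rw [max_eq_right h]
      exact (hvb z hz).trans (le_max_right _ _)
    · rw [max_eq_left h]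
      exact (hub z hz).trans (le_max_left _ _)
  apply max_le
  · exact (hu.2 z hz b hb).trans (mean_mono (int_circle hu.1 hub hc) (int_circle husc hm hc)
      fun θ => le_max_left _ _)
  · exact (hv.2 z hz b hb).trans (mean_mono (int_circle hv.1 hvb hc) (int_circle husc hm hc)
      fun θ => le_max_right _ _)

lemma psh_smul {u : (Fin n → ℂ) → ℝ} {D : Set (Fin n → ℂ)} {c : ℝ} (hu : IsPSHOn u D)
    (hc : 0 < c) : IsPSHOn (fun z => c * u z) D := by
  refine ⟨?_, ?_⟩
  · intro z hz y hy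
    have h1 : u z < y / c := by
      rw [lt_div_iff₀ hc]; linarith
    filter_upwards [hu.1 z hz _ h1] with w h2
    rw [lt_div_iff₀ hc] at h2
    linarith
  · intro z hz b hb
    rw [intervalIntegral.integral_const_mul]
    have := mul_le_mul_of_nonneg_left (hu.2 z hz b hb) hc.le
    linarith

lemma psh_translate {u : (Fin n → ℂ) → ℝ} {D : Set (Fin n → ℂ)} {C : ℝ} (hu : IsPSHOn u D)
    (hub : ∀ z ∈ D, |u z| ≤ C) (a : Fin n → ℂ) (c : ℝ) :
    IsPSHOn (fun z => u (z + a) - c) {z | z + a ∈ D} := by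
  refine ⟨?_, ?_⟩
  · intro z hz y hy
    have h1 := hu.1 (z + a) hz (y + c) (by linarith)
    have h2 : Tendsto (fun w : Fin n → ℂ => w + a) (𝓝[{z | z + a ∈ D}] z) (𝓝[D] (z + a)) := by
      rw [tendsto_nhdsWithin_iff]
      refine ⟨?_, ?_⟩
      · exact ((continuous_add_const a).continuousAt (x := z)).mono_left nhdsWithin_le_nhds
      · exact eventually_mem_nhdsWithin
    filter_upwards [h2.eventually h1] with w hw
    linarith
  · intro z hz b hb
    have hb' : ∀ ζ : ℂ, ‖ζ‖ ≤ 1 → (z + a) + ζ • b ∈ D := by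
      intro ζ hζ
      have := hb ζ hζ
      rw [Set.mem_ofPred_eq] at this
      rwa [add_right_comm]
    have h1 := hu.2 (z + a) hz b hb'
    have h2 : (2 * π)⁻¹ * ∫ θ in (0 : ℝ)..(2 * π),
        (u (z + Complex.exp (θ * Complex.I) • b + a) - c) =
        (2 * π)⁻¹ * (∫ θ in (0 : ℝ)..(2 * π), u (z + a + Complex.exp (θ * Complex.I) • b)) - c := by
      have h3 : ∀ θ : ℝ, u (z + Complex.exp (θ * Complex.I) • b + a) =
          u (z + a + Complex.exp (θ * Complex.I) • b) := by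
        intro θ; rw [add_right_comm]
      simp only [h3]
      rw [intervalIntegral.integral_sub (int_circle hu.1 hub (circle_mem hb')) (by simp), mul_sub,
        mean_const]
    simp only [h2]
    linarith

/-- the local sub-mean property from plurisubharmonicity near a point -/
lemma loc_of_psh {u W : (Fin n → ℂ) → ℝ} {V : Set (Fin n → ℂ)} (hV : IsOpen V)
    (hu : IsPSHOn u V) (hW : ∀ z ∈ V, W z = u z) {z : Fin n → ℂ} (hz : z ∈ V) (b : Fin n → ℂ) :
    ∃ r₀ > 0, ∀ r ∈ Set.Ioo (0 : ℝ) r₀,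
      W z ≤ (2 * π)⁻¹ * ∫ θ in (0 : ℝ)..(2 * π), W (z + (r * Complex.exp (θ * Complex.I)) • b) := by
  have hc : Continuous fun ζ : ℂ => z + ζ • b := by fun_prop
  have h1 : (fun ζ : ℂ => z + ζ • b) ⁻¹' V ∈ 𝓝 (0 : ℂ) := by
    apply hc.continuousAt.preimage_mem_nhds
    simpa using hV.mem_nhds hz
  obtain ⟨r₀, hr₀, h2⟩ := Metric.mem_nhds_iff.1 h1
  refine ⟨r₀, hr₀, fun r hr => ?_⟩
  have hb : ∀ ζ : ℂ, ‖ζ‖ ≤ 1 → z + ζ • ((r : ℂ) • b) ∈ V := by
    intro ζ hζ
    have h3 : ζ * r ∈ Metric.ball (0 : ℂ) r₀ := by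
      rw [mem_ball_zero_iff, norm_mul, Complex.norm_real, Real.norm_of_nonneg hr.1.le]
      calc ‖ζ‖ * r ≤ 1 * r := by gcongr; exact hr.1.le
        _ < r₀ := by linarith [hr.2]
    have := h2 h3
    rwa [Set.mem_preimage, mul_smul] at this
  have h4 := hu.2 z hz _ hb
  rw [hW z hz]
  refine h4.trans (le_of_eq ?_)
  congr 1
  apply intervalIntegral.integral_congr
  intro θ _
  have e : z + (r * Complex.exp (θ * Complex.I)) • b =
      z + Complex.exp (θ * Complex.I) • ((r : ℂ) • b) := by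
    rw [smul_smul, mul_comm]
  simp only
  rw [e, hW _ (circle_mem hb θ)]

lemma usc_of_eq {u W : (Fin n → ℂ) → ℝ} {V D : Set (Fin n → ℂ)} (hV : IsOpen V)
    (hu : UpperSemicontinuousOn u V) (hW : ∀ z ∈ V, W z = u z) {z : Fin n → ℂ} (hz : z ∈ V)
    {y : ℝ} (hy : W z < y) : ∀ᶠ w in 𝓝[D] z, W w < y := by
  rw [hW z hz] at hy
  have h1 := hu z hz y hy
  rw [hV.nhdsWithin_eq hz] at h1
  have h2 : ∀ᶠ w in 𝓝 z, W w < y := by
    filter_upwards [h1, hV.mem_nhds hz] with w h3 h4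
    rwa [hW w h4]
  exact h2.filter_mono nhdsWithin_le_nhds

end Obst

open Obst

theorem exists_continuous_psh {n : ℕ} (D : Set (Fin n → ℂ)) (hD : IsHyperconvex D)
    (L : Set (Fin n → ℂ)) (hL : IsCompact L) (hLD : L ⊆ D) :
    ∃ h : (Fin n → ℂ) → ℝ, ContinuousOn h D ∧ IsPSHOn h D ∧ (∀ z ∈ D, -1 ≤ h z ∧ h z ≤ 0) ∧
      (∀ z ∈ L, h z = -1) ∧ ∀ ε > 0, ∃ K ⊆ D, IsCompact K ∧ ∀ z ∈ D, z ∉ K → -ε < h z := by
  have hDo := hD.isOpen
  rcases L.eq_empty_or_nonempty with rfl | hLne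
  · refine ⟨fun _ => 0, continuousOn_const, psh_const 0 D, fun _ _ => ⟨by norm_num, le_rfl⟩,
      fun z hz => absurd hz (Set.notMem_empty z), fun ε hε => ⟨∅, Set.empty_subset _,
      isCompact_empty, fun z _ _ => by simpa using hε⟩⟩
  obtain ⟨ρ, hρ, hρ1, hρ2⟩ := hD.exhaustion
  -- a compact neighbourhood of `L`
  obtain ⟨δ₀, hδ₀, hδD⟩ := hL.exists_cthickening_subset_open hDo hLD
  have hL' : IsCompact (Metric.cthickening δ₀ L) := hL.cthickening
  have hLL' : L ⊆ Metric.cthickening δ₀ L := Metric.self_subset_cthickening L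
  obtain ⟨x₀, hx₀, hx₁⟩ := (hρ.1.mono hδD).exists_isMaxOn (hLne.mono hLL') hL'
  set m := -ρ x₀ with hm
  have hm0 : 0 < m := by
    have := (hρ1 x₀ (hδD hx₀)).2
    linarith
  have hρm : ∀ z ∈ Metric.cthickening δ₀ L, ρ z ≤ -m := by
    intro z hz
    have := hx₁ hz
    simpa [hm] using this
  -- the first competitor
  set w₀ : (Fin n → ℂ) → ℝ := fun z => max (m⁻¹ * ρ z) (-1) with hw₀
  have hw₀1 : ∀ z ∈ D, -1 ≤ w₀ z ∧ w₀ z ≤ 0 := by
    intro z hz
    refine ⟨le_max_right _ _, max_le ?_ (by norm_num)⟩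
    have := (hρ1 z hz).2
    exact mul_nonpos_of_nonneg_of_nonpos (inv_nonneg.2 hm0.le) this.le
  have hw₀p : IsPSHOn w₀ D := by
    apply psh_max (psh_smul hρ (inv_pos.2 hm0)) (psh_const (-1) D) (C := m⁻¹) (C' := 1)
    · intro z hz
      rw [abs_mul, abs_of_pos (inv_pos.2 hm0)]
      have h1 : |ρ z| ≤ 1 := by
        rw [abs_le]
        have := hρ1 z hz
        constructor <;> linarith
      calc m⁻¹ * |ρ z| ≤ m⁻¹ * 1 := by
            apply mul_le_mul_of_nonneg_left h1 (inv_nonneg.2 hm0.le)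
        _ = m⁻¹ := mul_one _
    · intro z _; simp
  have hw₀L : ∀ z ∈ Metric.cthickening δ₀ L, w₀ z = -1 := by
    intro z hz
    apply max_eq_right
    have h1 := mul_le_mul_of_nonneg_left (hρm z hz) (inv_nonneg.2 hm0.le)
    rw [mul_neg, inv_mul_cancel₀ hm0.ne'] at h1
    exact h1
  have hw₀b : ∀ ε > 0, ∃ K ⊆ D, IsCompact K ∧ ∀ z ∈ D, z ∉ K → -ε < w₀ z := by
    intro ε hε
    obtain ⟨K, hKD, hK, hK2⟩ := hρ2 (-(m * ε) / 2) (by
      have : 0 < m * ε := mul_pos hm0 hε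
      linarith)
    refine ⟨K, hKD, hK, fun z hz hzK => ?_⟩
    have h1 : -(m * ε) / 2 ≤ ρ z := by
      by_contra h2
      exact hzK (hK2 z hz (not_le.1 h2))
    have h3 : -ε < m⁻¹ * ρ z := by
      have h4 : -(m * ε) < ρ z := by
        have : 0 < m * ε := mul_pos hm0 hε
        linarith
      have h5 := mul_lt_mul_of_pos_left h4 (inv_pos.2 hm0)
      rw [mul_neg, ← mul_assoc, inv_mul_cancel₀ hm0.ne', one_mul] at h5
      exact h5
    exact h3.trans_le (le_max_left _ _)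
  -- the obstacle
  set g : (Fin n → ℂ) → ℝ := fun z => -max 0 (1 - Metric.infDist z L / δ₀) with hg
  have hg1 : ∀ z, -1 ≤ g z ∧ g z ≤ 0 := by
    intro z
    have h1 : 0 ≤ Metric.infDist z L / δ₀ := div_nonneg Metric.infDist_nonneg hδ₀.le
    constructor
    · rw [hg]
      apply neg_le_neg
      exact max_le zero_le_one (by linarith)
    · rw [hg]
      simp only [neg_nonpos]
      exact le_max_left _ _
  have hgL : ∀ z ∈ L, g z = -1 := by
    intro z hz
    rw [hg]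
    simp only [Metric.infDist_zero_of_mem hz, zero_div, sub_zero]
    rw [max_eq_right zero_le_one]
  have hgo : ∀ z, z ∉ Metric.cthickening δ₀ L → g z = 0 := by
    intro z hz
    have h1 : δ₀ < Metric.infDist z L := by
      by_contra h2
      apply hz
      rw [Metric.mem_cthickening_iff]
      rw [Metric.infDist] at h2
      exact (ENNReal.le_ofReal_iff_toReal_le (Metric.infEDist_ne_top hLne) hδ₀.le).2 (not_lt.1 h2)
    rw [hg]
    simp only [neg_eq_zero]
    apply max_eq_left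
    rw [sub_nonpos, one_le_div hδ₀]
    exact h1.le
  have hw₀g : ∀ z ∈ D, w₀ z ≤ g z := by
    intro z hz
    by_cases h1 : z ∈ Metric.cthickening δ₀ L
    · rw [hw₀L z h1]; exact (hg1 z).1
    · rw [hgo z h1]; exact (hw₀1 z hz).2
  have hguc : ∀ ε > 0, ∃ δ > 0, ∀ z z' : Fin n → ℂ, dist z z' ≤ δ → g z' ≤ g z + ε := by
    intro ε hε
    refine ⟨ε * δ₀, mul_pos hε hδ₀, fun z z' hzz => ?_⟩
    have h1 : Metric.infDist z L ≤ Metric.infDist z' L + dist z z' := Metric.infDist_le_infDist_add_dist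
    have h1' : Metric.infDist z' L ≤ Metric.infDist z L + dist z' z := Metric.infDist_le_infDist_add_dist
    rw [dist_comm z' z] at h1'
    have h2 : Metric.infDist z' L / δ₀ ≤ Metric.infDist z L / δ₀ + ε := by
      rw [div_add' _ _ _ hδ₀.ne', div_le_div_iff_of_pos_right hδ₀]
      linarith
    rw [hg]
    simp only
    have h3 : max 0 (1 - Metric.infDist z L / δ₀) ≤ max 0 (1 - Metric.infDist z' L / δ₀) + ε := by
      apply max_le
      · have := le_max_left 0 (1 - Metric.infDist z' L / δ₀)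
        linarith
      · have := le_max_right 0 (1 - Metric.infDist z' L / δ₀)
        linarith
    linarith
  -- competitors
  let F : Set ((Fin n → ℂ) → ℝ) := {w | IsPSHOn w D ∧ ∀ z ∈ D, w₀ z ≤ w z ∧ w z ≤ g z}
  have hF0 : w₀ ∈ F := ⟨hw₀p, fun z hz => ⟨le_rfl, hw₀g z hz⟩⟩
  have hFb : ∀ w ∈ F, ∀ z ∈ D, -1 ≤ w z ∧ w z ≤ 0 := fun w hw z hz =>
    ⟨(hw₀1 z hz).1.trans (hw.2 z hz).1, (hw.2 z hz).2.trans (hg1 z).2⟩
  have hFa : ∀ w ∈ F, ∀ z ∈ D, |w z| ≤ 1 := by
    intro w hw z hz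
    have := hFb w hw z hz
    rw [abs_le]
    constructor <;> linarith
  let h : (Fin n → ℂ) → ℝ := fun z => sSup ((fun w : (Fin n → ℂ) → ℝ => w z) '' F)
  have hbdd : ∀ z ∈ D, BddAbove ((fun w : (Fin n → ℂ) → ℝ => w z) '' F) := by
    intro z hz
    refine ⟨0, ?_⟩
    rintro _ ⟨w, hw, rfl⟩
    exact (hFb w hw z hz).2
  have hne : ∀ z, ((fun w : (Fin n → ℂ) → ℝ => w z) '' F).Nonempty := fun z => ⟨_, w₀, hF0, rfl⟩
  have hle : ∀ w ∈ F, ∀ z ∈ D, w z ≤ h z := fun w hw z hz => le_csSup (hbdd z hz) ⟨w, hw, rfl⟩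
  have hsup : ∀ z, ∀ c, (∀ w ∈ F, w z ≤ c) → h z ≤ c := by
    intro z c hc
    apply csSup_le (hne z)
    rintro _ ⟨w, hw, rfl⟩
    exact hc w hw
  have hh1 : ∀ z ∈ D, -1 ≤ h z ∧ h z ≤ 0 := fun z hz =>
    ⟨(hw₀1 z hz).1.trans (hle w₀ hF0 z hz), hsup z 0 fun w hw => (hFb w hw z hz).2⟩
  -- uniform continuity
  have huc : ∀ ε > 0, ∃ δ > 0, ∀ z ∈ D, ∀ z' ∈ D, dist z z' ≤ δ → h z' ≤ h z + ε := by
    intro ε hε
    obtain ⟨K, hKD, hK, hK2⟩ := hw₀b ε hε
    obtain ⟨δ₁, hδ₁, hgδ⟩ := hguc ε hε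
    obtain ⟨δ₂, hδ₂, hKδ⟩ := hK.exists_cthickening_subset_open hDo hKD
    refine ⟨min δ₁ (δ₂ / 2), lt_min hδ₁ (by linarith), ?_⟩
    intro z₁ hz₁ z₂ hz₂ hzz
    set a := z₂ - z₁ with ha
    have ha1 : ‖a‖ ≤ δ₁ := by
      rw [ha, ← dist_eq_norm, dist_comm]; exact hzz.trans (min_le_left _ _)
    have ha2 : ‖a‖ ≤ δ₂ / 2 := by
      rw [ha, ← dist_eq_norm, dist_comm]; exact hzz.trans (min_le_right _ _)
    suffices hw : ∀ w ∈ F, w z₂ ≤ h z₁ + ε by
      exact hsup z₂ _ hw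
    intro w hw
    classical
    let W : (Fin n → ℂ) → ℝ := fun z => if z + a ∈ D then max (w (z + a) - ε) (w₀ z) else w₀ z
    have hWo : ∀ z ∈ D, z ∉ K → W z = w₀ z := by
      intro z hz hzK
      simp only [W]
      split_ifs with h1
      · apply max_eq_right
        have h2 := (hFb w hw _ h1).2
        have h3 := hK2 z hz hzK
        linarith
      · rfl
    have hWg : ∀ z ∈ D, w₀ z ≤ W z ∧ W z ≤ g z := by
      intro z hz
      simp only [W]
      split_ifs with h1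
      · refine ⟨le_max_right _ _, max_le ?_ (hw₀g z hz)⟩
        have h2 := (hw.2 _ h1).2
        have h3 := hgδ z (z + a) (by rw [dist_eq_norm, sub_add_cancel_left, norm_neg]; exact ha1)
        linarith
      · exact ⟨le_rfl, hw₀g z hz⟩
    -- the two open sets
    set V₁ : Set (Fin n → ℂ) := D \ K with hV₁
    set V₂ : Set (Fin n → ℂ) := Metric.thickening (δ₂ / 2) K with hV₂
    have hV₁o : IsOpen V₁ := hDo.sdiff hK.isClosed
    have hV₂o : IsOpen V₂ := Metric.isOpen_thickening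
    have hV₂D : V₂ ⊆ D := (Metric.thickening_subset_cthickening _ _).trans
      ((Metric.cthickening_mono (by linarith) _).trans hKδ)
    have hV₂a : ∀ z ∈ V₂, z + a ∈ D := by
      intro z hz
      apply hKδ
      rw [hV₂, Metric.mem_thickening_iff] at hz
      obtain ⟨y, hy, hzy⟩ := hz
      apply Metric.mem_cthickening_of_dist_le _ y _ _ hy
      calc dist (z + a) y ≤ dist (z + a) z + dist z y := dist_triangle _ _ _
        _ ≤ δ₂ / 2 + δ₂ / 2 := by
            apply add_le_add _ hzy.le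
            rw [dist_eq_norm, add_sub_cancel_left]; exact ha2
        _ = δ₂ := by ring
    have hcov : ∀ z ∈ D, z ∈ V₁ ∨ z ∈ V₂ := by
      intro z hz
      by_cases h1 : z ∈ K
      · right
        exact Metric.self_subset_thickening (by linarith) K h1
      · left; exact ⟨hz, h1⟩
    have hp₁ : IsPSHOn w₀ V₁ := psh_mono hw₀p Set.sdiff_subset
    have he₁ : ∀ z ∈ V₁, W z = w₀ z := fun z hz => hWo z hz.1 hz.2
    have hp₂ : IsPSHOn (fun z => max (w (z + a) - ε) (w₀ z)) V₂ := by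
      apply psh_max (C := 1 + ε) (C' := 1)
      · exact psh_mono (psh_translate hw.1 (hFa w hw) a ε) hV₂a
      · exact psh_mono hw₀p hV₂D
      · intro z hz
        have h1 := hFb w hw _ (hV₂a z hz)
        rw [abs_le]
        constructor <;> linarith
      · intro z hz
        exact hFa w₀ hF0 z (hV₂D hz)
    have he₂ : ∀ z ∈ V₂, W z = max (w (z + a) - ε) (w₀ z) := by
      intro z hz
      simp only [W]
      rw [if_pos (hV₂a z hz)]
    have hWp : IsPSHOn W D := by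
      apply isPSHOn_of_local D W hDo
      · intro z hz y hy
        rcases hcov z hz with h1 | h1
        · exact usc_of_eq hV₁o hp₁.1 he₁ h1 hy
        · exact usc_of_eq hV₂o hp₂.1 he₂ h1 hy
      · refine ⟨1, fun z hz => ?_⟩
        have h1 := hWg z hz
        have h2 := (hw₀1 z hz).1
        have h3 := (hg1 z).2
        rw [abs_le]
        constructor <;> linarith
      · intro z hz b
        rcases hcov z hz with h1 | h1
        · exact loc_of_psh hV₁o hp₁ he₁ h1 b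
        · exact loc_of_psh hV₂o hp₂ he₂ h1 b
    have hWF : W ∈ F := ⟨hWp, hWg⟩
    have h1 := hle W hWF z₁ hz₁
    have h2 : z₁ + a = z₂ := by rw [ha]; abel
    have h3 : w z₂ - ε ≤ W z₁ := by
      simp only [W]
      rw [h2, if_pos hz₂]
      exact le_max_left _ _
    linarith
  have hcont : ContinuousOn h D := by
    intro z hz
    rw [Metric.continuousWithinAt_iff]
    intro ε hε
    obtain ⟨δ, hδ, h1⟩ := huc (ε / 2) (by linarith)
    refine ⟨δ, hδ, fun z' hz' hzz => ?_⟩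
    rw [Real.dist_eq, abs_lt]
    have h2 := h1 z' hz' z hz hzz.le
    have h3 := h1 z hz z' hz' (by rw [dist_comm]; exact hzz.le)
    constructor <;> linarith
  have hhusc : UpperSemicontinuousOn h D := hcont.upperSemicontinuousOn
  have hha : ∀ z ∈ D, |h z| ≤ 1 := by
    intro z hz
    have := hh1 z hz
    rw [abs_le]
    constructor <;> linarith
  refine ⟨h, hcont, ⟨hhusc, ?_⟩, hh1, ?_, ?_⟩
  · intro z hz b hb
    apply hsup
    intro w hw
    exact (hw.1.2 z hz b hb).trans (mean_mono (int_circle hw.1.1 (hFa w hw) (circle_mem hb))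
      (int_circle hhusc hha (circle_mem hb)) fun θ => hle w hw _ (circle_mem hb θ))
  · intro z hz
    apply le_antisymm
    · apply hsup
      intro w hw
      rw [← hgL z hz]
      exact (hw.2 z (hLD hz)).2
    · exact (hh1 z (hLD hz)).1
  · intro ε hε
    obtain ⟨K, hKD, hK, hK2⟩ := hw₀b ε hε
    exact ⟨K, hKD, hK, fun z hz hzK => (hK2 z hz hzK).trans_le (hle w₀ hF0 z hz)⟩

end Pool.Agent.Ceg
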